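import Pool.Agent.H6.SV.St

/-!
# Project SV, row SV-23: limits of sums of cheap fields
-/

set_option autoImplicit false

open MeasureTheory Set Filter Topology Pool.Agent.H68.VD Pool.Agent.H68.GM
open scoped ENNReal ContDiff

namespace SV

noncomputable section

namespace ApxKA

variable {n : ℕ} {M : Type} [TopologicalSpace M] {ι : Type}
  {ch : ι → OpenPartialHomeomorph M (Eu (n + n))} {Λ : ℝ}

/-- the field of a list of cheap data -/
def fld (D : List (CData ch Λ)) (j : ι) (y : Eu (n + n)) : Eu (n + n) :=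
  (D.map fun d => push ch d.i (sg (dif d.a d.g)) j y).sum

theorem fld_append (D D' : List (CData ch Λ)) (j : ι) (y : Eu (n + n)) :
    fld (D ++ D') j y = fld D j y + fld D' j y := by
  unfold fld
  rw [List.map_append, List.sum_append]

theorem push_smul (i : ι) (b : ℝ) (u : Eu (n + n) → Eu (n + n)) (j : ι) (y : Eu (n + n)) :
    push ch i (fun x => b • u x) j y = b • push ch i u j y := by
  unfold push
  split_ifs
  · rw [map_smul]
  · rw [smul_zero]

/-- the multiple of a cheap datum -/
def scl (b : ℝ) (d : CData ch Λ) : CData ch Λ where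
  i := d.i
  c := d.c
  r := d.r
  a := fun x => b * d.a x
  g := d.g
  hr := d.hr
  hc := d.hc
  ha := contDiff_const.mul d.ha
  ha0 := fun x hx => by rw [d.ha0 x hx, mul_zero]
  hg := d.hg

theorem sg_scl (HE : HEk) (SG : SgK) (b : ℝ) (d : CData ch Λ) :
    sg (dif (scl b d).a (scl b d).g) = fun x => b • sg (dif d.a d.g) x := by
  funext x
  have h1 : dif (scl b d).a (scl b d).g = fun y => b * dif d.a d.g y := by
    funext y
    unfold dif scl
    ring
  rw [h1]
  refine SG.smul n b (dif d.a d.g) x ?_
  have hinv : ContDiff ℝ ∞ (fun x => d.g⁻¹ x) :=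
    HE.smooth n d.c d.r d.g⁻¹ (HE.inv n d.c d.r d.g d.hg)
  have h2 : ContDiff ℝ ∞ (dif d.a d.g) := d.ha.sub (d.ha.comp hinv)
  exact h2.differentiable (by simp) x

theorem fld_scl (HE : HEk) (SG : SgK) (b : ℝ) (D : List (CData ch Λ)) (j : ι)
    (y : Eu (n + n)) : fld (D.map (scl b)) j y = b • fld D j y := by
  unfold fld
  rw [List.map_map, List.smul_sum, List.map_map]
  congr 1
  refine List.map_congr_left fun d _ => ?_
  simp only [Function.comp_apply]
  rw [sg_scl HE SG b d]
  exact push_smul d.i b _ j y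

end ApxKA

open ApxKA

theorem apxK (HE : HEk) (SG : SgK) : ApxK where
  one := by
    intro n M _ ι ch Λ d L hL η hη
    refine ⟨[d], fun j y _ => ?_⟩
    simp only [List.map_cons, List.map_nil, List.sum_cons, List.sum_nil, add_zero, sub_self,
      norm_zero]
    exact hη.le
  zero := by
    intro n M _ ι ch Λ L hL η hη
    refine ⟨[], fun j y _ => ?_⟩
    simp only [List.map_nil, List.sum_nil, sub_self, norm_zero]
    exact hη.le
  add := by
    intro n M _ ι ch Λ X Y hX hY L hL η hη
    obtain ⟨D, hD⟩ := hX L hL (η / 2) (half_pos hη)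
    obtain ⟨D', hD'⟩ := hY L hL (η / 2) (half_pos hη)
    refine ⟨D ++ D', fun j y hy => ?_⟩
    have h1 := hD j y hy
    have h2 := hD' j y hy
    have h3 := fld_append D D' j y
    unfold fld at h3
    rw [h3, add_sub_add_comm]
    exact (norm_add_le _ _).trans (by linarith)
  smul := by
    intro n M _ ι ch Λ X b hX L hL η hη
    have hb : 0 < |b| + 1 := by positivity
    obtain ⟨D, hD⟩ := hX L hL (η / (|b| + 1)) (div_pos hη hb)
    refine ⟨D.map (scl b), fun j y hy => ?_⟩
    have h1 := hD j y hy
    have h3 := fld_scl HE SG b D j y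
    unfold fld at h3
    rw [h3, ← smul_sub, norm_smul, Real.norm_eq_abs]
    calc |b| * ‖X j y - (D.map fun d => push ch d.i (sg (dif d.a d.g)) j y).sum‖
        ≤ |b| * (η / (|b| + 1)) := by gcongr
      _ ≤ (|b| + 1) * (η / (|b| + 1)) := by
          gcongr
          linarith
      _ = η := by field_simp
  lim := by
    intro n M _ ι ch Λ X hX L hL η hη
    obtain ⟨Y, hY, hXY⟩ := hX L hL (η / 2) (half_pos hη)
    obtain ⟨D, hD⟩ := hY L hL (η / 2) (half_pos hη)
    refine ⟨D, fun j y hy => ?_⟩
    have h1 := hD j y hy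
    have h2 := hXY j y hy
    have h3 : X j y - (D.map fun d => push ch d.i (sg (dif d.a d.g)) j y).sum =
        (X j y - Y j y) + (Y j y - (D.map fun d => push ch d.i (sg (dif d.a d.g)) j y).sum) := by
      abel
    rw [h3]
    exact (norm_add_le _ _).trans (by linarith)
  congr := by
    intro n M _ ι ch Λ X Y hX hXY L hL η hη
    obtain ⟨D, hD⟩ := hX L hL η hη
    refine ⟨D, fun j y hy => ?_⟩
    rw [← hXY j y ((hL j).2 hy)]
    exact hD j y hy

end

end SV
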