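import Pool.Agent.H6.SV.St

/-!
# Project SV: approximation of a function by sums of translates of a bump function
-/

set_option autoImplicit false

open MeasureTheory Set Filter Topology Pool.Agent.H68.VD Pool.Agent.H68.GM
open scoped ENNReal ContDiff Convolution

namespace SV

noncomputable section

namespace BDensA

variable {m : ℕ}

/-- uniform continuity with compact support, in terms of balls -/
theorem unif {F : Type*} [NormedAddCommGroup F] [NormedSpace ℝ F] {g : Eu m → F}
    (hg : Continuous g) (hc : HasCompactSupport g) {ε : ℝ} (hε : 0 < ε) :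
    ∃ δ > 0, ∀ x y, dist x y < δ → dist (g x) (g y) < ε :=
  Metric.uniformContinuous_iff.1
    (hg.uniformContinuous_of_tendsto_cocompact hc.is_zero_at_infty) ε hε

theorem hcs {f : Eu m → ℝ} {c : Eu m} {R : ℝ} (h : ∀ x, R ≤ dist x c → f x = 0) :
    HasCompactSupport f := by
  refine HasCompactSupport.intro (isCompact_closedBall c R) fun x hx => h x ?_
  rw [Metric.mem_closedBall, not_le] at hx
  exact hx.le

/-- the partition of a compact ball -/
theorem part (c : Eu m) (R : ℝ) {δ : ℝ} (hδ : 0 < δ) :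
    ∃ (K : ℕ) (z : Fin K → Eu m) (Q : Fin K → Set (Eu m)), (∀ k, dist (z k) c ≤ R) ∧
      (∀ k, MeasurableSet (Q k)) ∧ Pairwise (fun i j => Disjoint (Q i) (Q j)) ∧
      (⋃ k, Q k) = Metric.closedBall c R ∧ ∀ k, ∀ x ∈ Q k, dist x (z k) < δ := by
  classical
  obtain ⟨t, ht, htf, hcov⟩ := (isCompact_closedBall c R).finite_cover_balls hδ
  obtain ⟨K, z, hz⟩ : ∃ (K : ℕ) (z : Fin K → Eu m), Set.range z = t := by
    obtain ⟨K, ⟨e⟩⟩ := @Finite.exists_equiv_fin t htf.to_subtype
    refine ⟨K, fun k => (e.symm k : Eu m), ?_⟩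
    ext x
    constructor
    · rintro ⟨k, rfl⟩
      exact (e.symm k).2
    · intro hx
      exact ⟨e ⟨x, hx⟩, by simp⟩
  refine ⟨K, z, fun k => {x | x ∈ Metric.closedBall c R ∧ x ∈ Metric.ball (z k) δ ∧
    ∀ j, j < k → x ∉ Metric.ball (z j) δ}, ?_, ?_, ?_, ?_, ?_⟩
  · intro k
    exact ht (hz ▸ mem_range_self k)
  · intro k
    have h1 : {x | x ∈ Metric.closedBall c R ∧ x ∈ Metric.ball (z k) δ ∧
        ∀ j, j < k → x ∉ Metric.ball (z j) δ} = Metric.closedBall c R ∩
        (Metric.ball (z k) δ ∩ ⋂ j, ⋂ (_ : j < k), (Metric.ball (z j) δ)ᶜ) := by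
      ext x
      simp
    beta_reduce
    rw [h1]
    refine Metric.isClosed_closedBall.measurableSet.inter
      (Metric.isOpen_ball.measurableSet.inter ?_)
    exact MeasurableSet.iInter fun j => MeasurableSet.iInter fun _ =>
      Metric.isOpen_ball.measurableSet.compl
  · intro i j hij
    rw [Set.disjoint_left]
    rintro x ⟨-, h1, h2⟩ ⟨-, h3, h4⟩
    rcases lt_or_gt_of_ne hij with h | h
    · exact h4 i h h1
    · exact h2 j h h3
  · ext x
    constructor
    · intro hx
      obtain ⟨k, hk⟩ := mem_iUnion.1 hx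
      exact hk.1
    · intro hx
      obtain ⟨y, hy, hxy⟩ := mem_iUnion₂.1 (hcov hx)
      rw [← hz] at hy
      obtain ⟨k0, rfl⟩ := hy
      have hne : (Finset.univ.filter fun k => x ∈ Metric.ball (z k) δ).Nonempty :=
        ⟨k0, by simpa using hxy⟩
      refine mem_iUnion.2 ⟨(Finset.univ.filter fun k => x ∈ Metric.ball (z k) δ).min' hne,
        hx, ?_, ?_⟩
      · have := Finset.min'_mem _ hne
        simpa using this
      · intro j hj hxj
        have : (Finset.univ.filter fun k => x ∈ Metric.ball (z k) δ).min' hne ≤ j :=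
          Finset.min'_le _ _ (by simpa using hxj)
        exact absurd hj (not_lt.2 this)
  · intro k x hx
    exact hx.2.1

/-- the derivative of a convolution, two formulas -/
theorem conv {f β : Eu m → ℝ} (hf : ContDiff ℝ ∞ f) (hcf : HasCompactSupport f)
    (hβ : ContDiff ℝ ∞ β) (hcβ : HasCompactSupport β) (x : Eu m) :
    (∫ t, f t • fderiv ℝ β (x - t)) =
      (β ⋆[ContinuousLinearMap.lsmul ℝ ℝ, volume] fderiv ℝ f) x := by
  have h1 := hcf.hasFDerivAt_convolution_right (ContinuousLinearMap.lsmul ℝ ℝ)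
    (hβ.continuous.locallyIntegrable (μ := volume)) (hf.of_le (by simp)) x
  have h2 := hcβ.hasFDerivAt_convolution_left (ContinuousLinearMap.lsmul ℝ ℝ)
    (hβ.of_le (by simp)) (hf.continuous.locallyIntegrable (μ := volume)) x
  have h3 := h1.unique h2
  have h4 : (β ⋆[(ContinuousLinearMap.lsmul ℝ ℝ).precompR (Eu m), volume] fderiv ℝ f) x =
      (β ⋆[ContinuousLinearMap.lsmul ℝ ℝ, volume] fderiv ℝ f) x := by
    unfold MeasureTheory.convolution
    congr 1
  rw [← h4, h3, convolution_eq_swap]
  congr 1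
  funext t
  ext v
  simp [ContinuousLinearMap.precompL_apply, mul_comm]

end BDensA

open BDensA in
theorem bDens : BDens := by
  intro m f c R hm hf hsupp r η hr hη
  have hcf : HasCompactSupport f := hcs hsupp
  have hfi : Integrable f := hf.continuous.integrable_of_hasCompactSupport hcf
  -- the bump function
  obtain ⟨δ, hδ, hunif⟩ := unif (hf.continuous_fderiv (by simp)) (hcf.fderiv ℝ)
    (half_pos hη)
  have hr' : 0 < min r δ := lt_min hr hδ
  let b : ContDiffBump (0 : Eu m) := ⟨min r δ / 2, min r δ, half_pos hr', half_lt_self hr'⟩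
  set β : Eu m → ℝ := b.normed volume with hβdef
  have hβ : ContDiff ℝ ∞ β := b.contDiff_normed
  have hcβ : HasCompactSupport β := b.hasCompactSupport_normed
  have hβ0 : ∀ x, r ≤ ‖x‖ → β x = 0 := by
    intro x hx
    have : x ∉ Function.support β := by
      rw [hβdef, b.support_normed_eq, Metric.mem_ball, dist_zero_right, not_lt]
      exact (min_le_left r δ).trans hx
    exact Function.notMem_support.1 this
  have hstep1 : ∀ x, ‖fderiv ℝ f x - ∫ t, f t • fderiv ℝ β (x - t)‖ ≤ η / 2 := by
    intro x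
    rw [conv hf hcf hβ hcβ x, ← dist_eq_norm, dist_comm]
    refine b.dist_normed_convolution_le
      (hf.continuous_fderiv (by simp)).aestronglyMeasurable fun y hy => ?_
    refine (hunif y x (lt_of_lt_of_le hy ?_)).le
    exact min_le_right r δ
  -- the partition
  set I : ℝ := ∫ x, |f x| with hI
  have hI0 : 0 ≤ I := integral_nonneg fun x => abs_nonneg _
  set ε : ℝ := η / (2 * (I + 1)) with hεd
  have hε : 0 < ε := by positivity
  obtain ⟨δ', hδ', hunif'⟩ := unif (hβ.continuous_fderiv (by simp)) (hcβ.fderiv ℝ) hε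
  obtain ⟨K, z, Q, hz, hQm, hQd, hQu, hQz⟩ := part c R hδ'
  have hf0 : ∀ x, x ∉ ⋃ k, Q k → f x = 0 := by
    intro x hx
    rw [hQu, Metric.mem_closedBall, not_le] at hx
    exact hsupp x hx.le
  refine ⟨β, K, fun k => ∫ x in Q k, f x, z, hβ, hβ0, hz, ?_, ?_⟩
  · rw [← integral_iUnion_fintype hQm hQd fun k => hfi.integrableOn]
    exact setIntegral_eq_integral_of_forall_compl_eq_zero fun x hx => hf0 x hx
  · intro x
    have hcont : Continuous fun t => f t • fderiv ℝ β (x - t) :=
      hf.continuous.smul ((hβ.continuous_fderiv (by simp)).comp (continuous_const.sub continuous_id))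
    have hint : Integrable fun t => f t • fderiv ℝ β (x - t) :=
      hcont.integrable_of_hasCompactSupport hcf.smul_right
    have h1 : (∫ t, f t • fderiv ℝ β (x - t)) = ∑ k, ∫ t in Q k, f t • fderiv ℝ β (x - t) := by
      rw [← integral_iUnion_fintype hQm hQd fun k => hint.integrableOn]
      refine (setIntegral_eq_integral_of_forall_compl_eq_zero fun t ht => ?_).symm
      rw [hf0 t ht, zero_smul]
    have h2 : ∀ k, (∫ t in Q k, f t) • fderiv ℝ β (x - z k) =
        ∫ t in Q k, f t • fderiv ℝ β (x - z k) := fun k =>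
      (integral_smul_const (μ := volume.restrict (Q k)) f (fderiv ℝ β (x - z k))).symm
    have h3 : ‖(∫ t, f t • fderiv ℝ β (x - t)) - ∑ k, (∫ t in Q k, f t) • fderiv ℝ β (x - z k)‖ ≤
        η / 2 := by
      rw [h1, ← Finset.sum_sub_distrib]
      have h4 : ∀ k, ‖(∫ t in Q k, f t • fderiv ℝ β (x - t)) -
          (∫ t in Q k, f t) • fderiv ℝ β (x - z k)‖ ≤ ∫ t in Q k, |f t| * ε := by
        intro k
        rw [h2 k, ← integral_sub hint.integrableOn (hfi.smul_const _).integrableOn]
        refine norm_integral_le_of_norm_le (hfi.abs.mul_const ε).integrableOn ?_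
        refine (ae_restrict_iff' (hQm k)).2 (ae_of_all _ fun t ht => ?_)
        rw [← smul_sub, norm_smul, Real.norm_eq_abs]
        refine mul_le_mul_of_nonneg_left ?_ (abs_nonneg _)
        rw [← dist_eq_norm]
        refine (hunif' _ _ ?_).le
        rw [dist_sub_left]
        exact hQz k t ht
      calc ‖∑ k, ((∫ t in Q k, f t • fderiv ℝ β (x - t)) -
            (∫ t in Q k, f t) • fderiv ℝ β (x - z k))‖
          ≤ ∑ k, ∫ t in Q k, |f t| * ε := (norm_sum_le _ _).trans (Finset.sum_le_sum fun k _ => h4 k)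
        _ = ∫ t in ⋃ k, Q k, |f t| * ε :=
            (integral_iUnion_fintype hQm hQd fun k => (hfi.abs.mul_const ε).integrableOn).symm
        _ = ∫ t, |f t| * ε := setIntegral_eq_integral_of_forall_compl_eq_zero fun t ht => by
            rw [hf0 t ht, abs_zero, zero_mul]
        _ = I * ε := integral_mul_const _ _
        _ ≤ (I + 1) * ε := by nlinarith
        _ = η / 2 := by
            rw [hεd]; field_simp
    calc ‖fderiv ℝ f x - ∑ k, (∫ t in Q k, f t) • fderiv ℝ β (x - z k)‖
        = ‖(fderiv ℝ f x - ∫ t, f t • fderiv ℝ β (x - t)) +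
          ((∫ t, f t • fderiv ℝ β (x - t)) - ∑ k, (∫ t in Q k, f t) • fderiv ℝ β (x - z k))‖ := by
            rw [sub_add_sub_cancel]
      _ ≤ η / 2 + η / 2 := (norm_add_le _ _).trans (add_le_add (hstep1 x) h3)
      _ = η := add_halves η

end

end SV
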