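import Pool.Agent.H6.SV.St

/-!
# Project SV: commutators of Hamiltonian maps with support in a ball are cheap
-/

set_option autoImplicit false

open MeasureTheory Set Filter Topology Pool.Agent.H68.VD Pool.Agent.H68.GM
open scoped ENNReal ContDiff

namespace SV

noncomputable section

namespace CommA

variable {n : ℕ}

/-- The support of the price one map. -/
theorem ch_out {σ p : ℝ} {c : Eu (n + n)} {r a : ℝ} {f : Equiv.Perm (Eu (n + n))}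
    (h : Ch σ p c r f a) : ∀ x, r ≤ dist x c → f x = x := by
  obtain ⟨T, H, A, G, μ, hT, h1, -, -⟩ := h
  intro x hx
  rw [← h1 x]
  exact hT.out 1 x hx

theorem lc (K : LCk) {σ p : ℝ} {c : Eu (n + n)} {r r' a : ℝ} {f : Equiv.Perm (Eu (n + n))}
    (hr : r ≤ r') (h : Ch σ p c r f a) : LCost σ p c r' f a :=
  K.rad n σ p c r r' f a hr (LCost.base h)

/-- Commutation of maps with disjoint supports. -/
theorem comm_of_disj {α : Type*} {f g : Equiv.Perm α}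
    (h : ∀ x, f x ≠ x → g x = x) : f * g = g * f := by
  have hd : Equiv.Perm.Disjoint f g := by
    intro x
    by_cases hx : f x = x
    · exact Or.inl hx
    · exact Or.inr (h x hx)
  exact hd.commute.eq

end CommA

open CommA in
/-- Commutators of Hamiltonian maps with support in a ball have cost zero in a larger ball. -/
theorem commC (K : LCk) (E : HEk) (S : Saw) (U : CutC) : CommC := by
  intro n hn
  obtain ⟨Λ, hΛ, hS⟩ := S n hn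
  refine ⟨Λ, hΛ, ?_⟩
  intro σ p hp hσ0 hσ1 hσ c r hr f g hf hg ε0 hε0
  have hrr : r ≤ Λ * r := by nlinarith
  have hf' : HEnd c (Λ * r) f := E.mono n c c r (Λ * r) f hf (by rw [dist_self]; linarith)
  have hg' : HEnd c (Λ * r) g := E.mono n c c r (Λ * r) g hg (by rw [dist_self]; linarith)
  obtain ⟨Cf, hCf0, hCf⟩ := K.conj n σ p hσ0 hσ1 hp c (Λ * r) f hf'
  obtain ⟨Cg, hCg0, hCg⟩ := K.conj n σ p hσ0 hσ1 hp c (Λ * r) g hg'
  -- the total price of the word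
  set D : ℝ := (1 + Cg) + (1 + Cf + 1) + (3 + Cf + 1 + 1 + Cg * (3 + Cf + 1) + 1) + 1 with hD
  have hD0 : 0 < D := by rw [hD]; nlinarith [mul_nonneg hCg0 hCf0]
  set a : ℝ := ε0 / D with ha
  have ha0 : 0 < a := div_pos hε0 hD0
  obtain ⟨ε, hε, hεr, hψ⟩ := hS σ p hp hσ0 hσ1 c r hr a ha0
  obtain ⟨η1, hη1, hZf⟩ := U n σ p hp hσ0 hσ1 hσ c r hr f hf ε hε hεr a ha0
  obtain ⟨η2, hη2, hZg⟩ := U n σ p hp hσ0 hσ1 hσ c r hr g hg ε hε hεr a ha0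
  obtain ⟨η, hη, hηa, hηb, hηc⟩ : ∃ η : ℝ, 0 < η ∧ η < 1 / 16 ∧ η < η1 ∧ η < η2 := by
    refine ⟨min (1 / 32) (min (η1 / 2) (η2 / 2)), by positivity, ?_, ?_, ?_⟩
    · exact lt_of_le_of_lt (min_le_left _ _) (by norm_num)
    · exact lt_of_le_of_lt ((min_le_right _ _).trans (min_le_left _ _)) (by linarith)
    · exact lt_of_le_of_lt ((min_le_right _ _).trans (min_le_right _ _)) (by linarith)
  obtain ⟨ψ, hψc, hψd⟩ := hψ η hη hηa
  obtain ⟨fZ, hfZ, hfZ1⟩ := hZf η hη hηb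
  obtain ⟨gZ, hgZ, hgZ1⟩ := hZg η hη hηc
  -- the complementary factors
  set fW : Equiv.Perm (Eu (n + n)) := fZ⁻¹ * f with hfW
  set gW : Equiv.Perm (Eu (n + n)) := gZ⁻¹ * g with hgW
  have hfWout : ∀ x, r ≤ dist x c → fW x = x := by
    intro x hx
    rw [hfW, Equiv.Perm.mul_apply, E.out n c r f hf x hx, Equiv.Perm.inv_eq_iff_eq]
    exact (ch_out hfZ x hx).symm
  have hgWout : ∀ x, r ≤ dist x c → gW x = x := by
    intro x hx
    rw [hgW, Equiv.Perm.mul_apply, E.out n c r g hg x hx, Equiv.Perm.inv_eq_iff_eq]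
    exact (ch_out hgZ x hx).symm
  have hfWgrd : ∀ x ∈ Grd ε η, fW x = x := by
    intro x hx
    rw [hfW, Equiv.Perm.mul_apply, Equiv.Perm.inv_eq_iff_eq]
    exact (hfZ1 x hx).symm
  -- `ψ fW⁻¹ ψ⁻¹` and `gW` commute
  have hcomm : (ψ * fW⁻¹ * ψ⁻¹) * gW = gW * (ψ * fW⁻¹ * ψ⁻¹) := by
    apply comm_of_disj
    intro x hx
    apply hgWout
    have h1 : fW (ψ⁻¹ x) ≠ ψ⁻¹ x := by
      intro h
      apply hx
      rw [Equiv.Perm.mul_apply, Equiv.Perm.mul_apply]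
      have h2 : fW⁻¹ (ψ⁻¹ x) = ψ⁻¹ x := by
        rw [Equiv.Perm.inv_eq_iff_eq]
        exact h.symm
      rw [h2]
      exact ψ.apply_symm_apply x
    have h3 : dist (ψ⁻¹ x) c < r := by
      by_contra h
      exact h1 (hfWout _ (not_lt.mp h))
    have h4 : ψ⁻¹ x ∉ Grd ε η := fun h => h1 (hfWgrd _ h)
    have h5 := hψd _ h3 h4
    have h6 : ψ (ψ⁻¹ x) = x := ψ.apply_symm_apply x
    rwa [h6] at h5
  -- costs
  have cψ : LCost σ p c (Λ * r) ψ a := LCost.base hψc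
  have cfZ : LCost σ p c (Λ * r) fZ a := lc K hrr hfZ
  have cgZ : LCost σ p c (Λ * r) gZ a := lc K hrr hgZ
  have iψ := K.inv n σ p c (Λ * r) ψ a cψ
  have ifZ := K.inv n σ p c (Λ * r) fZ a cfZ
  have igZ := K.inv n σ p c (Λ * r) gZ a cgZ
  -- the element `A = fW ψ fW⁻¹ ψ⁻¹`
  set A : Equiv.Perm (Eu (n + n)) := fZ⁻¹ * (f * ψ * f⁻¹) * fZ * ψ⁻¹ with hA
  have cA : LCost σ p c (Λ * r) A (a + Cf * a + a + a) :=
    LCost.mul (LCost.mul (LCost.mul ifZ (hCf ψ a cψ)) cfZ) iψ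
  have iA := K.inv n σ p c (Λ * r) A _ cA
  have hA2 : A = fW * (ψ * fW⁻¹ * ψ⁻¹) := by
    rw [hA, hfW]
    group
  -- `[fW, gW] = A · gW A⁻¹ gW⁻¹`
  have h1 : fW * gW * fW⁻¹ * gW⁻¹ = A * (gZ⁻¹ * (g * A⁻¹ * g⁻¹) * gZ) := by
    have h2 : gZ⁻¹ * (g * A⁻¹ * g⁻¹) * gZ = gW * A⁻¹ * gW⁻¹ := by
      rw [hgW]
      group
    rw [h2, hA2]
    set b : Equiv.Perm (Eu (n + n)) := ψ * fW⁻¹ * ψ⁻¹ with hb
    calc fW * gW * fW⁻¹ * gW⁻¹ = fW * (b * (b⁻¹ * gW)) * fW⁻¹ * gW⁻¹ := by group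
      _ = fW * (b * (gW * b⁻¹)) * fW⁻¹ * gW⁻¹ := by
          have h3 : b⁻¹ * gW = gW * b⁻¹ := by
            have h4 : Commute b gW := hcomm
            exact (h4.inv_left).eq
          rw [h3]
      _ = fW * b * (gW * (fW * b)⁻¹ * gW⁻¹) := by group
  have cWW : LCost σ p c (Λ * r) (fW * gW * fW⁻¹ * gW⁻¹)
      ((a + Cf * a + a + a) + (a + Cg * (a + Cf * a + a + a) + a)) := by
    rw [h1]
    exact LCost.mul cA (LCost.mul (LCost.mul igZ (hCg _ _ iA)) cgZ)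
  -- `[fW, g] = (fZ⁻¹ (f gZ f⁻¹) fZ) [fW, gW] gZ⁻¹`
  have h5 : fW * g * fW⁻¹ * g⁻¹ =
      (fZ⁻¹ * (f * gZ * f⁻¹) * fZ) * (fW * gW * fW⁻¹ * gW⁻¹) * gZ⁻¹ := by
    rw [hfW, hgW]
    group
  have cW : LCost σ p c (Λ * r) (fW * g * fW⁻¹ * g⁻¹)
      ((a + Cf * a + a) + ((a + Cf * a + a + a) + (a + Cg * (a + Cf * a + a + a) + a)) + a) := by
    rw [h5]
    exact LCost.mul (LCost.mul (LCost.mul (LCost.mul ifZ (hCf gZ a cgZ)) cfZ) cWW) igZ
  -- `[f, g] = fZ [fW, g] (g fZ⁻¹ g⁻¹)`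
  have h6 : f * g * f⁻¹ * g⁻¹ = fZ * (fW * g * fW⁻¹ * g⁻¹) * (g * fZ⁻¹ * g⁻¹) := by
    rw [hfW]
    group
  have cF : LCost σ p c (Λ * r) (f * g * f⁻¹ * g⁻¹)
      (a + ((a + Cf * a + a) + ((a + Cf * a + a + a) + (a + Cg * (a + Cf * a + a + a) + a)) + a) +
        Cg * a) := by
    rw [h6]
    exact LCost.mul (LCost.mul cfZ cW) (hCg _ _ ifZ)
  refine K.mono n σ p c (Λ * r) _ _ ε0 cF ?_
  have h7 : a * D = ε0 := by
    rw [ha]
    exact div_mul_cancel₀ _ hD0.ne'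
  rw [← h7, hD]
  nlinarith [mul_nonneg hCg0 hCf0, mul_nonneg ha0.le hCf0, mul_nonneg ha0.le hCg0,
    mul_nonneg ha0.le (mul_nonneg hCg0 hCf0)]

end

end SV
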