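import Pool.Agent.H6.SV.St

/-!
# Project SV, row SV-9: a Hamiltonian multiplied with a transported cut-off function
-/

set_option autoImplicit false

open MeasureTheory Set Filter Topology Pool.Agent.H68.VD Pool.Agent.H68.GM
open scoped ENNReal ContDiff

namespace SV

noncomputable section

theorem cut (K : HPk) (P : HPe) (FE : FlowE) (S : SgK) : Cut := by
  intro n c r T H hT X hX
  have hinv := K.invS n c r T H hT
  have hF : ContDiff ℝ ∞
      (fun z : ℝ × Eu (n + n) => H z.1 z.2 * X (Function.invFun (T z.1) z.2)) :=
    hT.sH.mul (hX.comp hinv)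
  obtain ⟨T', hT'⟩ := P n c r (fun t y => H t y * X (Function.invFun (T t) y)) hF
    (fun t x hx => by
      show H t x * X (Function.invFun (T t) x) = 0
      rw [hT.outH t x hx, zero_mul])
  refine ⟨T', hT', fun x hx t => ?_⟩
  have hV : ContDiff ℝ ∞ (fun z : ℝ × Eu (n + n) =>
      sg ((fun t y => H t y * X (Function.invFun (T t) y)) z.1) z.2) :=
    S.smoothE n ℝ (fun t y => H t y * X (Function.invFun (T t) y)) hF
  refine FE.uniq (n + n) (fun t y => sg (fun y => H t y * X (Function.invFun (T t) y)) y) hV
    (fun τ => T' τ x) (fun τ => T τ x) (fun τ => hT'.ode τ x) (fun τ => ?_) ?_ t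
  · have h1 : sg (fun y => H τ y * X (Function.invFun (T τ) y)) (T τ x) =
        sg (H τ) (T τ x) := by
      apply S.congr
      have hleft : Function.invFun (T τ) (T τ x) = x :=
        Function.leftInverse_invFun (hT.bij τ).1 x
      have hc : Continuous (Function.invFun (T τ)) :=
        hinv.continuous.comp (Continuous.prodMk continuous_const continuous_id)
      have h2 : ∀ᶠ y in 𝓝 (T τ x), X (Function.invFun (T τ) y) = 1 := by
        have h3 : Tendsto (Function.invFun (T τ)) (𝓝 (T τ x)) (𝓝 x) := by
          have := hc.tendsto (T τ x)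
          rwa [hleft] at this
        exact h3.eventually hx
      filter_upwards [h2] with y hy
      rw [hy, mul_one]
    show HasDerivAt (fun τ => T τ x)
      (sg (fun y => H τ y * X (Function.invFun (T τ) y)) (T τ x)) τ
    rw [h1]
    exact hT.ode τ x
  · show T' 0 x = T 0 x
    rw [hT'.zero, hT.zero]

end

end SV
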