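import Pool.Agent.H6.SV.St

/-!
# Project SV, module CutC: a Hamiltonian map coincides near a thin grid with a map of small cost
-/

set_option autoImplicit false

open MeasureTheory Set Filter Topology Pool.Agent.H68.VD Pool.Agent.H68.GM
open scoped ENNReal ContDiff

namespace SV

noncomputable section

namespace CutCA

/-- the partial derivative of a smooth function is bounded on compact sets -/
theorem part_bound {m : ℕ} {W : Type*} [NormedAddCommGroup W] [NormedSpace ℝ W]
    {G : ℝ × Eu m → W} (hG : ContDiff ℝ ∞ G) (c : Eu m) (r : ℝ) :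
    ∃ L : ℝ, 0 ≤ L ∧ ∀ t ∈ Icc (0 : ℝ) 1, ∀ y ∈ Metric.closedBall c r,
      ‖fderiv ℝ (fun y => G (t, y)) y‖ ≤ L := by
  have hc : Continuous fun z : ℝ × Eu m => fderiv ℝ G z := hG.continuous_fderiv (by simp)
  have hK : IsCompact (Icc (0 : ℝ) 1 ×ˢ Metric.closedBall c r) :=
    isCompact_Icc.prod (isCompact_closedBall c r)
  obtain ⟨L, hL⟩ := hK.exists_bound_of_continuousOn hc.continuousOn
  refine ⟨max L 0, le_max_right _ _, fun t ht y hy => ?_⟩
  have h1 : HasFDerivAt (fun y => G (t, y))
      ((fderiv ℝ G (t, y)).comp (ContinuousLinearMap.inr ℝ ℝ (Eu m))) y := by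
    have h2 : HasFDerivAt G (fderiv ℝ G (t, y)) (t, y) :=
      ((hG.differentiable (by simp)) (t, y)).hasFDerivAt
    exact h2.comp y (hasFDerivAt_prodMk_right t y)
  rw [h1.fderiv]
  have h3 : ‖(fderiv ℝ G (t, y)).comp (ContinuousLinearMap.inr ℝ ℝ (Eu m))‖ ≤
      ‖fderiv ℝ G (t, y)‖ := by
    refine ContinuousLinearMap.opNorm_le_bound _ (norm_nonneg _) fun v => ?_
    have h4 := (fderiv ℝ G (t, y)).le_opNorm ((0 : ℝ), v)
    have h5 : ‖((0 : ℝ), v)‖ = ‖v‖ := by
      rw [Prod.norm_mk, norm_zero, max_eq_right (norm_nonneg _)]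
    rw [h5] at h4
    exact h4
  exact h3.trans ((hL (t, y) ⟨ht, hy⟩).trans (le_max_left _ _))

/-- the volume of the image under a volume preserving map -/
theorem vol_image {m : ℕ} {c : Eu m} {r : ℝ} {T : ℝ → Eu m → Eu m} (h : BallFam c r T) (t : ℝ)
    {S : Set (Eu m)} (hS : MeasurableSet S) : volume (T t '' S) = volume S := by
  have hd : Differentiable ℝ (T t) := by
    have h1 : ContDiff ℝ ∞ (T t) := h.smooth.comp (contDiff_prodMk_right t)
    exact h1.differentiable (by simp)
  rw [← lintegral_abs_det_fderiv_eq_addHaar_image volume hS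
    (fun x _ => (hd x).hasFDerivAt.hasFDerivWithinAt) (h.bij t).1.injOn]
  have h2 : ∀ x, ENNReal.ofReal |(fderiv ℝ (T t) x).det| = 1 := by
    intro x
    rw [h.det t x]
    simp
  simp only [h2]
  simp

/-- the numerical estimate -/
theorem cst_le {σ p A K B η N : ℝ} (n : ℕ) (hη : 0 < η) (hη1 : η ≤ 1) (hA : 0 ≤ A)
    (hK : 0 ≤ K) (hB : 0 ≤ B) (hσ : 0 < σ) (hN : N = (n : ℝ) / p) :
    cst σ p A (K / η) (B * η ^ n) ≤
      (A + A ^ (1 - σ) * K ^ σ) * B ^ (1 / p) * η ^ (N - σ) := by
  have h1 : (B * η ^ n) ^ (1 / p) = B ^ (1 / p) * η ^ N := by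
    rw [Real.mul_rpow hB (by positivity), ← Real.rpow_natCast η n, ← Real.rpow_mul hη.le, hN]
    congr 2
    ring
  have h2 : (K / η) ^ σ = K ^ σ * η ^ (-σ) := by
    rw [Real.div_rpow hK hη.le, Real.rpow_neg hη.le, div_eq_mul_inv]
  have h3 : η ^ N ≤ η ^ (N - σ) :=
    Real.rpow_le_rpow_of_exponent_ge hη hη1 (by linarith)
  have h4 : η ^ (-σ) * η ^ N = η ^ (N - σ) := by
    rw [← Real.rpow_add hη]
    congr 1
    ring
  unfold cst
  rw [h1, h2]
  have h5 : 0 ≤ B ^ (1 / p) := Real.rpow_nonneg hB _
  have h6 : 0 ≤ A ^ (1 - σ) := Real.rpow_nonneg hA _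
  have h7 : 0 ≤ K ^ σ := Real.rpow_nonneg hK _
  calc (A + A ^ (1 - σ) * (K ^ σ * η ^ (-σ))) * (B ^ (1 / p) * η ^ N)
      = A * B ^ (1 / p) * η ^ N + A ^ (1 - σ) * K ^ σ * B ^ (1 / p) * (η ^ (-σ) * η ^ N) := by
        ring
    _ ≤ A * B ^ (1 / p) * η ^ (N - σ) + A ^ (1 - σ) * K ^ σ * B ^ (1 / p) * η ^ (N - σ) := by
        rw [h4]
        gcongr
    _ = _ := by ring

/-- the choice of the width -/
theorem exists_eta {M δ a : ℝ} (hM : 0 ≤ M) (hδ : 0 < δ) (ha : 0 < a) :
    ∃ η0 : ℝ, 0 < η0 ∧ η0 ≤ 1 / 16 ∧ ∀ η : ℝ, 0 < η → η < η0 → M * η ^ δ ≤ a := by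
  have h0 : 0 < a / (M + 1) := by positivity
  refine ⟨min (1 / 16) ((a / (M + 1)) ^ (1 / δ)), ?_, min_le_left _ _, fun η hη hη1 => ?_⟩
  · exact lt_min (by norm_num) (Real.rpow_pos_of_pos h0 _)
  have h1 : η ≤ (a / (M + 1)) ^ (1 / δ) := hη1.le.trans (min_le_right _ _)
  have h2 : η ^ δ ≤ a / (M + 1) := by
    calc η ^ δ ≤ ((a / (M + 1)) ^ (1 / δ)) ^ δ := Real.rpow_le_rpow hη.le h1 hδ.le
      _ = a / (M + 1) := by
        rw [← Real.rpow_mul h0.le, one_div_mul_cancel hδ.ne', Real.rpow_one]
  calc M * η ^ δ ≤ M * (a / (M + 1)) := by gcongr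
    _ = a * (M / (M + 1)) := by ring
    _ ≤ a * 1 := by
      gcongr
      rw [div_le_one (by linarith)]
      linarith
    _ = a := mul_one a

end CutCA

open CutCA in
theorem cutC (P : HPk) (CU : Cut) (EX : ExX) : CutC := by
  intro n σ p hp hσ hσ1 hσn c r hr f hf ε hε hεr a ha
  obtain ⟨T, H, hT, hTf⟩ := hf
  have hball := P.ball n c r T H hT
  have hinv := P.invS n c r T H hT
  obtain ⟨C, hC, hX⟩ := EX n
  -- the bounds
  have hHout : ∀ t x, r < dist x c → H t x = 0 := fun t x hx => hT.outH t x hx.le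
  obtain ⟨A, hA, hAb⟩ : ∃ A : ℝ, 0 ≤ A ∧ ∀ t ∈ Icc (0 : ℝ) 1, ∀ x, |H t x| ≤ A := by
    have hK : IsCompact (Icc (0 : ℝ) 1 ×ˢ Metric.closedBall c r) :=
      isCompact_Icc.prod (isCompact_closedBall c r)
    obtain ⟨A, hA⟩ := hK.exists_bound_of_continuousOn hT.sH.continuous.continuousOn
    refine ⟨max A 0, le_max_right _ _, fun t ht x => ?_⟩
    by_cases hx : x ∈ Metric.closedBall c r
    · exact (hA (t, x) ⟨ht, hx⟩).trans (le_max_left _ _)
    · rw [hHout t x (by simpa using hx), abs_zero]
      exact le_max_right _ _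
  obtain ⟨G1, hG1, hG1b⟩ := part_bound hT.sH c r
  obtain ⟨L, hL, hLb⟩ := part_bound hinv c r
  set K : ℝ := G1 + A * (C / ε * L) with hKdef
  have hK : 0 ≤ K := by positivity
  set B : ℝ := C * r ^ (2 * n) with hBdef
  have hB : 0 ≤ B := by positivity
  obtain ⟨η0, hη0, hη16, hη0b⟩ := exists_eta (M := (A + A ^ (1 - σ) * K ^ σ) * B ^ (1 / p))
    (δ := (n : ℝ) / p - σ) (by positivity) (by linarith) ha
  refine ⟨η0, hη0, fun η hη hηη => ?_⟩
  have hη1 : η < 1 / 16 := hηη.trans_le hη16
  obtain ⟨X, hXs, hX01, hXd, hX1, hXv⟩ := hX ε η hε hη hη1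
  obtain ⟨T', hT', hT'e⟩ := CU n c r T H hT X hXs
  refine ⟨Equiv.ofBijective (T' 1) (hT'.bij 1), ⟨T', _, A, K / η, B * η ^ n, hT', fun x => rfl,
    fun t ht => ?_, ?_⟩, fun x hx => ?_⟩
  · -- the bounds of the new Hamiltonian
    have hright : ∀ y, T t (Function.invFun (T t) y) = y :=
      Function.rightInverse_invFun (hT.bij t).2
    refine ⟨hA, by positivity, by positivity, fun y => ?_, fun y => ?_, ?_⟩
    · rw [abs_mul]
      have h1 := hX01 (Function.invFun (T t) y)
      have h2 : |X (Function.invFun (T t) y)| ≤ 1 := by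
        rw [abs_of_nonneg h1.1]; exact h1.2
      calc |H t y| * |X (Function.invFun (T t) y)| ≤ A * 1 :=
            mul_le_mul (hAb t ht y) h2 (abs_nonneg _) hA
        _ = A := mul_one A
    · by_cases hy : y ∈ Metric.closedBall c r
      · have hi : ContDiff ℝ ∞ (fun y => Function.invFun (T t) y) :=
          hinv.comp (contDiff_prodMk_right t)
        have hHt : ContDiff ℝ ∞ (H t) := hT.sH.comp (contDiff_prodMk_right t)
        have hid : DifferentiableAt ℝ (fun y => Function.invFun (T t) y) y :=
          (hi.differentiable (by simp)) y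
        have hHd : DifferentiableAt ℝ (H t) y := (hHt.differentiable (by simp)) y
        have hXdd : DifferentiableAt ℝ X (Function.invFun (T t) y) :=
          (hXs.differentiable (by simp)) _
        have h1 : HasFDerivAt (fun y => X (Function.invFun (T t) y))
            ((fderiv ℝ X (Function.invFun (T t) y)).comp
              (fderiv ℝ (fun y => Function.invFun (T t) y) y)) y :=
          HasFDerivAt.comp y hXdd.hasFDerivAt hid.hasFDerivAt
        have h2 := hHd.hasFDerivAt.mul h1
        have h3 : fderiv ℝ (fun y => H t y * X (Function.invFun (T t) y)) y =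
            H t y • ((fderiv ℝ X (Function.invFun (T t) y)).comp
              (fderiv ℝ (fun y => Function.invFun (T t) y) y)) +
            X (Function.invFun (T t) y) • fderiv ℝ (H t) y := h2.fderiv
        rw [h3]
        have h4 := hXd (Function.invFun (T t) y)
        have h5 := hLb t ht y hy
        have h6 : ‖fderiv ℝ (H t) y‖ ≤ G1 := hG1b t ht y hy
        have h7 : |X (Function.invFun (T t) y)| ≤ 1 := by
          rw [abs_of_nonneg (hX01 _).1]; exact (hX01 _).2
        have h8 : ‖(fderiv ℝ X (Function.invFun (T t) y)).comp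
            (fderiv ℝ (fun y => Function.invFun (T t) y) y)‖ ≤ C / (η * ε) * L :=
          (ContinuousLinearMap.opNorm_comp_le _ _).trans
            (mul_le_mul h4 h5 (norm_nonneg _) (by positivity))
        have h9 : C / (η * ε) * L = C / ε * L / η := by
          field_simp
        calc ‖H t y • ((fderiv ℝ X (Function.invFun (T t) y)).comp
              (fderiv ℝ (fun y => Function.invFun (T t) y) y)) +
            X (Function.invFun (T t) y) • fderiv ℝ (H t) y‖
            ≤ ‖H t y • ((fderiv ℝ X (Function.invFun (T t) y)).comp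
              (fderiv ℝ (fun y => Function.invFun (T t) y) y))‖ +
            ‖X (Function.invFun (T t) y) • fderiv ℝ (H t) y‖ := norm_add_le _ _
          _ ≤ A * (C / ε * L / η) + 1 * G1 := by
            rw [norm_smul, norm_smul, Real.norm_eq_abs, Real.norm_eq_abs, ← h9]
            exact add_le_add (mul_le_mul (hAb t ht y) h8 (norm_nonneg _) hA)
              (mul_le_mul h7 h6 (norm_nonneg _) zero_le_one)
          _ ≤ A * (C / ε * L / η) + G1 / η := by
            have h10 : G1 ≤ G1 / η := by
              rw [le_div_iff₀ hη]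
              nlinarith
            linarith
          _ = K / η := by
            rw [hKdef]
            ring
      · have hy' : r < dist y c := by simpa using hy
        have h1 : (fun y => H t y * X (Function.invFun (T t) y)) =ᶠ[𝓝 y] fun _ => (0 : ℝ) := by
          have h2 : ∀ᶠ z in 𝓝 y, r < dist z c :=
            (continuous_id.dist continuous_const).continuousAt.eventually
              (lt_mem_nhds hy')
          filter_upwards [h2] with z hz
          rw [hHout t z hz, zero_mul]
        have h3 : fderiv ℝ (fun y => H t y * X (Function.invFun (T t) y)) y = 0 := by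
          rw [h1.fderiv_eq]
          simp
        rw [h3, norm_zero]
        positivity
    · -- the support
      have hS : IsCompact (tsupport X ∩ Metric.closedBall c r) :=
        (isCompact_closedBall c r).inter_left (isClosed_tsupport X)
      have hTc : Continuous (T t) := by
        have h1 : ContDiff ℝ ∞ (T t) := hT.sT.comp (contDiff_prodMk_right t)
        exact h1.continuous
      have h1 : tsupport (fun y => H t y * X (Function.invFun (T t) y)) ⊆
          T t '' (tsupport X ∩ Metric.closedBall c r) := by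
        refine closure_minimal ?_ (hS.image hTc).isClosed
        intro y hy
        have hy' : H t y * X (Function.invFun (T t) y) ≠ 0 := hy
        have hy1 : H t y ≠ 0 := left_ne_zero_of_mul hy'
        have hy2 : X (Function.invFun (T t) y) ≠ 0 := right_ne_zero_of_mul hy'
        refine ⟨Function.invFun (T t) y, ⟨subset_tsupport X hy2, ?_⟩, hright y⟩
        by_contra hcon
        have h2 : r ≤ dist (Function.invFun (T t) y) c := by
          have h3 : ¬ dist (Function.invFun (T t) y) c ≤ r := hcon
          linarith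
        have h3 := hT.out t _ h2
        rw [hright y] at h3
        rw [← h3] at h2
        exact hy1 (hT.outH t y h2)
      calc volume (tsupport (fun y => H t y * X (Function.invFun (T t) y)))
          ≤ volume (T t '' (tsupport X ∩ Metric.closedBall c r)) := measure_mono h1
        _ = volume (tsupport X ∩ Metric.closedBall c r) :=
          vol_image hball t hS.measurableSet
        _ ≤ ENNReal.ofReal (B * η ^ n) := hXv c r hεr
  · -- the price
    exact (cst_le n hη (by linarith) hA hK hB hσ rfl).trans (hη0b η hη hηη)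
  · -- equality near the grid
    have hopen : IsOpen (Grd (n := n) ε η) := by
      have h1 : Grd (n := n) ε η = ⋂ i : Fin n, ⋃ k : ℤ,
          {x : Eu (n + n) | |x (Fin.natAdd n i) - k * (ε / 2)| < η * ε} := by
        ext x
        simp only [Grd, Set.mem_ofPred_eq, Set.mem_iInter, Set.mem_iUnion]
      rw [h1]
      refine isOpen_iInter_of_finite fun i => isOpen_iUnion fun k => ?_
      refine isOpen_lt ?_ continuous_const
      fun_prop
    have h2 : ∀ᶠ y in 𝓝 x, X y = 1 := by
      filter_upwards [hopen.mem_nhds hx] with y hy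
      exact hX1 y hy
    show T' 1 x = f x
    rw [hT'e x h2 1, hTf x]

end

end SV
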