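import Pool.Agent.H6.SV.St

/-!
# Project SV: the cut-off function of the neighbourhood of the grid
-/

set_option autoImplicit false
set_option maxHeartbeats 400000

open MeasureTheory Set Filter Topology Pool.Agent.H68.VD Pool.Agent.H68.GM
open scoped ENNReal ContDiff

namespace SV

noncomputable section

namespace ExXA

/-- the union of the intervals in one coordinate -/
def strip (ε η : ℝ) : Set ℝ := {t | ∃ k : ℤ, |t / ε - k / 2| < 4 * η}

theorem strip_vol {ε η r c : ℝ} (hε : 0 < ε) (hη : 0 < η) (hη2 : η < 1 / 16) (hr : ε ≤ r) :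
    volume (Icc (c - r) (c + r) ∩ strip ε η) ≤ ENNReal.ofReal (48 * r * η) := by
  have hr0 : 0 < r := lt_of_lt_of_le hε hr
  set a : ℤ := ⌈2 * (c - r) / ε - 1 / 2⌉ with ha
  set b : ℤ := ⌊2 * (c + r) / ε + 1 / 2⌋ with hb
  have hsub : Icc (c - r) (c + r) ∩ strip ε η ⊆
      ⋃ k ∈ Finset.Icc a b, Metric.ball ((k : ℝ) * (ε / 2)) (4 * η * ε) := by
    rintro t ⟨ht, k, hk⟩
    have hk' := abs_lt.1 hk
    have h1 : (c - r) / ε ≤ t / ε := div_le_div_of_nonneg_right ht.1 hε.le
    have h2 : t / ε ≤ (c + r) / ε := div_le_div_of_nonneg_right ht.2 hε.le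
    have hka : a ≤ k := by
      rw [ha, Int.ceil_le]
      have : 2 * (c - r) / ε = 2 * ((c - r) / ε) := by ring
      rw [this]
      linarith [hk'.2, hk'.1]
    have hkb : k ≤ b := by
      rw [hb, Int.le_floor]
      have : 2 * (c + r) / ε = 2 * ((c + r) / ε) := by ring
      rw [this]
      linarith [hk'.2, hk'.1]
    simp only [mem_iUnion]
    refine ⟨k, Finset.mem_Icc.2 ⟨hka, hkb⟩, ?_⟩
    rw [Metric.mem_ball, Real.dist_eq]
    have h3 : t - (k : ℝ) * (ε / 2) = (t / ε - k / 2) * ε := by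
      field_simp
    rw [h3, abs_mul, abs_of_pos hε]
    exact mul_lt_mul_of_pos_right hk hε
  have hcard : ((Finset.Icc a b).card : ℝ) ≤ 6 * r / ε := by
    rw [Int.card_Icc]
    have h1 : (b : ℝ) ≤ 2 * (c + r) / ε + 1 / 2 := Int.floor_le _
    have h2 : 2 * (c - r) / ε - 1 / 2 ≤ (a : ℝ) := Int.le_ceil _
    have h3 : 2 * (c + r) / ε - 2 * (c - r) / ε = 4 * (r / ε) := by ring
    have h4 : 1 ≤ r / ε := (one_le_div hε).2 hr
    have h5 : 6 * r / ε = 6 * (r / ε) := by ring
    have h6 : ((b + 1 - a).toNat : ℝ) = ((max (b + 1 - a) 0 : ℤ) : ℝ) := by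
      rw [← Int.toNat_eq_max, Int.cast_natCast]
    rw [h6, h5]
    push_cast
    refine max_le ?_ ?_
    · linarith
    · linarith
  calc volume (Icc (c - r) (c + r) ∩ strip ε η)
      ≤ volume (⋃ k ∈ Finset.Icc a b, Metric.ball ((k : ℝ) * (ε / 2)) (4 * η * ε)) :=
        measure_mono hsub
    _ ≤ ∑ k ∈ Finset.Icc a b, volume (Metric.ball ((k : ℝ) * (ε / 2)) (4 * η * ε)) :=
        measure_biUnion_finset_le _ _
    _ = ∑ _k ∈ Finset.Icc a b, ENNReal.ofReal (2 * (4 * η * ε)) := by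
        refine Finset.sum_congr rfl fun k _ => ?_
        rw [Real.volume_ball]
    _ = ENNReal.ofReal (((Finset.Icc a b).card : ℝ) * (2 * (4 * η * ε))) := by
        rw [Finset.sum_const, nsmul_eq_mul,
          ENNReal.ofReal_mul (Nat.cast_nonneg (Finset.Icc a b).card), ENNReal.ofReal_natCast]
    _ ≤ ENNReal.ofReal (48 * r * η) := by
        refine ENNReal.ofReal_le_ofReal ?_
        calc ((Finset.Icc a b).card : ℝ) * (2 * (4 * η * ε))
            ≤ 6 * r / ε * (2 * (4 * η * ε)) :=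
              mul_le_mul_of_nonneg_right hcard (by positivity)
          _ = 48 * r * η := by field_simp; ring

/-- the volume of a product set -/
theorem box_vol {m : ℕ} (S : Fin m → Set ℝ) :
    volume {x : Eu m | ∀ j, x j ∈ S j} = ∏ j, volume (S j) := by
  have h1 : {x : Eu m | ∀ j, x j ∈ S j} =
      (MeasurableEquiv.toLp 2 (Fin m → ℝ)).symm ⁻¹' (Set.univ.pi S) := by
    ext x
    simp [Set.mem_pi]
  rw [h1, (EuclideanSpace.volume_preserving_symm_measurableEquiv_toLp
    (Fin m)).measure_preimage_equiv, volume_pi, Measure.pi_pi]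

variable {n : ℕ}

/-- the cut-off function -/
def X (ξ : ℝ → ℝ) (ε : ℝ) (x : Eu (n + n)) : ℝ := ∏ i : Fin n, ξ (x (Fin.natAdd n i) / ε)

theorem X_smooth {ξ : ℝ → ℝ} (h : ContDiff ℝ ∞ ξ) (ε : ℝ) :
    ContDiff ℝ ∞ (X (n := n) ξ ε) := by
  unfold X
  refine contDiff_prod fun i _ => ?_
  refine h.comp ?_
  have : ContDiff ℝ ∞ (fun x : Eu (n + n) => x (Fin.natAdd n i)) :=
    (EuclideanSpace.proj (𝕜 := ℝ) (Fin.natAdd n i) : Eu (n + n) →L[ℝ] ℝ).contDiff
  exact this.div_const ε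

theorem X_fderiv {ξ : ℝ → ℝ} (h : ContDiff ℝ ∞ ξ) {B ε : ℝ} (hε : 0 < ε)
    (h01 : ∀ x, 0 ≤ ξ x ∧ ξ x ≤ 1) (hB : ∀ x, |deriv ξ x| ≤ B) (x : Eu (n + n)) :
    ‖fderiv ℝ (X (n := n) ξ ε) x‖ ≤ n * (B / ε) := by
  classical
  have hB0 : 0 ≤ B := (abs_nonneg _).trans (hB 0)
  have h1 : ∀ i : Fin n, HasFDerivAt (fun x : Eu (n + n) => ξ (x (Fin.natAdd n i) / ε))
      ((deriv ξ (x (Fin.natAdd n i) / ε) / ε) •
        (EuclideanSpace.proj (𝕜 := ℝ) (Fin.natAdd n i) : Eu (n + n) →L[ℝ] ℝ)) x := by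
    intro i
    have ha : HasFDerivAt (fun x : Eu (n + n) => x (Fin.natAdd n i) / ε)
        (ε⁻¹ • (EuclideanSpace.proj (𝕜 := ℝ) (Fin.natAdd n i) : Eu (n + n) →L[ℝ] ℝ)) x := by
      have := ((EuclideanSpace.proj (𝕜 := ℝ) (Fin.natAdd n i) :
        Eu (n + n) →L[ℝ] ℝ).hasFDerivAt (x := x)).const_mul ε⁻¹
      refine this.congr_of_eventuallyEq (Filter.Eventually.of_forall fun y => ?_)
      simp [div_eq_inv_mul]
    have hb : HasDerivAt ξ (deriv ξ (x (Fin.natAdd n i) / ε)) (x (Fin.natAdd n i) / ε) :=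
      ((h.differentiable (by simp)) _).hasDerivAt
    have hc := hb.comp_hasFDerivAt x ha
    refine hc.congr_fderiv ?_
    rw [smul_smul, ← div_eq_mul_inv]
  have h2 := HasFDerivAt.finsetProd (u := (Finset.univ : Finset (Fin n)))
    (g := fun i (x : Eu (n + n)) => ξ (x (Fin.natAdd n i) / ε)) (x := x) (fun i _ => h1 i)
  have h3 : fderiv ℝ (X (n := n) ξ ε) x = _ := h2.fderiv
  rw [h3]
  refine (norm_sum_le _ _).trans ?_
  have h4 : ∀ i ∈ (Finset.univ : Finset (Fin n)),
      ‖(∏ j ∈ Finset.univ.erase i, ξ (x (Fin.natAdd n j) / ε)) •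
        ((deriv ξ (x (Fin.natAdd n i) / ε) / ε) •
          (EuclideanSpace.proj (𝕜 := ℝ) (Fin.natAdd n i) : Eu (n + n) →L[ℝ] ℝ))‖ ≤ B / ε := by
    intro i _
    rw [norm_smul, norm_smul]
    have ha : ‖∏ j ∈ Finset.univ.erase i, ξ (x (Fin.natAdd n j) / ε)‖ ≤ 1 := by
      rw [norm_prod]
      refine Finset.prod_le_one (fun _ _ => norm_nonneg _) fun j _ => ?_
      rw [Real.norm_eq_abs, abs_of_nonneg (h01 _).1]
      exact (h01 _).2
    have hb : ‖deriv ξ (x (Fin.natAdd n i) / ε) / ε‖ ≤ B / ε := by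
      rw [norm_div, Real.norm_eq_abs, Real.norm_eq_abs, abs_of_pos hε]
      exact div_le_div_of_nonneg_right (hB _) hε.le
    have hc : ‖(EuclideanSpace.proj (𝕜 := ℝ) (Fin.natAdd n i) : Eu (n + n) →L[ℝ] ℝ)‖ ≤ 1 := by
      refine ContinuousLinearMap.opNorm_le_bound _ zero_le_one fun y => ?_
      rw [one_mul]
      exact PiLp.norm_apply_le y (Fin.natAdd n i)
    calc _ ≤ 1 * (B / ε * 1) := by
          refine mul_le_mul ha (mul_le_mul hb hc (norm_nonneg _) (by positivity))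
            (by positivity) zero_le_one
      _ = B / ε := by ring
  refine (Finset.sum_le_sum h4).trans ?_
  rw [Finset.sum_const, Finset.card_univ, Fintype.card_fin, nsmul_eq_mul]

theorem X_supp {ξ : ℝ → ℝ} {ε η : ℝ}
    (h : ∀ x : ℝ, (∀ k : ℤ, 4 * η ≤ |x - k / 2|) → ∀ᶠ y in 𝓝 x, ξ y = 0) {x : Eu (n + n)}
    (hx : x ∈ tsupport (X (n := n) ξ ε)) (i : Fin n) :
    x (Fin.natAdd n i) ∈ strip ε η := by
  by_contra hcon
  have h1 : ∀ k : ℤ, 4 * η ≤ |x (Fin.natAdd n i) / ε - k / 2| := by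
    intro k
    by_contra hk
    exact hcon ⟨k, not_le.1 hk⟩
  have h2 := h _ h1
  have hcont : Continuous (fun z : Eu (n + n) => z (Fin.natAdd n i) / ε) := by fun_prop
  have h3 : ∀ᶠ z : Eu (n + n) in 𝓝 x, ξ (z (Fin.natAdd n i) / ε) = 0 :=
    hcont.continuousAt.eventually h2
  have h4 : x ∉ tsupport (X (n := n) ξ ε) := by
    rw [notMem_tsupport_iff_eventuallyEq]
    filter_upwards [h3] with z hz
    exact Finset.prod_eq_zero (Finset.mem_univ i) hz
  exact h4 hx

end ExXA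

open ExXA in
theorem exX (K : Kap) : ExX := by
  intro n
  obtain ⟨C0, hC0, hK⟩ := K
  refine ⟨n * C0 + 96 ^ n, by positivity, fun ε η hε hη hη2 => ?_⟩
  obtain ⟨-, ξ, hs, h01, hd, h1, h0⟩ := hK η hη hη2
  refine ⟨X ξ ε, X_smooth hs ε, fun x => ?_, fun x => ?_, fun x hx => ?_, fun c r hr => ?_⟩
  · refine ⟨Finset.prod_nonneg fun i _ => (h01 _).1, ?_⟩
    exact Finset.prod_le_one (fun i _ => (h01 _).1) fun i _ => (h01 _).2
  · refine (X_fderiv hs hε h01 hd x).trans ?_
    have : (n : ℝ) * (C0 / η / ε) = n * C0 / (η * ε) := by field_simp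
    rw [this]
    refine div_le_div_of_nonneg_right ?_ (by positivity)
    have : (0 : ℝ) ≤ 96 ^ n := by positivity
    linarith
  · refine Finset.prod_eq_one fun i _ => ?_
    obtain ⟨k, hk⟩ := hx i
    refine h1 _ k ?_
    have h3 : x (Fin.natAdd n i) / ε - k / 2 = (x (Fin.natAdd n i) - k * (ε / 2)) / ε := by
      field_simp
    rw [h3, abs_div, abs_of_pos hε, div_lt_iff₀ hε]
    nlinarith [mul_pos hη hε]
  · have hr0 : 0 < r := lt_of_lt_of_le hε hr
    let S : Fin (n + n) → Set ℝ := Fin.append (fun i : Fin n =>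
      Icc (c (Fin.castAdd n i) - r) (c (Fin.castAdd n i) + r)) (fun i : Fin n =>
      Icc (c (Fin.natAdd n i) - r) (c (Fin.natAdd n i) + r) ∩ strip ε η)
    have hsub : tsupport (X ξ ε) ∩ Metric.closedBall c r ⊆ {x : Eu (n + n) | ∀ j, x j ∈ S j} := by
      rintro x ⟨hx, hxc⟩ j
      have hcoord : ∀ j, x j ∈ Icc (c j - r) (c j + r) := by
        intro j
        have h2 : ‖(x - c) j‖ ≤ ‖x - c‖ := PiLp.norm_apply_le (x - c) j
        rw [Metric.mem_closedBall, dist_eq_norm] at hxc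
        have h4 : |x j - c j| ≤ r := by
          have : ‖(x - c) j‖ = |x j - c j| := by simp [Real.norm_eq_abs]
          rw [← this]; exact h2.trans hxc
        have h5 := abs_le.1 h4
        constructor <;> linarith [h5.1, h5.2]
      refine Fin.addCases (fun i => ?_) (fun i => ?_) j
      · simp only [S, Fin.append_left]
        exact hcoord _
      · simp only [S, Fin.append_right]
        exact ⟨hcoord _, X_supp h0 hx i⟩
    refine (measure_mono hsub).trans ?_
    rw [box_vol, Fin.prod_univ_add]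
    have hA : ∏ i : Fin n, volume (S (Fin.castAdd n i)) ≤ ENNReal.ofReal ((2 * r) ^ n) := by
      have : ∀ i : Fin n, volume (S (Fin.castAdd n i)) = ENNReal.ofReal (2 * r) := by
        intro i
        simp only [S, Fin.append_left]
        rw [Real.volume_Icc]
        congr 1; ring
      rw [Finset.prod_congr rfl fun i _ => this i, Finset.prod_const, Finset.card_univ,
        Fintype.card_fin, ENNReal.ofReal_pow (by positivity)]
    have hB : ∏ i : Fin n, volume (S (Fin.natAdd n i)) ≤ ENNReal.ofReal ((48 * r * η) ^ n) := by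
      have : ∀ i ∈ (Finset.univ : Finset (Fin n)),
          volume (S (Fin.natAdd n i)) ≤ ENNReal.ofReal (48 * r * η) := by
        intro i _
        simp only [S, Fin.append_right]
        exact strip_vol hε hη hη2 hr
      refine (Finset.prod_le_prod' this).trans ?_
      rw [Finset.prod_const, Finset.card_univ, Fintype.card_fin,
        ENNReal.ofReal_pow (by positivity)]
    refine (mul_le_mul' hA hB).trans ?_
    rw [← ENNReal.ofReal_mul (by positivity)]
    refine ENNReal.ofReal_le_ofReal ?_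
    have h5 : (2 * r) ^ n * (48 * r * η) ^ n = 96 ^ n * r ^ (2 * n) * η ^ n := by
      rw [← mul_pow, pow_mul, ← mul_pow, ← mul_pow]
      congr 1; ring
    rw [h5]
    have h6 : (96 : ℝ) ^ n ≤ n * C0 + 96 ^ n := by
      have : 0 ≤ (n : ℝ) * C0 := by positivity
      linarith
    gcongr

end

end SV
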