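import Pool.Agent.H6.SV.St
import Pool.Agent.H68.GM.Tr

/-!
# Project SV: the vanishing theorem for symplectic diffeomorphisms
-/

set_option autoImplicit false

open MeasureTheory Set Filter Topology Pool.Agent.H68.VD Pool.Agent.H68.GM
open scoped ENNReal ContDiff

namespace SV

noncomputable section

namespace FinA

variable {n : ℕ} {M : Type} [TopologicalSpace M] {ι : Type}

/-- Hamiltonian fields are approximable. -/
theorem apx_of_ham (GA : GApx) (HP : HamP) (AK : ApxK) (hn : 1 ≤ n) [T2Space M] [CompactSpace M]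
    [ConnectedSpace M] [Fintype ι] {ch : ι → OpenPartialHomeomorph M (Eu (n + n))}
    (hS : SympAtlas ch) {χ : ι → Eu (n + n) → ℝ} (hχ : PartUnity ch χ) {Λ : ℝ} (hΛ : 1 ≤ Λ)
    {X : ι → Eu (n + n) → Eu (n + n)} (hX : IsHam ch X) : Apx ch Λ X := by
  obtain ⟨f, hf, h0, hfX⟩ := HP n M ι ch hS χ hχ X hX
  exact AK.congr n M ι ch Λ _ X (GA n hn M ι ch hS Λ hΛ f hf h0) fun j y hy => (hfX j y hy).symm

/-- paths of Hamiltonian fields have length zero -/
theorem vanish (F : MFamKit) (SF : SFk) (CK : SCk) (SM : SMain) (GA : GApx) (HP : HamP)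
    (AK : ApxK) (hn : 1 ≤ n) [T2Space M] [CompactSpace M] [ConnectedSpace M] [Fintype ι]
    {ch : ι → OpenPartialHomeomorph M (Eu (n + n))} (hS : SympAtlas ch)
    {χ : ι → Eu (n + n) → ℝ} (hχ : PartUnity ch χ)
    {N : (ι → Eu (n + n) → Eu (n + n)) → ℝ≥0∞} {σ p : ℝ} (hp : 1 < p) (hσ0 : 0 < σ)
    (hσ1 : σ < 1) (hσ : σ < n / p) (hN : SWeak ch N σ p) (φ : ℝ → M → M) (hφ : SPath ch φ)
    (hex : ∀ t, IsHam ch (mvel ch φ t)) : spdist ch N (φ 0) (φ 1) = 0 := by
  have hV : VolAtlas ch := SF.vol n M ι ch hS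
  have hφ' : SFam ch φ := (SF.path n M ι ch φ).mp hφ
  obtain ⟨Λ, hΛ, hmain⟩ := SM n hn
  -- the path from the identity
  have h0 : SFam ch (fun _ : ℝ => φ 0) := SF.re n M ι ch ℝ ℝ φ (fun _ => 0) hφ' contDiff_const
  have h0' : SFam ch (fun _ : ℝ => Function.invFun (φ 0)) :=
    SF.inv n M ι ch hS ℝ _ h0
  have hψ : SFam ch (fun t x => φ t (Function.invFun (φ 0) x)) :=
    SF.comp n M ι ch hS ℝ _ _ hφ' h0'
  have hψ0 : (fun x => φ 0 (Function.invFun (φ 0) x)) = id := by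
    funext x
    exact Function.rightInverse_invFun (hφ'.fam.bij 0).2 x
  have hv : ∀ t, mvel ch (fun t x => φ t (Function.invFun (φ 0) x)) t = mvel ch φ t := by
    intro t
    funext i y
    exact F.velConst (n + n) M ι ch φ (Function.invFun (φ 0)) hφ'.fam.bij (h0'.fam.bij 0) t i y
  have hcost := hmain M ι ch hS N σ p hp hσ0 hσ1 hσ hN _ hψ hψ0 (fun t => by
    rw [hv t]
    exact apx_of_ham GA HP AK hn hS hχ hΛ (hex t))
  refine le_antisymm ?_ zero_le
  refine ENNReal.le_of_forall_pos_le_add ?_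
  intro ε hε _
  rw [zero_add]
  refine (CK.dist n M ι ch hS N σ p hN φ hφ ε (hcost ε (by exact_mod_cast hε))).trans ?_
  rw [ENNReal.ofReal_coe_nnreal]

end FinA

open FinA in
/-- The vanishing theorem. -/
theorem svanish_of (F : MFamKit) (SF : SFk) (CK : SCk) (SM : SMain) (GA : GApx) (HP : HamP)
    (AK : ApxK) (SW : SWk) (SVl : SVel) (n : ℕ) (hn : 1 ≤ n) (M : Type) [TopologicalSpace M]
    [T2Space M] [CompactSpace M] [ConnectedSpace M] (ι : Type) [Fintype ι]
    (ch : ι → OpenPartialHomeomorph M (Eu (n + n))) (hS : SympAtlas ch)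
    (χ : ι → Eu (n + n) → ℝ) (hχ : PartUnity ch χ) (s p : ℝ) (hp : 1 < p) (hs : s < 0)
    (hs' : s < -1 + n / p) :
    (∀ φ, SPath ch φ → (∀ t, IsHam ch (mvel ch φ t)) →
      spdist ch (wMan χ s p) (φ 0) (φ 1) = 0) ∧
    ((∀ X, SympFld ch X → IsHam ch X) →
      ∀ f g, SG ch f → SG ch g → spdist ch (wMan χ s p) f g = 0) := by
  have hn0 : (0 : ℝ) < n := by exact_mod_cast hn
  have hp0 : 0 < p := by linarith
  have hnp : 0 < (n : ℝ) / p := by positivity
  obtain ⟨σ, hσ0, hσ1, hσs, hσn⟩ : ∃ σ : ℝ, 0 < σ ∧ σ < 1 ∧ 1 + s ≤ σ ∧ σ < n / p := by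
    refine ⟨max (1 + s) (min 1 (n / p) / 2), ?_, ?_, le_max_left _ _, ?_⟩
    · exact lt_max_of_lt_right (by positivity)
    · refine max_lt (by linarith) ?_
      have := min_le_left (1 : ℝ) (n / p)
      linarith
    · refine max_lt (by linarith) ?_
      have := min_le_right (1 : ℝ) (n / p)
      linarith
  have hN : SWeak ch (wMan χ s p) σ p := by
    rw [TrB.wMan_neg χ s p hs]
    exact SW n M ι ch hS χ hχ s p σ hn hs hp hσ0 hσ1 hσs
  refine ⟨fun φ hφ hex => vanish F SF CK SM GA HP AK hn hS hχ hp hσ0 hσ1 hσn hN φ hφ hex, ?_⟩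
  intro hall f g hf hg
  obtain ⟨φ, h1, h2, rfl⟩ := hf
  obtain ⟨ψ, h3, h4, rfl⟩ := hg
  have h1' : SFam ch φ := (SF.path n M ι ch φ).mp h1
  have h3' : SFam ch ψ := (SF.path n M ι ch ψ).mp h3
  -- the path from `φ 1` to `ψ 1`
  have hA : SFam ch (fun t x => ψ t (Function.invFun (φ t) (φ 1 x))) := by
    have h5 : SFam ch (fun _ : ℝ => φ 1) := SF.re n M ι ch ℝ ℝ φ (fun _ => 1) h1' contDiff_const
    exact SF.comp n M ι ch hS ℝ _ _ h3' (SF.comp n M ι ch hS ℝ _ _
      (SF.inv n M ι ch hS ℝ φ h1') h5)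
  have hfld := fun t => SVl n M ι ch hS _ hA t
  have h6 := vanish F SF CK SM GA HP AK hn hS hχ hp hσ0 hσ1 hσn hN _
    ((SF.path n M ι ch _).mpr hA) fun t => hall _ (hfld t)
  have h7 : (fun x => ψ 0 (Function.invFun (φ 0) (φ 1 x))) = φ 1 := by
    funext x
    have h8 : Function.invFun (id : M → M) (φ 1 x) = φ 1 x :=
      Function.leftInverse_invFun Function.injective_id _
    rw [h2, h4, h8, id]
  have h9 : (fun x => ψ 1 (Function.invFun (φ 1) (φ 1 x))) = ψ 1 := by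
    funext x
    rw [Function.leftInverse_invFun (h1'.fam.bij 1).1 x]
  simp only [h7, h9] at h6
  exact h6

end

end SV
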