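import Pool.Agent.H6.SV.St
import Pool.Agent.SFl.Exi

/-!
# Project SV: existence and uniqueness of flows
-/

set_option autoImplicit false

open MeasureTheory Set Filter Topology Pool.Agent.H68.VD Pool.Agent.H68.GM
open scoped ENNReal ContDiff

namespace SV

namespace FlowEA

open SFl

variable {E : Type} [NormedAddCommGroup E] [NormedSpace ℝ E] [FiniteDimensional ℝ E]

/-- the field cut off outside a large set -/
theorem cut {u : ℝ × E → E} (hu : ContDiff ℝ ∞ u) (R : ℝ) :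
    ∃ v : ℝ × E → E, ContDiff ℝ ∞ v ∧ HasCompactSupport v ∧ (∀ t x, |t| ≤ R → ‖x‖ ≤ R →
      v (t, x) = u (t, x)) ∧ ∀ z, ‖v z‖ ≤ ‖u z‖ := by
  let f : ContDiffBump (0 : ℝ × E) := ⟨max R 1, max R 1 + 1, by positivity, by linarith⟩
  refine ⟨fun z => f z • u z, f.contDiff.smul hu, f.hasCompactSupport.smul_right, ?_, ?_⟩
  · intro t x ht hx
    have h1 : f (t, x) = 1 := by
      apply f.one_of_mem_closedBall
      rw [mem_closedBall_zero_iff, Prod.norm_mk, Real.norm_eq_abs]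
      exact max_le (ht.trans (le_max_left _ _)) (hx.trans (le_max_left _ _))
    simp only [h1, one_smul]
  · intro z
    simp only []
    rw [norm_smul, Real.norm_eq_abs, abs_of_nonneg f.nonneg]
    exact mul_le_of_le_one_left (norm_nonneg _) f.le_one

/-- compactly supported fields are Lipschitz -/
theorem lip {v : ℝ × E → E} (hv : ContDiff ℝ ∞ v) (hvs : HasCompactSupport v) :
    ∃ L : ℝ, ∀ t x y, ‖v (t, x) - v (t, y)‖ ≤ L * ‖x - y‖ := by
  obtain ⟨C, hC⟩ := ContDiff.lipschitzWith_of_hasCompactSupport hvs hv (by simp)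
  refine ⟨C, fun t x y => ?_⟩
  have h := hC.norm_sub_le (t, x) (t, y)
  simpa [Prod.norm_mk] using h

/-- compactly supported fields have smooth flows -/
theorem exc (h : FlowS) {v : ℝ × E → E} (hv : ContDiff ℝ ∞ v) (hvs : HasCompactSupport v) :
    ∃ ψ : ℝ → E → E, IsFlow v ψ ∧ ContDiff ℝ ∞ (fun z : ℝ × E => ψ z.1 z.2) := by
  obtain ⟨L, hL⟩ := lip hv hvs
  obtain ⟨C, hC⟩ := hv.continuous.bounded_above_of_compact_support hvs
  have key : ∀ s : ℝ, ∃ ψ : ℝ → E → E, IsFlow (fun z : ℝ × E => v (s + z.1, z.2)) ψ := by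
    intro s
    refine exists_flow (L := L) (M := C) ?_ (fun t x y => hL _ _ _) (fun z => hC _)
    exact hv.continuous.comp (by fun_prop)
  choose ψ hψ using key
  have hF : ContDiff ℝ ∞ (fun z : E × ℝ => ((v (z.2, z.1), (1 : ℝ)) : E × ℝ)) :=
    (hv.comp (contDiff_snd.prodMk contDiff_fst)).prodMk contDiff_const
  have h1 := h (E × ℝ) _ hF (fun z t => (ψ z.2 t z.1, z.2 + t))
    (fun z => by simp [(hψ z.2).zero])
    (fun z t => by
      have h2 := (hψ z.2).deriv t z.1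
      have h3 : HasDerivAt (fun t : ℝ => z.2 + t) 1 t := by
        simpa using (hasDerivAt_id t).const_add z.2
      exact h2.prodMk h3)
  refine ⟨ψ 0, ⟨(hψ 0).zero, fun t x => by simpa using (hψ 0).deriv t x⟩, ?_⟩
  have h4 : ContDiff ℝ ∞ (fun z : ℝ × E => (((z.2, (0 : ℝ)), z.1) : (E × ℝ) × ℝ)) :=
    (contDiff_snd.prodMk contDiff_const).prodMk contDiff_fst
  exact contDiff_fst.comp (h1.comp h4)

/-- uniqueness on a symmetric open interval -/
theorem uni {u : ℝ × E → E} (hu : ContDiff ℝ ∞ u) {T : ℝ} {γ γ' : ℝ → E} (h0 : γ 0 = γ' 0)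
    (hγ : ∀ t ∈ Ioo (-T) T, HasDerivAt γ (u (t, γ t)) t)
    (hγ' : ∀ t ∈ Ioo (-T) T, HasDerivAt γ' (u (t, γ' t)) t) :
    ∀ t ∈ Ioo (-T) T, γ t = γ' t := by
  intro t ht
  have hat : |t| < T := abs_lt.2 ht
  obtain ⟨T', h1, h2⟩ := exists_between hat
  have hsub : Icc (-T') T' ⊆ Ioo (-T) T := fun s hs => ⟨by linarith [hs.1], by linarith [hs.2]⟩
  have hb : ∀ {g : ℝ → E}, (∀ t ∈ Ioo (-T) T, HasDerivAt g (u (t, g t)) t) →
      ∃ B, ∀ s ∈ Icc (-T') T', ‖g s‖ ≤ B := by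
    intro g hg
    have hc : ContinuousOn g (Icc (-T') T') := fun s hs =>
      (hg s (hsub hs)).continuousAt.continuousWithinAt
    exact isCompact_Icc.exists_bound_of_continuousOn hc
  obtain ⟨B, hB⟩ := hb hγ
  obtain ⟨B', hB'⟩ := hb hγ'
  obtain ⟨v, hv, hvs, hvu, -⟩ := cut hu (max T' (max B B'))
  obtain ⟨L, hL⟩ := lip hv hvs
  have hcv : ∀ {g : ℝ → E}, (∀ t ∈ Ioo (-T) T, HasDerivAt g (u (t, g t)) t) →
      (∀ s ∈ Icc (-T') T', ‖g s‖ ≤ max B B') →
      ∀ t ∈ Ioo (-T') T', HasDerivAt g (v (t, g t)) t := by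
    intro g hg hgb s hs
    rw [hvu s (g s) ((abs_lt.2 hs).le.trans (le_max_left _ _))
      ((hgb s ⟨hs.1.le, hs.2.le⟩).trans (le_max_right _ _))]
    exact hg s (hsub ⟨hs.1.le, hs.2.le⟩)
  exact curve_unique hL h0 (hcv hγ fun s hs => (hB s hs).trans (le_max_left _ _))
    (hcv hγ' fun s hs => (hB' s hs).trans (le_max_right _ _)) t (abs_lt.1 h1)

/-- uniqueness on a closed interval starting at zero -/
theorem uniC {u : ℝ × E → E} (hu : ContDiff ℝ ∞ u) {b : ℝ} {γ γ' : ℝ → E} (h0 : γ 0 = γ' 0)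
    (hγ : ∀ t ∈ Icc 0 b, HasDerivAt γ (u (t, γ t)) t)
    (hγ' : ∀ t ∈ Icc 0 b, HasDerivAt γ' (u (t, γ' t)) t) :
    ∀ t ∈ Icc 0 b, γ t = γ' t := by
  have hb : ∀ {g : ℝ → E}, (∀ t ∈ Icc 0 b, HasDerivAt g (u (t, g t)) t) →
      ContinuousOn g (Icc 0 b) := fun hg s hs => (hg s hs).continuousAt.continuousWithinAt
  obtain ⟨B, hB⟩ := isCompact_Icc.exists_bound_of_continuousOn (hb hγ)
  obtain ⟨B', hB'⟩ := isCompact_Icc.exists_bound_of_continuousOn (hb hγ')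
  obtain ⟨v, hv, hvs, hvu, -⟩ := cut hu (max b (max B B'))
  obtain ⟨L, hL⟩ := lip hv hvs
  have hcv : ∀ {g : ℝ → E}, (∀ t ∈ Icc 0 b, HasDerivAt g (u (t, g t)) t) →
      (∀ s ∈ Icc 0 b, ‖g s‖ ≤ max B B') →
      ∀ t ∈ Ico 0 b, HasDerivWithinAt g (v (t, g t)) (Ici t) t := by
    intro g hg hgb s hs
    rw [hvu s (g s) ((abs_of_nonneg hs.1).le.trans (hs.2.le.trans (le_max_left _ _)))
      ((hgb s ⟨hs.1, hs.2.le⟩).trans (le_max_right _ _))]
    exact (hg s ⟨hs.1, hs.2.le⟩).hasDerivWithinAt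
  intro t ht
  exact ODE_solution_unique_of_mem_Icc_right (v := fun t x => v (t, x)) (s := fun _ => univ)
    (K := L.toNNReal) (f := γ) (g := γ') (a := 0) (b := b)
    (fun t _ => (exi_lip hL t).lipschitzOnWith) (hb hγ)
    (hcv hγ fun s hs => (hB s hs).trans (le_max_left _ _)) (fun _ _ => trivial) (hb hγ')
    (hcv hγ' fun s hs => (hB' s hs).trans (le_max_right _ _)) (fun _ _ => trivial) h0 ht

/-- speed bound -/
theorem move {v : ℝ × E → E} {ψ : ℝ → E → E} (hψ : IsFlow v ψ) {T M : ℝ}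
    (hb : ∀ t x, |t| ≤ T → ‖v (t, x)‖ ≤ M) {t : ℝ} (ht : |t| ≤ T) (x : E) :
    ‖ψ t x - x‖ ≤ M * |t| := by
  have hT : 0 ≤ T := (abs_nonneg t).trans ht
  have h := (convex_Icc (-T) T).norm_image_sub_le_of_norm_hasDerivWithin_le
    (f := fun τ => ψ τ x) (f' := fun τ => v (τ, ψ τ x)) (C := M)
    (fun s hs => (hψ.deriv s x).hasDerivWithinAt) (fun s hs => hb s _ (abs_le.2 hs))
    (x := 0) (y := t) ⟨by linarith, hT⟩ (abs_le.1 ht)
  simpa [hψ.zero] using h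

/-- existence of smooth flows of fields bounded for bounded times -/
theorem exs (h : FlowS) {u : ℝ × E → E} (hu : ContDiff ℝ ∞ u)
    (hb : ∀ T : ℝ, ∃ M : ℝ, ∀ t x, |t| ≤ T → ‖u (t, x)‖ ≤ M) :
    ∃ φ : ℝ → E → E, IsFlow u φ ∧ ContDiff ℝ ∞ (fun z : ℝ × E => φ z.1 z.2) := by
  have key : ∀ n : ℕ, ∃ ψ : ℝ → E → E, ContDiff ℝ ∞ (fun z : ℝ × E => ψ z.1 z.2) ∧
      (∀ x, ψ 0 x = x) ∧
      ∀ x, ‖x‖ ≤ n → ∀ t ∈ Ioo (-(n : ℝ)) n, HasDerivAt (fun τ => ψ τ x) (u (t, ψ t x)) t := by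
    intro n
    obtain ⟨M, hM⟩ := hb n
    obtain ⟨v, hv, hvs, hvu, hvb⟩ := cut hu (n + |M| * n)
    obtain ⟨ψ, hψ, hψs⟩ := exc h hv hvs
    refine ⟨ψ, hψs, hψ.zero, fun x hx t ht => ?_⟩
    have hat : |t| ≤ n := (abs_lt.2 ht).le
    have h1 : ‖ψ t x - x‖ ≤ |M| * |t| := move hψ
      (fun s y hs => (hvb _).trans ((hM s y hs).trans (le_abs_self M))) hat x
    have h2 : |M| * |t| ≤ |M| * n := mul_le_mul_of_nonneg_left hat (abs_nonneg _)
    have h3 : ‖ψ t x‖ ≤ n + |M| * n := by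
      have : ‖ψ t x‖ ≤ ‖ψ t x - x‖ + ‖x‖ := by
        simpa using norm_add_le (ψ t x - x) x
      linarith
    have h4 : (0 : ℝ) ≤ |M| * n := by positivity
    rw [← hvu t (ψ t x) (by linarith) h3]
    exact hψ.deriv t x
  choose ψ hψs hψ0 hψd using key
  have agree : ∀ n m : ℕ, n ≤ m → ∀ x, ‖x‖ ≤ n → ∀ t ∈ Ioo (-(n : ℝ)) n, ψ n t x = ψ m t x := by
    intro n m hnm x hx t ht
    have hnm' : (n : ℝ) ≤ m := by exact_mod_cast hnm
    exact uni hu (γ := fun τ => ψ n τ x) (γ' := fun τ => ψ m τ x)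
      (by simp only [hψ0]) (hψd n x hx)
      (fun s hs => hψd m x (hx.trans hnm') s ⟨by linarith [hs.1], by linarith [hs.2]⟩) t ht
  let N : ℝ → E → ℕ := fun t x => ⌈max |t| ‖x‖⌉₊ + 1
  have hN : ∀ (t : ℝ) (x : E), |t| < (N t x : ℝ) ∧ ‖x‖ ≤ N t x := by
    intro t x
    have h := Nat.le_ceil (max |t| ‖x‖)
    have h1 : (N t x : ℝ) = (⌈max |t| ‖x‖⌉₊ : ℝ) + 1 := by push_cast [N]; ring
    rw [h1]
    exact ⟨by linarith [le_max_left |t| ‖x‖], by linarith [le_max_right |t| ‖x‖]⟩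
  have heq : ∀ n : ℕ, ∀ (t : ℝ) (x : E), |t| < (n : ℝ) → ‖x‖ ≤ n → ψ (N t x) t x = ψ n t x := by
    intro n t x ht hx
    obtain ⟨h1, h2⟩ := hN t x
    rw [agree (N t x) (max (N t x) n) (le_max_left _ _) x h2 t (abs_lt.1 h1),
      agree n (max (N t x) n) (le_max_right _ _) x hx t (abs_lt.1 ht)]
  refine ⟨fun t x => ψ (N t x) t x, ⟨fun x => hψ0 _ x, fun t x => ?_⟩, ?_⟩
  · obtain ⟨h1, h2⟩ := hN t x
    have hd := hψd (N t x) x h2 t (abs_lt.1 h1)
    refine hd.congr_of_eventuallyEq ?_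
    filter_upwards [isOpen_Ioo.mem_nhds (abs_lt.1 h1)] with s hs
    exact heq (N t x) s x (abs_lt.2 hs) h2
  · rw [contDiff_iff_contDiffAt]
    rintro ⟨t, x⟩
    obtain ⟨h1, h2⟩ := hN t x
    refine ((hψs (N t x + 1)).contDiffAt (x := (t, x))).congr_of_eventuallyEq ?_
    have hc : ((N t x + 1 : ℕ) : ℝ) = (N t x : ℝ) + 1 := by push_cast; ring
    have ho1 : IsOpen {z : ℝ × E | |z.1| < ((N t x + 1 : ℕ) : ℝ)} :=
      isOpen_lt (continuous_abs.comp continuous_fst) continuous_const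
    have ho2 : IsOpen {z : ℝ × E | ‖z.2‖ < ((N t x + 1 : ℕ) : ℝ)} :=
      isOpen_lt (continuous_norm.comp continuous_snd) continuous_const
    have hm1 : |(t, x).1| < ((N t x + 1 : ℕ) : ℝ) := by rw [hc]; linarith
    have hm2 : ‖(t, x).2‖ < ((N t x + 1 : ℕ) : ℝ) := by rw [hc]; linarith
    filter_upwards [ho1.mem_nhds hm1, ho2.mem_nhds hm2] with z hz1 hz2
    exact heq (N t x + 1) z.1 z.2 hz1 (le_of_lt hz2)

/-- the maps of a flow are bijective -/
theorem bij (h : FlowS) {u : ℝ × E → E} (hu : ContDiff ℝ ∞ u)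
    (hb : ∀ T : ℝ, ∃ M : ℝ, ∀ t x, |t| ≤ T → ‖u (t, x)‖ ≤ M) {φ : ℝ → E → E} (hφ : IsFlow u φ)
    (t : ℝ) : Function.Bijective (φ t) := by
  have hw : ContDiff ℝ ∞ (fun z : ℝ × E => -u (t - z.1, z.2)) := by
    apply ContDiff.neg
    exact hu.comp ((contDiff_const.sub contDiff_fst).prodMk contDiff_snd)
  have hwb : ∀ T : ℝ, ∃ M : ℝ, ∀ s x, |s| ≤ T →
      ‖(fun z : ℝ × E => -u (t - z.1, z.2)) (s, x)‖ ≤ M := by
    intro T
    obtain ⟨M, hM⟩ := hb (|t| + T)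
    refine ⟨M, fun s x hs => ?_⟩
    simp only [norm_neg]
    exact hM _ _ ((abs_sub t s).trans (by linarith))
  have hsub : ∀ s : ℝ, HasDerivAt (fun r : ℝ => t - r) (-1) s := fun s => by
    simpa using (hasDerivAt_id s).const_sub t
  constructor
  · intro x x' hxx
    have hd : ∀ y, ∀ s ∈ Ioo (-(|t| + 1)) (|t| + 1), HasDerivAt (fun r => φ (t - r) y)
        ((fun z : ℝ × E => -u (t - z.1, z.2)) (s, (fun r => φ (t - r) y) s)) s := by
      intro y s _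
      have := (hφ.deriv (t - s) y).scomp s (hsub s)
      simpa [Function.comp_def] using this
    have h := uni hw (γ := fun r => φ (t - r) x) (γ' := fun r => φ (t - r) x')
      (by simpa using hxx) (hd x) (hd x') t (abs_lt.1 (by linarith))
    simpa [hφ.zero] using h
  · intro y
    obtain ⟨ψ, hψ, -⟩ := exs h hw hwb
    refine ⟨ψ t y, ?_⟩
    have hd : ∀ s ∈ Ioo (-(|t| + 1)) (|t| + 1), HasDerivAt (fun r => ψ (t - r) y)
        (u (s, (fun r => ψ (t - r) y) s)) s := by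
      intro s _
      have := (hψ.deriv (t - s) y).scomp s (hsub s)
      simpa [Function.comp_def] using this
    have h := uni hu (γ := fun r => φ r (ψ t y)) (γ' := fun r => ψ (t - r) y)
      (by simp [hφ.zero]) (fun s _ => hφ.deriv s _) hd t (abs_lt.1 (by linarith))
    simpa [hψ.zero] using h

end FlowEA

theorem flowE (h : FlowS) : FlowE := by
  refine ⟨?_, ?_, ?_⟩
  · intro n V c r hV hout
    have hb : ∀ T : ℝ, ∃ M : ℝ, ∀ t x, |t| ≤ T →
        ‖(fun z : ℝ × Eu n => V z.1 z.2) (t, x)‖ ≤ M := by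
      intro T
      obtain ⟨M, hM⟩ := ((isCompact_Icc (a := -T) (b := T)).prod
        (isCompact_closedBall c r)).exists_bound_of_continuousOn hV.continuous.continuousOn
      refine ⟨max M 0, fun t x ht => ?_⟩
      rcases le_total r (dist x c) with hx | hx
      · simp [hout t x hx]
      · exact (hM (t, x) ⟨abs_le.1 ht, hx⟩).trans (le_max_left _ _)
    obtain ⟨T, hT, hTs⟩ := FlowEA.exs h hV hb
    refine ⟨T, hTs, hT.zero, fun t => FlowEA.bij h hV hb hT t, fun t x hx => ?_, hT.deriv⟩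
    refine FlowEA.uni hV (T := |t| + 1) (γ := fun τ => T τ x) (γ' := fun _ => x) (hT.zero x)
      (fun s _ => hT.deriv s x) (fun s _ => ?_) t (abs_lt.1 (by linarith))
    have h1 : V s x = 0 := hout s x hx
    simp only [h1]
    exact hasDerivAt_const s x
  · intro n V hV b γ δ hγ hδ h0
    exact FlowEA.uniC hV h0 hγ hδ
  · intro n V hV γ δ hγ hδ h0 t
    exact FlowEA.uni hV (T := |t| + 1) h0 (fun s _ => hγ s) (fun s _ => hδ s) t
      (abs_lt.1 (by linarith))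

end SV
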