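import Pool.Agent.H6.SV.St
import Pool.Agent.H46.PR.FlowC1

/-!
# Project SV, row SV-3: global flows of smooth fields are smooth
-/

set_option autoImplicit false

open MeasureTheory Set Filter Topology
open scoped ContDiff

namespace SV

namespace FlowSA

variable {W : Type} [NormedAddCommGroup W] [NormedSpace ℝ W] [FiniteDimensional ℝ W]

/-- The derivative of the flow in the initial value solves the linearised equation. -/
theorem var_int {F : W → W} (hF : ContDiff ℝ 1 F) {φ : W → ℝ → W} (h0 : ∀ y, φ y 0 = y)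
    (hφ : ∀ y t, HasDerivAt (φ y) (F (φ y t)) t)
    (hc : ContDiff ℝ 1 (fun p : W × ℝ => φ p.1 p.2)) (y v : W) (t : ℝ) :
    fderiv ℝ (fun p : W × ℝ => φ p.1 p.2) (y, t) (v, 0) =
      v + ∫ s in (0 : ℝ)..t, fderiv ℝ F (φ y s)
        (fderiv ℝ (fun p : W × ℝ => φ p.1 p.2) (y, s) (v, 0)) := by
  have hd : Differentiable ℝ (fun p : W × ℝ => φ p.1 p.2) := hc.differentiable (by norm_num)
  have hdc : Continuous (fderiv ℝ (fun p : W × ℝ => φ p.1 p.2)) := hc.continuous_fderiv (by norm_num)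
  have hFd : Differentiable ℝ F := hF.differentiable (by norm_num)
  have hFc : Continuous (fderiv ℝ F) := hF.continuous_fderiv (by norm_num)
  -- along the line
  have hl : ∀ (l s : ℝ), HasDerivAt (fun l : ℝ => φ (y + l • v) s)
      (fderiv ℝ (fun p : W × ℝ => φ p.1 p.2) (y + l • v, s) (v, 0)) l := by
    intro l s
    have h1 : HasDerivAt (fun l : ℝ => ((y + l • v, s) : W × ℝ)) (v, 0) l := by
      have h2 : HasDerivAt (fun l : ℝ => y + l • v) v l := by
        simpa using ((hasDerivAt_id l).smul_const v).const_add y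
      exact h2.prodMk (hasDerivAt_const l s)
    exact (hd (y + l • v, s)).hasFDerivAt.comp_hasDerivAt l h1
  -- the integral equation
  have hFφ : ∀ z, Continuous (fun s => F (φ z s)) := fun z =>
    hF.continuous.comp (hc.continuous.comp (continuous_const.prodMk continuous_id))
  have hi : ∀ z, φ z t = z + ∫ s in (0 : ℝ)..t, F (φ z s) := by
    intro z
    have h1 := intervalIntegral.integral_eq_sub_of_hasDerivAt (a := 0) (b := t)
      (fun s _ => hφ z s) ((hFφ z).intervalIntegrable 0 t)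
    rw [h1, h0]; abel
  -- the derivative of the integrand
  have hg : Continuous (fun q : ℝ × ℝ => fderiv ℝ F (φ (y + q.1 • v) q.2)
      (fderiv ℝ (fun p : W × ℝ => φ p.1 p.2) (y + q.1 • v, q.2) (v, 0))) := by
    have h1 : Continuous (fun q : ℝ × ℝ => ((y + q.1 • v, q.2) : W × ℝ)) := by fun_prop
    exact (hFc.comp (hc.continuous.comp h1)).clm_apply ((hdc.comp h1).clm_apply continuous_const)
  obtain ⟨B, hB⟩ := ((isCompact_Icc (a := (-1 : ℝ)) (b := 1)).prod
    (isCompact_uIcc (a := (0 : ℝ)) (b := t))).exists_bound_of_continuousOn hg.continuousOn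
  have h3 := (intervalIntegral.hasDerivAt_integral_of_dominated_loc_of_deriv_le
    (μ := volume) (a := 0) (b := t) (x₀ := (0 : ℝ)) (s := Ioo (-1 : ℝ) 1) (bound := fun _ => B)
    (F := fun l s => F (φ (y + l • v) s))
    (F' := fun l s => fderiv ℝ F (φ (y + l • v) s)
      (fderiv ℝ (fun p : W × ℝ => φ p.1 p.2) (y + l • v, s) (v, 0)))
    (Ioo_mem_nhds (by norm_num) (by norm_num))
    (Eventually.of_forall fun l => (hFφ _).aestronglyMeasurable)
    ((hFφ _).intervalIntegrable 0 t)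
    ((hg.comp (continuous_const.prodMk continuous_id)).aestronglyMeasurable)
    (Eventually.of_forall fun s hs l hl' => hB (l, s)
      ⟨⟨hl'.1.le, hl'.2.le⟩, uIoc_subset_uIcc hs⟩)
    intervalIntegrable_const
    (Eventually.of_forall fun s _ l _ => (hFd _).hasFDerivAt.comp_hasDerivAt l (hl l s))).2
  have h4 : HasDerivAt (fun l : ℝ => φ (y + l • v) t) (v + ∫ s in (0 : ℝ)..t,
      fderiv ℝ F (φ (y + (0 : ℝ) • v) s)
        (fderiv ℝ (fun p : W × ℝ => φ p.1 p.2) (y + (0 : ℝ) • v, s) (v, 0))) 0 := by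
    have h5 : HasDerivAt (fun l : ℝ => y + l • v) v 0 := by
      simpa using ((hasDerivAt_id (0 : ℝ)).smul_const v).const_add y
    have h6 := h5.add h3
    refine h6.congr_of_eventuallyEq (Eventually.of_forall fun l => ?_)
    exact hi (y + l • v)
  have h7 := (hl 0 t).unique h4
  simpa using h7

/-- The linearised flow. -/
noncomputable def lin (φ : W → ℝ → W) (z : W × W) (t : ℝ) : W × W :=
  (φ z.1 t, fderiv ℝ (fun p : W × ℝ => φ p.1 p.2) (z.1, t) (z.2, 0))

theorem lin_zero {φ : W → ℝ → W} (h0 : ∀ y, φ y 0 = y)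
    (hc : ContDiff ℝ 1 (fun p : W × ℝ => φ p.1 p.2)) (z : W × W) : lin φ z 0 = z := by
  have hd : Differentiable ℝ (fun p : W × ℝ => φ p.1 p.2) := hc.differentiable (by norm_num)
  have h1 : HasDerivAt (fun l : ℝ => ((z.1 + l • z.2, 0) : W × ℝ)) (z.2, 0) 0 := by
    have h2 : HasDerivAt (fun l : ℝ => z.1 + l • z.2) z.2 0 := by
      simpa using ((hasDerivAt_id (0 : ℝ)).smul_const z.2).const_add z.1
    exact h2.prodMk (hasDerivAt_const _ _)
  have h3 : HasDerivAt (fun l : ℝ => φ (z.1 + l • z.2) 0)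
      (fderiv ℝ (fun p : W × ℝ => φ p.1 p.2) (z.1 + (0 : ℝ) • z.2, 0) (z.2, 0)) 0 :=
    HasFDerivAt.comp_hasDerivAt (f := fun l : ℝ => ((z.1 + l • z.2, 0) : W × ℝ)) (0 : ℝ)
      (hd (z.1 + (0 : ℝ) • z.2, 0)).hasFDerivAt h1
  have h4 : HasDerivAt (fun l : ℝ => z.1 + l • z.2) z.2 0 := by
    simpa using ((hasDerivAt_id (0 : ℝ)).smul_const z.2).const_add z.1
  have h5 := h3.unique (h4.congr_of_eventuallyEq (Eventually.of_forall fun l => h0 _))
  rw [zero_smul, add_zero] at h5
  exact Prod.ext (h0 _) h5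

theorem lin_deriv {F : W → W} (hF : ContDiff ℝ 1 F) {φ : W → ℝ → W} (h0 : ∀ y, φ y 0 = y)
    (hφ : ∀ y t, HasDerivAt (φ y) (F (φ y t)) t)
    (hc : ContDiff ℝ 1 (fun p : W × ℝ => φ p.1 p.2)) (z : W × W) (t : ℝ) :
    HasDerivAt (lin φ z) (F (lin φ z t).1, fderiv ℝ F (lin φ z t).1 (lin φ z t).2) t := by
  refine (hφ z.1 t).prodMk ?_
  have hdc : Continuous (fderiv ℝ (fun p : W × ℝ => φ p.1 p.2)) := hc.continuous_fderiv (by norm_num)
  have hFc : Continuous (fderiv ℝ F) := hF.continuous_fderiv (by norm_num)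
  have hg : Continuous (fun s : ℝ => fderiv ℝ F (φ z.1 s)
      (fderiv ℝ (fun p : W × ℝ => φ p.1 p.2) (z.1, s) (z.2, 0))) := by
    have h1 : Continuous (fun s : ℝ => ((z.1, s) : W × ℝ)) := by fun_prop
    exact (hFc.comp (hc.continuous.comp h1)).clm_apply ((hdc.comp h1).clm_apply continuous_const)
  have h1 := (intervalIntegral.integral_hasDerivAt_right (hg.intervalIntegrable 0 t)
    hg.stronglyMeasurable.stronglyMeasurableAtFilter hg.continuousAt).const_add z.2
  exact h1.congr_of_eventuallyEq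
    (Eventually.of_forall fun s => var_int hF h0 hφ hc z.1 z.2 s)

end FlowSA

open FlowSA

/-- Induction on the order of differentiability. -/
theorem flowS_nat (k : ℕ) : ∀ (W : Type) [NormedAddCommGroup W] [NormedSpace ℝ W]
    [FiniteDimensional ℝ W] (F : W → W), ContDiff ℝ (k + 1 : ℕ) F → ∀ φ : W → ℝ → W,
    (∀ y, φ y 0 = y) → (∀ y t, HasDerivAt (φ y) (F (φ y t)) t) →
    ContDiff ℝ (k + 1 : ℕ) (fun p : W × ℝ => φ p.1 p.2) := by
  induction k with
  | zero =>
    intro W _ _ _ F hF φ h0 hφ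
    have hF' : ContDiff ℝ 1 F := by simpa using hF
    simpa using H46.PR.flow_contDiff hF' h0 hφ
  | succ k ih =>
    intro W _ _ _ F hF φ h0 hφ
    have hF1 : ContDiff ℝ 1 F := hF.of_le (by exact_mod_cast Nat.le_add_left 1 (k + 1))
    have hFk : ContDiff ℝ (k + 1 : ℕ) F := hF.of_le (by exact_mod_cast Nat.le_succ (k + 1))
    have hc := H46.PR.flow_contDiff hF1 h0 hφ
    have hDF : ContDiff ℝ (k + 1 : ℕ) (fderiv ℝ F) :=
      hF.fderiv_right (m := (k + 1 : ℕ)) (by exact_mod_cast le_rfl)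
    have hG : ContDiff ℝ (k + 1 : ℕ) (fun z : W × W => ((F z.1, fderiv ℝ F z.1 z.2) : W × W)) :=
      (hFk.comp contDiff_fst).prodMk ((hDF.comp contDiff_fst).clm_apply contDiff_snd)
    have hψ := ih (W × W) _ hG (lin φ) (lin_zero h0 hc) (lin_deriv hF1 h0 hφ hc)
    have hΦ : ContDiff ℝ (k + 1 : ℕ) (fun p : W × ℝ => φ p.1 p.2) := by
      have h1 : ContDiff ℝ (k + 1 : ℕ) (fun p : W × ℝ => (((p.1, (0 : W)), p.2) : (W × W) × ℝ)) :=
        (contDiff_fst.prodMk contDiff_const).prodMk contDiff_snd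
      exact contDiff_fst.comp (hψ.comp h1)
    have e : ((k + 1 + 1 : ℕ) : WithTop ℕ∞) = ((k + 1 : ℕ) : WithTop ℕ∞) + 1 := by push_cast; rfl
    rw [e, contDiff_succ_iff_fderiv]
    refine ⟨hc.differentiable (by norm_num), fun h => absurd h (by exact_mod_cast WithTop.coe_ne_top), ?_⟩
    rw [contDiff_clm_apply_iff]
    intro w
    have h2 : ContDiff ℝ (k + 1 : ℕ) (fun p : W × ℝ =>
        fderiv ℝ (fun p : W × ℝ => φ p.1 p.2) p (w.1, 0)) := by
      have h1 : ContDiff ℝ (k + 1 : ℕ) (fun p : W × ℝ => (((p.1, w.1), p.2) : (W × W) × ℝ)) :=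
        (contDiff_fst.prodMk contDiff_const).prodMk contDiff_snd
      exact contDiff_snd.comp (hψ.comp h1)
    have h3 : ∀ p : W × ℝ, fderiv ℝ (fun p : W × ℝ => φ p.1 p.2) p w =
        fderiv ℝ (fun p : W × ℝ => φ p.1 p.2) p (w.1, 0) + w.2 • F (φ p.1 p.2) := by
      intro p
      have hd := (hc.differentiable (by norm_num) p).hasFDerivAt
      have h4 : HasDerivAt (fun t : ℝ => ((p.1, t) : W × ℝ)) (0, 1) p.2 :=
        (hasDerivAt_const _ _).prodMk (hasDerivAt_id _)
      have h5 := hd.comp_hasDerivAt p.2 h4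
      have h6 := h5.unique (hφ p.1 p.2)
      have h7 : w = (w.1, 0) + w.2 • ((0, 1) : W × ℝ) := by
        ext <;> simp
      conv_lhs => rw [h7]
      rw [map_add, map_smul, h6]
    simp_rw [h3]
    exact h2.add ((hFk.comp hΦ).const_smul w.2)

theorem flowS : FlowS := by
  intro W _ _ _ F hF φ h0 hφ
  rw [contDiff_infty]
  intro k
  exact (flowS_nat k W F (hF.of_le (by exact_mod_cast le_top)) φ h0 hφ).of_le
    (by exact_mod_cast Nat.le_succ k)

end SV
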