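import Pool.Agent.H6.SV.St
import Pool.Agent.H68.GM.PushK

/-!
# Project SV, row SV-25: global approximation by cheap fields
-/

set_option autoImplicit false

open MeasureTheory Set Filter Topology Pool.Agent.H68.VD Pool.Agent.H68.GM
open scoped ENNReal ContDiff

namespace SV

noncomputable section

namespace GApxA

variable {n : ℕ} {M : Type} [TopologicalSpace M] {ι : Type}
  {ch : ι → OpenPartialHomeomorph M (Eu (n + n))}

theorem volAtlas (L : LinK) (hA : SympAtlas ch) : VolAtlas ch where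
  cover := hA.cover
  smooth := hA.smooth
  det := fun i j y hy => L.spDet n _ (hA.symp i j y hy)

theorem push_add (ch : ι → OpenPartialHomeomorph M (Eu (n + n))) (i : ι)
    (u v : Eu (n + n) → Eu (n + n)) (j : ι) (y : Eu (n + n)) :
    push ch i (fun y => u y + v y) j y = push ch i u j y + push ch i v j y := by
  unfold push
  by_cases h : y ∈ dom ch j i
  · simp only [if_pos h, map_add]
  · simp only [if_neg h, add_zero]

theorem push_smul (ch : ι → OpenPartialHomeomorph M (Eu (n + n))) (i : ι) (a : ℝ)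
    (u : Eu (n + n) → Eu (n + n)) (j : ι) (y : Eu (n + n)) :
    push ch i (fun y => a • u y) j y = a • push ch i u j y := by
  unfold push
  by_cases h : y ∈ dom ch j i
  · simp only [if_pos h, map_smul]
  · simp only [if_neg h, smul_zero]

/-- the difference of the field of `f` and a multiple of the field `E` -/
def DD (ch : ι → OpenPartialHomeomorph M (Eu (n + n))) (E : ι → Eu (n + n) → Eu (n + n)) (i : ι)
    (f : Eu (n + n) → ℝ) (j : ι) (y : Eu (n + n)) : Eu (n + n) :=
  push ch i (sg f) j y - (∫ x, f x) • E j y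

/-- the functions with support in the ball are good -/
def Gd (ch : ι → OpenPartialHomeomorph M (Eu (n + n))) (Λ : ℝ)
    (E : ι → Eu (n + n) → Eu (n + n)) (i : ι) (c : Eu (n + n)) (r : ℝ) : Prop :=
  ∀ f : Eu (n + n) → ℝ, ContDiff ℝ ∞ f → (∀ x, r ≤ dist x c → f x = 0) → Apx ch Λ (DD ch E i f)

theorem diffAt {f : Eu (n + n) → ℝ} (hf : ContDiff ℝ ∞ f) (y : Eu (n + n)) :
    DifferentiableAt ℝ f y := hf.contDiffAt.differentiableAt (by simp)

theorem integrable_of_ball {f : Eu (n + n) → ℝ} (hf : ContDiff ℝ ∞ f) {c : Eu (n + n)} {r : ℝ}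
    (h0 : ∀ x, r ≤ dist x c → f x = 0) : Integrable f := by
  refine hf.continuous.integrable_of_hasCompactSupport ?_
  refine HasCompactSupport.intro (isCompact_closedBall c r) fun x hx => h0 x ?_
  rw [Metric.mem_closedBall, not_le] at hx
  exact hx.le

theorem dd_add (S : SgK) (E : ι → Eu (n + n) → Eu (n + n)) (i : ι) {f g : Eu (n + n) → ℝ}
    (hf : ContDiff ℝ ∞ f) (hg : ContDiff ℝ ∞ g) (hfi : Integrable f) (hgi : Integrable g)
    (j : ι) (y : Eu (n + n)) :
    DD ch E i (fun x => f x + g x) j y = DD ch E i f j y + DD ch E i g j y := by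
  unfold DD
  have h1 : sg (fun x => f x + g x) = fun y => sg f y + sg g y := by
    funext y
    exact S.add n f g y (diffAt hf y) (diffAt hg y)
  rw [h1, push_add, integral_add hfi hgi, add_smul]
  abel

theorem gd_mono {Λ : ℝ} {E : ι → Eu (n + n) → Eu (n + n)} {i : ι} {c c' : Eu (n + n)}
    {r r' : ℝ} (h : Gd ch Λ E i c r) (hr : dist c' c + r' ≤ r) : Gd ch Λ E i c' r' := by
  intro f hf h0
  refine h f hf fun x hx => h0 x ?_
  have h1 := dist_triangle x c' c
  linarith

/-- a ball of a chart with one good function is good -/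
theorem core (H : LApx) (A : ApxK) (S : SgK) (hn : 1 ≤ n) [T2Space M] [Fintype ι]
    (hA : SympAtlas ch) {Λ : ℝ} (hΛ : 1 ≤ Λ) {E : ι → Eu (n + n) → Eu (n + n)} {i : ι}
    {c : Eu (n + n)} {R : ℝ} (hR : 0 < R) (hc : Metric.closedBall c (2 * R) ⊆ (ch i).target)
    {β : Eu (n + n) → ℝ} (hβ : ContDiff ℝ ∞ β) (h0 : ∀ x, R ≤ dist x c → β x = 0)
    (h1 : ∫ x, β x = 1) (hβA : Apx ch Λ (DD ch E i β)) : Gd ch Λ E i c R := by
  intro f hf hf0
  set a : ℝ := ∫ x, f x with ha
  have hfi : Integrable f := integrable_of_ball hf hf0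
  have hβi : Integrable β := integrable_of_ball hβ h0
  have hg : ContDiff ℝ ∞ (fun x => f x - a * β x) := hf.sub (contDiff_const.mul hβ)
  have h2 := H n hn M ι ch hA Λ hΛ i c R hR hc (fun x => f x - a * β x) hg
    (fun x hx => by rw [hf0 x hx, h0 x hx, mul_zero, sub_zero])
    (by rw [integral_sub hfi (hβi.const_mul a), integral_const_mul, h1, mul_one, ← ha, sub_self])
  refine A.congr n M ι ch Λ _ _ (A.add n M ι ch Λ _ _ h2 (A.smul n M ι ch Λ _ a hβA)) ?_
  intro j y _
  unfold DD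
  have h3 : sg f = fun y => sg (fun x => f x - a * β x) y + a • sg β y := by
    funext y
    rw [S.sub n f (fun x => a * β x) y (diffAt hf y) ((diffAt hβ y).const_mul a),
      S.smul n a β y (diffAt hβ y)]
    abel
  have h4 : push ch i (sg f) j y =
      push ch i (sg (fun x => f x - a * β x)) j y + a • push ch i (sg β) j y := by
    rw [h3, push_add, push_smul]
  rw [h4, h1, one_smul, ← ha, smul_sub]
  abel

/-! ### change of charts -/

open Classical in
/-- the function in the other chart -/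
def tf (ch : ι → OpenPartialHomeomorph M (Eu (n + n))) (i j : ι) (f : Eu (n + n) → ℝ)
    (z : Eu (n + n)) : ℝ := if z ∈ dom ch j i then f (tr ch j i z) else 0

theorem tr_back (ch : ι → OpenPartialHomeomorph M (Eu (n + n))) {i j : ι} {y : Eu (n + n)}
    (hy : y ∈ dom ch i j) : tr ch j i (tr ch i j y) = y := by
  rw [PushKA.tr_tr ch i hy, PushKA.tr_self ch hy.1]

theorem tf_out {i j : ι} {f : Eu (n + n) → ℝ} {K : Set (Eu (n + n))} (h0 : ∀ y ∉ K, f y = 0)
    {z : Eu (n + n)} (hz : z ∉ tr ch i j '' K) : tf ch i j f z = 0 := by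
  unfold tf
  split_ifs with h
  · apply h0
    intro h1
    apply hz
    exact ⟨tr ch j i z, h1, tr_back ch h⟩
  · rfl

theorem img_compact (hA : SympAtlas ch) {i j : ι} {K : Set (Eu (n + n))} (hK : IsCompact K)
    (hKd : K ⊆ dom ch i j) : IsCompact (tr ch i j '' K) :=
  hK.image_of_continuousOn ((hA.smooth i j).continuousOn.mono hKd)

theorem tf_near (ch : ι → OpenPartialHomeomorph M (Eu (n + n))) (i j : ι)
    (f : Eu (n + n) → ℝ) {z : Eu (n + n)} (hz : z ∈ dom ch j i) :
    tf ch i j f =ᶠ[𝓝 z] fun z => f (tr ch j i z) := by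
  filter_upwards [(PushKA.isOpen_dom ch j i).mem_nhds hz] with w hw
  unfold tf
  rw [if_pos hw]

theorem tf_far (hA : SympAtlas ch) {i j : ι} {f : Eu (n + n) → ℝ} {K : Set (Eu (n + n))}
    (hK : IsCompact K) (hKd : K ⊆ dom ch i j) (h0 : ∀ y ∉ K, f y = 0) {z : Eu (n + n)}
    (hz : z ∉ dom ch j i) : tf ch i j f =ᶠ[𝓝 z] fun _ => 0 := by
  have hz' : z ∉ tr ch i j '' K := by
    rintro ⟨y, hy, rfl⟩
    exact hz (PushKA.tr_mem ch (hKd hy))
  filter_upwards [(img_compact hA hK hKd).isClosed.isOpen_compl.mem_nhds hz'] with w hw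
  exact tf_out h0 hw

theorem tf_smooth (hA : SympAtlas ch) {i j : ι} {f : Eu (n + n) → ℝ} {K : Set (Eu (n + n))}
    (hK : IsCompact K) (hKd : K ⊆ dom ch i j) (hf : ContDiff ℝ ∞ f) (h0 : ∀ y ∉ K, f y = 0) :
    ContDiff ℝ ∞ (tf ch i j f) := by
  rw [contDiff_iff_contDiffAt]
  intro z
  by_cases hz : z ∈ dom ch j i
  · refine ContDiffAt.congr_of_eventuallyEq ?_ (tf_near ch i j f hz)
    exact (hf.contDiffAt).comp z
      ((hA.smooth j i).contDiffAt ((PushKA.isOpen_dom ch j i).mem_nhds hz))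
  · exact contDiffAt_const.congr_of_eventuallyEq (tf_far hA hK hKd h0 hz)

theorem tf_int (L : LinK) (hA : SympAtlas ch) {i j : ι} {f : Eu (n + n) → ℝ}
    {K : Set (Eu (n + n))} (hKd : K ⊆ dom ch i j) (h0 : ∀ y ∉ K, f y = 0) :
    ∫ z, tf ch i j f z = ∫ y, f y := by
  have hV := volAtlas L hA
  have hm : MeasurableSet (dom ch j i) := (PushKA.isOpen_dom ch j i).measurableSet
  have himg : tr ch j i '' dom ch j i = dom ch i j := by
    ext y
    constructor
    · rintro ⟨z, hz, rfl⟩
      exact PushKA.tr_mem ch hz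
    · intro hy
      exact ⟨tr ch i j y, PushKA.tr_mem ch hy, tr_back ch hy⟩
  have hinj : InjOn (tr ch j i) (dom ch j i) := by
    intro z hz w hw h
    rw [← tr_back ch hz, ← tr_back ch hw, h]
  have h1 := integral_image_eq_integral_abs_det_fderiv_smul volume hm
    (fun z hz => ((PushKA.diff_tr hV hz).hasFDerivAt).hasFDerivWithinAt) hinj f
  rw [himg] at h1
  have h2 : ∫ y in dom ch i j, f y = ∫ y, f y :=
    setIntegral_eq_integral_of_forall_compl_eq_zero fun y hy => h0 y fun h => hy (hKd h)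
  have h3 : ∫ z in dom ch j i, tf ch i j f z = ∫ z, tf ch i j f z := by
    refine setIntegral_eq_integral_of_forall_compl_eq_zero fun y hy => ?_
    unfold tf
    rw [if_neg hy]
  rw [← h2, ← h3, h1]
  refine setIntegral_congr_fun hm fun z hz => ?_
  rw [hV.det j i z hz, one_smul]
  unfold tf
  rw [if_pos hz]

theorem sg_far (S : SgK) {f : Eu (n + n) → ℝ} {K : Set (Eu (n + n))} (hK : IsCompact K)
    (h0 : ∀ y ∉ K, f y = 0) {y : Eu (n + n)} (hy : y ∉ K) : sg f y = 0 := by
  rw [← S.const n 0 y]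
  apply S.congr
  filter_upwards [hK.isClosed.isOpen_compl.mem_nhds hy] with z hz
  exact h0 z hz

theorem tf_push (S : SgK) (L : LinK) (hA : SympAtlas ch) {i j : ι} {f : Eu (n + n) → ℝ}
    {K : Set (Eu (n + n))} (hK : IsCompact K) (hKd : K ⊆ dom ch i j) (hf : ContDiff ℝ ∞ f)
    (h0 : ∀ y ∉ K, f y = 0) (l : ι) (y : Eu (n + n)) (hy : y ∈ (ch l).target) :
    push ch j (sg (tf ch i j f)) l y = push ch i (sg f) l y := by
  have hV := volAtlas L hA
  by_cases hi : (ch l).symm y ∈ (ch i).source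
  · have hli : y ∈ dom ch l i := ⟨hy, hi⟩
    have hw : tr ch l i y ∈ dom ch i l := PushKA.tr_mem ch hli
    have hws : (ch i).symm (tr ch l i y) = (ch l).symm y := (ch i).left_inv hi
    by_cases hj : (ch l).symm y ∈ (ch j).source
    · have hlj : y ∈ dom ch l j := ⟨hy, hj⟩
      have hwj : tr ch l i y ∈ dom ch i j := ⟨hw.1, by rw [hws]; exact hj⟩
      have hz : tr ch i j (tr ch l i y) = tr ch l j y := PushKA.tr_tr ch j hli
      have hzd : tr ch l j y ∈ dom ch j i := by
        rw [← hz]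
        exact PushKA.tr_mem ch hwj
      rw [PushKA.push_eq ch _ hli, PushKA.push_eq ch _ hlj, PushKA.chain hV hwj hw]
      have hback : tr ch j i (tr ch i j (tr ch l i y)) = tr ch l i y := tr_back ch hwj
      have h1 : sg (tf ch i j f) (tr ch l j y) =
          fderiv ℝ (tr ch i j) (tr ch l i y) (sg f (tr ch l i y)) := by
        rw [S.congr n _ _ _ (tf_near ch i j f hzd), ← hz]
        refine S.conj n f (tr ch i j) (tr ch j i) (tr ch l i y) (diffAt hf _)
          (PushKA.diff_tr hV hwj) (PushKA.diff_tr hV (PushKA.tr_mem ch hwj)) hback ?_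
          (hA.symp i j _ hwj)
        filter_upwards [(PushKA.isOpen_dom ch j i).mem_nhds (PushKA.tr_mem ch hwj)] with v hv
        exact tr_back ch hv
      rw [h1, ← hz]
      rfl
    · have hwK : tr ch l i y ∉ K := by
        intro h
        apply hj
        have := (hKd h).2
        rwa [hws] at this
      rw [PushKA.push_eq ch _ hli, sg_far S hK h0 hwK, map_zero]
      unfold push
      rw [if_neg fun h => hj h.2]
  · have hli : y ∉ dom ch l i := fun h => hi h.2
    have h2 : push ch i (sg f) l y = 0 := by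
      unfold push
      rw [if_neg hli]
    rw [h2]
    by_cases hj : (ch l).symm y ∈ (ch j).source
    · have hlj : y ∈ dom ch l j := ⟨hy, hj⟩
      have hzs : (ch j).symm (tr ch l j y) = (ch l).symm y := (ch j).left_inv hj
      have hzd : tr ch l j y ∉ dom ch j i := by
        intro h
        apply hi
        have := h.2
        rwa [hzs] at this
      rw [PushKA.push_eq ch _ hlj, S.congr n _ _ _ (tf_far hA hK hKd h0 hzd), S.const, map_zero]
    · unfold push
      rw [if_neg fun h => hj h.2]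

/-- a good ball in one chart gives a good ball in another chart -/
theorem transfer (A : ApxK) (S : SgK) (L : LinK) (hA : SympAtlas ch) {Λ : ℝ}
    {E : ι → Eu (n + n) → Eu (n + n)} {i j : ι} {x : M} (hi : x ∈ (ch i).source)
    (hj : x ∈ (ch j).source) {r : ℝ} (hr : 0 < r) (h : Gd ch Λ E j (ch j x) r) :
    ∃ δ : ℝ, 0 < δ ∧ Gd ch Λ E i (ch i x) δ := by
  have hxd : ch i x ∈ dom ch i j := ⟨(ch i).map_source hi, by rw [(ch i).left_inv hi]; exact hj⟩
  have hxt : tr ch i j (ch i x) = ch j x := by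
    show ch j ((ch i).symm (ch i x)) = ch j x
    rw [(ch i).left_inv hi]
  have hcont : ContinuousAt (tr ch i j) (ch i x) :=
    (hA.smooth i j).continuousOn.continuousAt ((PushKA.isOpen_dom ch i j).mem_nhds hxd)
  have h1 : tr ch i j ⁻¹' Metric.ball (ch j x) r ∩ dom ch i j ∈ 𝓝 (ch i x) := by
    refine inter_mem ?_ ((PushKA.isOpen_dom ch i j).mem_nhds hxd)
    apply hcont.preimage_mem_nhds
    rw [hxt]
    exact Metric.ball_mem_nhds _ hr
  obtain ⟨δ, hδ, hsub⟩ := Metric.nhds_basis_closedBall.mem_iff.mp h1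
  refine ⟨δ, hδ, fun f hf h0 => ?_⟩
  set K : Set (Eu (n + n)) := Metric.closedBall (ch i x) δ with hK
  have hKc : IsCompact K := isCompact_closedBall _ _
  have hKd : K ⊆ dom ch i j := fun y hy => (hsub hy).2
  have h0' : ∀ y ∉ K, f y = 0 := by
    intro y hy
    apply h0
    rw [hK, Metric.mem_closedBall, not_le] at hy
    exact hy.le
  have h2 := h (tf ch i j f) (tf_smooth hA hKc hKd hf h0') (by
    intro z hz
    refine tf_out h0' ?_
    rintro ⟨y, hy, rfl⟩
    have := (hsub hy).1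
    rw [mem_preimage, Metric.mem_ball] at this
    linarith)
  refine A.congr n M ι ch Λ _ _ h2 fun l y hy => ?_
  unfold DD
  rw [tf_push S L hA hKc hKd hf h0' l y hy, tf_int L hA hKd h0']

/-! ### all points are good -/

theorem exists_beta (c : Eu (n + n)) {r : ℝ} (hr : 0 < r) :
    ∃ β : Eu (n + n) → ℝ, ContDiff ℝ ∞ β ∧ (∀ x, r ≤ dist x c → β x = 0) ∧ ∫ x, β x = 1 := by
  let b : ContDiffBump c := ⟨r / 2, r, by positivity, by linarith⟩
  refine ⟨b.normed volume, b.contDiff_normed, fun x hx => ?_, b.integral_normed⟩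
  have h1 : x ∉ Function.support (b.normed volume) := by
    rw [b.support_normed_eq, Metric.mem_ball, not_lt]
    exact hx
  rwa [Function.notMem_support] at h1

theorem exists_ball (i : ι) {x : M} (hx : x ∈ (ch i).source) :
    ∃ R : ℝ, 0 < R ∧ Metric.closedBall (ch i x) (2 * R) ⊆ (ch i).target := by
  obtain ⟨ρ, hρ, hsub⟩ := Metric.nhds_basis_closedBall.mem_iff.mp
    ((ch i).open_target.mem_nhds ((ch i).map_source hx))
  exact ⟨ρ / 2, by positivity, by rwa [mul_div_cancel₀ _ (two_ne_zero' ℝ)]⟩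

/-- the good points -/
def GP (ch : ι → OpenPartialHomeomorph M (Eu (n + n))) (Λ : ℝ)
    (E : ι → Eu (n + n) → Eu (n + n)) : Set M :=
  {x | ∀ i, x ∈ (ch i).source → ∃ r : ℝ, 0 < r ∧ Gd ch Λ E i (ch i x) r}

theorem near (i : ι) {x : M} (hx : x ∈ (ch i).source) {r : ℝ} (hr : 0 < r) :
    ∀ᶠ x' in 𝓝 x, x' ∈ (ch i).source ∧ dist (ch i x') (ch i x) < r := by
  have h1 : ContinuousAt (ch i) x := (ch i).continuousAt hx
  have h2 : ∀ᶠ x' in 𝓝 x, ch i x' ∈ Metric.ball (ch i x) r :=
    h1.preimage_mem_nhds (Metric.ball_mem_nhds _ hr)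
  filter_upwards [(ch i).open_source.mem_nhds hx, h2] with x' h3 h4
  exact ⟨h3, h4⟩

theorem gp_open (A : ApxK) (S : SgK) (L : LinK) (hA : SympAtlas ch) {Λ : ℝ}
    {E : ι → Eu (n + n) → Eu (n + n)} : IsOpen (GP ch Λ E) := by
  rw [isOpen_iff_mem_nhds]
  intro x hx
  obtain ⟨i, hi⟩ := hA.cover x
  obtain ⟨r, hr, hg⟩ := hx i hi
  filter_upwards [near i hi (half_pos hr)] with x' hx' j hj
  have h1 : Gd ch Λ E i (ch i x') (r / 2) := gd_mono hg (by linarith [hx'.2])
  exact transfer A S L hA hj hx'.1 (half_pos hr) h1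

theorem gp_closed (H : LApx) (A : ApxK) (S : SgK) (hn : 1 ≤ n) [T2Space M] [Fintype ι]
    (hA : SympAtlas ch) {Λ : ℝ} (hΛ : 1 ≤ Λ) {E : ι → Eu (n + n) → Eu (n + n)} :
    IsClosed (GP ch Λ E) := by
  rw [← closure_subset_iff_isClosed]
  intro x hx i hi
  obtain ⟨R, hR, hc⟩ := exists_ball (ch := ch) i hi
  refine ⟨R, hR, ?_⟩
  obtain ⟨x', hx', hxG⟩ := mem_closure_iff_nhds.mp hx _ (near i hi (half_pos hR))
  obtain ⟨r, hr, hg⟩ := hxG i hx'.1
  obtain ⟨β, hβ, hβ0, hβ1⟩ := exists_beta (n := n) (ch i x') (lt_min hr (half_pos hR))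
  refine core H A S hn hA hΛ hR hc hβ ?_ hβ1 ?_
  · intro y hy
    apply hβ0
    have h1 := dist_triangle y (ch i x') (ch i x)
    have h2 := hx'.2
    have h3 := min_le_right r (R / 2)
    linarith
  · refine hg β hβ fun y hy => hβ0 y ?_
    exact (min_le_left _ _).trans hy

/-! ### partition of unity in a chart -/

theorem part (A : ApxK) (S : SgK) {Λ : ℝ} {E : ι → Eu (n + n) → Eu (n + n)} {i : ι}
    (δ : Eu (n + n) → ℝ) (t : Finset (Eu (n + n))) :
    (∀ c ∈ t, 0 < δ c ∧ Gd ch Λ E i c (δ c)) → ∀ f : Eu (n + n) → ℝ, ContDiff ℝ ∞ f →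
    Integrable f → (∀ x, (∀ c ∈ t, δ c / 2 ≤ dist x c) → f x = 0) → Apx ch Λ (DD ch E i f) := by
  classical
  induction t using Finset.induction_on with
  | empty =>
    intro _ f hf _ h0
    have hf0 : f = fun _ => 0 := by
      funext x
      exact h0 x (by simp)
    refine A.congr n M ι ch Λ _ _ (A.zero n M ι ch Λ) fun j y _ => ?_
    unfold DD
    have h1 : sg f = fun _ => 0 := by
      rw [hf0]
      funext y
      exact S.const n 0 y
    rw [h1, hf0]
    simp only [integral_zero, zero_smul, sub_zero]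
    unfold push
    simp
  | insert c t hc ih =>
    intro hg f hf hfi h0
    obtain ⟨hδ, hgc⟩ := hg c (Finset.mem_insert_self c t)
    let b : ContDiffBump c := ⟨δ c / 2, δ c, by positivity, by linarith⟩
    have hb : ContDiff ℝ ∞ b := b.contDiff
    have hfb : ContDiff ℝ ∞ (fun x => f x * b x) := hf.mul hb
    have hfb0 : ∀ x, δ c ≤ dist x c → f x * b x = 0 := by
      intro x hx
      rw [b.zero_of_le_dist hx, mul_zero]
    have hfbi : Integrable (fun x => f x * b x) := integrable_of_ball hfb hfb0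
    have hr : ContDiff ℝ ∞ (fun x => f x - f x * b x) := hf.sub hfb
    have hri : Integrable (fun x => f x - f x * b x) := hfi.sub hfbi
    have h1 := hgc _ hfb hfb0
    have h2 := ih (fun d hd => hg d (Finset.mem_insert_of_mem hd)) _ hr hri (by
      intro x hx
      by_cases hxc : δ c / 2 ≤ dist x c
      · rw [h0 x ?_, zero_mul, sub_zero]
        intro d hd
        rcases Finset.mem_insert.mp hd with rfl | hd
        · exact hxc
        · exact hx d hd
      · have h3 : b x = 1 := b.one_of_mem_closedBall (by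
          rw [Metric.mem_closedBall]
          exact (not_le.mp hxc).le)
        rw [h3, mul_one, sub_self])
    refine A.congr n M ι ch Λ _ _ (A.add n M ι ch Λ _ _ h1 h2) fun j y _ => ?_
    rw [← dd_add S E i hfb hr hfbi hri j y]
    congr 1
    funext x
    ring

theorem apx_sum (A : ApxK) {Λ : ℝ} {κ : Type} (s : Finset κ) (X : κ → ι → Eu (n + n) →
    Eu (n + n)) (hX : ∀ k, Apx ch Λ (X k)) : Apx ch Λ (fun j y => ∑ k ∈ s, X k j y) := by
  classical
  induction s using Finset.induction_on with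
  | empty =>
    simp only [Finset.sum_empty]
    exact A.zero n M ι ch Λ
  | insert k s hk ih =>
    simp only [Finset.sum_insert hk]
    exact A.add n M ι ch Λ _ _ (hX k) ih

theorem test (A : ApxK) (S : SgK) {Λ : ℝ} {E : ι → Eu (n + n) → Eu (n + n)}
    (hall : ∀ x : M, x ∈ GP ch Λ E) (i : ι) {f : Eu (n + n) → ℝ}
    (hf : TestIn (ch i).target f) : Apx ch Λ (DD ch E i f) := by
  classical
  obtain ⟨hf1, K, hK, hKt, h0⟩ := hf
  have h1 : ∀ y ∈ K, ∃ r : ℝ, 0 < r ∧ Gd ch Λ E i y r := by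
    intro y hy
    obtain ⟨r, hr, hg⟩ := hall ((ch i).symm y) i ((ch i).map_target (hKt hy))
    rw [(ch i).right_inv (hKt hy)] at hg
    exact ⟨r, hr, hg⟩
  choose! δ hδ hg using h1
  obtain ⟨t, htK, hcov⟩ := hK.elim_nhds_subcover (fun y => Metric.ball y (δ y / 2))
    (fun y hy => Metric.ball_mem_nhds y (half_pos (hδ y hy)))
  refine part A S δ t (fun c hc => ⟨hδ c (htK c hc), hg c (htK c hc)⟩) f hf1 ?_ ?_
  · exact hf1.continuous.integrable_of_hasCompactSupport (HasCompactSupport.intro hK h0)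
  · intro x hx
    apply h0
    intro hxK
    obtain ⟨c, hc⟩ := mem_iUnion.mp (hcov hxK)
    obtain ⟨hc1, hc2⟩ := mem_iUnion.mp hc
    exact absurd (hx c hc1) (not_le.mpr hc2)

end GApxA

open GApxA

/-- Global approximation. -/
theorem gApx (H : LApx) (A : ApxK) (S : SgK) (L : LinK) : GApx := by
  intro n hn M _ _ _ ι _ ch hA Λ hΛ f hf hsum
  obtain ⟨x0⟩ : Nonempty M := inferInstance
  obtain ⟨i0, hi0⟩ := hA.cover x0
  obtain ⟨R, hR, hc⟩ := exists_ball (ch := ch) i0 hi0
  obtain ⟨β, hβ, hβ0, hβ1⟩ := exists_beta (n := n) (ch i0 x0) hR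
  set E : ι → Eu (n + n) → Eu (n + n) := push ch i0 (sg β) with hE
  have hgd0 : Gd ch Λ E i0 (ch i0 x0) R := by
    refine core H A S hn hA hΛ hR hc hβ hβ0 hβ1 ?_
    refine A.congr n M ι ch Λ _ _ (A.zero n M ι ch Λ) fun j y _ => ?_
    unfold DD
    rw [hβ1, one_smul, hE, sub_self]
  have hx0 : x0 ∈ GP ch Λ E := fun j hj => transfer A S L hA hj hi0 hR hgd0
  have hclopen : IsClopen (GP ch Λ E) := ⟨gp_closed H A S hn hA hΛ, gp_open A S L hA⟩
  have hall : ∀ x : M, x ∈ GP ch Λ E := by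
    have h1 := hclopen.eq_univ ⟨x0, hx0⟩
    intro x
    rw [h1]
    exact mem_univ x
  refine A.congr n M ι ch Λ _ _ (apx_sum A Finset.univ (fun i => DD ch E i (f i))
    fun i => test A S hall i (hf i)) fun j y _ => ?_
  unfold DD
  rw [Finset.sum_sub_distrib, ← Finset.sum_smul, hsum, zero_smul, sub_zero]

end

end SV
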