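import Pool.Agent.H6.SV.St

/-!
# Project SV, row SV-7: ends of Hamiltonian paths
-/

set_option autoImplicit false

open MeasureTheory Set Filter Topology Pool.Agent.H68.VD Pool.Agent.H68.GM
open scoped ENNReal ContDiff

namespace SV

namespace HEkA

variable {n : ℕ}

theorem smooth {c : Eu (n + n)} {r : ℝ} {f : Equiv.Perm (Eu (n + n))} (h : HEnd c r f) :
    ContDiff ℝ ∞ (fun x => f x) := by
  obtain ⟨T, H, hp, h1⟩ := h
  have e : (fun x => f x) = fun x => (fun z : ℝ × Eu (n + n) => T z.1 z.2) ((1 : ℝ), x) :=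
    funext fun x => (h1 x).symm
  rw [e]
  exact hp.sT.comp (contDiff_const.prodMk contDiff_id)

theorem symp {c : Eu (n + n)} {r : ℝ} {f : Equiv.Perm (Eu (n + n))} (h : HEnd c r f)
    (x : Eu (n + n)) : Sp (fderiv ℝ (fun x => f x) x) := by
  obtain ⟨T, H, hp, h1⟩ := h
  have e : (fun x => f x) = T 1 := funext fun x => (h1 x).symm
  rw [e]
  exact hp.symp 1 x

theorem out {c : Eu (n + n)} {r : ℝ} {f : Equiv.Perm (Eu (n + n))} (h : HEnd c r f)
    (x : Eu (n + n)) (hx : r ≤ dist x c) : f x = x := by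
  obtain ⟨T, H, hp, h1⟩ := h
  rw [← h1 x]
  exact hp.out 1 x hx

theorem mp (L : LinK) {c : Eu (n + n)} {r : ℝ} {f : Equiv.Perm (Eu (n + n))} (h : HEnd c r f) :
    MeasurePreserving (fun x => f x) volume volume := by
  have hs := smooth h
  have hd : Differentiable ℝ (fun x => f x) := hs.differentiable (by simp)
  refine ⟨hs.continuous.measurable, ?_⟩
  ext s hms
  rw [Measure.map_apply hs.continuous.measurable hms]
  have hpre : MeasurableSet ((fun x => f x) ⁻¹' s) := hs.continuous.measurable hms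
  have h1 := lintegral_abs_det_fderiv_eq_addHaar_image (volume : Measure (Eu (n + n))) hpre
    (fun x _ => (hd x).hasFDerivAt.hasFDerivWithinAt) (f.injective.injOn)
  rw [image_preimage_eq s f.surjective] at h1
  rw [← h1]
  have h2 : ∀ x, ENNReal.ofReal |(fderiv ℝ (fun x => f x) x).det| = 1 := by
    intro x
    rw [L.spDet n _ (symp h x), ENNReal.ofReal_one]
  simp only [h2]
  rw [lintegral_one, Measure.restrict_apply_univ]

theorem bound {c : Eu (n + n)} {r : ℝ} {f : Equiv.Perm (Eu (n + n))} (h : HEnd c r f) :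
    ∃ C : ℝ, 0 ≤ C ∧ ∀ x, ‖fderiv ℝ (fun x => f x) x‖ ≤ C := by
  have hs := smooth h
  have hc : Continuous (fderiv ℝ (fun x => f x)) := hs.continuous_fderiv (by simp)
  obtain ⟨C, hC⟩ := (isCompact_closedBall c r).exists_bound_of_continuousOn hc.continuousOn
  refine ⟨max C 1, le_max_of_le_right zero_le_one, fun x => ?_⟩
  rcases le_or_gt (dist x c) r with hx | hx
  · exact (hC x hx).trans (le_max_left _ _)
  · have hev : (fun x => f x) =ᶠ[𝓝 x] fun x => x := by
      have ho : IsOpen {y : Eu (n + n) | r < dist y c} :=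
        isOpen_lt continuous_const (continuous_id.dist continuous_const)
      filter_upwards [ho.mem_nhds hx] with y hy
      exact out h y hy.le
    rw [hev.fderiv_eq, fderiv_fun_id]
    exact ContinuousLinearMap.norm_id_le.trans (le_max_right _ _)

theorem inv (HP : HPk) {c : Eu (n + n)} {r : ℝ} {f : Equiv.Perm (Eu (n + n))} (h : HEnd c r f) :
    HEnd c r f⁻¹ := by
  obtain ⟨T, H, hp, h1⟩ := h
  refine ⟨_, _, HP.inv n c r T H hp, fun x => ?_⟩
  have e : T 1 = fun x => f x := funext h1
  simp only [sub_self, hp.zero]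
  apply f.injective
  have h2 : T 1 (Function.invFun (T 1) x) = x :=
    Function.invFun_eq ((hp.bij 1).surjective x)
  rw [h1] at h2
  rw [h2]
  simp

end HEkA

theorem hEk (L : LinK) (S : SgK) (HP : HPk) : HEk where
  smooth _ _ _ _ h := HEkA.smooth h
  symp _ _ _ _ h := HEkA.symp h
  out _ _ _ _ h := HEkA.out h
  maps n c r f h x hx := by
    by_contra hcon
    have h1 : f (f x) = f x := HEkA.out h _ (not_lt.1 hcon)
    have h2 : f x = x := f.injective h1
    rw [h2] at hcon
    exact hcon hx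
  mp _ _ _ _ h := HEkA.mp L h
  bound _ _ _ _ h := HEkA.bound h
  one n c r := ⟨_, _, HP.one n c r, fun _ => rfl⟩
  inv _ _ _ _ h := HEkA.inv HP h
  mono n c c' r r' f h hle := by
    obtain ⟨T, H, hp, h1⟩ := h
    exact ⟨T, H, HP.mono n c c' r r' T H hp hle, h1⟩
  conj n c r g hg T H hp := by
    have hgi : HEnd c r g⁻¹ := HEkA.inv HP hg
    have sg1 := HEkA.smooth hg
    have si := HEkA.smooth hgi
    have dg : Differentiable ℝ (fun x => g x) := sg1.differentiable (by simp)
    have di : Differentiable ℝ (fun x => g⁻¹ x) := si.differentiable (by simp)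
    have hTs : ∀ t, ContDiff ℝ ∞ (T t) := fun t =>
      hp.sT.comp (contDiff_const.prodMk contDiff_id)
    have hTd : ∀ t, Differentiable ℝ (T t) := fun t => (hTs t).differentiable (by simp)
    have hHs : ∀ t, ContDiff ℝ ∞ (H t) := fun t =>
      hp.sH.comp (contDiff_const.prodMk contDiff_id)
    refine ⟨?_, ?_, ?_, ?_, ?_, ?_, ?_, ?_⟩
    · exact sg1.comp (hp.sT.comp (contDiff_fst.prodMk (si.comp contDiff_snd)))
    · exact hp.sH.comp (contDiff_fst.prodMk (si.comp contDiff_snd))
    · intro x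
      rw [hp.zero]
      simp
    · intro t
      exact g.bijective.comp ((hp.bij t).comp g⁻¹.bijective)
    · intro t x
      have h1 : HasFDerivAt (fun x => g (T t (g⁻¹ x)))
          ((fderiv ℝ (fun x => g x) (T t (g⁻¹ x))).comp
            ((fderiv ℝ (T t) (g⁻¹ x)).comp (fderiv ℝ (fun x => g⁻¹ x) x))) x :=
        (dg _).hasFDerivAt.comp x (((hTd t) _).hasFDerivAt.comp x (di x).hasFDerivAt)
      rw [h1.fderiv]
      exact L.spComp n _ _ (HEkA.symp hg _)
        (L.spComp n _ _ (hp.symp t _) (HEkA.symp hgi x))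
    · intro t x hx
      rw [HEkA.out hgi x hx, hp.out t x hx, HEkA.out hg x hx]
    · intro t x hx
      rw [HEkA.out hgi x hx]
      exact hp.outH t x hx
    · intro t x
      have h1 : HasDerivAt (fun τ => g (T τ (g⁻¹ x)))
          (fderiv ℝ (fun x => g x) (T t (g⁻¹ x)) (sg (H t) (T t (g⁻¹ x)))) t :=
        (dg _).hasFDerivAt.comp_hasDerivAt t (hp.ode t (g⁻¹ x))
      refine h1.congr_deriv ?_
      refine (S.conj n (H t) (fun x => g x) (fun x => g⁻¹ x) (T t (g⁻¹ x)) ?_ (dg _) (di _) ?_ ?_
        (HEkA.symp hg _)).symm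
      · exact (hHs t).differentiable (by simp) _
      · simp
      · exact Eventually.of_forall fun y => by simp

end SV
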