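import Pool.Agent.H6.SV.St

/-!
# Project SV: existence of Hamiltonian paths
-/

set_option autoImplicit false

open MeasureTheory Set Filter Topology Pool.Agent.H68.VD Pool.Agent.H68.GM
open scoped ENNReal ContDiff

namespace SV

namespace HPeA

variable {m : ℕ}

/-- A smooth function vanishing outside a ball has zero derivative there. -/
lemma fderiv_zero (h : Eu m → ℝ) (hh : ContDiff ℝ ∞ h) (c : Eu m) (r : ℝ)
    (h0 : ∀ x, r ≤ dist x c → h x = 0) (x : Eu m) (hx : r ≤ dist x c) : fderiv ℝ h x = 0 := by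
  have hout : ∀ y, r < dist y c → fderiv ℝ h y = 0 := by
    intro y hy
    have hev : h =ᶠ[𝓝 y] fun _ => (0 : ℝ) := by
      have ho : IsOpen {z : Eu m | r < dist z c} :=
        isOpen_lt continuous_const (continuous_id.dist continuous_const)
      filter_upwards [ho.mem_nhds hy] with z hz
      exact h0 z (le_of_lt hz)
    rw [hev.fderiv_eq]
    simp
  by_cases hxc : x = c
  · subst hxc
    have hr : r ≤ 0 := by simpa using hx
    have hall : h = fun _ => (0 : ℝ) := by
      funext y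
      exact h0 y (le_trans hr dist_nonneg)
    rw [hall]
    simp
  · have hcont : Continuous (fun s : ℝ => fderiv ℝ h (c + (1 + s) • (x - c))) := by
      have h1 : Continuous (fderiv ℝ h) := hh.continuous_fderiv (by simp)
      exact h1.comp (by fun_prop)
    have hpos : 0 < dist x c := dist_pos.mpr hxc
    have hz : ∀ s : ℝ, 0 < s → fderiv ℝ h (c + (1 + s) • (x - c)) = 0 := by
      intro s hs
      apply hout
      have : dist (c + (1 + s) • (x - c)) c = (1 + s) * dist x c := by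
        rw [dist_eq_norm, add_sub_cancel_left, norm_smul, dist_eq_norm, Real.norm_eq_abs,
          abs_of_pos (by linarith)]
      rw [this]
      nlinarith
    have hlim : Tendsto (fun s : ℝ => fderiv ℝ h (c + (1 + s) • (x - c))) (𝓝[>] 0)
        (𝓝 (fderiv ℝ h (c + (1 + (0 : ℝ)) • (x - c)))) :=
      (hcont.tendsto 0).mono_left nhdsWithin_le_nhds
    have hlim0 : Tendsto (fun s : ℝ => fderiv ℝ h (c + (1 + s) • (x - c))) (𝓝[>] 0)
        (𝓝 0) := by
      apply tendsto_const_nhds.congr'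
      filter_upwards [self_mem_nhdsWithin] with s hs
      exact (hz s hs).symm
    have := tendsto_nhds_unique hlim hlim0
    simpa using this

/-- The linearised flow solves the linearised equation. -/
lemma mixed (V T : ℝ → Eu m → Eu m) (hV : ContDiff ℝ ∞ (fun z : ℝ × Eu m => V z.1 z.2))
    (hT : ContDiff ℝ ∞ (fun z : ℝ × Eu m => T z.1 z.2))
    (ode : ∀ t x, HasDerivAt (fun τ => T τ x) (V t (T t x)) t) (x u : Eu m) (t : ℝ) :
    HasDerivAt (fun τ => fderiv ℝ (T τ) x u) (fderiv ℝ (V t) (T t x) (fderiv ℝ (T t) x u)) t := by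
  set G : ℝ × Eu m → Eu m := fun z => T z.1 z.2 with hG
  have hGd : Differentiable ℝ G := hT.differentiable (by simp)
  have hG1 : ContDiff ℝ ∞ (fderiv ℝ G) := hT.fderiv_right (by simp)
  have hG1d : Differentiable ℝ (fderiv ℝ G) := hG1.differentiable (by simp)
  have hVt : Differentiable ℝ (V t) := by
    have : ContDiff ℝ ∞ (V t) := hV.comp (contDiff_const.prodMk contDiff_id)
    exact this.differentiable (by simp)
  -- partial derivatives of `G`
  have hx : ∀ (τ : ℝ) (y w : Eu m), fderiv ℝ (T τ) y w = fderiv ℝ G (τ, y) (0, w) := by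
    intro τ y w
    have h1 : HasFDerivAt (fun y : Eu m => (τ, y)) (ContinuousLinearMap.inr ℝ ℝ (Eu m)) y :=
      hasFDerivAt_prodMk_right τ y
    have h2 : HasFDerivAt (T τ) ((fderiv ℝ G (τ, y)).comp (ContinuousLinearMap.inr ℝ ℝ (Eu m))) y :=
      (hGd (τ, y)).hasFDerivAt.comp y h1
    rw [h2.fderiv]
    simp
  have ht : ∀ (τ : ℝ) (y : Eu m), fderiv ℝ G (τ, y) (1, 0) = V τ (T τ y) := by
    intro τ y
    have h1 : HasDerivAt (fun s : ℝ => (s, y)) ((1 : ℝ), (0 : Eu m)) τ :=
      (hasDerivAt_id τ).prodMk (hasDerivAt_const τ y)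
    have h0 : HasFDerivAt G (fderiv ℝ G (τ, y)) ((fun s : ℝ => (s, y)) τ) :=
      (hGd (τ, y)).hasFDerivAt
    have h2 : HasDerivAt (G ∘ fun s : ℝ => (s, y)) (fderiv ℝ G (τ, y) (1, 0)) τ :=
      h0.comp_hasDerivAt τ h1
    exact h2.unique (ode τ y)
  -- second derivative
  have hsym : IsSymmSndFDerivAt ℝ G (t, x) :=
    (hT.contDiffAt).isSymmSndFDerivAt (by
      rw [minSmoothness_of_isRCLikeNormedField]
      norm_cast)
  have hd : HasDerivAt (fun τ => fderiv ℝ (T τ) x u)
      (fderiv ℝ (fderiv ℝ G) (t, x) (1, 0) (0, u)) t := by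
    have h1 : HasDerivAt (fun s : ℝ => (s, x)) ((1 : ℝ), (0 : Eu m)) t :=
      (hasDerivAt_id t).prodMk (hasDerivAt_const t x)
    have h2 : HasDerivAt (fun s => fderiv ℝ G (s, x))
        (fderiv ℝ (fderiv ℝ G) (t, x) (1, 0)) t :=
      (hG1d (t, x)).hasFDerivAt.comp_hasDerivAt t h1
    have h3 : HasDerivAt (fun s => fderiv ℝ G (s, x) (0, u))
        (fderiv ℝ (fderiv ℝ G) (t, x) (1, 0) (0, u)) t := by
      have := h2.clm_apply (hasDerivAt_const t ((0 : ℝ), u))
      simpa using this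
    have h4 : (fun τ => fderiv ℝ (T τ) x u) = fun s => fderiv ℝ G (s, x) (0, u) := by
      funext τ
      exact hx τ x u
    rw [h4]
    exact h3
  have he : fderiv ℝ (fderiv ℝ G) (t, x) (0, u) (1, 0)
      = fderiv ℝ (V t) (T t x) (fderiv ℝ (T t) x u) := by
    have h1 : HasFDerivAt (fun y : Eu m => (t, y)) (ContinuousLinearMap.inr ℝ ℝ (Eu m)) x :=
      hasFDerivAt_prodMk_right t x
    have h2 : HasFDerivAt (fun y => fderiv ℝ G (t, y))
        ((fderiv ℝ (fderiv ℝ G) (t, x)).comp (ContinuousLinearMap.inr ℝ ℝ (Eu m))) x :=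
      (hG1d (t, x)).hasFDerivAt.comp x h1
    have h3 : HasFDerivAt (fun y => fderiv ℝ G (t, y) (1, 0))
        (((fderiv ℝ (fderiv ℝ G) (t, x)).comp (ContinuousLinearMap.inr ℝ ℝ (Eu m))).flip
          ((1 : ℝ), (0 : Eu m))) x := by
      have := h2.clm_apply (hasFDerivAt_const ((1 : ℝ), (0 : Eu m)) x)
      simpa using this
    have h4 : (fun y => fderiv ℝ G (t, y) (1, 0)) = fun y => V t (T t y) := by
      funext y
      exact ht t y
    rw [h4] at h3
    have hTt : DifferentiableAt ℝ (T t) x := by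
      have : ContDiff ℝ ∞ (T t) := hT.comp (contDiff_const.prodMk contDiff_id)
      exact (this.differentiable (by simp)) x
    have h5 : HasFDerivAt (fun y => V t (T t y))
        ((fderiv ℝ (V t) (T t x)).comp (fderiv ℝ (T t) x)) x :=
      (hVt (T t x)).hasFDerivAt.comp x hTt.hasFDerivAt
    have h6 := h3.unique h5
    have h7 := congrArg (fun L : Eu m →L[ℝ] Eu m => L u) h6
    simpa using h7
  have hs := hsym (1, 0) (0, u)
  rw [hs, he] at hd
  exact hd

end HPeA

theorem hPe (L : LinK) (S : SgK) (FE : FlowE) : HPe := by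
  intro n c r H sH outH
  have hHt : ∀ t, ContDiff ℝ ∞ (H t) := fun t => sH.comp (contDiff_const.prodMk contDiff_id)
  have sV : ContDiff ℝ ∞ (fun z : ℝ × Eu (n + n) => sg (H z.1) z.2) := S.smoothE n ℝ H sH
  have hV0 : ∀ t x, r ≤ dist x c → sg (H t) x = 0 := by
    intro t x hx
    have h1 := HPeA.fderiv_zero (H t) (hHt t) c r (outH t) x hx
    have h2 := S.norm n (H t) x
    rw [h1, norm_zero] at h2
    exact norm_eq_zero.mp h2
  obtain ⟨T, sT, hT0, hTb, hTo, hTd⟩ := FE.ex (n + n) (fun t x => sg (H t) x) c r sV hV0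
  refine ⟨T, ⟨sT, sH, hT0, hTb, ?_, hTo, outH, hTd⟩⟩
  intro t x u v
  obtain ⟨B, hB⟩ := L.clm n
  have hmu := fun τ => HPeA.mixed (fun t x => sg (H t) x) T sV sT hTd x u τ
  have hmv := fun τ => HPeA.mixed (fun t x => sg (H t) x) T sV sT hTd x v τ
  have hder : ∀ τ : ℝ, HasDerivAt (fun τ => om (fderiv ℝ (T τ) x u) (fderiv ℝ (T τ) x v)) 0 τ := by
    intro τ
    have h1 : HasDerivAt (fun τ => B (fderiv ℝ (T τ) x u) (fderiv ℝ (T τ) x v))
        (B (fderiv ℝ (sg (H τ)) (T τ x) (fderiv ℝ (T τ) x u)) (fderiv ℝ (T τ) x v)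
          + B (fderiv ℝ (T τ) x u) (fderiv ℝ (sg (H τ)) (T τ x) (fderiv ℝ (T τ) x v))) τ := by
      have h2 : HasDerivAt (fun τ => B (fderiv ℝ (T τ) x u))
          (B (fderiv ℝ (sg (H τ)) (T τ x) (fderiv ℝ (T τ) x u))) τ :=
        B.hasFDerivAt.comp_hasDerivAt τ (hmu τ)
      exact h2.clm_apply (hmv τ)
    have h3 : (fun τ => B (fderiv ℝ (T τ) x u) (fderiv ℝ (T τ) x v))
        = fun τ => om (fderiv ℝ (T τ) x u) (fderiv ℝ (T τ) x v) := by
      funext τ
      exact hB _ _
    rw [h3, hB, hB] at h1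
    have h4 := S.symm n (H τ) (T τ x) (fderiv ℝ (T τ) x u) (fderiv ℝ (T τ) x v)
      ((hHt τ).contDiffAt.of_le (by norm_cast))
    rw [h4] at h1
    exact h1
  have hconst : ∀ τ τ' : ℝ, om (fderiv ℝ (T τ) x u) (fderiv ℝ (T τ) x v)
      = om (fderiv ℝ (T τ') x u) (fderiv ℝ (T τ') x v) := by
    have hd : Differentiable ℝ (fun τ => om (fderiv ℝ (T τ) x u) (fderiv ℝ (T τ) x v)) :=
      fun τ => (hder τ).differentiableAt
    intro τ τ'
    exact is_const_of_deriv_eq_zero hd (fun s => (hder s).deriv) τ τ'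
  rw [hconst t 0]
  have h0 : T 0 = fun y => y := funext hT0
  rw [h0]
  simp

end SV
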