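import Pool.Agent.H6.SV.St
import Pool.Agent.H68.VD.Fam

/-!
# Project SV, module HPk: Hamiltonian paths
-/

set_option autoImplicit false

open MeasureTheory Set Filter Topology Pool.Agent.H68.VD Pool.Agent.H68.GM
open scoped ENNReal ContDiff

namespace SV

noncomputable section

namespace HPkA

variable {n : ℕ}

theorem smooth_slice {m : ℕ} {T : ℝ → Eu m → Eu m}
    (h : ContDiff ℝ ∞ (fun z : ℝ × Eu m => T z.1 z.2)) (t : ℝ) : ContDiff ℝ ∞ (T t) :=
  h.comp (contDiff_const.prodMk contDiff_id)

theorem cont_det {m : ℕ} {T : ℝ → Eu m → Eu m}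
    (h : ContDiff ℝ ∞ (fun z : ℝ × Eu m => T z.1 z.2)) :
    Continuous (fun z : ℝ × Eu m => (fderiv ℝ (T z.1) z.2).det) := by
  have h1 : ContDiff ℝ 1 (fun z : ℝ × Eu m => fderiv ℝ (T z.1) z.2) := by
    have h2 : ContDiff ℝ ∞ (Function.uncurry (fun (q : ℝ × Eu m) (y : Eu m) => T q.1 y)) := by
      have h3 : ContDiff ℝ ∞ (fun p : (ℝ × Eu m) × Eu m => (p.1.1, p.2)) :=
        (contDiff_fst.comp contDiff_fst).prodMk contDiff_snd
      exact h.comp h3
    exact ContDiff.fderiv (f := fun (q : ℝ × Eu m) (y : Eu m) => T q.1 y) (m := ∞) (n := 1) h2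
      contDiff_snd (by norm_cast)
  exact ContinuousLinearMap.continuous_det.comp h1.continuous

theorem det_one (L : LinK) {c : Eu (n + n)} {r : ℝ} {T : ℝ → Eu (n + n) → Eu (n + n)}
    (hs : ContDiff ℝ ∞ (fun z : ℝ × Eu (n + n) => T z.1 z.2))
    (hSp : ∀ t x, Sp (fderiv ℝ (T t) x)) (ho : ∀ t x, r ≤ dist x c → T t x = x) (t : ℝ)
    (x : Eu (n + n)) : (fderiv ℝ (T t) x).det = 1 := by
  rcases Nat.eq_zero_or_pos n with h0 | hn
  · subst h0
    have h1 : Module.finrank ℝ (Eu (0 + 0)) = 0 := by simp
    exact LinearMap.det_eq_one_of_finrank_eq_zero h1 _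
  · set f : ℝ × Eu (n + n) → ℝ := fun z => (fderiv ℝ (T z.1) z.2).det with hf
    have hc : Continuous f := cont_det hs
    have habs : ∀ z, |f z| = 1 := fun z => L.spDet n _ (hSp z.1 z.2)
    -- a point far away
    have hne : Nontrivial (Eu (n + n)) := by
      haveI : Nonempty (Fin (n + n)) := ⟨⟨0, by omega⟩⟩
      infer_instance
    obtain ⟨w, hw⟩ : ∃ w : Eu (n + n), r < dist w c := by
      obtain ⟨v, hv⟩ := NormedSpace.exists_lt_norm ℝ (Eu (n + n)) r
      exact ⟨c + v, by simpa [dist_eq_norm] using hv⟩
    have h1 : f (0, w) = 1 := by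
      have h2 : (T 0) =ᶠ[𝓝 w] fun y => y := by
        have h3 : IsOpen {y : Eu (n + n) | r < dist y c} :=
          isOpen_lt continuous_const (continuous_id.dist continuous_const)
        filter_upwards [h3.mem_nhds hw] with y hy
        exact ho 0 y (le_of_lt hy)
      have h3 : fderiv ℝ (T 0) w = ContinuousLinearMap.id ℝ (Eu (n + n)) := by
        rw [h2.fderiv_eq]
        exact fderiv_id'
      simp only [hf, h3]
      exact LinearMap.det_id
    by_contra hx
    have h4 : f (t, x) = -1 := by
      rcases eq_or_eq_neg_of_abs_eq (habs (t, x)) with h | h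
      · exact absurd h hx
      · exact h
    have h5 : (0 : ℝ) ∈ Set.range f := by
      have h6 : IsPreconnected (Set.range f) := by
        rw [← Set.image_univ]
        exact isPreconnected_univ.image f hc.continuousOn
      exact h6.Icc_subset ⟨(t, x), h4⟩ ⟨(0, w), h1⟩ ⟨by norm_num, by norm_num⟩
    obtain ⟨z, hz⟩ := h5
    have := habs z
    rw [hz] at this
    norm_num at this

theorem right_inv {T : Eu (n + n) → Eu (n + n)} (hT : Function.Bijective T) (x : Eu (n + n)) :
    T (Function.invFun T x) = x := Function.invFun_eq (hT.2 x)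

theorem left_inv {T : Eu (n + n) → Eu (n + n)} (hT : Function.Bijective T) (x : Eu (n + n)) :
    Function.invFun T (T x) = x := Function.leftInverse_invFun hT.1 x

theorem inv_bij {T : Eu (n + n) → Eu (n + n)} (hT : Function.Bijective T) :
    Function.Bijective (Function.invFun T) :=
  Function.bijective_iff_has_inverse.2 ⟨T, right_inv hT, left_inv hT⟩

theorem isFam {c : Eu (n + n)} {r : ℝ} {T : ℝ → Eu (n + n) → Eu (n + n)} (h : BallFam c r T) :
    IsFam (⊥ : Subgroup (Eu (n + n) ≃ᵃ[ℝ] Eu (n + n))) T where
  smooth := h.smooth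
  bij := h.bij
  det := h.det
  equi := fun e g hg x => by
    rw [Subgroup.mem_bot.1 hg]
    rfl

end HPkA

open HPkA

/-- Hamiltonian paths. -/
theorem hPk (L : LinK) (S : SgK) (F : FlowE) : HPk := by
  have ballOf : ∀ (n : ℕ) (c : Eu (n + n)) (r : ℝ) (T : ℝ → Eu (n + n) → Eu (n + n)),
      ContDiff ℝ ∞ (fun z : ℝ × Eu (n + n) => T z.1 z.2) → (∀ t, Function.Bijective (T t)) →
      (∀ t x, Sp (fderiv ℝ (T t) x)) → (∀ t x, r ≤ dist x c → T t x = x) → BallFam c r T :=
    fun n c r T hs hb hSp ho =>
      { smooth := hs
        bij := hb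
        det := det_one L hs hSp ho
        out := ho }
  have ball : ∀ (n : ℕ) (c : Eu (n + n)) (r : ℝ) (T : ℝ → Eu (n + n) → Eu (n + n))
      (H : ℝ → Eu (n + n) → ℝ), HPath c r T H → BallFam c r T :=
    fun n c r T H h => ballOf n c r T h.sT h.bij h.symp h.out
  have invS : ∀ (n : ℕ) (c : Eu (n + n)) (r : ℝ) (T : ℝ → Eu (n + n) → Eu (n + n))
      (H : ℝ → Eu (n + n) → ℝ), HPath c r T H →
      ContDiff ℝ ∞ (fun z : ℝ × Eu (n + n) => Function.invFun (T z.1) z.2) :=
    fun n c r T H h => (famKit.inv (n + n) ⊥ ℝ T (isFam (ball n c r T H h))).smooth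
  have sliceH : ∀ (n : ℕ) (c : Eu (n + n)) (r : ℝ) (T : ℝ → Eu (n + n) → Eu (n + n))
      (H : ℝ → Eu (n + n) → ℝ), HPath c r T H → ∀ t, ContDiff ℝ ∞ (H t) :=
    fun n c r T H h t => h.sH.comp (contDiff_const.prodMk contDiff_id)
  refine ⟨ballOf, ball, ?_, invS, ?_, ?_, ?_, ?_, ?_⟩
  · -- vel
    intro n c r T H h t x
    have h1 := (h.ode t (Function.invFun (T t) x)).deriv
    rw [right_inv (h.bij t)] at h1
    exact h1
  · -- one
    intro n c r
    exact
      { sT := contDiff_snd
        sH := contDiff_const
        zero := fun _ => rfl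
        bij := fun _ => Function.bijective_id
        symp := fun t x => by
          have : fderiv ℝ (fun y : Eu (n + n) => y) x = ContinuousLinearMap.id ℝ (Eu (n + n)) :=
            fderiv_id'
          show Sp (fderiv ℝ (fun y : Eu (n + n) => y) x)
          rw [this]
          exact L.spId n
        out := fun _ _ _ => rfl
        outH := fun _ _ _ => rfl
        ode := fun t x => by
          have h1 := S.const n 0 x
          show HasDerivAt (fun _ : ℝ => x) (sg (fun _ : Eu (n + n) => (0 : ℝ)) x) t
          rw [h1]
          exact hasDerivAt_const t x }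
  · -- mono
    intro n c c' r r' T H h hr
    have h1 : ∀ x : Eu (n + n), r' ≤ dist x c' → r ≤ dist x c := fun x hx => by
      have := dist_triangle x c c'
      linarith
    exact
      { sT := h.sT
        sH := h.sH
        zero := h.zero
        bij := h.bij
        symp := h.symp
        out := fun t x hx => h.out t x (h1 x hx)
        outH := fun t x hx => h.outH t x (h1 x hx)
        ode := h.ode }
  · -- inv
    intro n c r T H h
    have hI := invS n c r T H h
    have hI1 : ContDiff ℝ ∞ (Function.invFun (T 1)) :=
      hI.comp (contDiff_const.prodMk contDiff_id)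
    have hout : ∀ x, r ≤ dist x c → Function.invFun (T 1) x = x := fun x hx => by
      have h2 := left_inv (h.bij 1) x
      rwa [h.out 1 x hx] at h2
    exact
      { sT := by
          have h1 : ContDiff ℝ ∞ (fun z : ℝ × Eu (n + n) => (1 - z.1, Function.invFun (T 1) z.2)) :=
            (contDiff_const.sub contDiff_fst).prodMk (hI1.comp contDiff_snd)
          exact h.sT.comp h1
        sH := by
          have h1 : ContDiff ℝ ∞ (fun z : ℝ × Eu (n + n) => (1 - z.1, z.2)) :=
            (contDiff_const.sub contDiff_fst).prodMk contDiff_snd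
          exact (h.sH.comp h1).neg
        zero := fun x => by
          show T (1 - 0) (Function.invFun (T 1) x) = x
          rw [sub_zero]
          exact right_inv (h.bij 1) x
        bij := fun t => (h.bij (1 - t)).comp (inv_bij (h.bij 1))
        symp := fun t x => by
          have a1 : HasFDerivAt (T (1 - t)) (fderiv ℝ (T (1 - t)) (Function.invFun (T 1) x))
              (Function.invFun (T 1) x) :=
            (((smooth_slice h.sT (1 - t)).differentiable (by simp)) _).hasFDerivAt
          have a2 : HasFDerivAt (Function.invFun (T 1)) (fderiv ℝ (Function.invFun (T 1)) x) x :=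
            ((hI1.differentiable (by simp)) x).hasFDerivAt
          have a3 : HasFDerivAt (T 1) (fderiv ℝ (T 1) (Function.invFun (T 1) x))
              (Function.invFun (T 1) x) :=
            (((smooth_slice h.sT 1).differentiable (by simp)) _).hasFDerivAt
          have a4 := HasFDerivAt.comp x a1 a2
          have a5 := HasFDerivAt.comp x a3 a2
          have a6 : T 1 ∘ Function.invFun (T 1) = fun y => y :=
            funext fun y => right_inv (h.bij 1) y
          rw [a6] at a5
          have a7 : (fderiv ℝ (T 1) (Function.invFun (T 1) x)) ∘L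
              (fderiv ℝ (Function.invFun (T 1)) x) = ContinuousLinearMap.id ℝ (Eu (n + n)) :=
            a5.unique (hasFDerivAt_id x)
          have a8 : Sp (fderiv ℝ (Function.invFun (T 1)) x) :=
            L.spInv n _ _ (h.symp 1 _) a7
          have a9 : fderiv ℝ (fun y => T (1 - t) (Function.invFun (T 1) y)) x =
              (fderiv ℝ (T (1 - t)) (Function.invFun (T 1) x)) ∘L
                (fderiv ℝ (Function.invFun (T 1)) x) := a4.fderiv
          show Sp (fderiv ℝ (fun y => T (1 - t) (Function.invFun (T 1) y)) x)
          rw [a9]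
          exact L.spComp n _ _ (h.symp _ _) a8
        out := fun t x hx => by
          show T (1 - t) (Function.invFun (T 1) x) = x
          rw [hout x hx]
          exact h.out _ x hx
        outH := fun t x hx => by
          show - H (1 - t) x = 0
          rw [h.outH _ x hx, neg_zero]
        ode := fun t x => by
          have b1 := h.ode (1 - t) (Function.invFun (T 1) x)
          have b2 : HasDerivAt (fun τ : ℝ => 1 - τ) (-1) t := by
            simpa using (hasDerivAt_id t).const_sub 1
          have b3 := HasDerivAt.scomp t b1 b2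
          have b4 : sg (fun y => - H (1 - t) y) (T (1 - t) (Function.invFun (T 1) x)) =
              (-1 : ℝ) • sg (H (1 - t)) (T (1 - t) (Function.invFun (T 1) x)) := by
            have b5 := S.smul n (-1) (H (1 - t)) (T (1 - t) (Function.invFun (T 1) x))
              (((sliceH n c r T H h (1 - t)).differentiable (by simp)) _)
            rw [← b5]
            congr 1
            funext y
            ring
          show HasDerivAt (fun τ => T (1 - τ) (Function.invFun (T 1) x))
            (sg (fun y => - H (1 - t) y) (T (1 - t) (Function.invFun (T 1) x))) t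
          rw [b4]
          exact b3 }
  · -- scale
    intro n c r T a h s
    have ha : ContDiff ℝ ∞ a := sliceH n c r T _ h 0
    exact
      { sT := by
          have h1 : ContDiff ℝ ∞ (fun z : ℝ × Eu (n + n) => (s * z.1, z.2)) :=
            (contDiff_const.mul contDiff_fst).prodMk contDiff_snd
          exact h.sT.comp h1
        sH := contDiff_const.mul (ha.comp contDiff_snd)
        zero := fun x => by
          show T (s * 0) x = x
          rw [mul_zero]
          exact h.zero x
        bij := fun t => h.bij _
        symp := fun t x => h.symp _ x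
        out := fun t x hx => h.out _ x hx
        outH := fun t x hx => by
          show s * a x = 0
          rw [show a x = 0 from h.outH 0 x hx, mul_zero]
        ode := fun t x => by
          have b1 := h.ode (s * t) x
          have b2 : HasDerivAt (fun τ : ℝ => s * τ) s t := by
            simpa using (hasDerivAt_id t).const_mul s
          have b3 := HasDerivAt.scomp t b1 b2
          have b4 := S.smul n s a (T (s * t) x) ((ha.differentiable (by simp)) _)
          show HasDerivAt (fun τ => T (s * τ) x) (sg (fun y => s * a y) (T (s * t) x)) t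
          rw [b4]
          exact b3 }
  · -- group
    intro n c r T a h s t x
    have ha : ContDiff ℝ ∞ a := sliceH n c r T _ h 0
    have hV : ContDiff ℝ ∞ (fun z : ℝ × Eu (n + n) => (fun (_ : ℝ) => sg a) z.1 z.2) :=
      (S.smooth n a ha).comp contDiff_snd
    refine F.uniq (n + n) (fun _ => sg a) hV (fun s => T (s + t) x) (fun s => T s (T t x)) ?_ ?_ ?_ s
    · intro s
      have b1 := h.ode (s + t) x
      have b2 : HasDerivAt (fun τ : ℝ => τ + t) 1 s := by
        simpa using (hasDerivAt_id s).add_const t
      have b3 := HasDerivAt.scomp s b1 b2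
      rw [one_smul] at b3
      exact b3
    · intro s
      exact h.ode s (T t x)
    · show T (0 + t) x = T 0 (T t x)
      rw [zero_add, h.zero]

end

end SV
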