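import Pool.Agent.H6.SV.St

/-!
# Project SV: decomposition of a Hamiltonian field
-/

set_option autoImplicit false

open MeasureTheory Set Filter Topology Pool.Agent.H68.VD Pool.Agent.H68.GM
open scoped ENNReal ContDiff

namespace SV

namespace HamPA

variable {n : ℕ} {M : Type} [TopologicalSpace M] {ι : Type}

theorem sgSum (S : SgK) {κ : Type} (s : Finset κ) (G : κ → Eu (n + n) → ℝ) (x : Eu (n + n))
    (hG : ∀ i ∈ s, DifferentiableAt ℝ (G i) x) :
    sg (fun y => ∑ i ∈ s, G i y) x = ∑ i ∈ s, sg (G i) x := by
  classical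
  induction s using Finset.induction_on with
  | empty =>
    simp only [Finset.sum_empty]
    exact S.const n 0 x
  | insert a s ha ih =>
    simp only [Finset.sum_insert ha]
    rw [S.add n (G a) (fun y => ∑ i ∈ s, G i y) x (hG a (Finset.mem_insert_self a s)) ?_,
      ih fun i hi => hG i (Finset.mem_insert_of_mem hi)]
    exact DifferentiableAt.fun_sum fun i hi => hG i (Finset.mem_insert_of_mem hi)

theorem domOpen (ch : ι → OpenPartialHomeomorph M (Eu (n + n))) (i j : ι) :
    IsOpen (dom ch i j) :=
  (ch i).isOpen_inter_preimage_symm (ch j).open_source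

theorem trMem (ch : ι → OpenPartialHomeomorph M (Eu (n + n))) {i j : ι} {y : Eu (n + n)}
    (hy : y ∈ dom ch i j) : tr ch i j y ∈ dom ch j i := by
  refine ⟨(ch j).map_source hy.2, ?_⟩
  rw [tr, (ch j).left_inv hy.2]
  exact (ch i).map_target hy.1

theorem trTr (ch : ι → OpenPartialHomeomorph M (Eu (n + n))) {i j : ι} {y : Eu (n + n)}
    (hy : y ∈ dom ch i j) : tr ch j i (tr ch i j y) = y := by
  rw [tr, tr, (ch j).left_inv hy.2, (ch i).right_inv hy.1]

/-- the product of a cut off function and a function defined in the chart -/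
theorem testMul {U : Set (Eu n)} (hU : IsOpen U) {a b : Eu n → ℝ} (ha : ContDiff ℝ ∞ a)
    (hK : ∃ K : Set (Eu n), IsCompact K ∧ K ⊆ U ∧ ∀ y ∉ K, a y = 0) (hb : ContDiffOn ℝ ∞ b U) :
    TestIn U (fun y => a y * b y) := by
  obtain ⟨K, h1, h2, h3⟩ := hK
  refine ⟨?_, K, h1, h2, fun y hy => by simp [h3 y hy]⟩
  rw [contDiff_iff_contDiffAt]
  intro y
  by_cases hy : y ∈ K
  · exact ha.contDiffAt.mul (hb.contDiffAt (hU.mem_nhds (h2 hy)))
  · have h4 : (fun y => a y * b y) =ᶠ[𝓝 y] fun _ => 0 := by
      filter_upwards [h1.isClosed.isOpen_compl.mem_nhds hy] with z hz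
      simp [h3 z hz]
    exact contDiffAt_const.congr_of_eventuallyEq h4

theorem testInt {U : Set (Eu n)} {a : Eu n → ℝ} (ha : TestIn U a) : Integrable a := by
  obtain ⟨h1, K, h2, h3, h4⟩ := ha
  exact h1.continuous.integrable_of_hasCompactSupport (HasCompactSupport.intro h2 h4)

end HamPA

theorem hamP (S : SgK) : HamP := by
  classical
  intro n M _ _ _ _ ι _ ch hA χ hχ X hX
  obtain ⟨H, hH, hXH⟩ := hX
  -- the constant
  have hχT : ∀ i, TestIn (ch i).target (χ i) := fun i => ⟨hχ.smooth i, hχ.supp i⟩
  have hhT : ∀ i, TestIn (ch i).target (fun y => χ i y * H ((ch i).symm y)) := fun i =>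
    HamPA.testMul (ch i).open_target (hχ.smooth i) (hχ.supp i) (hH i)
  have hpos : 0 < ∑ i, ∫ x, χ i x := by
    obtain ⟨x⟩ := ‹Nonempty M›
    have h1 := hχ.sum x
    obtain ⟨i, -, hi⟩ : ∃ i ∈ Finset.univ,
        (if x ∈ (ch i).source then χ i (ch i x) else 0) ≠ 0 := by
      apply Finset.exists_ne_zero_of_sum_ne_zero
      rw [h1]
      exact one_ne_zero
    refine Finset.sum_pos' (fun j _ => integral_nonneg (hχ.nonneg j)) ⟨i, Finset.mem_univ i, ?_⟩
    have h2 : χ i (ch i x) ≠ 0 := by
      intro h
      apply hi
      split_ifs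
      · exact h
      · rfl
    obtain ⟨K, hK1, hK2, hK3⟩ := hχ.supp i
    exact (hχ.smooth i).continuous.integral_pos_of_hasCompactSupport_nonneg_nonzero
      (HasCompactSupport.intro hK1 hK3) (hχ.nonneg i) h2
  set c : ℝ := (∑ i, ∫ x, χ i x * H ((ch i).symm x)) / ∑ i, ∫ x, χ i x with hc
  let f : ι → Eu (n + n) → ℝ := fun i y => χ i y * (H ((ch i).symm y) - c)
  have hf : ∀ i, TestIn (ch i).target (f i) := fun i =>
    HamPA.testMul (ch i).open_target (hχ.smooth i) (hχ.supp i) ((hH i).sub contDiffOn_const)
  refine ⟨f, hf, ?_, ?_⟩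
  · have h1 : ∀ i, ∫ x, f i x = (∫ x, χ i x * H ((ch i).symm x)) - c * ∫ x, χ i x := by
      intro i
      rw [← integral_const_mul, ← integral_sub (HamPA.testInt (hhT i))
        ((HamPA.testInt (hχT i)).const_mul c)]
      refine integral_congr_ae (Eventually.of_forall fun x => ?_)
      simp only [f]
      ring
    simp only [h1]
    rw [Finset.sum_sub_distrib, ← Finset.mul_sum, hc, div_mul_cancel₀ _ hpos.ne', sub_self]
  · intro j y hy
    -- local functions
    let G : ι → Eu (n + n) → ℝ := fun i z =>
      (if (ch j).symm z ∈ (ch i).source then χ i (ch i ((ch j).symm z)) else 0) *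
        (H ((ch j).symm z) - c)
    have hG : ∀ i, DifferentiableAt ℝ (G i) y ∧ sg (G i) y = push ch i (sg (f i)) j y := by
      intro i
      by_cases hyi : y ∈ dom ch j i
      · have hx := HamPA.trMem ch hyi
        have hback := HamPA.trTr ch hyi
        have hGe : G i =ᶠ[𝓝 y] fun z => f i (tr ch j i z) := by
          filter_upwards [(HamPA.domOpen ch j i).mem_nhds hyi] with z hz
          simp only [G, f]
          rw [if_pos hz.2, tr, (ch i).left_inv hz.2]
        have hdk : DifferentiableAt ℝ (tr ch j i) y :=
          ((hA.smooth j i).contDiffAt ((HamPA.domOpen ch j i).mem_nhds hyi)).differentiableAt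
            (by simp)
        have hdg : DifferentiableAt ℝ (tr ch i j) (tr ch j i y) :=
          ((hA.smooth i j).contDiffAt ((HamPA.domOpen ch i j).mem_nhds hx)).differentiableAt
            (by simp)
        have hdf : ∀ x, DifferentiableAt ℝ (f i) x := fun x =>
          ((hf i).1.differentiable (by simp)) x
        refine ⟨?_, ?_⟩
        · refine DifferentiableAt.congr_of_eventuallyEq ?_ hGe
          exact DifferentiableAt.comp y (hdf _) hdk
        · rw [S.congr n _ _ y hGe, push, if_pos hyi]
          have h1 := S.conj n (f i) (tr ch i j) (tr ch j i) (tr ch j i y) (hdf _) hdg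
            (by rw [hback]; exact hdk) (by rw [hback])
            (by
              rw [hback]
              filter_upwards [(HamPA.domOpen ch j i).mem_nhds hyi] with z hz
              exact HamPA.trTr ch hz)
            (hA.symp i j _ hx)
          rw [hback] at h1
          exact h1
      · have hGe : G i =ᶠ[𝓝 y] fun _ => 0 := by
          obtain ⟨K, hK1, hK2, hK3⟩ := hχ.supp i
          have hc1 : IsCompact ((ch i).symm '' K) :=
            hK1.image_of_continuousOn ((ch i).continuousOn_symm.mono hK2)
          have hy1 : (ch j).symm y ∉ (ch i).symm '' K := by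
            rintro ⟨z, hz, hzy⟩
            apply hyi
            refine ⟨hy, ?_⟩
            rw [← hzy]
            exact (ch i).map_target (hK2 hz)
          have hcont : ContinuousAt (ch j).symm y :=
            (ch j).continuousOn_symm.continuousAt ((ch j).open_target.mem_nhds hy)
          filter_upwards [hcont.preimage_mem_nhds (hc1.isClosed.isOpen_compl.mem_nhds hy1)]
            with z hz
          simp only [G]
          split_ifs with h1
          · have h2 : ch i ((ch j).symm z) ∉ K := by
              intro h3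
              apply hz
              exact ⟨_, h3, (ch i).left_inv h1⟩
            rw [hK3 _ h2, zero_mul]
          · rw [zero_mul]
        refine ⟨?_, ?_⟩
        · exact DifferentiableAt.congr_of_eventuallyEq (differentiableAt_const 0) hGe
        · rw [S.congr n _ _ y hGe, S.const, push, if_neg hyi]
    have hsum : (fun z => ∑ i, G i z) =ᶠ[𝓝 y] fun z => H ((ch j).symm z) - c := by
      refine Eventually.of_forall fun z => ?_
      simp only [G]
      rw [← Finset.sum_mul]
      have := hχ.sum ((ch j).symm z)
      rw [this, one_mul]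
    have hdH : DifferentiableAt ℝ (fun z => H ((ch j).symm z)) y :=
      ((hH j).contDiffAt ((ch j).open_target.mem_nhds hy)).differentiableAt (by simp)
    rw [hXH j y hy]
    have h2 : sg (fun z => H ((ch j).symm z) - c) y = sg (fun z => H ((ch j).symm z)) y := by
      rw [S.sub n (fun z => H ((ch j).symm z)) (fun _ => c) y hdH (differentiableAt_const c),
        S.const, sub_zero]
    rw [← h2, ← S.congr n _ _ y hsum, HamPA.sgSum S Finset.univ G y fun i _ => (hG i).1]
    exact Finset.sum_congr rfl fun i _ => (hG i).2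

end SV
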