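import Pool.Agent.H6.SV.St
import Pool.Agent.H68.GM.WR

/-!
# Project SV, row SV-29: the negative Sobolev norm of a Hamiltonian field
-/

set_option autoImplicit false

open MeasureTheory Set Filter Topology Pool.Agent.H68.VD Pool.Agent.H68.GM
open scoped ENNReal ContDiff

namespace SV

noncomputable section

namespace InterpA

variable {n : ℕ}

/-! ### Pairing with a Hamiltonian field -/

theorem inner_ev {m : ℕ} (j : Fin m) (w : Eu m) : (inner ℝ (ev j) w : ℝ) = w j := by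
  unfold ev
  rw [EuclideanSpace.inner_single_left]
  simp

theorem norm_ev {m : ℕ} (j : Fin m) : ‖(ev j : Eu m)‖ = 1 := by
  unfold ev
  simp

theorem pair (h : Eu (n + n) → ℝ) (x w : Eu (n + n)) : (inner ℝ (sg h x) w : ℝ) =
    ∑ i : Fin n, (fderiv ℝ h x (ev (Fin.natAdd n i)) * w (Fin.castAdd n i) -
      fderiv ℝ h x (ev (Fin.castAdd n i)) * w (Fin.natAdd n i)) := by
  unfold sg jgrad
  rw [sum_inner]
  refine Finset.sum_congr rfl fun i _ => ?_
  rw [inner_sub_left, real_inner_smul_left, real_inner_smul_left, inner_ev, inner_ev]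

theorem comp_deriv {m : ℕ} {w : Eu m → Eu m} (hw : ContDiff ℝ ∞ w) (j : Fin m) (x e : Eu m) :
    fderiv ℝ (fun y => w y j) x e = fderiv ℝ w x e j := by
  have h1 : HasFDerivAt w (fderiv ℝ w x) x := (hw.differentiable (by simp) x).hasFDerivAt
  have h2 := (EuclideanSpace.proj (𝕜 := ℝ) j).hasFDerivAt.comp x h1
  have h3 : fderiv ℝ (fun y => w y j) x =
      (EuclideanSpace.proj (𝕜 := ℝ) j).comp (fderiv ℝ w x) := h2.fderiv
  rw [h3]
  rfl

theorem comp_le {m : ℕ} (w : Eu m → Eu m) (j k : Fin m) (x : Eu m) :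
    ‖fderiv ℝ w x (ev k) j‖ ≤ ‖fderiv ℝ w x‖ := by
  calc ‖fderiv ℝ w x (ev k) j‖ ≤ ‖fderiv ℝ w x (ev k)‖ := PiLp.norm_apply_le _ _
    _ ≤ ‖fderiv ℝ w x‖ * ‖(ev k : Eu m)‖ := ContinuousLinearMap.le_opNorm _ _
    _ = ‖fderiv ℝ w x‖ := by rw [norm_ev, mul_one]

theorem smooth_comp {m : ℕ} {w : Eu m → Eu m} (hw : ContDiff ℝ ∞ w) (j : Fin m) :
    ContDiff ℝ ∞ (fun y => w y j) :=
  (EuclideanSpace.proj (𝕜 := ℝ) j).contDiff.comp hw

/-- one integration by parts -/
theorem parts {m : ℕ} {h : Eu m → ℝ} (hh : ContDiff ℝ ∞ h) (hc : HasCompactSupport h)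
    {w : Eu m → Eu m} (hw : ContDiff ℝ ∞ w) (j k : Fin m) :
    Integrable (fun x => fderiv ℝ h x (ev k) * w x j) ∧
    ∫ x, fderiv ℝ h x (ev k) * w x j = - ∫ x, fderiv ℝ w x (ev k) j * h x := by
  have hwj := smooth_comp hw j
  have hwc : Continuous (fun y => w y j) := hwj.continuous
  have hdc : Continuous (fun x => fderiv ℝ h x (ev k)) :=
    (hh.continuous_fderiv (by simp)).clm_apply continuous_const
  have hdwc : Continuous (fun x => fderiv ℝ (fun y => w y j) x (ev k)) :=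
    (hwj.continuous_fderiv (by simp)).clm_apply continuous_const
  have hdcs : HasCompactSupport (fun x => fderiv ℝ h x (ev k)) := hc.fderiv_apply ℝ _
  have i1 : Integrable (fun x => fderiv ℝ h x (ev k) * w x j) :=
    (hdc.mul hwc).integrable_of_hasCompactSupport hdcs.mul_right
  have i1' : Integrable (fun x => w x j * fderiv ℝ h x (ev k)) :=
    (hwc.mul hdc).integrable_of_hasCompactSupport hdcs.mul_left
  have i2 : Integrable (fun x => fderiv ℝ (fun y => w y j) x (ev k) * h x) :=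
    (hdwc.mul hh.continuous).integrable_of_hasCompactSupport hc.mul_left
  have i3 : Integrable (fun x => w x j * h x) :=
    (hwc.mul hh.continuous).integrable_of_hasCompactSupport hc.mul_left
  refine ⟨i1, ?_⟩
  have h1 := integral_mul_fderiv_eq_neg_fderiv_mul_of_integrable
    (μ := (volume : Measure (Eu m))) (f := fun y => w y j) (g := h) (v := ev k) i2 i1' i3
    (fun x _ => hwj.differentiable (by simp) x) (fun x _ => hh.differentiable (by simp) x)
  have h2 : ∀ x, fderiv ℝ (fun y => w y j) x (ev k) = fderiv ℝ w x (ev k) j :=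
    fun x => comp_deriv hw j x (ev k)
  simp only [h2] at h1
  rw [← h1]
  refine integral_congr_ae (Filter.Eventually.of_forall fun x => ?_)
  exact mul_comm _ _

theorem term_le {m : ℕ} {h : Eu m → ℝ} (hh : ContDiff ℝ ∞ h) (hc : HasCompactSupport h)
    {w : Eu m → Eu m} (hw : ContDiff ℝ ∞ w) (j k : Fin m) :
    ‖∫ x, fderiv ℝ h x (ev k) * w x j‖ₑ ≤ ∫⁻ x, ‖h x‖ₑ * ‖fderiv ℝ w x‖ₑ := by
  rw [(parts hh hc hw j k).2, enorm_neg]
  refine (enorm_integral_le_lintegral_enorm _).trans (lintegral_mono fun x => ?_)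
  rw [enorm_mul, mul_comm]
  refine mul_le_mul_right ?_ _
  rw [← ofReal_norm, ← ofReal_norm]
  exact ENNReal.ofReal_le_ofReal (comp_le w j k x)

/-- the pairing is controlled by the gradient of the test field -/
theorem pair_le {h : Eu (n + n) → ℝ} (hh : ContDiff ℝ ∞ h) (hc : HasCompactSupport h)
    {w : Eu (n + n) → Eu (n + n)} (hw : ContDiff ℝ ∞ w) :
    ‖∫ x, (inner ℝ (sg h x) (w x) : ℝ)‖ₑ ≤
      ENNReal.ofReal (2 * n) * ∫⁻ x, ‖h x‖ₑ * ‖fderiv ℝ w x‖ₑ := by
  have h1 : ∫ x, (inner ℝ (sg h x) (w x) : ℝ) =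
      ∑ i : Fin n, ((∫ x, fderiv ℝ h x (ev (Fin.natAdd n i)) * w x (Fin.castAdd n i)) -
        ∫ x, fderiv ℝ h x (ev (Fin.castAdd n i)) * w x (Fin.natAdd n i)) := by
    have hint : ∀ i : Fin n, Integrable (fun x =>
        fderiv ℝ h x (ev (Fin.natAdd n i)) * w x (Fin.castAdd n i) -
          fderiv ℝ h x (ev (Fin.castAdd n i)) * w x (Fin.natAdd n i)) := fun i =>
      (parts hh hc hw (Fin.castAdd n i) (Fin.natAdd n i)).1.sub
        (parts hh hc hw (Fin.natAdd n i) (Fin.castAdd n i)).1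
    simp only [pair]
    rw [integral_finsetSum _ fun i _ => hint i]
    refine Finset.sum_congr rfl fun i _ => ?_
    exact integral_sub (parts hh hc hw (Fin.castAdd n i) (Fin.natAdd n i)).1
      (parts hh hc hw (Fin.natAdd n i) (Fin.castAdd n i)).1
  set I : ℝ≥0∞ := ∫⁻ x, ‖h x‖ₑ * ‖fderiv ℝ w x‖ₑ with hI
  rw [h1]
  calc ‖∑ i : Fin n, ((∫ x, fderiv ℝ h x (ev (Fin.natAdd n i)) * w x (Fin.castAdd n i)) -
        ∫ x, fderiv ℝ h x (ev (Fin.castAdd n i)) * w x (Fin.natAdd n i))‖ₑ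
      ≤ ∑ i : Fin n, ‖(∫ x, fderiv ℝ h x (ev (Fin.natAdd n i)) * w x (Fin.castAdd n i)) -
        ∫ x, fderiv ℝ h x (ev (Fin.castAdd n i)) * w x (Fin.natAdd n i)‖ₑ := enorm_sum_le _ _
    _ ≤ ∑ _i : Fin n, (I + I) := by
        refine Finset.sum_le_sum fun i _ => ?_
        refine (enorm_sub_le).trans ?_
        exact add_le_add (term_le hh hc hw _ _) (term_le hh hc hw _ _)
    _ = ENNReal.ofReal (2 * n) * I := by
        rw [Finset.sum_const, Finset.card_univ, Fintype.card_fin, nsmul_eq_mul, ← two_mul,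
          ENNReal.ofReal_mul zero_le_two, ENNReal.ofReal_ofNat, ENNReal.ofReal_natCast]
        ring

/-! ### `L^p` bounds on the support -/

theorem lp_le {m : ℕ} {F : Type*} [NormedAddCommGroup F] {p : ℝ} (hp : 1 < p) {h : Eu m → ℝ}
    {f : Eu m → F} (h0 : ∀ x ∉ tsupport h, f x = 0) {B μ : ℝ} (hB : 0 ≤ B) (hμ : 0 ≤ μ)
    (hf : ∀ x, ‖f x‖ ≤ B) (hs : volume (tsupport h) ≤ ENNReal.ofReal μ) :
    (∫⁻ x, ‖f x‖ₑ ^ p) ^ (1 / p) ≤ ENNReal.ofReal (B * μ ^ (1 / p)) := by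
  have hp0 : 0 < p := by linarith
  have h1 : ∫⁻ x, ‖f x‖ₑ ^ p ≤ ENNReal.ofReal B ^ p * ENNReal.ofReal μ := by
    calc ∫⁻ x, ‖f x‖ₑ ^ p ≤ ∫⁻ x, (tsupport h).indicator (fun _ => ENNReal.ofReal B ^ p) x := by
          refine lintegral_mono fun x => ?_
          by_cases hx : x ∈ tsupport h
          · rw [Set.indicator_of_mem hx]
            refine ENNReal.rpow_le_rpow ?_ hp0.le
            rw [← ofReal_norm]
            exact ENNReal.ofReal_le_ofReal (hf x)
          · rw [Set.indicator_of_notMem hx, h0 x hx, enorm_zero, ENNReal.zero_rpow_of_pos hp0]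
      _ = ENNReal.ofReal B ^ p * volume (tsupport h) := by
          rw [lintegral_indicator (isClosed_tsupport h).measurableSet, setLIntegral_const]
      _ ≤ _ := mul_le_mul_right hs _
  calc (∫⁻ x, ‖f x‖ₑ ^ p) ^ (1 / p) ≤ (ENNReal.ofReal B ^ p * ENNReal.ofReal μ) ^ (1 / p) :=
        ENNReal.rpow_le_rpow h1 (by positivity)
    _ = ENNReal.ofReal (B * μ ^ (1 / p)) := by
        rw [ENNReal.mul_rpow_of_nonneg _ _ (by positivity), ← ENNReal.rpow_mul,
          mul_one_div_cancel hp0.ne', ENNReal.rpow_one,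
          ENNReal.ofReal_rpow_of_nonneg hμ (by positivity), ← ENNReal.ofReal_mul hB]

theorem conj {p : ℝ} (hp : 1 < p) : p.HolderConjugate (p / (p - 1)) :=
  Real.HolderConjugate.conjExponent hp

/-- Hölder -/
theorem hol {m : ℕ} {F F' : Type*} [NormedAddCommGroup F] [NormedAddCommGroup F'] {p : ℝ}
    (hp : 1 < p) {f : Eu m → F} {g : Eu m → F'} (hf : Continuous f) (hg : Continuous g)
    {a b : ℝ≥0∞} (ha : (∫⁻ x, ‖f x‖ₑ ^ p) ^ (1 / p) ≤ a)
    (hb : (∫⁻ x, ‖g x‖ₑ ^ (p / (p - 1))) ^ (1 / (p / (p - 1))) ≤ b) :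
    ∫⁻ x, ‖f x‖ₑ * ‖g x‖ₑ ≤ a * b := by
  have h := ENNReal.lintegral_mul_le_Lp_mul_Lq (volume : Measure (Eu m)) (conj hp)
    (f := fun x => ‖f x‖ₑ) (g := fun x => ‖g x‖ₑ) hf.enorm.aemeasurable hg.enorm.aemeasurable
  exact h.trans (mul_le_mul' ha hb)

theorem sg_zero (h : Eu (n + n) → ℝ) (x : Eu (n + n)) (hx : x ∉ tsupport h) : sg h x = 0 := by
  unfold sg jgrad
  rw [fderiv_of_notMem_tsupport ℝ hx]
  simp

/-- the exponents -/
theorem pow_cmp {A G τ σ : ℝ} (hA : 0 < A) (hAG : A ≤ G) (hτ : 1 - τ ≤ σ) :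
    G * (A / G) ^ τ ≤ A ^ (1 - σ) * G ^ σ ∧ A * (A / G) ^ (τ - 1) ≤ A ^ (1 - σ) * G ^ σ := by
  have hG : 0 < G := by linarith
  have h1 : 1 ≤ G / A := (one_le_div hA).2 hAG
  have key : A * (G / A) ^ (1 - τ) ≤ A ^ (1 - σ) * G ^ σ := by
    have h2 : (G / A) ^ (1 - τ) ≤ (G / A) ^ σ := Real.rpow_le_rpow_of_exponent_le h1 hτ
    have h3 : A * (G / A) ^ σ = A ^ (1 - σ) * G ^ σ := by
      rw [Real.div_rpow hG.le hA.le, Real.rpow_sub hA, Real.rpow_one]
      ring
    rw [← h3]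
    exact mul_le_mul_of_nonneg_left h2 hA.le
  have e1 : (A / G) ^ (τ - 1) = (G / A) ^ (1 - τ) := by
    rw [← inv_div G A, Real.inv_rpow (by positivity), ← Real.rpow_neg (by positivity)]
    congr 1
    ring
  have e2 : G * (A / G) ^ τ = A * (A / G) ^ (τ - 1) := by
    rw [Real.rpow_sub_one (by positivity)]
    field_simp
  rw [e2, e1]
  exact ⟨key, key⟩

/-- the difference quotients of a test field of order `0 < r < 1` -/
theorem test_dq {m : ℕ} {r q : ℝ} (hr0 : 0 < r) (hr1 : r < 1) {v : Eu m → Eu m}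
    (hv : slobR r q v ≤ 1) :
    ∫⁻ x : Eu m, ∫⁻ h in Metric.ball (0 : Eu m) 1,
      ‖v (x + h) - v x‖ₑ ^ q / ‖h‖ₑ ^ ((m : ℝ) + r * q) ≤ 1 := by
  have hm : ⌊r⌋₊ = 0 := Nat.floor_eq_zero.2 hr1
  have hd : ∀ x h : Eu m, ‖iteratedFDeriv ℝ 0 v (x + h) - iteratedFDeriv ℝ 0 v x‖ₑ =
      ‖v (x + h) - v x‖ₑ := by
    intro x h
    rw [← ofReal_norm, ← ofReal_norm, iteratedFDeriv_zero_eq_comp]
    simp only [Function.comp_apply]
    rw [← map_sub, LinearIsometryEquiv.norm_map]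
  have h2 : slobR r q v = (∫⁻ x, ‖v x‖ₑ ^ q) +
      (∫⁻ x : Eu m, ∫⁻ h in Metric.ball (0 : Eu m) 1,
        ‖v (x + h) - v x‖ₑ ^ q / ‖h‖ₑ ^ ((m : ℝ) + r * q)) := by
    unfold slobR
    rw [hm]
    simp only [zero_add, Finset.range_one, Finset.sum_singleton, Nat.cast_zero, sub_zero,
      if_pos hr0, WRA.iter0, hd]
  rw [h2] at hv
  exact le_trans le_add_self hv

theorem test_grad {m : ℕ} {r q : ℝ} (hr1 : 1 ≤ r) {v : Eu m → Eu m} (hv : slobR r q v ≤ 1) :
    ∫⁻ x, ‖fderiv ℝ v x‖ₑ ^ q ≤ 1 := by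
  have hm : 1 ≤ ⌊r⌋₊ := Nat.one_le_floor_iff _ |>.2 hr1
  have h1 := (WRA.slob_term r q v 1 hm).trans hv
  refine le_trans (le_of_eq ?_) h1
  refine lintegral_congr fun x => ?_
  rw [← ofReal_norm, ← ofReal_norm, norm_iteratedFDeriv_one]

theorem root_le {q : ℝ} (hq : 0 < q) {I : ℝ≥0∞} (h : I ≤ 1) : I ^ (1 / q) ≤ 1 := by
  calc I ^ (1 / q) ≤ 1 ^ (1 / q) := ENNReal.rpow_le_rpow h (by positivity)
    _ = 1 := ENNReal.one_rpow _

end InterpA

theorem interp (MO : Moll) (S : SgK) (_L : LinK) : Interp := by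
  intro n s p σ hn hs hp hσ0 hσ1 hσs
  have hp0 : 0 < p := by linarith
  have hp1 : 0 < p - 1 := by linarith
  set q : ℝ := p / (p - 1) with hq
  have hq1 : 1 < q := by rw [hq, lt_div_iff₀ hp1]; linarith
  have hq0 : 0 < q := by linarith
  -- the constant of the mollification
  obtain ⟨C, hC, hmoll⟩ : ∃ C : ℝ, 0 ≤ C ∧ (-s < 1 → ∀ v : Eu (n + n) → Eu (n + n),
      ContDiff ℝ ∞ v → HasCompactSupport v →
      ∫⁻ x : Eu (n + n), ∫⁻ h in Metric.ball (0 : Eu (n + n)) 1,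
        ‖v (x + h) - v x‖ₑ ^ q / ‖h‖ₑ ^ (((n + n : ℕ) : ℝ) + (-s) * q) ≤ 1 → ∀ ρ : ℝ, 0 < ρ →
      ρ ≤ 1 → ∃ w : Eu (n + n) → Eu (n + n), ContDiff ℝ ∞ w ∧ HasCompactSupport w ∧
        (∫⁻ x, ‖v x - w x‖ₑ ^ q) ^ (1 / q) ≤ ENNReal.ofReal (C * ρ ^ (-s)) ∧
        (∫⁻ x, ‖fderiv ℝ w x‖ₑ ^ q) ^ (1 / q) ≤ ENNReal.ofReal (C * ρ ^ (-s - 1))) := by
    by_cases h1 : -s < 1
    · obtain ⟨C, hC, h2⟩ := MO (n + n) (-s) q (by omega) (by linarith) h1 hq1
      exact ⟨C, hC, fun _ => h2⟩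
    · exact ⟨0, le_rfl, fun h => absurd h h1⟩
  refine ⟨1 + 2 * n + C + 2 * n * C, by positivity, ?_⟩
  intro h hh hc A G μ hB
  have hcst : 0 ≤ cst σ p A G μ := by
    have hA := hB.A0
    have hG := hB.G0
    have hμ := hB.μ0
    unfold cst
    positivity
  rw [WRA.wR_neg s p hs]
  refine iSup₂_le fun v hv => ?_
  obtain ⟨hv1, hv2, hv3⟩ := hv
  rw [← Real.norm_eq_abs, ofReal_norm]
  have hsgc : Continuous (sg h) := (S.smooth n h hh).continuous
  have hsgz : ∀ x ∉ tsupport h, sg h x = 0 := fun x hx => InterpA.sg_zero h x hx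
  have hhz : ∀ x ∉ tsupport h, h x = 0 := fun x hx => image_eq_zero_of_notMem_tsupport hx
  have hsgn : ∀ x, ‖sg h x‖ ≤ G := fun x => by rw [S.norm]; exact hB.grad x
  have hhn : ∀ x, ‖h x‖ ≤ A := fun x => hB.amp x
  have hPs := InterpA.lp_le hp hsgz hB.G0 hB.μ0 hsgn hB.supp
  have hPh := InterpA.lp_le hp hhz hB.A0 hB.μ0 hhn hB.supp
  have hμp : 0 ≤ μ ^ (1 / p) := Real.rpow_nonneg hB.μ0 _
  have hAs : 0 ≤ A ^ (1 - σ) * G ^ σ :=
    mul_nonneg (Real.rpow_nonneg hB.A0 _) (Real.rpow_nonneg hB.G0 _)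
  rcases eq_or_lt_of_le hB.A0 with hA | hA
  · -- `h = 0`
    have h0 : h = fun _ => 0 := by
      funext x
      have := hB.amp x
      rw [← hA] at this
      exact abs_nonpos_iff.1 this
    have h1 : ∀ x, sg h x = 0 := by
      intro x
      rw [h0]
      exact S.const n 0 x
    simp [h1]
  rcases le_or_gt 1 (-s) with hr | hr
  · -- one derivative
    have hg := InterpA.root_le hq0 (InterpA.test_grad hr hv3)
    have h1 := InterpA.hol hp hh.continuous (hv1.continuous_fderiv (by simp)) hPh hg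
    calc ‖∫ x, (inner ℝ (sg h x) (v x) : ℝ)‖ₑ
        ≤ ENNReal.ofReal (2 * n) * ∫⁻ x, ‖h x‖ₑ * ‖fderiv ℝ v x‖ₑ := InterpA.pair_le hh hc hv1
      _ ≤ ENNReal.ofReal (2 * n) * (ENNReal.ofReal (A * μ ^ (1 / p)) * 1) :=
          mul_le_mul_right h1 _
      _ = ENNReal.ofReal (2 * n * (A * μ ^ (1 / p))) := by
          rw [mul_one, ← ENNReal.ofReal_mul (by positivity)]
      _ ≤ _ := by
          refine ENNReal.ofReal_le_ofReal ?_
          have h2 : A * μ ^ (1 / p) ≤ cst σ p A G μ := by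
            unfold cst
            exact mul_le_mul_of_nonneg_right (by linarith) hμp
          have h3 : 0 ≤ A * μ ^ (1 / p) := mul_nonneg hA.le hμp
          have hn0 : (0 : ℝ) ≤ n := Nat.cast_nonneg n
          calc 2 * n * (A * μ ^ (1 / p)) ≤ 2 * n * cst σ p A G μ :=
                mul_le_mul_of_nonneg_left h2 (by positivity)
            _ ≤ (1 + 2 * n + C + 2 * n * C) * cst σ p A G μ :=
                mul_le_mul_of_nonneg_right (by nlinarith) hcst
  · have hv4 : (∫⁻ x, ‖v x‖ₑ ^ q) ^ (1 / q) ≤ 1 :=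
      InterpA.root_le hq0 ((WRA.slob_zero _ _ v).trans hv3)
    rcases le_or_gt A G with hAG | hAG
    · -- mollification at the scale `A / G`
      have hG : 0 < G := by linarith
      obtain ⟨w, hw, hwc, hw1, hw2⟩ := hmoll hr v hv1 hv2
        (InterpA.test_dq (by linarith) hr hv3) (A / G) (by positivity) ((div_le_one hG).2 hAG)
      have hcmp := InterpA.pow_cmp (τ := -s) (σ := σ) hA hAG (by linarith)
      have h1 := InterpA.hol hp hsgc (hv1.continuous.sub hw.continuous) hPs hw1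
      have h2 := InterpA.hol hp hh.continuous (hw.continuous_fderiv (by simp)) hPh hw2
      have hsplit : ∫ x, (inner ℝ (sg h x) (v x) : ℝ) =
          (∫ x, (inner ℝ (sg h x) (v x - w x) : ℝ)) + ∫ x, (inner ℝ (sg h x) (w x) : ℝ) := by
        have hsc : HasCompactSupport (sg h) := HasCompactSupport.intro hc hsgz
        have hi1 : Integrable (fun x => (inner ℝ (sg h x) (v x - w x) : ℝ)) :=
          WRA.inner_integrable (sg h) (fun x => v x - w x) hsgc
            (hv1.continuous.sub hw.continuous) hsc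
        rw [← integral_add hi1 (WRA.inner_integrable _ _ hsgc hw.continuous hsc)]
        refine integral_congr_ae (Filter.Eventually.of_forall fun x => ?_)
        beta_reduce
        rw [← inner_add_right, sub_add_cancel]
      have h3 : ‖∫ x, (inner ℝ (sg h x) (v x - w x) : ℝ)‖ₑ ≤
          ENNReal.ofReal (G * μ ^ (1 / p)) * ENNReal.ofReal (C * (A / G) ^ (-s)) := by
        refine le_trans ?_ h1
        refine (enorm_integral_le_lintegral_enorm _).trans (lintegral_mono fun x => ?_)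
        rw [← ofReal_norm, ← ofReal_norm, ← ofReal_norm, ← ENNReal.ofReal_mul (norm_nonneg _)]
        exact ENNReal.ofReal_le_ofReal (norm_inner_le_norm _ _)
      have h4 : ‖∫ x, (inner ℝ (sg h x) (w x) : ℝ)‖ₑ ≤ ENNReal.ofReal (2 * n) *
          (ENNReal.ofReal (A * μ ^ (1 / p)) * ENNReal.ofReal (C * (A / G) ^ (-s - 1))) :=
        (InterpA.pair_le hh hc hw).trans (mul_le_mul_right h2 _)
      rw [hsplit]
      refine (enorm_add_le _ _).trans ((add_le_add h3 h4).trans ?_)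
      have hρ1 : 0 ≤ (A / G) ^ (-s) := Real.rpow_nonneg (by positivity) _
      have hρ2 : 0 ≤ (A / G) ^ (-s - 1) := Real.rpow_nonneg (by positivity) _
      have hn0 : (0 : ℝ) ≤ n := Nat.cast_nonneg n
      rw [← ENNReal.ofReal_mul (by positivity), ← ENNReal.ofReal_mul (by positivity),
        ← ENNReal.ofReal_mul (by positivity), ← ENNReal.ofReal_add (by positivity) (by positivity)]
      refine ENNReal.ofReal_le_ofReal ?_
      have e1 : G * μ ^ (1 / p) * (C * (A / G) ^ (-s)) ≤ C * cst σ p A G μ := by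
        have : G * μ ^ (1 / p) * (C * (A / G) ^ (-s)) =
            C * ((G * (A / G) ^ (-s)) * μ ^ (1 / p)) := by ring
        rw [this]
        refine mul_le_mul_of_nonneg_left ?_ hC
        unfold cst
        refine mul_le_mul_of_nonneg_right ?_ hμp
        linarith [hcmp.1]
      have e2 : 2 * n * (A * μ ^ (1 / p) * (C * (A / G) ^ (-s - 1))) ≤
          2 * n * C * cst σ p A G μ := by
        have : 2 * n * (A * μ ^ (1 / p) * (C * (A / G) ^ (-s - 1))) =
            2 * n * C * ((A * (A / G) ^ (-s - 1)) * μ ^ (1 / p)) := by ring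
        rw [this]
        refine mul_le_mul_of_nonneg_left ?_ (by positivity)
        unfold cst
        refine mul_le_mul_of_nonneg_right ?_ hμp
        linarith [hcmp.2]
      have e3 : 0 ≤ (1 + 2 * n) * cst σ p A G μ := by positivity
      calc G * μ ^ (1 / p) * (C * (A / G) ^ (-s)) +
            2 * n * (A * μ ^ (1 / p) * (C * (A / G) ^ (-s - 1)))
          ≤ C * cst σ p A G μ + 2 * n * C * cst σ p A G μ := add_le_add e1 e2
        _ ≤ (1 + 2 * n + C + 2 * n * C) * cst σ p A G μ := by linarith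
    · -- small gradient
      have h1 := InterpA.hol hp hsgc hv1.continuous hPs hv4
      calc ‖∫ x, (inner ℝ (sg h x) (v x) : ℝ)‖ₑ
          ≤ ∫⁻ x, ‖sg h x‖ₑ * ‖v x‖ₑ := by
            refine (enorm_integral_le_lintegral_enorm _).trans (lintegral_mono fun x => ?_)
            rw [← ofReal_norm, ← ofReal_norm, ← ofReal_norm, ← ENNReal.ofReal_mul (norm_nonneg _)]
            exact ENNReal.ofReal_le_ofReal (norm_inner_le_norm _ _)
        _ ≤ ENNReal.ofReal (G * μ ^ (1 / p)) * 1 := h1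
        _ = ENNReal.ofReal (G * μ ^ (1 / p)) := mul_one _
        _ ≤ _ := by
            refine ENNReal.ofReal_le_ofReal ?_
            have hn0 : (0 : ℝ) ≤ n := Nat.cast_nonneg n
            have e1 : G * μ ^ (1 / p) ≤ cst σ p A G μ := by
              unfold cst
              exact mul_le_mul_of_nonneg_right (by linarith) hμp
            have e2 : 0 ≤ (2 * n + C + 2 * n * C) * cst σ p A G μ := by positivity
            linarith

end

end SV
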