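import Pool.Agent.H6.SV.St

/-! SV-10: the one dimensional functions. -/

set_option autoImplicit false

open MeasureTheory Set Filter Topology Pool.Agent.H68.VD Pool.Agent.H68.GM
open scoped ENNReal ContDiff

namespace SV

noncomputable section

private abbrev st := Real.smoothTransition

private theorem st_symm (x : ℝ) : st (1 - x) = 1 - st x := by
  have h := Real.smoothTransition.pos_denom x
  unfold st Real.smoothTransition
  rw [show (1 : ℝ) - (1 - x) = x by ring]
  rw [add_comm (expNegInvGlue (1 - x))]
  field_simp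
  ring

private theorem st_smooth : ContDiff ℝ ∞ st := Real.smoothTransition.contDiff

private theorem kap_sin (x : ℝ) (k : ℤ) :
    |Real.sin (2 * Real.pi * x)| = |Real.sin (2 * Real.pi * |x - k / 2|)| := by
  have h : Real.sin (2 * Real.pi * x) = (-1) ^ k * Real.sin (2 * Real.pi * (x - k / 2)) := by
    rw [← Real.sin_add_int_mul_pi]
    congr 1
    ring
  rw [h, abs_mul, abs_zpow, abs_neg, abs_one, one_zpow, one_mul]
  rcases abs_cases (x - (k : ℝ) / 2) with ⟨h1, _⟩ | ⟨h1, _⟩
  · rw [h1]
  · rw [h1, mul_neg, Real.sin_neg, abs_neg]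

private theorem kap_upper (x : ℝ) (k : ℤ) :
    |Real.sin (2 * Real.pi * x)| ≤ 2 * Real.pi * |x - k / 2| := by
  rw [kap_sin x k]
  refine Real.abs_sin_le_abs.trans (le_of_eq ?_)
  rw [abs_of_nonneg]
  positivity

private theorem kap_lower (x d : ℝ) (h : ∀ k : ℤ, d ≤ |x - k / 2|) :
    4 * d ≤ |Real.sin (2 * Real.pi * x)| := by
  rw [kap_sin x (round (2 * x))]
  have h1 := h (round (2 * x))
  have h2 : |x - (round (2 * x) : ℤ) / 2| ≤ 1 / 4 := by
    have := abs_sub_round (2 * x)
    have e : x - (round (2 * x) : ℤ) / 2 = (2 * x - (round (2 * x) : ℤ)) / 2 := by ring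
    rw [e, abs_div, abs_two]
    linarith
  set y := |x - (round (2 * x) : ℤ) / 2| with hy
  have hy0 : 0 ≤ y := abs_nonneg _
  have hp := Real.pi_pos
  have h3 := Real.mul_le_sin (x := 2 * Real.pi * y) (by positivity) (by nlinarith)
  have h4 : 2 / Real.pi * (2 * Real.pi * y) = 4 * y := by field_simp; ring
  rw [h4] at h3
  refine le_trans ?_ (le_abs_self _)
  linarith

theorem kap : Kap := by
  -- the bump function
  set b : ℝ → ℝ := fun y => st (5 / 2 - y) * st (5 / 2 + y) with hb
  have bs : ContDiff ℝ ∞ b :=
    (st_smooth.comp (contDiff_const.sub contDiff_id)).mul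
      (st_smooth.comp (contDiff_const.add contDiff_id))
  have b0 : ∀ y, 0 ≤ b y ∧ b y ≤ 1 := fun y => by
    have h1 := Real.smoothTransition.nonneg (5 / 2 - y)
    have h2 := Real.smoothTransition.nonneg (5 / 2 + y)
    have h3 := Real.smoothTransition.le_one (5 / 2 - y)
    have h4 := Real.smoothTransition.le_one (5 / 2 + y)
    exact ⟨mul_nonneg h1 h2, mul_le_one₀ h3 h2 h4⟩
  have b1 : ∀ y, |y| ≤ 3 / 2 → b y = 1 := fun y hy => by
    obtain ⟨h1, h2⟩ := abs_le.1 hy
    simp only [hb, st]
    rw [Real.smoothTransition.one_of_one_le (by linarith), Real.smoothTransition.one_of_one_le (by linarith),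
      one_mul]
  have b2 : ∀ y, 5 / 2 ≤ |y| → b y = 0 := fun y hy => by
    simp only [hb, st]
    rcases le_abs.1 hy with h | h
    · rw [Real.smoothTransition.zero_of_nonpos (by linarith), zero_mul]
    · rw [Real.smoothTransition.zero_of_nonpos (x := 5 / 2 + y) (by linarith), mul_zero]
  have bc : HasCompactSupport b := by
    refine HasCompactSupport.intro (K := Icc (-(5 / 2)) (5 / 2)) isCompact_Icc fun y hy => b2 y ?_
    by_contra hc
    rw [not_le, abs_lt] at hc
    exact hy ⟨hc.1.le, hc.2.le⟩
  obtain ⟨C, hC⟩ := bc.deriv.exists_bound_of_continuous (bs.continuous_deriv (by simp))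
  have hC0 : 0 ≤ C := (norm_nonneg _).trans (hC 0)
  refine ⟨C, hC0, fun η h0 h1 => ⟨?_, ?_⟩⟩
  · -- κ
    set g : ℝ → ℝ := fun x => 2 * st ((Real.sin (2 * Real.pi * x) / (4 * η) + 1) / 2) - 1 with hg
    have gs : ContDiff ℝ ∞ g := by
      have h2 : ContDiff ℝ ∞ fun x : ℝ => (Real.sin (2 * Real.pi * x) / (4 * η) + 1) / 2 := by
        have : ContDiff ℝ ∞ fun x : ℝ => Real.sin (2 * Real.pi * x) :=
          Real.contDiff_sin.comp (contDiff_const.mul contDiff_id)
        exact ((this.div_const _).add contDiff_const).div_const _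
      exact (contDiff_const.mul (st_smooth.comp h2)).sub contDiff_const
    have gc : Continuous g := gs.continuous
    have g1 : ∀ x, |g x| ≤ 1 := fun x => by
      have h2 := Real.smoothTransition.nonneg ((Real.sin (2 * Real.pi * x) / (4 * η) + 1) / 2)
      have h3 := Real.smoothTransition.le_one ((Real.sin (2 * Real.pi * x) / (4 * η) + 1) / 2)
      rw [abs_le]
      constructor <;> simp only [hg, st] <;> linarith
    have gp : Function.Periodic g 1 := fun x => by
      simp only [hg]
      rw [show 2 * Real.pi * (x + 1) = 2 * Real.pi * x + 2 * Real.pi by ring, Real.sin_add_two_pi]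
    have go : ∀ x, g (-x) = -g x := fun x => by
      simp only [hg]
      rw [mul_neg, Real.sin_neg]
      rw [show (-Real.sin (2 * Real.pi * x) / (4 * η) + 1) / 2 =
        1 - (Real.sin (2 * Real.pi * x) / (4 * η) + 1) / 2 by ring, st_symm]
      ring
    have gi : ∫ x in (-(1 / 2) : ℝ)..(1 / 2), g x = 0 := by
      have h2 := intervalIntegral.integral_comp_neg (a := -(1 / 2)) (b := 1 / 2) g
      simp only [go, neg_neg, intervalIntegral.integral_neg] at h2
      linarith
    set κ : ℝ → ℝ := fun x => ∫ t in (0 : ℝ)..x, g t with hκ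
    have kd : ∀ x, HasDerivAt κ (g x) x := fun x =>
      intervalIntegral.integral_hasDerivAt_right (gc.intervalIntegrable _ _)
        gc.aestronglyMeasurable.stronglyMeasurableAtFilter gc.continuousAt
    have kd' : deriv κ = g := funext fun x => (kd x).deriv
    have ks : ContDiff ℝ ∞ κ := by
      rw [contDiff_infty_iff_deriv]
      exact ⟨fun x => (kd x).differentiableAt, kd' ▸ gs⟩
    have kp : Function.Periodic κ 1 := fun x => by
      have h2 : κ (x + 1) = κ x + ∫ t in x..(x + 1), g t :=
        (intervalIntegral.integral_add_adjacent_intervals (gc.intervalIntegrable _ _)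
          (gc.intervalIntegrable _ _)).symm
      rw [h2, gp.intervalIntegral_add_eq x (-(1 / 2)), show (-(1 / 2) : ℝ) + 1 = 1 / 2 by norm_num, gi,
        add_zero]
    refine ⟨κ, ks, fun x => ?_, fun x => by rw [kd']; exact g1 x, fun x hx => ?_⟩
    · have h2 : κ x = κ (Int.fract x) := by
        have := kp.sub_zsmul_eq (x := x) ⌊x⌋
        rw [← this, zsmul_one]
        rfl
      rw [h2]
      have h3 := Int.fract_nonneg x
      have h4 := (Int.fract_lt_one x).le
      have h5 := intervalIntegral.norm_integral_le_of_norm_le_const (f := g) (a := 0)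
        (b := Int.fract x) (C := 1) fun y _ => g1 y
      rw [sub_zero, abs_of_nonneg h3, one_mul, Real.norm_eq_abs] at h5
      exact h5.trans h4
    · rw [kd']
      have h2 := kap_lower x η hx
      simp only [hg, st]
      rcases le_abs.1 h2 with h | h
      · have h3 : 1 ≤ (Real.sin (2 * Real.pi * x) / (4 * η) + 1) / 2 := by
          have : 1 ≤ Real.sin (2 * Real.pi * x) / (4 * η) := by
            rw [le_div_iff₀ (by positivity)]
            linarith
          linarith
        rw [Real.smoothTransition.one_of_one_le h3]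
        norm_num
      · have h3 : (Real.sin (2 * Real.pi * x) / (4 * η) + 1) / 2 ≤ 0 := by
          have : Real.sin (2 * Real.pi * x) / (4 * η) ≤ -1 := by
            rw [div_le_iff₀ (by positivity)]
            linarith
          linarith
        rw [Real.smoothTransition.zero_of_nonpos h3]
        norm_num
  · -- ξ
    have hp := Real.pi_pos
    set s : ℝ → ℝ := fun x => Real.sin (2 * Real.pi * x) / (2 * Real.pi * η) with hs
    have ss : ContDiff ℝ ∞ s := by
      have : ContDiff ℝ ∞ fun x : ℝ => Real.sin (2 * Real.pi * x) :=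
        Real.contDiff_sin.comp (contDiff_const.mul contDiff_id)
      exact this.div_const _
    have sd : ∀ x, HasDerivAt s (Real.cos (2 * Real.pi * x) / η) x := fun x => by
      have h2 : HasDerivAt (fun x : ℝ => 2 * Real.pi * x) (2 * Real.pi) x := by
        simpa using (hasDerivAt_id x).const_mul (2 * Real.pi)
      have h3 := (h2.sin).div_const (2 * Real.pi * η)
      have e : Real.cos (2 * Real.pi * x) / η =
          Real.cos (2 * Real.pi * x) * (2 * Real.pi) / (2 * Real.pi * η) := by
        field_simp
      rw [e]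
      exact h3
    refine ⟨fun x => b (s x), bs.comp ss, fun x => b0 _, fun x => ?_, fun x k hk => ?_, fun x hx => ?_⟩
    · have h2 : HasDerivAt (fun x => b (s x)) (deriv b (s x) * (Real.cos (2 * Real.pi * x) / η)) x :=
        ((bs.differentiable (by simp)).differentiableAt.hasDerivAt).comp x (sd x)
      rw [h2.deriv, abs_mul, abs_div, abs_of_pos h0, ← mul_div_assoc]
      gcongr
      have h3 := hC (s x)
      rw [Real.norm_eq_abs] at h3
      have h4 := Real.abs_cos_le_one (2 * Real.pi * x)
      calc |deriv b (s x)| * |Real.cos (2 * Real.pi * x)| ≤ C * 1 :=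
            mul_le_mul h3 h4 (abs_nonneg _) hC0
        _ = C := mul_one C
    · refine b1 _ ?_
      simp only [hs]
      rw [abs_div, abs_of_pos (show 0 < 2 * Real.pi * η by positivity), div_le_iff₀ (by positivity)]
      have := kap_upper x k
      nlinarith
    · have h2 := kap_lower x (4 * η) hx
      have h3 : 5 / 2 < |s x| := by
        simp only [hs]
        rw [abs_div, abs_of_pos (show 0 < 2 * Real.pi * η by positivity), lt_div_iff₀ (by positivity)]
        have h4 := Real.pi_lt_d2
        nlinarith
      have h5 : ∀ᶠ y in 𝓝 x, 5 / 2 < |s y| :=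
        (ss.continuous.abs.tendsto x).eventually (lt_mem_nhds h3)
      filter_upwards [h5] with y hy
      exact b2 _ hy.le

end

end SV
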