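import Pool.Agent.H6.SV.St
import Pool.Agent.H68.GM.PushK

/-!
# Project SV, row SV-24: local approximation by cheap fields
-/

set_option autoImplicit false

open MeasureTheory Set Filter Topology Pool.Agent.H68.VD Pool.Agent.H68.GM
open scoped ENNReal ContDiff

namespace SV

noncomputable section

namespace LApxA

variable {n : ℕ}

theorem volAtlas (L : LinK) {M : Type} [TopologicalSpace M] {ι : Type}
    {ch : ι → OpenPartialHomeomorph M (Eu (n + n))} (hA : SympAtlas ch) : VolAtlas ch where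
  cover := hA.cover
  smooth := hA.smooth
  det := fun i j y hy => L.spDet n _ (hA.symp i j y hy)

theorem push_sub_sum {M : Type} [TopologicalSpace M] {ι : Type}
    (ch : ι → OpenPartialHomeomorph M (Eu (n + n))) (i : ι) {K : ℕ} (a : Fin K → ℝ)
    (v : Eu (n + n) → Eu (n + n)) (u : Fin K → Eu (n + n) → Eu (n + n)) (j : ι)
    (y : Eu (n + n)) :
    push ch i v j y - ∑ k, a k • push ch i (u k) j y =
      push ch i (fun y => v y - ∑ k, a k • u k y) j y := by
  unfold push
  by_cases h : y ∈ dom ch j i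
  · simp only [if_pos h, map_sub, map_sum, map_smul]
  · simp only [if_neg h, smul_zero, Finset.sum_const_zero, sub_zero]

theorem push_add {M : Type} [TopologicalSpace M] {ι : Type}
    (ch : ι → OpenPartialHomeomorph M (Eu (n + n))) (i : ι)
    (u v : Eu (n + n) → Eu (n + n)) (j : ι) (y : Eu (n + n)) :
    push ch i u j y + push ch i v j y = push ch i (fun y => u y + v y) j y := by
  unfold push
  by_cases h : y ∈ dom ch j i
  · simp only [if_pos h, map_add]
  · simp only [if_neg h, add_zero]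

theorem push_zero {M : Type} [TopologicalSpace M] {ι : Type}
    (ch : ι → OpenPartialHomeomorph M (Eu (n + n))) (i : ι)
    (u : Eu (n + n) → Eu (n + n)) (hu : ∀ y, u y = 0) (j : ι) (y : Eu (n + n)) :
    push ch i u j y = 0 := by
  unfold push
  by_cases h : y ∈ dom ch j i
  · simp only [if_pos h, hu, map_zero]
  · simp only [if_neg h]

/-- the field of a translated bump function -/
def V (β : Eu (n + n) → ℝ) (z : Eu (n + n)) : Eu (n + n) → Eu (n + n) := sg (fun x => β (x - z))

theorem tr_smooth {β : Eu (n + n) → ℝ} (hβ : ContDiff ℝ ∞ β) (z : Eu (n + n)) :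
    ContDiff ℝ ∞ (fun x => β (x - z)) := hβ.comp (contDiff_id.sub contDiff_const)

theorem tr_diff {β : Eu (n + n) → ℝ} (hβ : ContDiff ℝ ∞ β) (z x : Eu (n + n)) :
    DifferentiableAt ℝ (fun x => β (x - z)) x :=
  (tr_smooth hβ z).contDiffAt.differentiableAt (by simp)

/-- one step of the chain -/
theorem step (A : ApxK) (T : Trans) (S : SgK) {M : Type} [TopologicalSpace M] {ι : Type}
    (ch : ι → OpenPartialHomeomorph M (Eu (n + n))) (i : ι) {Λ r R : ℝ} {c : Eu (n + n)}
    (hr : 0 < r) (hΛ : Λ * (4 * r) ≤ R) (hc : Metric.closedBall c (2 * R) ⊆ (ch i).target)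
    {β : Eu (n + n) → ℝ} (hβ : ContDiff ℝ ∞ β) (h0 : ∀ x, r ≤ ‖x‖ → β x = 0)
    {z z' : Eu (n + n)} (hz : dist z c ≤ R) (hzz : dist z' z < r) :
    Apx ch Λ (push ch i (fun y => V β z y - V β z' y)) := by
  obtain ⟨g, hg, hgt⟩ := T n z z z' r hr (by rw [dist_self]; exact hr) hzz
  have hcc : Metric.closedBall z (Λ * (4 * r)) ⊆ (ch i).target := by
    refine Set.Subset.trans ?_ hc
    apply Metric.closedBall_subset_closedBall'
    linarith
  have hout : ∀ x, 4 * r ≤ dist x z → β (x - z) = 0 := by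
    intro x hx
    apply h0
    rw [dist_eq_norm] at hx
    linarith
  have h1 := A.one n M ι ch Λ ⟨i, z, 4 * r, fun x => β (x - z), g, by positivity, hcc,
    tr_smooth hβ z, hout, hg⟩
  have h2 : dif (fun x => β (x - z)) g = fun x => β (x - z) - β (x - z') := by
    funext y
    unfold dif
    congr 1
    have hgg : g (g⁻¹ y) = y := by simp
    by_cases hy : dist (g⁻¹ y) z < r
    · have h3 := hgt _ hy
      rw [hgg] at h3
      have h4 : g⁻¹ y - z = y - z' := by
        have h4' : y - z' = g⁻¹ y + (z' - z) - z' := congrArg (fun t => t - z') h3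
        rw [h4']
        abel
      show β (g⁻¹ y - z) = β (y - z')
      rw [h4]
    · have h3 : β (g⁻¹ y - z) = 0 := by
        apply h0
        rw [← dist_eq_norm]
        exact not_lt.mp hy
      show β (g⁻¹ y - z) = β (y - z')
      rw [h3]
      symm
      apply h0
      by_contra hlt
      have h5 : dist (y - (z' - z)) z < r := by
        rw [dist_eq_norm]
        have h6 : y - (z' - z) - z = y - z' := by abel
        rw [h6]
        exact not_le.mp hlt
      have h6 := hgt _ h5
      have h7 : g (y - (z' - z)) = y := by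
        rw [h6]
        abel
      have h8 : g⁻¹ y = y - (z' - z) := by
        rw [Equiv.Perm.inv_eq_iff_eq, h7]
      exact hy (by rw [h8]; exact h5)
  have h3 : sg (dif (fun x => β (x - z)) g) = fun y => V β z y - V β z' y := by
    rw [h2]
    funext y
    exact S.sub n _ _ y (tr_diff hβ z y) (tr_diff hβ z' y)
  rw [← h3]
  exact h1

/-- chains -/
theorem chain (A : ApxK) (T : Trans) (S : SgK) {M : Type} [TopologicalSpace M] {ι : Type}
    (ch : ι → OpenPartialHomeomorph M (Eu (n + n))) (i : ι) {Λ r R : ℝ} {c : Eu (n + n)}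
    (hr : 0 < r) (hΛ : Λ * (4 * r) ≤ R) (hc : Metric.closedBall c (2 * R) ⊆ (ch i).target)
    {β : Eu (n + n) → ℝ} (hβ : ContDiff ℝ ∞ β) (h0 : ∀ x, r ≤ ‖x‖ → β x = 0)
    (w : ℕ → Eu (n + n)) : ∀ N : ℕ, (∀ l ≤ N, dist (w l) c ≤ R) →
    (∀ l < N, dist (w (l + 1)) (w l) < r) →
    Apx ch Λ (push ch i (fun y => V β (w 0) y - V β (w N) y)) := by
  intro N
  induction N with
  | zero =>
    intro _ _
    refine A.congr n M ι ch Λ _ _ (A.zero n M ι ch Λ) ?_
    intro j y _
    rw [push_zero]
    intro y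
    exact sub_self _
  | succ N ih =>
    intro h1 h2
    have h3 := ih (fun l hl => h1 l (by omega)) (fun l hl => h2 l (by omega))
    have h4 := step A T S ch i hr hΛ hc hβ h0 (h1 N (by omega)) (h2 N (by omega))
    refine A.congr n M ι ch Λ _ _ (A.add n M ι ch Λ _ _ h3 h4) ?_
    intro j y _
    rw [push_add]
    congr 1
    funext y
    abel

/-- translates with centres in the ball -/
theorem join (A : ApxK) (T : Trans) (S : SgK) {M : Type} [TopologicalSpace M] {ι : Type}
    (ch : ι → OpenPartialHomeomorph M (Eu (n + n))) (i : ι) {Λ r R : ℝ} {c : Eu (n + n)}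
    (hr : 0 < r) (hR : 0 < R) (hΛ : Λ * (4 * r) ≤ R)
    (hc : Metric.closedBall c (2 * R) ⊆ (ch i).target)
    {β : Eu (n + n) → ℝ} (hβ : ContDiff ℝ ∞ β) (h0 : ∀ x, r ≤ ‖x‖ → β x = 0)
    (z : Eu (n + n)) (hz : dist z c ≤ R) :
    Apx ch Λ (push ch i (fun y => V β z y - V β c y)) := by
  obtain ⟨N, hN⟩ := exists_nat_gt (R / r)
  have hN0 : (0 : ℝ) < N := lt_of_le_of_lt (by positivity) hN
  have hRN : R / N < r := by
    rw [div_lt_iff₀ hN0]
    rw [div_lt_iff₀ hr] at hN
    linarith
  have hN1 : N ≠ 0 := by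
    rintro rfl
    simp at hN0
  set w : ℕ → Eu (n + n) := fun l => z + ((l : ℝ) / N) • (c - z) with hw
  have h1 := chain A T S ch i hr hΛ hc hβ h0 w N ?_ ?_
  · have e0 : w 0 = z := by simp [hw]
    have eN : w N = c := by
      simp only [hw]
      rw [div_self hN0.ne', one_smul]
      abel
    rw [e0, eN] at h1
    exact h1
  · intro l hl
    have hl' : (l : ℝ) ≤ N := by exact_mod_cast hl
    have e1 : w l - c = (1 - (l : ℝ) / N) • (z - c) := by
      simp only [hw]
      rw [sub_smul, one_smul, ← neg_sub c z, smul_neg]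
      abel
    rw [dist_eq_norm, e1, norm_smul, Real.norm_eq_abs]
    have h5 : (l : ℝ) / N ≤ 1 := by
      rw [div_le_one hN0]
      exact hl'
    have h6 : 0 ≤ (l : ℝ) / N := by positivity
    rw [abs_of_nonneg (by linarith)]
    rw [dist_eq_norm] at hz
    calc (1 - (l : ℝ) / N) * ‖z - c‖ ≤ 1 * ‖z - c‖ :=
          mul_le_mul_of_nonneg_right (by linarith) (norm_nonneg _)
      _ ≤ R := by rw [one_mul]; exact hz
  · intro l _
    have e1 : w (l + 1) - w l = ((1 : ℝ) / N) • (c - z) := by
      simp only [hw]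
      push_cast
      rw [add_div, add_smul]
      abel
    rw [dist_eq_norm, e1, norm_smul, Real.norm_eq_abs, abs_of_pos (by positivity)]
    rw [dist_comm, dist_eq_norm] at hz
    calc (1 : ℝ) / N * ‖c - z‖ ≤ 1 / N * R :=
          mul_le_mul_of_nonneg_left hz (by positivity)
      _ = R / N := by ring
      _ < r := hRN

theorem apx_sum (A : ApxK) {M : Type} [TopologicalSpace M] {ι : Type}
    (ch : ι → OpenPartialHomeomorph M (Eu (n + n))) (Λ : ℝ) {K : ℕ} (a : Fin K → ℝ)
    (X : Fin K → ι → Eu (n + n) → Eu (n + n)) (hX : ∀ k, Apx ch Λ (X k)) :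
    Apx ch Λ (fun j y => ∑ k, a k • X k j y) := by
  classical
  have h : ∀ s : Finset (Fin K), Apx ch Λ (fun j y => ∑ k ∈ s, a k • X k j y) := by
    intro s
    induction s using Finset.induction_on with
    | empty =>
      simp only [Finset.sum_empty]
      exact A.zero n M ι ch Λ
    | insert k s hk ih =>
      simp only [Finset.sum_insert hk]
      exact A.add n M ι ch Λ _ _ (A.smul n M ι ch Λ _ (a k) (hX k)) ih
  exact h Finset.univ

theorem sg_sum (S : SgK) {β : Eu (n + n) → ℝ} (hβ : ContDiff ℝ ∞ β) {K : ℕ} (a : Fin K → ℝ)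
    (z : Fin K → Eu (n + n)) (y : Eu (n + n)) :
    sg (fun x => ∑ k, a k * β (x - z k)) y = ∑ k, a k • V β (z k) y := by
  classical
  have h : ∀ s : Finset (Fin K), sg (fun x => ∑ k ∈ s, a k * β (x - z k)) y =
      ∑ k ∈ s, a k • V β (z k) y := by
    intro s
    induction s using Finset.induction_on with
    | empty =>
      simp only [Finset.sum_empty]
      exact S.const n 0 y
    | insert k s hk ih =>
      simp only [Finset.sum_insert hk]
      rw [S.add n _ _ y ((tr_diff hβ (z k) y).const_mul (a k))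
        (DifferentiableAt.fun_sum fun l _ => (tr_diff hβ (z l) y).const_mul (a l)),
        S.smul n _ _ y (tr_diff hβ (z k) y), ih]
      rfl
  exact h Finset.univ

/-- the norm of the error -/
theorem err_norm (S : SgK) {f β : Eu (n + n) → ℝ} (hf : ContDiff ℝ ∞ f) (hβ : ContDiff ℝ ∞ β)
    {K : ℕ} (a : Fin K → ℝ) (z : Fin K → Eu (n + n)) (y : Eu (n + n)) :
    ‖sg f y - ∑ k, a k • V β (z k) y‖ =
      ‖fderiv ℝ f y - ∑ k, a k • fderiv ℝ β (y - z k)‖ := by
  have hfd : DifferentiableAt ℝ f y := hf.contDiffAt.differentiableAt (by simp)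
  have hsd : DifferentiableAt ℝ (fun x => ∑ k, a k * β (x - z k)) y :=
    DifferentiableAt.fun_sum fun l _ => (tr_diff hβ (z l) y).const_mul (a l)
  rw [← sg_sum S hβ a z y, ← S.sub n f _ y hfd hsd, S.norm]
  congr 1
  rw [fderiv_fun_sub hfd hsd, fderiv_fun_sum fun l _ => (tr_diff hβ (z l) y).const_mul (a l)]
  congr 1
  refine Finset.sum_congr rfl fun k _ => ?_
  rw [fderiv_const_mul (tr_diff hβ (z k) y)]
  congr 1
  exact fderiv_comp_sub (z k)

theorem sg_zero_far (S : SgK) {f : Eu (n + n) → ℝ} {c : Eu (n + n)} {ρ : ℝ}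
    (h : ∀ x, ρ ≤ dist x c → f x = 0) {y : Eu (n + n)} (hy : ρ < dist y c) : sg f y = 0 := by
  rw [← S.const n 0 y]
  apply S.congr
  have h1 : ∀ᶠ x in 𝓝 y, ρ < dist x c :=
    (isOpen_lt continuous_const (continuous_id.dist continuous_const)).mem_nhds hy
  filter_upwards [h1] with x hx
  exact h x hx.le

end LApxA

open LApxA

/-- Local approximation (for finitely many charts). -/
theorem lApx (B : BDens) (T : Trans) (A : ApxK) (S : SgK) (L : LinK) :
    ∀ (n : ℕ), 1 ≤ n → ∀ (M : Type) [TopologicalSpace M] [T2Space M] (ι : Type) [Fintype ι]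
    (ch : ι → OpenPartialHomeomorph M (Eu (n + n))), SympAtlas ch → ∀ Λ : ℝ, 1 ≤ Λ → ∀ (i : ι)
    (c : Eu (n + n)) (R : ℝ), 0 < R → Metric.closedBall c (2 * R) ⊆ (ch i).target →
    ∀ f : Eu (n + n) → ℝ, ContDiff ℝ ∞ f → (∀ x, R ≤ dist x c → f x = 0) → ∫ x, f x = 0 →
    Apx ch Λ (push ch i (sg f)) := by
  intro n hn M _ _ ι _ ch hA Λ hΛ i c R hR hc f hf hf0 hfi
  refine A.lim n M ι ch Λ _ ?_
  intro K' hK' η hη
  have hV : VolAtlas ch := volAtlas L hA
  set K : Set (Eu (n + n)) := Metric.closedBall c (2 * R) with hK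
  have hKc : IsCompact K := isCompact_closedBall c (2 * R)
  choose C hC0 hC using fun j => pushKit.bound (n + n) M ι ch hV i K hKc hc j (K' j) (hK' j).1
    (hK' j).2
  set Cm : ℝ := ∑ j, C j with hCm
  have hCm0 : 0 ≤ Cm := Finset.sum_nonneg fun j _ => hC0 j
  set η' : ℝ := η / (Cm + 1) with hη'
  have hη'0 : 0 < η' := by positivity
  have hΛ0 : 0 < Λ := by linarith
  set r : ℝ := R / (8 * Λ) with hrdef
  have hr : 0 < r := by positivity
  have hrR : r ≤ R := by
    rw [hrdef, div_le_iff₀ (by positivity)]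
    nlinarith
  have hΛr : Λ * (4 * r) ≤ R := by
    rw [hrdef]
    have : Λ * (4 * (R / (8 * Λ))) = R / 2 := by field_simp; norm_num
    rw [this]
    linarith
  obtain ⟨β, m, a, z, hβ, hβ0, hz, ha, happ⟩ := B (n + n) f c R (by omega) hf hf0 r η' hr hη'0
  rw [hfi] at ha
  refine ⟨fun j y => ∑ k, a k • push ch i (fun y => V β (z k) y - V β c y) j y, ?_, ?_⟩
  · exact apx_sum A ch Λ a _ fun k => join A T S ch i hr hR hΛr hc hβ hβ0 (z k) (hz k)
  intro j y hy
  rw [push_sub_sum]
  have hu : ∀ y, sg f y - ∑ k, a k • (V β (z k) y - V β c y) =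
      sg f y - ∑ k, a k • V β (z k) y := by
    intro y
    congr 1
    simp only [smul_sub]
    rw [Finset.sum_sub_distrib, ← Finset.sum_smul, ha, zero_smul, sub_zero]
  have h1 : ∀ y ∉ K, sg f y - ∑ k, a k • (V β (z k) y - V β c y) = 0 := by
    intro y hy
    rw [hu]
    have hy' : 2 * R < dist y c := by
      rw [hK, Metric.mem_closedBall, not_le] at hy
      exact hy
    rw [sg_zero_far S hf0 (by linarith), Finset.sum_eq_zero, sub_zero]
    intro k _
    have h2 : ∀ x, r ≤ dist x (z k) → β (x - z k) = 0 := by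
      intro x hx
      apply hβ0
      rw [← dist_eq_norm]
      exact hx
    have h3 : r < dist y (z k) := by
      have h4 := dist_triangle y (z k) c
      have h5 := hz k
      linarith
    have h6 : V β (z k) y = 0 := sg_zero_far S h2 h3
    rw [h6, smul_zero]
  have h2 : ∀ y, ‖sg f y - ∑ k, a k • (V β (z k) y - V β c y)‖ ≤ η' := by
    intro y
    rw [hu, err_norm S hf hβ]
    exact happ y
  have h3 := hC j _ h1 η' h2 y hy
  have h4 : C j ≤ Cm := Finset.single_le_sum (f := C) (fun j _ => hC0 j) (Finset.mem_univ j)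
  refine h3.trans ?_
  calc C j * η' ≤ Cm * η' := mul_le_mul_of_nonneg_right h4 hη'0.le
    _ = (Cm / (Cm + 1)) * η := by rw [hη']; ring
    _ ≤ 1 * η := by
        apply mul_le_mul_of_nonneg_right _ hη.le
        rw [div_le_one (by positivity)]
        linarith
    _ = η := one_mul η

end

end SV
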