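import Pool.Agent.H6.SV.St

/-!
# Project SV: local costs (SV-8)
-/

set_option autoImplicit false

open MeasureTheory Set Filter Topology Pool.Agent.H68.VD Pool.Agent.H68.GM
open scoped ENNReal ContDiff

namespace SV

namespace LCkA

variable {n : ℕ}

theorem cst_nonneg {σ p A G μ : ℝ} (hA : 0 ≤ A) (hG : 0 ≤ G) (hμ : 0 ≤ μ) :
    0 ≤ cst σ p A G μ := by
  unfold cst
  positivity

theorem cst_scale {σ p A G μ C : ℝ} (hσ : 0 < σ) (hσ1 : σ < 1) (hA : 0 ≤ A) (hG : 0 ≤ G)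
    (hμ : 0 ≤ μ) (hC : 1 ≤ C) : cst σ p A (C * G) μ ≤ C * cst σ p A G μ := by
  unfold cst
  have hC0 : 0 ≤ C := zero_le_one.trans hC
  have e0 : C * ((A + A ^ (1 - σ) * G ^ σ) * μ ^ (1 / p)) =
      C * (A + A ^ (1 - σ) * G ^ σ) * μ ^ (1 / p) := (mul_assoc _ _ _).symm
  rw [Real.mul_rpow hC0 hG, e0]
  refine mul_le_mul_of_nonneg_right ?_ (Real.rpow_nonneg hμ _)
  have h1 : C ^ σ ≤ C := by
    have := Real.rpow_le_rpow_of_exponent_le hC hσ1.le
    rwa [Real.rpow_one] at this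
  have h2 : 0 ≤ A ^ (1 - σ) * G ^ σ := by positivity
  calc A + A ^ (1 - σ) * (C ^ σ * G ^ σ) = A + C ^ σ * (A ^ (1 - σ) * G ^ σ) := by ring
    _ ≤ C * A + C * (A ^ (1 - σ) * G ^ σ) := by
        refine add_le_add ?_ (mul_le_mul_of_nonneg_right h1 h2)
        nlinarith
    _ = C * (A + A ^ (1 - σ) * G ^ σ) := by ring

theorem bd_neg {A G μ : ℝ} {h : Eu (n + n) → ℝ} (hb : Bd A G μ h) : Bd A G μ (fun x => -h x) where
  A0 := hb.A0
  G0 := hb.G0
  μ0 := hb.μ0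
  amp x := by rw [abs_neg]; exact hb.amp x
  grad x := by
    have h1 : fderiv ℝ (fun x => -h x) x = -fderiv ℝ h x := fderiv_fun_neg
    rw [h1, norm_neg]
    exact hb.grad x
  supp := by
    have h1 : tsupport (fun x => -h x) = tsupport h := by
      unfold tsupport
      congr 1
      ext x
      simp [Function.mem_support]
    rw [h1]
    exact hb.supp

theorem ch_nonneg {σ p : ℝ} {c : Eu (n + n)} {r : ℝ} {f : Equiv.Perm (Eu (n + n))} {a : ℝ}
    (h : Ch σ p c r f a) : 0 ≤ a := by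
  obtain ⟨T, H, A, G, μ, -, -, hb, hc⟩ := h
  have h0 := hb 0 ⟨le_rfl, zero_le_one⟩
  exact (cst_nonneg h0.A0 h0.G0 h0.μ0).trans hc

theorem lc_nonneg {σ p : ℝ} {c : Eu (n + n)} {r : ℝ} {f : Equiv.Perm (Eu (n + n))} {a : ℝ}
    (h : LCost σ p c r f a) : 0 ≤ a := by
  induction h with
  | base h => exact ch_nonneg h
  | mul _ _ h1 h2 => exact add_nonneg h1 h2

theorem lc_mono {σ p : ℝ} {c : Eu (n + n)} {r : ℝ} {f : Equiv.Perm (Eu (n + n))} {a b : ℝ}
    (h : LCost σ p c r f a) (hab : a ≤ b) : LCost σ p c r f b := by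
  induction h generalizing b with
  | base h =>
    obtain ⟨T, H, A, G, μ, hp, he, hb, hc⟩ := h
    exact LCost.base ⟨T, H, A, G, μ, hp, he, hb, hc.trans hab⟩
  | @mul f g a₁ a₂ _ h2 h1 _ =>
    have h3 := LCost.mul (h1 (b := b - a₂) (by linarith)) h2
    rwa [sub_add_cancel] at h3

theorem lc_rad (K : HPk) {σ p : ℝ} {c : Eu (n + n)} {r r' : ℝ} {f : Equiv.Perm (Eu (n + n))}
    {a : ℝ} (hr : r ≤ r') (h : LCost σ p c r f a) : LCost σ p c r' f a := by
  induction h with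
  | base h =>
    obtain ⟨T, H, A, G, μ, hp, he, hb, hc⟩ := h
    refine LCost.base ⟨T, H, A, G, μ, K.mono n c c r r' T H hp ?_, he, hb, hc⟩
    rwa [dist_self, zero_add]
  | mul _ _ h1 h2 => exact LCost.mul h1 h2

theorem lc_inv (K : HPk) {σ p : ℝ} {c : Eu (n + n)} {r : ℝ} {f : Equiv.Perm (Eu (n + n))}
    {a : ℝ} (h : LCost σ p c r f a) : LCost σ p c r f⁻¹ a := by
  induction h with
  | @base f a h =>
    obtain ⟨T, H, A, G, μ, hp, he, hb, hc⟩ := h
    refine LCost.base ⟨_, _, A, G, μ, K.inv n c r T H hp, fun x => ?_, fun t ht => ?_, hc⟩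
    · show T (1 - 1) (Function.invFun (T 1) x) = f⁻¹ x
      rw [sub_self, hp.zero]
      have h1 : T 1 (f⁻¹ x) = x := by rw [he]; exact f.apply_symm_apply x
      have h2 : Function.invFun (T 1) (T 1 (f⁻¹ x)) = f⁻¹ x :=
        Function.leftInverse_invFun (hp.bij 1).injective _
      rwa [h1] at h2
    · exact bd_neg (hb (1 - t) ⟨by linarith [ht.2], by linarith [ht.1]⟩)
  | @mul f g a₁ a₂ _ _ h1 h2 =>
    have h3 := LCost.mul h2 h1
    rw [mul_inv_rev, add_comm a₁ a₂]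
    exact h3

theorem lc_conj (E : HEk) {σ p : ℝ} (hσ : 0 < σ) (hσ1 : σ < 1) (c : Eu (n + n)) (r : ℝ)
    (g : Equiv.Perm (Eu (n + n))) (hg : HEnd c r g) : ∃ C : ℝ, 0 ≤ C ∧
    ∀ (f : Equiv.Perm (Eu (n + n))) (a : ℝ), LCost σ p c r f a →
    LCost σ p c r (g * f * g⁻¹) (C * a) := by
  have hgi := E.inv n c r g hg
  obtain ⟨C₁, hC₁, hb₁⟩ := E.bound n c r g⁻¹ hgi
  have hs := E.smooth n c r g⁻¹ hgi
  have hm := E.mp n c r g⁻¹ hgi
  set C : ℝ := max 1 C₁ with hC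
  have hC1 : 1 ≤ C := le_max_left _ _
  have hCC : C₁ ≤ C := le_max_right _ _
  refine ⟨C, zero_le_one.trans hC1, fun f a h => ?_⟩
  induction h with
  | @base f a h =>
    obtain ⟨T, H, A, G, μ, hp, he, hb, hc⟩ := h
    have h0 := hb 0 ⟨le_rfl, zero_le_one⟩
    refine LCost.base ⟨_, _, A, C * G, μ, E.conj n c r g hg T H hp, fun x => ?_,
      fun t ht => ?_, ?_⟩
    · show g (T 1 (g⁻¹ x)) = (g * f * g⁻¹) x
      rw [he]
      rfl
    · have hbt := hb t ht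
      have hHs : ContDiff ℝ ∞ (H t) :=
        hp.sH.comp (f := fun x : Eu (n + n) => (t, x)) (contDiff_const.prodMk contDiff_id)
      refine ⟨hbt.A0, mul_nonneg (zero_le_one.trans hC1) hbt.G0, hbt.μ0, fun x => hbt.amp _,
        fun x => ?_, ?_⟩
      · have h1 : fderiv ℝ (fun x => H t (g⁻¹ x)) x =
            (fderiv ℝ (H t) (g⁻¹ x)).comp (fderiv ℝ (fun x => g⁻¹ x) x) :=
          fderiv_comp x (hHs.differentiable (by simp) _) (hs.differentiable (by simp) _)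
        rw [h1]
        calc ‖(fderiv ℝ (H t) (g⁻¹ x)).comp (fderiv ℝ (fun x => g⁻¹ x) x)‖
            ≤ ‖fderiv ℝ (H t) (g⁻¹ x)‖ * ‖fderiv ℝ (fun x => g⁻¹ x) x‖ :=
              ContinuousLinearMap.opNorm_comp_le _ _
          _ ≤ G * C := mul_le_mul (hbt.grad _) ((hb₁ x).trans hCC) (norm_nonneg _) hbt.G0
          _ = C * G := mul_comm _ _
      · have h1 : tsupport (fun x => H t (g⁻¹ x)) ⊆ (fun x => g⁻¹ x) ⁻¹' tsupport (H t) :=
          tsupport_comp_subset_preimage (H t) hs.continuous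
        calc volume (tsupport (fun x => H t (g⁻¹ x)))
            ≤ volume ((fun x => g⁻¹ x) ⁻¹' tsupport (H t)) := measure_mono h1
          _ = volume (tsupport (H t)) :=
              hm.measure_preimage (isClosed_tsupport _).measurableSet.nullMeasurableSet
          _ ≤ ENNReal.ofReal μ := hbt.supp
    · exact (cst_scale hσ hσ1 h0.A0 h0.G0 h0.μ0 hC1).trans
        (mul_le_mul_of_nonneg_left hc (zero_le_one.trans hC1))
  | @mul f₁ f₂ a₁ a₂ _ _ h1 h2 =>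
    have h3 := LCost.mul h1 h2
    have e1 : g * f₁ * g⁻¹ * (g * f₂ * g⁻¹) = g * (f₁ * f₂) * g⁻¹ := by group
    rwa [e1, ← mul_add] at h3

end LCkA

theorem lCk (K : HPk) (E : HEk) (_S : SgK) : LCk where
  nonneg _ _ _ _ _ _ _ h := LCkA.lc_nonneg h
  mono _ _ _ _ _ _ _ _ h hab := LCkA.lc_mono h hab
  rad _ _ _ _ _ _ _ _ hr h := LCkA.lc_rad K hr h
  inv _ _ _ _ _ _ _ h := LCkA.lc_inv K h
  conj _ _ _ hσ hσ1 _ c r g hg := LCkA.lc_conj E hσ hσ1 c r g hg

end SV
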