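import Pool.Agent.H6.SV.St

/-!
# Project SV: the path of commutators (row SV-16)
-/

set_option autoImplicit false

open MeasureTheory Set Filter Topology Pool.Agent.H68.VD Pool.Agent.H68.GM
open scoped ENNReal ContDiff

namespace SV

noncomputable section

namespace LocPA

variable {n : ℕ}

/-- the permutation `T t` with inverse `T (-t)` -/
def pT (T : ℝ → Eu (n + n) → Eu (n + n)) (h0 : ∀ x, T 0 x = x)
    (hg : ∀ s t x, T (s + t) x = T s (T t x)) (t : ℝ) : Equiv.Perm (Eu (n + n)) where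
  toFun := T t
  invFun := T (-t)
  left_inv := fun x => by rw [← hg]; simp [h0]
  right_inv := fun x => by rw [← hg]; simp [h0]

/-- the path of commutators -/
def pp (T : ℝ → Eu (n + n) → Eu (n + n)) (g : Equiv.Perm (Eu (n + n))) (t : ℝ)
    (x : Eu (n + n)) : Eu (n + n) :=
  T t (g (T (-t) (g⁻¹ x)))

theorem sg_dif (HE : HEk) (S : SgK) (c : Eu (n + n)) (r : ℝ) (a : Eu (n + n) → ℝ)
    (ha : ContDiff ℝ ∞ a) (g : Equiv.Perm (Eu (n + n))) (hg : HEnd c r g) (x : Eu (n + n)) :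
    sg (dif a g) x = sg a x - fderiv ℝ (fun x => g x) (g⁻¹ x) (sg a (g⁻¹ x)) := by
  have hgs : ContDiff ℝ ∞ (fun x => g x) := HE.smooth n c r g hg
  have hks : ContDiff ℝ ∞ (fun x => g⁻¹ x) := HE.smooth n c r g⁻¹ (HE.inv n c r g hg)
  have hgd : Differentiable ℝ (fun x => g x) := hgs.differentiable (by simp)
  have hkd : Differentiable ℝ (fun x => g⁻¹ x) := hks.differentiable (by simp)
  have had : Differentiable ℝ a := ha.differentiable (by simp)
  have hgx : g (g⁻¹ x) = x := by simp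
  have h1 : sg (dif a g) x = sg a x - sg (fun y => a (g⁻¹ y)) x :=
    S.sub n a (fun y => a (g⁻¹ y)) x (had x) ((had.comp hkd) x)
  have h2 := S.conj n a (fun x => g x) (fun x => g⁻¹ x) (g⁻¹ x) (had _) (hgd _) (hkd _)
    (by simp) (Filter.Eventually.of_forall fun y => by simp) (HE.symp n c r g hg _)
  simp only [hgx] at h2
  rw [h1, h2]

/-- derivative of the path at time zero -/
theorem deriv_pp (HE : HEk) (c : Eu (n + n)) (r : ℝ)
    (a : Eu (n + n) → ℝ) (g : Equiv.Perm (Eu (n + n))) (hg : HEnd c r g)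
    (T : ℝ → Eu (n + n) → Eu (n + n)) (hT : HPath c r T (fun _ => a)) (x : Eu (n + n)) :
    HasDerivAt (fun τ => pp T g τ x)
      (sg a x - fderiv ℝ (fun x => g x) (g⁻¹ x) (sg a (g⁻¹ x))) 0 := by
  have hgs : ContDiff ℝ ∞ (fun x => g x) := HE.smooth n c r g hg
  have hgd : Differentiable ℝ (fun x => g x) := hgs.differentiable (by simp)
  have hPhi : Differentiable ℝ (fun z : ℝ × Eu (n + n) => T z.1 z.2) :=
    hT.sT.differentiable (by simp)
  set y : Eu (n + n) := g⁻¹ x with hy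
  have hgx : g y = x := by simp [hy]
  -- inner curve
  have h1 : HasDerivAt (fun τ : ℝ => T (-τ) y) (-(sg a y)) 0 := by
    have h := hT.ode (-0 : ℝ) y
    have h' : HasDerivAt (fun τ : ℝ => T (-τ) y) ((-1 : ℝ) • (sg a (T (-0) y))) 0 :=
      HasDerivAt.scomp (0 : ℝ) h (hasDerivAt_neg (0 : ℝ))
    simpa [hT.zero] using h'
  have h2 : HasDerivAt (fun τ : ℝ => g (T (-τ) y))
      (fderiv ℝ (fun x => g x) y (-(sg a y))) 0 := by
    have hgf : HasFDerivAt (fun x => g x) (fderiv ℝ (fun x => g x) y) (T (-0) y) := by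
      have : T (-0) y = y := by simp [hT.zero]
      rw [this]
      exact (hgd y).hasFDerivAt
    exact hgf.comp_hasDerivAt (0 : ℝ) h1
  have h3 : HasDerivAt (fun τ : ℝ => ((τ, g (T (-τ) y)) : ℝ × Eu (n + n)))
      ((1 : ℝ), fderiv ℝ (fun x => g x) y (-(sg a y))) 0 := (hasDerivAt_id (0 : ℝ)).prodMk h2
  have hp0 : ((0 : ℝ), g (T (-0) y)) = ((0 : ℝ), x) := by simp [hT.zero, hgx]
  -- the derivative of the joint map
  have hF : HasFDerivAt (fun z : ℝ × Eu (n + n) => T z.1 z.2)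
      (fderiv ℝ (fun z : ℝ × Eu (n + n) => T z.1 z.2) (0, x)) (0, x) := (hPhi _).hasFDerivAt
  have hF' : HasFDerivAt (fun z : ℝ × Eu (n + n) => T z.1 z.2)
      (fderiv ℝ (fun z : ℝ × Eu (n + n) => T z.1 z.2) (0, x)) ((0 : ℝ), g (T (-0) y)) := by
    rw [hp0]; exact hF
  have h4 := hF'.comp_hasDerivAt (0 : ℝ) h3
  have e1 : fderiv ℝ (fun z : ℝ × Eu (n + n) => T z.1 z.2) (0, x) ((1 : ℝ), (0 : Eu (n + n))) =
      sg a x := by
    have hc : HasDerivAt (fun τ : ℝ => ((τ, x) : ℝ × Eu (n + n))) ((1 : ℝ), (0 : Eu (n + n))) 0 :=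
      (hasDerivAt_id (0 : ℝ)).prodMk (hasDerivAt_const (0 : ℝ) x)
    have h5 := hF.comp_hasDerivAt (0 : ℝ) hc
    have h6 : HasDerivAt (fun τ => T τ x) (sg a (T 0 x)) 0 := hT.ode 0 x
    have := h5.unique h6
    rw [this, hT.zero]
  have e2 : ∀ v : Eu (n + n),
      fderiv ℝ (fun z : ℝ × Eu (n + n) => T z.1 z.2) (0, x) ((0 : ℝ), v) = v := by
    intro v
    have hc : HasFDerivAt (fun z : Eu (n + n) => (((0 : ℝ), z) : ℝ × Eu (n + n)))
        (ContinuousLinearMap.inr ℝ ℝ (Eu (n + n))) x := hasFDerivAt_prodMk_right (0 : ℝ) x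
    have h5 := hF.comp x hc
    have h6 : HasFDerivAt (fun z : Eu (n + n) => z) (ContinuousLinearMap.id ℝ (Eu (n + n))) x :=
      hasFDerivAt_id x
    have h7 : ((fun z : ℝ × Eu (n + n) => T z.1 z.2) ∘
        fun z : Eu (n + n) => (((0 : ℝ), z) : ℝ × Eu (n + n))) = fun z => z := by
      funext z
      simp [hT.zero]
    rw [h7] at h5
    have h8 := h5.unique h6
    have h9 := congrArg (fun L : Eu (n + n) →L[ℝ] Eu (n + n) => L v) h8
    simpa using h9
  have e3 : fderiv ℝ (fun z : ℝ × Eu (n + n) => T z.1 z.2) (0, x)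
      ((1 : ℝ), fderiv ℝ (fun x => g x) y (-(sg a y))) =
      sg a x - fderiv ℝ (fun x => g x) y (sg a y) := by
    have hs : ((1 : ℝ), fderiv ℝ (fun x => g x) y (-(sg a y))) =
        ((1 : ℝ), (0 : Eu (n + n))) + ((0 : ℝ), fderiv ℝ (fun x => g x) y (-(sg a y))) := by
      simp
    rw [hs, map_add, e1, e2, map_neg]
    abel
  rw [e3] at h4
  exact h4

end LocPA

open LocPA in
/-- The path of commutators. -/
theorem locP (HP : HPk) (HE : HEk) (Pe : HPe) (S : SgK) (L : LinK) : LocP := by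
  intro n c r a g hr ha ha0 hg
  obtain ⟨T, hT⟩ := Pe n c r (fun _ => a) (ha.comp contDiff_snd) (fun _ x hx => ha0 x hx)
  have hgrp : ∀ s t x, T (s + t) x = T s (T t x) := HP.group n c r T a hT
  have hgi : HEnd c r g⁻¹ := HE.inv n c r g hg
  have hgs : ContDiff ℝ ∞ (fun x => g x) := HE.smooth n c r g hg
  have hks : ContDiff ℝ ∞ (fun x => g⁻¹ x) := HE.smooth n c r g⁻¹ hgi
  have hgd : Differentiable ℝ (fun x => g x) := hgs.differentiable (by simp)
  have hkd : Differentiable ℝ (fun x => g⁻¹ x) := hks.differentiable (by simp)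
  have hTt : ∀ t, Differentiable ℝ (T t) := fun t =>
    (hT.sT.comp ((contDiff_const (c := t)).prodMk contDiff_id)).differentiable (by simp)
  have hsm : ContDiff ℝ ∞ (fun z : ℝ × Eu (n + n) => pp T g z.1 z.2) := by
    have h1 : ContDiff ℝ ∞ (fun z : ℝ × Eu (n + n) => T (-z.1) (g⁻¹ z.2)) :=
      hT.sT.comp (contDiff_fst.neg.prodMk (hks.comp contDiff_snd))
    have h2 : ContDiff ℝ ∞ (fun z : ℝ × Eu (n + n) => g (T (-z.1) (g⁻¹ z.2))) := hgs.comp h1
    exact hT.sT.comp (contDiff_fst.prodMk h2)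
  have hbij : ∀ t, Function.Bijective (pp T g t) := fun t =>
    (hT.bij t).comp (g.bijective.comp ((hT.bij (-t)).comp g⁻¹.bijective))
  have hsp : ∀ t x, Sp (fderiv ℝ (pp T g t) x) := by
    intro t x
    have d1 : HasFDerivAt (fun x => g⁻¹ x) (fderiv ℝ (fun x => g⁻¹ x) x) x := (hkd x).hasFDerivAt
    have d2 : HasFDerivAt (fun x => T (-t) (g⁻¹ x))
        ((fderiv ℝ (T (-t)) (g⁻¹ x)) ∘L (fderiv ℝ (fun x => g⁻¹ x) x)) x :=
      ((hTt (-t)) (g⁻¹ x)).hasFDerivAt.comp x d1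
    have d3 : HasFDerivAt (fun x => g (T (-t) (g⁻¹ x)))
        ((fderiv ℝ (fun x => g x) (T (-t) (g⁻¹ x))) ∘L
          ((fderiv ℝ (T (-t)) (g⁻¹ x)) ∘L (fderiv ℝ (fun x => g⁻¹ x) x))) x :=
      (hgd (T (-t) (g⁻¹ x))).hasFDerivAt.comp x d2
    have d4 : HasFDerivAt (pp T g t)
        ((fderiv ℝ (T t) (g (T (-t) (g⁻¹ x)))) ∘L
          ((fderiv ℝ (fun x => g x) (T (-t) (g⁻¹ x))) ∘L
          ((fderiv ℝ (T (-t)) (g⁻¹ x)) ∘L (fderiv ℝ (fun x => g⁻¹ x) x)))) x :=
      ((hTt t) (g (T (-t) (g⁻¹ x)))).hasFDerivAt.comp x d3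
    rw [d4.fderiv]
    exact L.spComp n _ _ (hT.symp t _) (L.spComp n _ _ (HE.symp n c r g hg _)
      (L.spComp n _ _ (hT.symp (-t) _) (HE.symp n c r g⁻¹ hgi _)))
  have hout : ∀ t x, r ≤ dist x c → pp T g t x = x := by
    intro t x hx
    have h1 : g⁻¹ x = x := HE.out n c r g⁻¹ hgi x hx
    have h2 : g x = x := HE.out n c r g hg x hx
    simp only [pp]
    rw [h1, hT.out (-t) x hx, h2, hT.out t x hx]
  have h0 : ∀ x, pp T g 0 x = x := by
    intro x
    simp [pp, hT.zero]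
  refine ⟨pp T g, HP.ballOf n c r (pp T g) hsm hbij hsp hout, hsp, h0, ?_, ?_⟩
  · intro x
    have hinv : Function.invFun (pp T g 0) x = x := by
      have := Function.leftInverse_invFun (hbij 0).injective x
      rwa [h0 x] at this
    rw [vel, hinv, (deriv_pp HE c r a g hg T hT x).deriv, sg_dif HE S c r a ha g hg x]
  · intro t
    refine ⟨pT T hT.zero hgrp t, ?_, ?_⟩
    · refine ⟨fun τ => T (t * τ), fun _ x => t * a x, HP.scale n c r T a hT t, ?_⟩
      intro x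
      simp [pT]
    · intro x
      rfl

end

end SV
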