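import Pool.Agent.H6.SV.St

/-!
# Project SV, row SV-28: mollification
-/

set_option autoImplicit false

open MeasureTheory Set Filter Topology Pool.Agent.H68.VD Pool.Agent.H68.GM
open scoped ENNReal ContDiff Convolution

namespace SV

noncomputable section

namespace MollA

theorem pow_le {m : ℕ} {τ q : ℝ} (hτ : 0 < τ) (hq : 1 < q) {ρ : ℝ}
    (v : Eu m → Eu m) (x h : Eu m) (hh : h ∈ Metric.ball (0 : Eu m) ρ) :
    ‖v (x + h) - v x‖ₑ ^ q ≤ ENNReal.ofReal ρ ^ ((m : ℝ) + τ * q) *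
      (‖v (x + h) - v x‖ₑ ^ q / ‖h‖ₑ ^ ((m : ℝ) + τ * q)) := by
  have he : 0 < (m : ℝ) + τ * q := by positivity
  by_cases h0 : h = 0
  · subst h0
    simp [ENNReal.zero_rpow_of_pos (by linarith : 0 < q)]
  · have hn0 : ‖h‖ₑ ^ ((m : ℝ) + τ * q) ≠ 0 := by
      simp only [ne_eq, ENNReal.rpow_eq_zero_iff, enorm_eq_zero, not_or, not_and_or]
      exact ⟨Or.inl h0, Or.inl enorm_ne_top⟩
    have hnt : ‖h‖ₑ ^ ((m : ℝ) + τ * q) ≠ ⊤ := ENNReal.rpow_ne_top_of_nonneg he.le enorm_ne_top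
    have hle : ‖h‖ₑ ^ ((m : ℝ) + τ * q) ≤ ENNReal.ofReal ρ ^ ((m : ℝ) + τ * q) := by
      apply ENNReal.rpow_le_rpow _ he.le
      rw [← ofReal_norm]
      apply ENNReal.ofReal_le_ofReal
      have := Metric.mem_ball.1 hh
      rw [dist_zero_right] at this
      exact this.le
    calc ‖v (x + h) - v x‖ₑ ^ q
        = ‖h‖ₑ ^ ((m : ℝ) + τ * q) *
          (‖v (x + h) - v x‖ₑ ^ q / ‖h‖ₑ ^ ((m : ℝ) + τ * q)) := by
          rw [ENNReal.mul_div_cancel hn0 hnt]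
      _ ≤ _ := mul_le_mul_left hle _

theorem holder {m : ℕ} {q : ℝ} (hq : 1 < q) {ρ : ℝ} (f : Eu m → ℝ≥0∞)
    (hf : Measurable f) :
    (∫⁻ h in Metric.ball (0 : Eu m) ρ, f h) ^ q ≤
      (∫⁻ h in Metric.ball (0 : Eu m) ρ, f h ^ q) * volume (Metric.ball (0 : Eu m) ρ) ^ (q - 1) := by
  have hq0 : 0 < q := by linarith
  have hp : q.HolderConjugate (q / (q - 1)) := Real.HolderConjugate.conjExponent hq
  have h1 := ENNReal.lintegral_mul_le_Lp_mul_Lq (volume.restrict (Metric.ball (0 : Eu m) ρ)) hp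
    (f := f) (g := fun _ => 1) hf.aemeasurable aemeasurable_const
  simp only [Pi.mul_apply, mul_one, ENNReal.one_rpow, lintegral_const, Measure.restrict_apply_univ,
    one_mul] at h1
  have h2 := ENNReal.rpow_le_rpow h1 hq0.le
  refine h2.trans (le_of_eq ?_)
  rw [ENNReal.mul_rpow_of_nonneg _ _ hq0.le, ← ENNReal.rpow_mul, ← ENNReal.rpow_mul,
    one_div, inv_mul_cancel₀ hq0.ne', ENNReal.rpow_one]
  congr 2
  field_simp

theorem core {m : ℕ} {τ q : ℝ} (hτ : 0 < τ) (hq : 1 < q) (v : Eu m → Eu m)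
    (hv : Continuous v)
    (hG : ∫⁻ x : Eu m, ∫⁻ h in Metric.ball (0 : Eu m) 1,
      ‖v (x + h) - v x‖ₑ ^ q / ‖h‖ₑ ^ ((m : ℝ) + τ * q) ≤ 1) {ρ : ℝ} (hρ : 0 < ρ) (hρ1 : ρ ≤ 1)
    {a : ℝ} (ha : 0 ≤ a) (F : Eu m → ℝ≥0∞)
    (hF : ∀ x, F x ≤ ∫⁻ h in Metric.ball (0 : Eu m) ρ, ENNReal.ofReal a * ‖v (x + h) - v x‖ₑ) :
    (∫⁻ x, F x ^ q) ^ (1 / q) ≤ ENNReal.ofReal
      (a * ρ ^ ((m : ℝ) + τ) * (volume (Metric.ball (0 : Eu m) 1)).toReal ^ ((q - 1) / q)) := by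
  have hq0 : 0 < q := by linarith
  set e : ℝ := (m : ℝ) + τ * q with he
  set cB : ℝ := (volume (Metric.ball (0 : Eu m) 1)).toReal with hcB
  have hcB0 : 0 ≤ cB := ENNReal.toReal_nonneg
  have hvB : volume (Metric.ball (0 : Eu m) ρ) = ENNReal.ofReal (ρ ^ m * cB) := by
    rw [Measure.addHaar_ball_of_pos volume (0 : Eu m) hρ, finrank_euclideanSpace_fin,
      ENNReal.ofReal_mul (by positivity), hcB,
      ENNReal.ofReal_toReal (Metric.isBounded_ball.measure_lt_top.ne)]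
  have hm : ∀ x, Measurable fun h : Eu m => ‖v (x + h) - v x‖ₑ := by
    intro x
    have : Continuous fun h : Eu m => v (x + h) - v x := by fun_prop
    exact this.enorm.measurable
  -- pointwise bound
  have h1 : ∀ x, F x ^ q ≤ (ENNReal.ofReal a ^ q * volume (Metric.ball (0 : Eu m) ρ) ^ (q - 1) *
      ENNReal.ofReal ρ ^ e) * ∫⁻ h in Metric.ball (0 : Eu m) 1,
        ‖v (x + h) - v x‖ₑ ^ q / ‖h‖ₑ ^ e := by
    intro x
    have h2 : F x ^ q ≤ (ENNReal.ofReal a * ∫⁻ h in Metric.ball (0 : Eu m) ρ,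
        ‖v (x + h) - v x‖ₑ) ^ q := by
      apply ENNReal.rpow_le_rpow _ hq0.le
      rw [← lintegral_const_mul _ (hm x)]
      exact hF x
    have h3 := holder (m := m) (ρ := ρ) hq _ (hm x)
    have h4 : ∫⁻ h in Metric.ball (0 : Eu m) ρ, ‖v (x + h) - v x‖ₑ ^ q ≤
        ENNReal.ofReal ρ ^ e * ∫⁻ h in Metric.ball (0 : Eu m) 1,
          ‖v (x + h) - v x‖ₑ ^ q / ‖h‖ₑ ^ e := by
      have hme : Measurable fun h : Eu m => ‖v (x + h) - v x‖ₑ ^ q / ‖h‖ₑ ^ e :=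
        ((hm x).pow_const q).div (measurable_enorm.pow_const e)
      calc ∫⁻ h in Metric.ball (0 : Eu m) ρ, ‖v (x + h) - v x‖ₑ ^ q
          ≤ ∫⁻ h in Metric.ball (0 : Eu m) ρ, ENNReal.ofReal ρ ^ e *
            (‖v (x + h) - v x‖ₑ ^ q / ‖h‖ₑ ^ e) :=
            setLIntegral_mono (hme.const_mul _) fun h hh => pow_le hτ hq v x h hh
        _ = ENNReal.ofReal ρ ^ e * ∫⁻ h in Metric.ball (0 : Eu m) ρ,
            ‖v (x + h) - v x‖ₑ ^ q / ‖h‖ₑ ^ e := lintegral_const_mul _ hme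
        _ ≤ _ := by
            gcongr
    calc F x ^ q ≤ _ := h2
      _ = ENNReal.ofReal a ^ q * (∫⁻ h in Metric.ball (0 : Eu m) ρ, ‖v (x + h) - v x‖ₑ) ^ q :=
          ENNReal.mul_rpow_of_nonneg _ _ hq0.le
      _ ≤ ENNReal.ofReal a ^ q * ((ENNReal.ofReal ρ ^ e * ∫⁻ h in Metric.ball (0 : Eu m) 1,
          ‖v (x + h) - v x‖ₑ ^ q / ‖h‖ₑ ^ e) *
            volume (Metric.ball (0 : Eu m) ρ) ^ (q - 1)) := by
          gcongr
          exact h3.trans (by gcongr)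
      _ = _ := by ring
  have h5 : ∫⁻ x, F x ^ q ≤ ENNReal.ofReal a ^ q * volume (Metric.ball (0 : Eu m) ρ) ^ (q - 1) *
      ENNReal.ofReal ρ ^ e := by
    have hfin : ENNReal.ofReal a ^ q * volume (Metric.ball (0 : Eu m) ρ) ^ (q - 1) *
      ENNReal.ofReal ρ ^ e ≠ ⊤ := by
      rw [hvB]
      refine ENNReal.mul_ne_top (ENNReal.mul_ne_top ?_ ?_) ?_
      · exact ENNReal.rpow_ne_top_of_nonneg hq0.le ENNReal.ofReal_ne_top
      · exact ENNReal.rpow_ne_top_of_nonneg (by linarith) ENNReal.ofReal_ne_top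
      · exact ENNReal.rpow_ne_top_of_nonneg (by positivity) ENNReal.ofReal_ne_top
    calc ∫⁻ x, F x ^ q ≤ ∫⁻ x, (ENNReal.ofReal a ^ q *
          volume (Metric.ball (0 : Eu m) ρ) ^ (q - 1) * ENNReal.ofReal ρ ^ e) *
          ∫⁻ h in Metric.ball (0 : Eu m) 1, ‖v (x + h) - v x‖ₑ ^ q / ‖h‖ₑ ^ e :=
          lintegral_mono h1
      _ = (ENNReal.ofReal a ^ q * volume (Metric.ball (0 : Eu m) ρ) ^ (q - 1) *
          ENNReal.ofReal ρ ^ e) * ∫⁻ x, ∫⁻ h in Metric.ball (0 : Eu m) 1,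
            ‖v (x + h) - v x‖ₑ ^ q / ‖h‖ₑ ^ e := lintegral_const_mul' _ _ hfin
      _ ≤ _ * 1 := by gcongr
      _ = _ := mul_one _
  refine (ENNReal.rpow_le_rpow h5 (by positivity : 0 ≤ 1 / q)).trans (le_of_eq ?_)
  rw [hvB, ENNReal.ofReal_rpow_of_nonneg ha hq0.le,
    ENNReal.ofReal_rpow_of_nonneg (by positivity) (by linarith),
    ENNReal.ofReal_rpow_of_nonneg hρ.le (by positivity),
    ← ENNReal.ofReal_mul (by positivity), ← ENNReal.ofReal_mul (by positivity),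
    ENNReal.ofReal_rpow_of_nonneg (by positivity) (by positivity)]
  congr 1
  rw [Real.mul_rpow (by positivity) (by positivity), Real.mul_rpow (by positivity) (by positivity),
    ← Real.rpow_mul ha, ← Real.rpow_mul (by positivity), ← Real.rpow_mul hρ.le,
    Real.mul_rpow (by positivity) hcB0, mul_one_div_cancel hq0.ne', Real.rpow_one,
    ← Real.rpow_natCast ρ m, ← Real.rpow_mul hρ.le]
  have h6 : ρ ^ ((m : ℝ) + τ) = ρ ^ ((m : ℝ) * ((q - 1) * (1 / q))) * ρ ^ (e * (1 / q)) := by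
    rw [← Real.rpow_add hρ]
    congr 1
    rw [he]
    field_simp
    ring
  rw [h6, show (q - 1) / q = (q - 1) * (1 / q) by ring]
  ring

theorem flip {m : ℕ} {ρ a : ℝ} (v : Eu m → Eu m) (x : Eu m) (G : Eu m → ℝ≥0∞)
    (h1 : ∀ t ∈ Metric.ball (0 : Eu m) ρ, G t ≤ ENNReal.ofReal a * ‖v (x - t) - v x‖ₑ)
    (h0 : ∀ t, t ∉ Metric.ball (0 : Eu m) ρ → G t = 0) :
    ∫⁻ t, G t ≤ ∫⁻ h in Metric.ball (0 : Eu m) ρ, ENNReal.ofReal a * ‖v (x + h) - v x‖ₑ := by
  rw [← lintegral_neg_eq_self G, ← lintegral_indicator measurableSet_ball]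
  refine lintegral_mono fun h => ?_
  have hb : -h ∈ Metric.ball (0 : Eu m) ρ ↔ h ∈ Metric.ball (0 : Eu m) ρ := by
    simp [Metric.mem_ball, dist_zero_right]
  by_cases hh : h ∈ Metric.ball (0 : Eu m) ρ
  · rw [indicator_of_mem hh]
    have h2 := h1 (-h) (hb.2 hh)
    rwa [sub_neg_eq_add] at h2
  · rw [h0 (-h) (fun h3 => hh (hb.1 h3))]
    exact bot_le

/-- the kernel at the scale `ρ` -/
def ker {m : ℕ} (k : Eu m → ℝ) (ρ : ℝ) (t : Eu m) : ℝ := (ρ ^ m)⁻¹ * k (ρ⁻¹ • t)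

theorem exists_k (m : ℕ) : ∃ k : Eu m → ℝ, ContDiff ℝ ∞ k ∧ HasCompactSupport k ∧
    (∫ x, k x = 1) ∧ (∀ x, 1 ≤ ‖x‖ → k x = 0 ∧ fderiv ℝ k x = 0) ∧
    ∃ K0 K1 : ℝ, 0 ≤ K0 ∧ 0 ≤ K1 ∧ (∀ x, ‖k x‖ ≤ K0) ∧ ∀ x, ‖fderiv ℝ k x‖ ≤ K1 := by
  let φ : ContDiffBump (0 : Eu m) := ⟨1 / 4, 1 / 2, by norm_num, by norm_num⟩
  have hs : ContDiff ℝ ∞ (φ.normed volume) := φ.contDiff_normed
  have hc : HasCompactSupport (φ.normed volume) := φ.hasCompactSupport_normed
  obtain ⟨K0, hK0⟩ := hs.continuous.bounded_above_of_compact_support hc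
  obtain ⟨K1, hK1⟩ := (hs.continuous_fderiv (by simp)).bounded_above_of_compact_support
    (hc.fderiv (𝕜 := ℝ))
  refine ⟨φ.normed volume, hs, hc, φ.integral_normed, ?_, K0, K1,
    (norm_nonneg _).trans (hK0 0), (norm_nonneg _).trans (hK1 0), hK0, hK1⟩
  intro x hx
  have h1 : x ∉ tsupport (φ.normed volume) := by
    rw [φ.tsupport_normed_eq, Metric.mem_closedBall, dist_zero_right]
    show ¬ ‖x‖ ≤ 1 / 2
    linarith
  refine ⟨image_eq_zero_of_notMem_tsupport h1, ?_⟩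
  by_contra h2
  exact h1 (tsupport_fderiv_subset ℝ (subset_tsupport _ (Function.mem_support.2 h2)))

end MollA

theorem moll : Moll := by
  intro m τ q hm hτ hτ1 hq
  obtain ⟨k, hks, hkc, hki, hk0, K0, K1, hK0, hK1, hb0, hb1⟩ := MollA.exists_k m
  set c : ℝ := (volume (Metric.ball (0 : Eu m) 1)).toReal ^ ((q - 1) / q) with hc
  have hc0 : 0 ≤ c := by positivity
  refine ⟨(K0 + K1) * c, by positivity, ?_⟩
  intro v hv hvc hG ρ hρ hρ1
  have hρm : 0 < ρ ^ m := by positivity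
  have hkρs : ContDiff ℝ ∞ (MollA.ker k ρ) := by
    unfold MollA.ker
    exact contDiff_const.mul (hks.comp (contDiff_const_smul ρ⁻¹))
  have hkρc : HasCompactSupport (MollA.ker k ρ) := by
    have h1 : HasCompactSupport (fun t : Eu m => k (ρ⁻¹ • t)) :=
      hkc.comp_smul (inv_ne_zero hρ.ne')
    exact h1.mul_left
  have hkρi : ∫ t, MollA.ker k ρ t = 1 := by
    unfold MollA.ker
    rw [integral_const_mul, Measure.integral_comp_smul, finrank_euclideanSpace_fin, hki,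
      smul_eq_mul, mul_one, inv_pow, inv_inv, abs_of_pos hρm]
    exact inv_mul_cancel₀ hρm.ne'
  have hkρ0 : ∀ t, t ∉ Metric.ball (0 : Eu m) ρ → MollA.ker k ρ t = 0 := by
    intro t ht
    rw [Metric.mem_ball, dist_zero_right, not_lt] at ht
    unfold MollA.ker
    rw [(hk0 _ _).1, mul_zero]
    rw [norm_smul, norm_inv, Real.norm_of_nonneg hρ.le, inv_mul_eq_div, one_le_div hρ]
    exact ht
  have hfd : ∀ t, fderiv ℝ (MollA.ker k ρ) t = ((ρ ^ m)⁻¹ * ρ⁻¹) • fderiv ℝ k (ρ⁻¹ • t) := by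
    intro t
    have h1 : HasFDerivAt (fun t : Eu m => k (ρ⁻¹ • t))
        ((fderiv ℝ k (ρ⁻¹ • t)).comp (ρ⁻¹ • ContinuousLinearMap.id ℝ (Eu m))) t := by
      have h2 : HasFDerivAt k (fderiv ℝ k (ρ⁻¹ • t)) (ρ⁻¹ • t) :=
        (hks.differentiable (by simp) _).hasFDerivAt
      exact h2.comp t ((hasFDerivAt_id t).const_smul ρ⁻¹)
    have h3 := (h1.const_mul ((ρ ^ m)⁻¹)).fderiv
    have h4 : fderiv ℝ (MollA.ker k ρ) t = fderiv ℝ (fun t : Eu m => (ρ ^ m)⁻¹ * k (ρ⁻¹ • t)) t :=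
      rfl
    rw [h4, h3]
    ext w
    simp [mul_assoc]
  have hkρ1 : ∀ t, t ∉ Metric.ball (0 : Eu m) ρ → fderiv ℝ (MollA.ker k ρ) t = 0 := by
    intro t ht
    rw [Metric.mem_ball, dist_zero_right, not_lt] at ht
    rw [hfd, (hk0 _ _).2, smul_zero]
    rw [norm_smul, norm_inv, Real.norm_of_nonneg hρ.le, inv_mul_eq_div, one_le_div hρ]
    exact ht
  have hbρ0 : ∀ t, ‖MollA.ker k ρ t‖ ≤ K0 * (ρ ^ m)⁻¹ := by
    intro t
    unfold MollA.ker
    rw [norm_mul, Real.norm_of_nonneg (inv_pos.2 hρm).le, mul_comm]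
    exact mul_le_mul_of_nonneg_right (hb0 _) (inv_pos.2 hρm).le
  have hbρ1 : ∀ t, ‖fderiv ℝ (MollA.ker k ρ) t‖ ≤ K1 * ((ρ ^ m)⁻¹ * ρ⁻¹) := by
    intro t
    rw [hfd, norm_smul, Real.norm_of_nonneg (by positivity), mul_comm]
    exact mul_le_mul_of_nonneg_right (hb1 _) (by positivity)
  have hvcont : Continuous v := hv.continuous
  have hint : ∀ (x : Eu m), Integrable (fun t => MollA.ker k ρ t • v (x - t)) volume := by
    intro x
    apply Continuous.integrable_of_hasCompactSupport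
    · exact hkρs.continuous.smul (hvcont.comp (continuous_const.sub continuous_id))
    · exact hkρc.smul_right
  have hintc : ∀ (y : Eu m), Integrable (fun t => MollA.ker k ρ t • y) volume := by
    intro y
    apply Continuous.integrable_of_hasCompactSupport
    · exact hkρs.continuous.smul continuous_const
    · exact hkρc.smul_right
  set w : Eu m → Eu m := MollA.ker k ρ ⋆[ContinuousLinearMap.lsmul ℝ ℝ, volume] v with hw
  have hwx : ∀ x, w x = ∫ t, MollA.ker k ρ t • v (x - t) := fun x => rfl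
  refine ⟨w, ?_, ?_, ?_, ?_⟩
  · exact hkρc.contDiff_convolution_left _ hkρs hvcont.locallyIntegrable
  · exact hkρc.convolution _ hvc
  · -- the difference
    have hF : ∀ x, ‖v x - w x‖ₑ ≤ ∫⁻ h in Metric.ball (0 : Eu m) ρ,
        ENNReal.ofReal (K0 * (ρ ^ m)⁻¹) * ‖v (x + h) - v x‖ₑ := by
      intro x
      have h1 : v x - w x = ∫ t, MollA.ker k ρ t • (v x - v (x - t)) := by
        simp only [smul_sub]
        rw [integral_sub (hintc _) (hint _), integral_smul_const, hkρi, one_smul, hwx]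
      rw [h1]
      refine (enorm_integral_le_lintegral_enorm _).trans (MollA.flip v x _ ?_ ?_)
      · intro t _
        rw [enorm_smul, enorm_sub_rev]
        gcongr
        rw [← ofReal_norm]
        exact ENNReal.ofReal_le_ofReal (hbρ0 t)
      · intro t ht
        rw [hkρ0 t ht, zero_smul, enorm_zero]
    refine (MollA.core hτ hq v hvcont hG hρ hρ1 (by positivity) _ hF).trans
      (ENNReal.ofReal_le_ofReal ?_)
    rw [← hc, Real.rpow_add hρ, Real.rpow_natCast]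
    have h2 : K0 * (ρ ^ m)⁻¹ * (ρ ^ m * ρ ^ τ) * c = K0 * c * ρ ^ τ := by
      field_simp
    rw [h2]
    have h3 : 0 ≤ K1 * c * ρ ^ τ := by positivity
    nlinarith [h3]
  · have hF : ∀ x, ‖fderiv ℝ w x‖ₑ ≤ ∫⁻ h in Metric.ball (0 : Eu m) ρ,
        ENNReal.ofReal (K1 * ((ρ ^ m)⁻¹ * ρ⁻¹)) * ‖v (x + h) - v x‖ₑ := by
      intro x
      set g : Eu m → Eu m := fun y => v y - v x with hg
      have hgc : Continuous g := hvcont.sub continuous_const
      have h1 := hkρc.hasFDerivAt_convolution_left (ContinuousLinearMap.lsmul ℝ ℝ)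
        (hkρs.of_le (by simp)) (hgc.locallyIntegrable (μ := volume)) x
      have h2 : (fun y => w y) =
          fun y => (MollA.ker k ρ ⋆[ContinuousLinearMap.lsmul ℝ ℝ, volume] g) y + v x := by
        funext y
        have h3 : (MollA.ker k ρ ⋆[ContinuousLinearMap.lsmul ℝ ℝ, volume] g) y =
            ∫ t, MollA.ker k ρ t • (v (y - t) - v x) := rfl
        rw [h3]
        simp only [smul_sub]
        rw [integral_sub (hint _) (hintc _), integral_smul_const, hkρi, one_smul, hwx]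
        abel
      have h4 : fderiv ℝ w x = ∫ t, (ContinuousLinearMap.precompL (Eu m)
          (ContinuousLinearMap.lsmul ℝ ℝ)) (fderiv ℝ (MollA.ker k ρ) t) (v (x - t) - v x) := by
        have h5 : fderiv ℝ w x = fderiv ℝ (fun y => w y) x := rfl
        rw [h5, h2]
        exact (h1.add_const (v x)).fderiv
      rw [h4]
      refine (enorm_integral_le_lintegral_enorm _).trans (MollA.flip v x _ ?_ ?_)
      · intro t _
        rw [← ofReal_norm, ← ofReal_norm, ← ENNReal.ofReal_mul (by positivity)]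
        apply ENNReal.ofReal_le_ofReal
        have h6 := (ContinuousLinearMap.precompL (Eu m)
          (ContinuousLinearMap.lsmul ℝ ℝ : ℝ →L[ℝ] Eu m →L[ℝ] Eu m)).le_opNorm₂
          (fderiv ℝ (MollA.ker k ρ) t) (v (x - t) - v x)
        have h7 : ‖ContinuousLinearMap.precompL (Eu m)
          (ContinuousLinearMap.lsmul ℝ ℝ : ℝ →L[ℝ] Eu m →L[ℝ] Eu m)‖ ≤ 1 :=
          (ContinuousLinearMap.norm_precompL_le (Eu m) _).trans
            ContinuousLinearMap.opNorm_lsmul_le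
        refine h6.trans ?_
        calc _ ≤ 1 * (K1 * ((ρ ^ m)⁻¹ * ρ⁻¹)) * ‖v (x - t) - v x‖ := by
              gcongr
              exact hbρ1 t
          _ = _ := by rw [one_mul]
      · intro t ht
        rw [hkρ1 t ht, map_zero]
        have h8 : ‖(0 : Eu m →L[ℝ] Eu m)‖ = 0 := norm_zero
        exact (ofReal_norm (0 : Eu m →L[ℝ] Eu m)).symm.trans (by rw [h8, ENNReal.ofReal_zero])
    refine (MollA.core hτ hq v hvcont hG hρ hρ1 (by positivity) _ hF).trans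
      (ENNReal.ofReal_le_ofReal ?_)
    rw [← hc, Real.rpow_add hρ, Real.rpow_natCast, Real.rpow_sub hρ, Real.rpow_one]
    have h2 : K1 * ((ρ ^ m)⁻¹ * ρ⁻¹) * (ρ ^ m * ρ ^ τ) * c = K1 * c * (ρ ^ τ / ρ) := by
      field_simp
    rw [h2]
    have h3 : 0 ≤ K0 * c * (ρ ^ τ / ρ) := by positivity
    nlinarith [h3]

end

end SV
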