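import Pool.Agent.H6.SV.St
import Pool.Agent.H68.GM.MExtK

/-!
# Project SV: extension of symplectic maps of a ball in a chart
-/

set_option autoImplicit false

open MeasureTheory Set Filter Topology Pool.Agent.H68.VD Pool.Agent.H68.GM
open scoped ENNReal ContDiff

namespace SV

noncomputable section

/-- The extension by the identity of a symplectic family of maps of a ball in a chart is a
symplectic family. -/
theorem sExt (SF : SFk) (L : LinK) : SExt := by
  intro n M _ _ ι ch hS i c r _ hc E _ _ T hT hsp
  have hA : VolAtlas ch := SF.vol n M ι ch hS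
  refine ⟨MExtKA.fam hA hc hT, ?_⟩
  intro e j k y hy hk
  have hp : Filter.Tendsto (fun y : Eu (n + n) => ((e, y) : E × Eu (n + n))) (nhds y)
      (nhds (e, y)) := (Continuous.prodMk_right e).tendsto y
  by_cases hx : (ch j).symm y ∈ (ch i).source
  · obtain ⟨h1, h2, h3⟩ := MExtKA.local_in hc hT j k e y hy hx hk
    have h4 : (fun y : Eu (n + n) => ch k (extM ch i (T e) ((ch j).symm y))) =ᶠ[nhds y]
        fun y => tr ch i k (T e (tr ch j i y)) := hp.eventually h3
    have a1 : HasFDerivAt (tr ch j i) (fderiv ℝ (tr ch j i) y) y :=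
      (((hA.smooth j i).contDiffAt ((MExtKA.dom_open ch j i).mem_nhds h1)).differentiableAt
        (by simp)).hasFDerivAt
    have a2 : HasFDerivAt (tr ch i k) (fderiv ℝ (tr ch i k) (T e (tr ch j i y)))
        (T e (tr ch j i y)) :=
      (((hA.smooth i k).contDiffAt ((MExtKA.dom_open ch i k).mem_nhds h2)).differentiableAt
        (by simp)).hasFDerivAt
    have hTe : ContDiff ℝ ∞ (T e) := hT.smooth.comp (contDiff_const.prodMk contDiff_id)
    have a3 : HasFDerivAt (T e) (fderiv ℝ (T e) (tr ch j i y)) (tr ch j i y) :=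
      (hTe.differentiable (by simp)).differentiableAt.hasFDerivAt
    have a4 := HasFDerivAt.comp y a2 (HasFDerivAt.comp y a3 a1)
    have a5 : fderiv ℝ (fun y => tr ch i k (T e (tr ch j i y))) y =
        (fderiv ℝ (tr ch i k) (T e (tr ch j i y))).comp
          ((fderiv ℝ (T e) (tr ch j i y)).comp (fderiv ℝ (tr ch j i) y)) := a4.fderiv
    rw [h4.fderiv_eq, a5]
    exact L.spComp n _ _ (hS.symp i k _ h2)
      (L.spComp n _ _ (hsp e (tr ch j i y)) (hS.symp j i y h1))
  · obtain ⟨h1, h3⟩ := MExtKA.local_out hc hT j k e y hy hx hk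
    have h4 : (fun y : Eu (n + n) => ch k (extM ch i (T e) ((ch j).symm y))) =ᶠ[nhds y]
        fun y => tr ch j k y := hp.eventually h3
    rw [h4.fderiv_eq]
    exact hS.symp j k y h1

end

end SV
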