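import Pool.Agent.H6.SV.St
import Pool.Agent.H68.GM.MFamK

/-!
# Project SV: symplectic families
-/

set_option autoImplicit false

open MeasureTheory Set Filter Topology Pool.Agent.H68.VD Pool.Agent.H68.GM
open scoped ENNReal ContDiff

namespace SV

noncomputable section

namespace SFkA

variable {n : ℕ} {M : Type} [TopologicalSpace M] {ι : Type}
  {ch : ι → OpenPartialHomeomorph M (Eu (n + n))}

theorem vol (L : LinK) (h : SympAtlas ch) : VolAtlas ch :=
  ⟨h.cover, h.smooth, fun i j y hy => L.spDet n _ (h.symp i j y hy)⟩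

section basic

variable {E : Type*} [NormedAddCommGroup E] [NormedSpace ℝ E] {F G : E → M → M}

theorem comp (L : LinK) (hV : SympAtlas ch) (hF : SFam ch F) (hG : SFam ch G) :
    SFam ch (fun e x => F e (G e x)) := by
  refine ⟨MFamA.isFamComp (vol L hV) hF.fam hG.fam, fun e i k y hy hk => ?_⟩
  obtain ⟨j, hj⟩ := hV.cover (G e ((ch i).symm y))
  have hq1 : (e, y) ∈ MFamA.lD ch G i j := ⟨hy, hj⟩
  have hq2 : (e, ch j (G e ((ch i).symm y))) ∈ MFamA.lD ch F j k := MFamA.memComp hq1 hk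
  have h1 := (MFamA.diffX hF.fam hq2).comp y (MFamA.diffX hG.fam hq1)
  have h2 : HasFDerivAt (fun y => ch k (F e (G e ((ch i).symm y))))
      ((fderiv ℝ (fun y => ch k (F e ((ch j).symm y))) (ch j (G e ((ch i).symm y)))).comp
      (fderiv ℝ (fun y => ch j (G e ((ch i).symm y))) y)) y := by
    refine h1.congr_of_eventuallyEq ?_
    have h3 : Filter.Tendsto (fun z : Eu (n + n) => (e, z)) (𝓝 y) (𝓝 (e, y)) :=
      (continuous_const.prodMk continuous_id).tendsto y
    filter_upwards [h3.eventually (MFamA.evD hG.fam hq1)] with z hz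
    exact MFamA.lrComp hz
  rw [h2.fderiv]
  exact L.spComp n _ _ (hF.symp e j k _ hq2.1 hq2.2) (hG.symp e i j y hy hj)

theorem re {E' : Type*} [NormedAddCommGroup E'] [NormedSpace ℝ E'] {h : E' → E}
    (hF : SFam ch F) (hh : ContDiff ℝ ∞ h) : SFam ch (fun e => F (h e)) :=
  ⟨MFamA.isFamRe hF.fam hh, fun e i j y hy hj => hF.symp (h e) i j y hy hj⟩

theorem fid (L : LinK) (hV : SympAtlas ch) : SFam ch (fun (_ : E) (x : M) => x) :=
  ⟨MFamA.isFamId (vol L hV), fun _ i j y hy hj => hV.symp i j y ⟨hy, hj⟩⟩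

end basic

section inv

variable [Nonempty M] {E : Type} [NormedAddCommGroup E] [NormedSpace ℝ E] {F : E → M → M}

theorem inv [CompleteSpace E] (L : LinK) (hV : SympAtlas ch) (h : SFam ch F) :
    SFam ch (fun e => Function.invFun (F e)) := by
  have hI := MFamA.isFamInv (vol L hV) h.fam
  refine ⟨hI, fun e j i w hw hi => ?_⟩
  set x0 := Function.invFun (F e) ((ch j).symm w) with hx0
  have hq : (e, w) ∈ MFamA.lD ch (fun e => Function.invFun (F e)) j i := ⟨hw, hi⟩
  have h1 := MFamA.diffX hI hq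
  have hq2 : (e, ch i x0) ∈ MFamA.lD ch F i j := by
    refine ⟨(ch i).map_source hi, ?_⟩
    simp only
    rw [(ch i).left_inv hi, hx0, MFamA.Finv h.fam]
    exact (ch j).map_target hw
  have h2 := (MFamA.diffX h.fam hq2).comp w h1
  have h3 : HasFDerivAt (fun w : Eu (n + n) => w)
      ((fderiv ℝ (fun y => ch j (F e ((ch i).symm y))) (ch i x0)).comp
      (fderiv ℝ (fun w => ch i (Function.invFun (F e) ((ch j).symm w))) w)) w := by
    refine h2.congr_of_eventuallyEq ?_
    have h4 : Filter.Tendsto (fun z : Eu (n + n) => (e, z)) (𝓝 w) (𝓝 (e, w)) :=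
      (continuous_const.prodMk continuous_id).tendsto w
    filter_upwards [h4.eventually (MFamA.evD hI hq)] with z hz
    have h5 : z ∈ (ch j).target := hz.1
    have h6 : Function.invFun (F e) ((ch j).symm z) ∈ (ch i).source := hz.2
    simp only [Function.comp]
    rw [(ch i).left_inv h6, MFamA.Finv h.fam, (ch j).right_inv h5]
  have h4 := h3.unique (hasFDerivAt_id w)
  exact L.spInv n _ _ (h.symp e i j _ hq2.1 hq2.2) h4

end inv

theorem path (L : LinK) (φ : ℝ → M → M) : SPath ch φ ↔ SFam ch φ := by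
  constructor
  · intro h
    exact ⟨⟨h.cont, h.smooth, h.bij, fun t i j y hy hj =>
      L.spDet n _ (h.symp t i j y ⟨hy, hj⟩)⟩, fun t i j y hy hj => h.symp t i j y ⟨hy, hj⟩⟩
  · intro h
    exact ⟨h.fam.cont, h.fam.smooth, h.fam.bij, fun t i j y hy => h.symp t i j y hy.1 hy.2⟩

end SFkA

theorem sFk (L : LinK) : SFk where
  vol _ _ _ _ _ h := SFkA.vol L h
  inv _ _ _ _ _ _ hV _ _ _ _ _ h := SFkA.inv L hV h
  comp _ _ _ _ _ hV _ _ _ _ _ hF hG := SFkA.comp L hV hF hG
  re _ _ _ _ _ _ _ _ _ _ _ _ _ hF hh := SFkA.re hF hh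
  id _ _ _ _ _ hV _ _ _ := SFkA.fid L hV
  path _ _ _ _ _ φ := SFkA.path L φ

end

end SV
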