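import Pool.Agent.H6.SV.St
import Pool.Agent.H68.GM.MMain

/-!
# Project SV: paths of approximable fields have cost zero
-/

set_option autoImplicit false

open MeasureTheory Set Filter Topology Pool.Agent.H68.VD Pool.Agent.H68.GM
open scoped ENNReal ContDiff

namespace SV

noncomputable section

namespace SMainA

variable {n : ℕ} {M : Type} [TopologicalSpace M] {ι : Type}

theorem sg_neg (h : Eu (n + n) → ℝ) : sg (fun y => - h y) = fun x => - sg h x := by
  funext x
  unfold sg jgrad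
  rw [← Finset.sum_neg_distrib]
  refine Finset.sum_congr rfl fun i _ => ?_
  rw [fderiv_fun_neg]
  simp only [_root_.neg_apply, neg_smul]
  abel

/-- the data of the opposite field -/
def neg {ch : ι → OpenPartialHomeomorph M (Eu (n + n))} {Λ : ℝ} (d : CData ch Λ) : CData ch Λ where
  i := d.i
  c := d.c
  r := d.r
  a := fun y => - d.a y
  g := d.g
  hr := d.hr
  hc := d.hc
  ha := d.ha.neg
  ha0 := fun x hx => by rw [d.ha0 x hx, neg_zero]
  hg := d.hg

theorem push_neg2 {ch : ι → OpenPartialHomeomorph M (Eu (n + n))} {Λ : ℝ} (d : CData ch Λ) (j : ι)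
    (y : Eu (n + n)) : push ch (neg d).i (sg (dif (neg d).a (neg d).g)) j y =
      - push ch d.i (sg (dif d.a d.g)) j y := by
  have h1 : dif (neg d).a (neg d).g = fun y => - dif d.a d.g y := by
    funext y
    simp only [dif, neg]
    ring
  rw [h1, sg_neg, MMainA.push_neg']
  rfl

theorem sum_neg {ch : ι → OpenPartialHomeomorph M (Eu (n + n))} {Λ : ℝ} (D : List (CData ch Λ))
    (j : ι) (y : Eu (n + n)) :
    ((D.map neg).map fun d => push ch d.i (sg (dif d.a d.g)) j y).sum =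
      - (D.map fun d => push ch d.i (sg (dif d.a d.g)) j y).sum := by
  induction D with
  | nil => simp
  | cons d D ih =>
    rw [List.map_cons, List.map_cons, List.sum_cons, ih, push_neg2 d j y, List.map_cons,
      List.sum_cons, neg_add]

/-- The approximating path. -/
theorem exists_pi [T2Space M] [Nonempty M] (F : MFamKit) (SF : SFk) (CK : SCk) (X : MExtKit)
    (SE : SExt) (TR : STrf) (LP : LocP) {Λ : ℝ} (hΛ : 1 ≤ Λ) {σ p : ℝ}
    (hC : ∀ (c : Eu (n + n)) (r : ℝ), 0 < r → ∀ f g : Equiv.Perm (Eu (n + n)), HEnd c r f →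
      HEnd c r g → ∀ ε : ℝ, 0 < ε → LCost σ p c (Λ * r) (f * g * f⁻¹ * g⁻¹) ε)
    {ch : ι → OpenPartialHomeomorph M (Eu (n + n))} (hS : SympAtlas ch)
    {N : (ι → Eu (n + n) → Eu (n + n)) → ℝ≥0∞} (hN : SWeak ch N σ p) (D : List (CData ch Λ)) :
    ∃ Pi' : ℝ → M → M, SFam ch Pi' ∧ Pi' 0 = id ∧
      (∀ j y, mvel ch Pi' 0 j y = (D.map fun d => push ch d.i (sg (dif d.a d.g)) j y).sum) ∧
      ∀ θ ε, 0 < ε → SCost ch N (Pi' θ) ε := by
  have hV : VolAtlas ch := SF.vol n M ι ch hS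
  induction D with
  | nil =>
    refine ⟨fun _ x => x, SF.id n M ι ch hS ℝ, rfl, ?_, ?_⟩
    · intro j y
      simp [mvel]
    · intro θ ε hε
      exact CK.mono n M ι ch N _ 0 ε (CK.one n M ι ch hS N σ p hN) hε.le
  | cons d D ih =>
    obtain ⟨Pi', hPi, hPi0, hPiv, hPic⟩ := ih
    obtain ⟨P, hB, hsp, hP0, hPv, hPe⟩ := LP n d.c d.r d.a d.g d.hr d.ha d.ha0 d.hg
    have hrr : d.r ≤ Λ * d.r := by nlinarith [d.hr]
    have hΛr : 0 < Λ * d.r := lt_of_lt_of_le d.hr hrr
    have hsub : Metric.closedBall d.c d.r ⊆ (ch d.i).target :=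
      (Metric.closedBall_subset_closedBall hrr).trans d.hc
    have hT : SFam ch (fun e : ℝ => extM ch d.i (P e)) :=
      SE n M ι ch hS d.i d.c d.r d.hr hsub ℝ P hB hsp
    have hT0 : extM ch d.i (P 0) = id := by
      funext x
      unfold extM
      split_ifs with hx
      · rw [hP0]
        exact (ch d.i).left_inv hx
      · rfl
    have hvT : ∀ j y, mvel ch (fun e : ℝ => extM ch d.i (P e)) 0 j y =
        push ch d.i (sg (dif d.a d.g)) j y := by
      intro j z
      rw [X.velExt (n + n) M ι ch hV d.i d.c d.r d.hr hsub _ hB]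
      congr 1
      funext y
      exact hPv y
    obtain ⟨C, hC0, hTR⟩ := TR n M ι ch hS N σ p hN d.i d.c (Λ * d.r) hΛr d.hc
    refine ⟨fun θ x => extM ch d.i (P θ) (Pi' θ x), SF.comp n M ι ch hS ℝ _ _ hT hPi, ?_, ?_, ?_⟩
    · funext x
      have := congrFun hT0 (Pi' 0 x)
      show extM ch d.i (P 0) (Pi' 0 x) = x
      rw [this, hPi0, id, id]
    · intro j z
      rw [MMainA.velComp0 F hV hT.fam hPi.fam hT0 hPi0 j z, hvT j z, hPiv j z, List.map_cons,
        List.sum_cons]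
    · intro θ ε hε
      obtain ⟨f, hf, hfP⟩ := hPe θ
      have h1 := hC d.c d.r d.hr f d.g hf d.hg (ε / 2 / (C + 1)) (by positivity)
      have h2 := hTR _ _ h1
      have h3 : (fun x => (f * d.g * f⁻¹ * d.g⁻¹) x) = P θ := by
        funext x
        exact (hfP x).symm
      rw [h3] at h2
      have h4 : C * (ε / 2 / (C + 1)) ≤ ε / 2 := by
        have h5 : C * (ε / 2 / (C + 1)) = (C / (C + 1)) * (ε / 2) := by
          field_simp
        rw [h5]
        have h6 : C / (C + 1) ≤ 1 := by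
          rw [div_le_one (by positivity)]
          linarith
        nlinarith
      have h5 := CK.mono n M ι ch N _ _ _ h2 h4
      have h6 := CK.comp n M ι ch hS N σ p hN _ _ _ _ h5 (hPic θ (ε / 2) (by positivity))
      exact CK.mono n M ι ch N _ _ _ h6 (by linarith)

/-- the local step -/
theorem step_local [T2Space M] [Nonempty M] [Fintype ι] (F : MFamKit) (SF : SFk) (CK : SCk)
    (X : MExtKit) (SE : SExt) (TR : STrf) (LP : LocP) {Λ : ℝ} (hΛ : 1 ≤ Λ) {σ p : ℝ}
    (hCC : ∀ (c : Eu (n + n)) (r : ℝ), 0 < r → ∀ f g : Equiv.Perm (Eu (n + n)), HEnd c r f →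
      HEnd c r g → ∀ ε : ℝ, 0 < ε → LCost σ p c (Λ * r) (f * g * f⁻¹ * g⁻¹) ε)
    {ch : ι → OpenPartialHomeomorph M (Eu (n + n))} (hS : SympAtlas ch)
    {N : (ι → Eu (n + n) → Eu (n + n)) → ℝ≥0∞} (hN : SWeak ch N σ p) (φ : ℝ → M → M)
    (hφ : SFam ch φ) (hex : ∀ t, Apx ch Λ (mvel ch φ t)) (C : ℝ) (hC0 : 0 ≤ C)
    (L : ι → Set (Eu (n + n))) (hL : ∀ i, IsCompact (L i) ∧ L i ⊆ (ch i).target)
    (hC : ∀ X : ι → Eu (n + n) → Eu (n + n), IsFld ch X → ∀ b : ℝ, 0 ≤ b →
      (∀ i, ∀ y ∈ L i, ‖X i y‖ ≤ b) → N X ≤ ENNReal.ofReal (C * b)) (η : ℝ) (hη : 0 < η)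
    (t0 : ℝ) :
    ∃ δ : ℝ, 0 < δ ∧ ∀ t, |t - t0| < δ → ∀ θ, 0 ≤ θ → θ < δ → ∀ ε, 0 < ε →
      SCost ch N (fun x => φ (t + θ) (Function.invFun (φ t) x)) (C * (2 * η) * θ + ε) := by
  have hV : VolAtlas ch := SF.vol n M ι ch hS
  obtain ⟨D, happ⟩ := hex t0 L hL η hη
  obtain ⟨Pi', hPi, hPi0, hPiv, hPic⟩ := exists_pi F SF CK X SE TR LP hΛ hCC hS hN (D.map neg)
  have hPiv' : ∀ j y, mvel ch Pi' 0 j y =
      - (D.map fun d => push ch d.i (sg (dif d.a d.g)) j y).sum := by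
    intro j y
    rw [hPiv j y]
    exact sum_neg D j y
  have hinv : SFam ch (fun e => Function.invFun (φ e)) := SF.inv n M ι ch hS ℝ φ hφ
  have hH : SFam ch (fun (q : ℝ × ℝ) x => φ (q.1 + q.2) (Function.invFun (φ q.1) (Pi' q.2 x))) := by
    have h1 : SFam ch (fun (q : ℝ × ℝ) => φ (q.1 + q.2)) :=
      SF.re n M ι ch ℝ (ℝ × ℝ) φ (fun q => q.1 + q.2) hφ (contDiff_fst.add contDiff_snd)
    have h2 : SFam ch (fun (q : ℝ × ℝ) => Function.invFun (φ q.1)) :=
      SF.re n M ι ch ℝ (ℝ × ℝ) _ (fun q => q.1) hinv contDiff_fst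
    have h3 : SFam ch (fun (q : ℝ × ℝ) => Pi' q.2) :=
      SF.re n M ι ch ℝ (ℝ × ℝ) _ (fun q => q.2) hPi contDiff_snd
    exact SF.comp n M ι ch hS (ℝ × ℝ) _ _ h1 (SF.comp n M ι ch hS (ℝ × ℝ) _ _ h2 h3)
  set H : ℝ × ℝ → M → M :=
    fun q x => φ (q.1 + q.2) (Function.invFun (φ q.1) (Pi' q.2 x)) with hHdef
  have hHt : ∀ t, SFam ch (fun θ => H (t, θ)) := fun t =>
    SF.re n M ι ch (ℝ × ℝ) ℝ H (fun θ => (t, θ)) hH (contDiff_const.prodMk contDiff_id)
  have hcont := F.velFam (n + n) M ι ch hV H hH.fam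
  have hbij : ∀ t, Function.Bijective (φ t) := hφ.fam.bij
  have hcancel : ∀ t x, φ t (Function.invFun (φ t) x) = x := fun t x =>
    Function.rightInverse_invFun (hbij t).2 x
  have hV0 : ∀ j, ∀ y ∈ L j, ‖mvel ch (fun θ => H (t0, θ)) 0 j y‖ ≤ η := by
    intro j z hz
    have hΦ : SFam ch (fun θ x => φ (t0 + θ) (Function.invFun (φ t0) x)) := by
      have h1 : SFam ch (fun θ : ℝ => φ (t0 + θ)) :=
        SF.re n M ι ch ℝ ℝ φ (fun q => t0 + q) hφ (contDiff_const.add contDiff_id)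
      have h2 : SFam ch (fun _ : ℝ => Function.invFun (φ t0)) :=
        SF.re n M ι ch ℝ ℝ _ (fun _ => t0) hinv contDiff_const
      exact SF.comp n M ι ch hS ℝ _ _ h1 h2
    have h2 : (fun x => φ (t0 + 0) (Function.invFun (φ t0) x)) = id := by
      funext x
      simp [hcancel]
    have h1 := MMainA.velComp0 F hV hΦ.fam hPi.fam h2 hPi0 j z
    have h3 : mvel ch (fun θ x => φ (t0 + θ) (Function.invFun (φ t0) x)) 0 j z =
        mvel ch φ t0 j z := by
      have h4 := F.velConst (n + n) M ι ch (fun θ => φ (t0 + θ)) (Function.invFun (φ t0))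
        (fun t => hbij _) (hinv.fam.bij t0) 0 j z
      rw [h4]
      have h5 := F.velRe (n + n) M ι ch hV φ (fun θ => t0 + θ) hφ.fam 0 (by fun_prop) j z
      rw [h5]
      have h6 : deriv (fun θ : ℝ => t0 + θ) 0 = 1 := by
        simp
      rw [h6, one_smul, add_zero]
    rw [h3, hPiv' j z] at h1
    have h7 : mvel ch (fun θ => H (t0, θ)) 0 j z = mvel ch φ t0 j z -
        (D.map fun d => push ch d.i (sg (dif d.a d.g)) j z).sum := by
      have h8 : (fun θ => H (t0, θ)) =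
          (fun t x => (fun θ x => φ (t0 + θ) (Function.invFun (φ t0) x)) t (Pi' t x)) := rfl
      rw [h8, h1, sub_eq_add_neg]
    rw [h7]
    exact happ j z hz
  have hev : ∀ᶠ q : ℝ × ℝ in 𝓝 (t0, 0), ∀ j, ∀ z ∈ L j,
      ‖mvel ch (fun θ => H (q.1, θ)) q.2 j z‖ < 2 * η := by
    rw [eventually_all]
    intro j
    apply (hL j).1.eventually_forall_of_forall_eventually
    intro z hz
    have hop : IsOpen {q : (ℝ × ℝ) × Eu (n + n) | q.2 ∈ (ch j).target} :=
      (ch j).open_target.preimage continuous_snd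
    have h3 : ContinuousAt (fun q : (ℝ × ℝ) × Eu (n + n) =>
        ‖mvel ch (fun θ => H (q.1.1, θ)) q.1.2 j q.2‖) ((t0, 0), z) :=
      ((hcont j).continuousAt (hop.mem_nhds ((hL j).2 hz))).norm
    have h4 : ‖mvel ch (fun θ => H (t0, θ)) 0 j z‖ < 2 * η :=
      lt_of_le_of_lt (hV0 j z hz) (by linarith)
    exact h3.eventually_lt continuousAt_const h4
  obtain ⟨δ, hδ, hball⟩ := Metric.eventually_nhds_iff_ball.mp hev
  refine ⟨δ, hδ, ?_⟩
  intro t ht θ hθ0 hθ ε hε
  have hsup : ∀ τ ∈ Set.Icc (0 : ℝ) θ, ∀ j, ∀ z ∈ L j,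
      ‖mvel ch (fun θ => H (t, θ)) τ j z‖ ≤ 2 * η := by
    intro τ hτ j z hz
    have h2 : ((t, τ) : ℝ × ℝ) ∈ Metric.ball (t0, (0 : ℝ)) δ := by
      rw [Metric.mem_ball, Prod.dist_eq, max_lt_iff]
      refine ⟨by simpa [Real.dist_eq] using ht, ?_⟩
      simp only [Real.dist_eq, sub_zero]
      rw [abs_of_nonneg hτ.1]
      exact lt_of_le_of_lt hτ.2 hθ
    exact (hball _ h2 j z hz).le
  have h0 : H (t, 0) = id := by
    funext x
    have : Pi' 0 x = x := congrFun hPi0 x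
    simp only [hHdef, this, add_zero, hcancel, id]
  have hcost := CK.path n M ι ch hS N σ p hN (fun θ => H (t, θ)) (hHt t) h0 θ (C * (2 * η)) hθ0
    (by positivity) (fun τ hτ => hC _ (F.velFld (n + n) M ι ch hV _ (hHt t).fam τ) (2 * η)
      (by positivity) (hsup τ hτ))
  have hcost2 := CK.inv n M ι ch hS N σ p hN _ _ (hPic θ ε hε)
  have h3 := CK.comp n M ι ch hS N σ p hN _ _ _ _ hcost hcost2
  convert h3 using 1
  funext x
  have h4 : Pi' θ (Function.invFun (Pi' θ) x) = x :=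
    Function.rightInverse_invFun (hPi.fam.bij θ).2 x
  simp only [hHdef, h4]

end SMainA

open SMainA in
/-- Paths of approximable fields have cost zero. -/
theorem sMain (F : MFamKit) (SF : SFk) (CK : SCk) (X : MExtKit) (SE : SExt) (TR : STrf)
    (LP : LocP) (CC : CommC) : SMain := by
  intro n hn
  obtain ⟨Λ, hΛ, hCC0⟩ := CC n hn
  refine ⟨Λ, hΛ, ?_⟩
  intro M _ _ _ _ ι _ ch hS N σ p hp hσ0 hσ1 hσ hN φ hφ h0 hex ε hε
  have hCC := hCC0 σ p hp hσ0 hσ1 hσ
  obtain ⟨L, C, hCpos, hL, hC⟩ := hN.sup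
  obtain ⟨η, hη, hη2⟩ : ∃ η : ℝ, 0 < η ∧ C * (2 * η) ≤ ε / 2 := by
    refine ⟨ε / (4 * (C + 1)), by positivity, ?_⟩
    have : C * (2 * (ε / (4 * (C + 1)))) = (C / (C + 1)) * (ε / 2) := by
      field_simp
      ring
    rw [this]
    have h1 : C / (C + 1) ≤ 1 := by
      rw [div_le_one (by positivity)]
      linarith
    nlinarith
  obtain ⟨δ, hδ, hstep⟩ := MainA.step_unif (fun t θ => ∀ ε, 0 < ε →
      SCost ch N (fun x => φ (t + θ) (Function.invFun (φ t) x)) (C * (2 * η) * θ + ε))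
    (fun t0 => step_local F SF CK X SE TR LP hΛ hCC hS hN φ hφ hex C hCpos L hL hC η hη t0)
  obtain ⟨m, hm⟩ := exists_nat_gt (1 / δ)
  have hM0 : (0 : ℝ) < m := lt_trans (by positivity) hm
  have hMδ : 1 / (m : ℝ) < δ := by
    rw [div_lt_iff₀ hM0]
    rw [div_lt_iff₀ hδ] at hm
    linarith
  have hind : ∀ k : ℕ, k ≤ m →
      SCost ch N (φ (k / m)) (k * (C * (2 * η) * (1 / m) + ε / (2 * m))) := by
    intro k
    induction k with
    | zero =>
      intro _
      have h1 := CK.one n M ι ch hS N σ p hN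
      simpa [h0] using h1
    | succ k ih =>
      intro hk
      have hk1 : (k : ℝ) + 1 ≤ m := by exact_mod_cast hk
      have h1 := ih (by omega)
      have h2 := hstep (k / m) ⟨by positivity, by rw [div_le_one hM0]; linarith⟩ (1 / m)
        (by positivity) hMδ (ε / (2 * m)) (by positivity)
      have h3 := CK.comp n M ι ch hS N σ p hN _ _ _ _ h2 h1
      convert h3 using 1
      · funext x
        have h4 : Function.invFun (φ (k / m)) (φ (k / m) x) = x :=
          Function.leftInverse_invFun (hφ.fam.bij _).1 x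
        rw [h4]
        congr 1
        push_cast
        ring
      · push_cast
        ring
  have hfin := hind m le_rfl
  rw [div_self hM0.ne'] at hfin
  refine CK.mono n M ι ch N _ _ _ hfin ?_
  have : (m : ℝ) * (C * (2 * η) * (1 / m) + ε / (2 * m)) = C * (2 * η) + ε / 2 := by
    field_simp
  rw [this]
  linarith

end

end SV
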