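import Pool.Agent.H6.SV.St
import Pool.Agent.H68.GM.MExtK

/-!
# Local costs bound costs on `M` (row SV-20)
-/

set_option autoImplicit false

open MeasureTheory Set Filter Topology Pool.Agent.H68.VD Pool.Agent.H68.GM
open scoped ENNReal ContDiff

namespace SV

noncomputable section

namespace STrfA

theorem out {n : ℕ} {σ p : ℝ} {c : Eu (n + n)} {r : ℝ} {f : Equiv.Perm (Eu (n + n))} {a : ℝ}
    (h : LCost σ p c r f a) : ∀ x, r ≤ dist x c → f x = x := by
  induction h with
  | base h =>
    obtain ⟨T, H, A, G, μ, hP, h1, -, -⟩ := h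
    intro x hx
    rw [← h1 x]
    exact hP.out 1 x hx
  | mul _ _ ih1 ih2 =>
    intro x hx
    rw [Equiv.Perm.mul_apply, ih2 x hx, ih1 x hx]

theorem cst_nonneg {σ p A G μ : ℝ} (hA : 0 ≤ A) (hG : 0 ≤ G) (hμ : 0 ≤ μ) :
    0 ≤ cst σ p A G μ := by
  unfold cst
  positivity

end STrfA

theorem sTrf (K : HPk) (X : SExt) (C : SCk) (S : SFk) : STrf := by
  intro n M _ _ _ ι ch hA N σ p hN i c r hr hc
  obtain ⟨C0, hC0, hloc⟩ := hN.loc i (Metric.closedBall c r) (isCompact_closedBall c r) hc
  have hV := S.vol n M ι ch hA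
  refine ⟨C0, hC0, fun f a hf => ?_⟩
  induction hf with
  | @base f a h =>
    obtain ⟨T, H, A, G, μ, hP, h1, hB, hcst⟩ := h
    have hB0 := hB 0 ⟨le_refl _, zero_le_one⟩
    have hball := K.ball n c r T H hP
    have hfam : SFam ch (fun t => extM ch i (T t)) := X n M ι ch hA i c r hr hc ℝ T hball hP.symp
    have h0 : (fun t => extM ch i (T t)) 0 = id := by
      funext x
      have h2 : T 0 = fun y => y := funext hP.zero
      show extM ch i (T 0) x = x
      rw [h2]
      exact MExtKA.ext_id ch i x
    have hcn : 0 ≤ cst σ p A G μ := STrfA.cst_nonneg hB0.A0 hB0.G0 hB0.μ0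
    have hvel : ∀ t ∈ Set.Icc (0 : ℝ) 1,
        N (mvel ch (fun t => extM ch i (T t)) t) ≤ ENNReal.ofReal (C0 * cst σ p A G μ) := by
      intro t ht
      have h3 : mvel ch (fun t => extM ch i (T t)) t = push ch i (sg (H t)) := by
        funext j y
        rw [MExtKA.velExt ch hV i c r hc T hball t j y]
        have h4 : vel T t = sg (H t) := funext (K.vel n c r T H hP t)
        rw [h4]
      rw [h3]
      refine hloc (H t) (hP.sH.comp (contDiff_const.prodMk contDiff_id)) (fun y hy => ?_) A G μ
        (hB t ht)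
      refine hP.outH t y ?_
      by_contra hlt
      push Not at hlt
      exact hy (Metric.mem_closedBall.2 hlt.le)
    have hpath := C.path n M ι ch hA N σ p hN (fun t => extM ch i (T t)) hfam h0 1
      (C0 * cst σ p A G μ) zero_le_one (mul_nonneg hC0 hcn) hvel
    have h5 : extM ch i (T 1) = extM ch i (fun x => f x) := by
      have : T 1 = fun x => f x := funext h1
      rw [this]
    have h6 := C.mono n M ι ch N _ _ (C0 * a) hpath
      (by rw [mul_one]; exact mul_le_mul_of_nonneg_left hcst hC0)
    rw [← h5]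
    exact h6
  | @mul f g a b hf hg ih1 ih2 =>
    have h1 := C.comp n M ι ch hA N σ p hN _ _ _ _ ih1 ih2
    have h2 : (fun x => extM ch i (fun x => f x) (extM ch i (fun x => g x) x)) =
        extM ch i (fun x => (f * g) x) := by
      funext x
      exact (MExtKA.comp_raw ch hc (fun x => f x) (fun x => g x) g.injective
        (STrfA.out hg) x).symm
    rw [h2, ← mul_add] at h1
    exact h1

end

end SV
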