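import Pool.Agent.H6.SV.St
import Pool.Agent.H68.GM.MFamK
import Pool.Agent.H68.GM.MVelDiv

/-! # Project SV: the velocity of a path of symplectic diffeomorphisms is a symplectic field -/

set_option autoImplicit false

open MeasureTheory Set Filter Topology Pool.Agent.H68.VD Pool.Agent.H68.GM
open scoped ENNReal ContDiff

namespace SV

noncomputable section

namespace SVelA

/-- Derivative of the symplectic form. -/
theorem hasDerivAt_om (L : LinK) {n : ℕ} {a b : ℝ → Eu (n + n)} {a' b' : Eu (n + n)} {t : ℝ}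
    (ha : HasDerivAt a a' t) (hb : HasDerivAt b b' t) :
    HasDerivAt (fun τ => om (a τ) (b τ)) (om a' (b t) + om (a t) b') t := by
  obtain ⟨B, hB⟩ := L.clm n
  have h := (B.hasFDerivAt.comp_hasDerivAt t ha).clm_apply hb
  simpa [hB, Function.comp_def] using h

end SVelA

theorem sVel (S : SFk) (L : LinK) : SVel := by
  classical
  intro n M _ _ ι ch hA φ hφ t
  have hV : VolAtlas ch := S.vol n M ι ch hA
  have hfld : IsFld ch (mvel ch φ t) := mFamKit.velFld (n + n) M ι ch hV φ hφ.fam t
  refine ⟨hfld.smooth, hfld.out, hfld.compat, ?_⟩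
  intro i y hy u v
  have hG : SFam ch (fun (τ : ℝ) x => φ τ (Function.invFun (φ t) x)) :=
    S.comp n M ι ch hA ℝ φ (fun _ => Function.invFun (φ t)) hφ
      (S.re n M ι ch ℝ ℝ (fun e => Function.invFun (φ e)) (fun _ => t) (S.inv n M ι ch hA ℝ φ hφ)
        contDiff_const)
  set G : ℝ → M → M := fun τ x => φ τ (Function.invFun (φ t) x) with hGdef
  have hGt : ∀ x, G t x = x := fun x => Function.rightInverse_invFun (hφ.fam.bij t).2 x
  set U : Set (ℝ × Eu (n + n)) :=
    {q | q.2 ∈ (ch i).target ∧ G q.1 ((ch i).symm q.2) ∈ (ch i).source} with hUdef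
  have hUo : IsOpen U := by
    have h1 : IsOpen {q : ℝ × Eu (n + n) | q.2 ∈ (ch i).target} :=
      (ch i).open_target.preimage continuous_snd
    have h2 : ContinuousOn (fun q : ℝ × Eu (n + n) => G q.1 ((ch i).symm q.2))
        {q : ℝ × Eu (n + n) | q.2 ∈ (ch i).target} := by
      have h3 : ContinuousOn (fun q : ℝ × Eu (n + n) => (q.1, (ch i).symm q.2))
          {q : ℝ × Eu (n + n) | q.2 ∈ (ch i).target} :=
        continuousOn_fst.prodMk ((ch i).continuousOn_symm.comp continuousOn_snd fun q hq => hq)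
      exact hG.fam.cont.comp_continuousOn h3
    exact h2.isOpen_inter_preimage h1 (ch i).open_source
  have hyU : (t, y) ∈ U := by
    refine ⟨hy, ?_⟩
    simp only [hGt]
    exact (ch i).map_target hy
  have hW : ContDiffOn ℝ ∞ (fun q : ℝ × Eu (n + n) => ch i (G q.1 ((ch i).symm q.2))) U :=
    hG.fam.smooth i i
  have hmv : mvel ch φ t i =ᶠ[𝓝 y]
      fun z => deriv (fun τ => ch i (G τ ((ch i).symm z))) t := by
    filter_upwards [(ch i).open_target.mem_nhds hy] with z hz
    simp only [mvel, if_pos hz, hGdef]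
  rw [hmv.fderiv_eq]
  have hd : ∀ h : Eu (n + n), HasDerivAt
      (fun τ => fderiv ℝ (fun z => ch i (G τ ((ch i).symm z))) y h)
      (fderiv ℝ (fun z => deriv (fun τ => ch i (G τ ((ch i).symm z))) t) y h) t := fun h =>
    MVelDivA.mixed (fun q : ℝ × Eu (n + n) => ch i (G q.1 ((ch i).symm q.2))) U hUo hW t y h hyU
  have hid : ∀ h : Eu (n + n), fderiv ℝ (fun z => ch i (G t ((ch i).symm z))) y h = h := by
    intro h
    have : (fun z => ch i (G t ((ch i).symm z))) =ᶠ[𝓝 y] id := by
      filter_upwards [(ch i).open_target.mem_nhds hy] with z hz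
      simp only [hGt]
      exact (ch i).right_inv hz
    rw [this.fderiv_eq, fderiv_id]
    rfl
  have h1 := SVelA.hasDerivAt_om L (hd u) (hd v)
  rw [hid u, hid v] at h1
  have hev : (fun τ => om (fderiv ℝ (fun z => ch i (G τ ((ch i).symm z))) y u)
      (fderiv ℝ (fun z => ch i (G τ ((ch i).symm z))) y v)) =ᶠ[𝓝 t] fun _ => om u v := by
    have hc : ContinuousAt (fun τ : ℝ => (τ, y)) t := by fun_prop
    filter_upwards [hc.eventually (hUo.mem_nhds hyU)] with τ hτ
    exact hG.symp τ i i y hτ.1 hτ.2 u v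
  have h2 : HasDerivAt (fun τ => om (fderiv ℝ (fun z => ch i (G τ ((ch i).symm z))) y u)
      (fderiv ℝ (fun z => ch i (G τ ((ch i).symm z))) y v)) 0 t :=
    (hasDerivAt_const t (om u v)).congr_of_eventuallyEq hev
  exact h1.unique h2

end

end SV
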