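import Pool.Agent.H6.SV.St
import Pool.Agent.H68.GM.WMW
import Pool.Agent.H68.GM.WR
import Pool.Agent.H68.GM.PushK
import Pool.Agent.H68.GM.Piola

/-!
# Project SV: the negative Sobolev norms on `M` (module SWk)
-/

set_option autoImplicit false

open MeasureTheory Set Filter Topology Pool.Agent.H68.VD Pool.Agent.H68.GM Pool.Agent.H68.GM.WMWA
open scoped ENNReal ContDiff

namespace SV

noncomputable section

namespace SWkA

variable {n : ℕ} {M : Type} [TopologicalSpace M] {ι : Type}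
  {ch : ι → OpenPartialHomeomorph M (Eu (n + n))}

/-- the price of an enlarged Hamiltonian -/
lemma cst_le {σ p A G μ D : ℝ} (hσ : 0 < σ) (hσ1 : σ < 1) (hA : 0 ≤ A) (hG : 0 ≤ G)
    (hμ : 0 ≤ μ) (hD : 1 ≤ D) :
    cst σ p (D * A) (D * (G + A)) μ ≤ 2 * D * cst σ p A G μ := by
  have hD0 : 0 < D := by linarith
  have h2 : D ^ (1 - σ) * D ^ σ = D := by
    rw [← Real.rpow_add hD0]
    simp
  have h3 : (G + A) ^ σ ≤ G ^ σ + A ^ σ := Real.rpow_add_le_add_rpow hG hA hσ.le hσ1.le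
  have h4 : A ^ (1 - σ) * A ^ σ = A := by
    rw [← Real.rpow_add' hA (by simp)]
    simp
  have hA' : 0 ≤ A ^ (1 - σ) := Real.rpow_nonneg hA _
  have hG' : 0 ≤ G ^ σ := Real.rpow_nonneg hG _
  have h1 : (D * A) ^ (1 - σ) * (D * (G + A)) ^ σ ≤ D * (A ^ (1 - σ) * G ^ σ + A) := by
    rw [Real.mul_rpow hD0.le hA, Real.mul_rpow hD0.le (by linarith)]
    calc D ^ (1 - σ) * A ^ (1 - σ) * (D ^ σ * (G + A) ^ σ)
        = (D ^ (1 - σ) * D ^ σ) * (A ^ (1 - σ) * (G + A) ^ σ) := by ring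
      _ = D * (A ^ (1 - σ) * (G + A) ^ σ) := by rw [h2]
      _ ≤ D * (A ^ (1 - σ) * (G ^ σ + A ^ σ)) := by gcongr
      _ = D * (A ^ (1 - σ) * G ^ σ + A ^ (1 - σ) * A ^ σ) := by ring
      _ = D * (A ^ (1 - σ) * G ^ σ + A) := by rw [h4]
  unfold cst
  have hm : 0 ≤ μ ^ (1 / p) := Real.rpow_nonneg hμ _
  calc (D * A + (D * A) ^ (1 - σ) * (D * (G + A)) ^ σ) * μ ^ (1 / p)
      ≤ (D * A + D * (A ^ (1 - σ) * G ^ σ + A)) * μ ^ (1 / p) := by gcongr
    _ ≤ 2 * D * ((A + A ^ (1 - σ) * G ^ σ) * μ ^ (1 / p)) := by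
        have h5 : 0 ≤ A ^ (1 - σ) * G ^ σ := mul_nonneg hA' hG'
        have h6 : D * A + D * (A ^ (1 - σ) * G ^ σ + A) ≤
            2 * D * (A + A ^ (1 - σ) * G ^ σ) := by nlinarith
        calc _ ≤ (2 * D * (A + A ^ (1 - σ) * G ^ σ)) * μ ^ (1 / p) := by gcongr
          _ = _ := by ring

lemma amp_le_cst {σ p A G μ : ℝ} (hA : 0 ≤ A) (hG : 0 ≤ G) (hμ : 0 ≤ μ) :
    A * μ ^ (1 / p) ≤ cst σ p A G μ := by
  unfold cst
  have h1 : 0 ≤ A ^ (1 - σ) * G ^ σ := mul_nonneg (Real.rpow_nonneg hA _) (Real.rpow_nonneg hG _)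
  have hm : 0 ≤ μ ^ (1 / p) := Real.rpow_nonneg hμ _
  nlinarith [mul_nonneg h1 hm]

lemma cst_nonneg {σ p A G μ : ℝ} (hA : 0 ≤ A) (hG : 0 ≤ G) (hμ : 0 ≤ μ) :
    0 ≤ cst σ p A G μ :=
  (mul_nonneg hA (Real.rpow_nonneg hμ _)).trans (amp_le_cst hA hG hμ)

open Classical in
/-- the function `h` of the chart `i` read in the chart `j` -/
def kk (ch : ι → OpenPartialHomeomorph M (Eu (n + n))) (i j : ι) (h : Eu (n + n) → ℝ)
    (y : Eu (n + n)) : ℝ := if y ∈ dom ch j i then h (tr ch j i y) else 0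

lemma kk_eq {i j : ι} (h : Eu (n + n) → ℝ) {y : Eu (n + n)} (hy : y ∈ dom ch j i) :
    kk ch i j h y = h (tr ch j i y) := if_pos hy

lemma kk_out {i j : ι} (h : Eu (n + n) → ℝ) {K : Set (Eu (n + n))} (hT : ∀ y ∉ K, h y = 0)
    {y : Eu (n + n)} (hy : ¬ (y ∈ dom ch j i ∧ tr ch j i y ∈ K)) : kk ch i j h y = 0 := by
  unfold kk
  split_ifs with hd
  · exact hT _ (fun h' => hy ⟨hd, h'⟩)
  · rfl

lemma kk_smooth (hA : SympAtlas ch) (i j : ι) (h : Eu (n + n) → ℝ) (hh : ContDiff ℝ ∞ h) :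
    ContDiffOn ℝ ∞ (kk ch i j h) (dom ch j i) :=
  (hh.comp_contDiffOn (hA.smooth j i)).congr fun _ hy => kk_eq h hy

lemma kk_abs (i j : ι) (h : Eu (n + n) → ℝ) {A : ℝ} (hA0 : 0 ≤ A) (hA : ∀ x, |h x| ≤ A)
    (y : Eu (n + n)) : |kk ch i j h y| ≤ A := by
  unfold kk
  split_ifs
  · exact hA _
  · simpa using hA0

section

variable {i j : ι} {K K' : Set (Eu (n + n))} {χ : Eu (n + n) → ℝ} {h : Eu (n + n) → ℝ}

lemma sg_zero (S : SgK) {K' : Set (Eu (n + n))} (hK' : IsClosed K') {χ : Eu (n + n) → ℝ}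
    (h0 : ∀ y ∉ K', χ y = 0) (y : Eu (n + n)) (hy : y ∉ K') : sg χ y = 0 := by
  have : χ =ᶠ[𝓝 y] fun _ => 0 := by
    filter_upwards [hK'.isOpen_compl.mem_nhds hy] with z hz
    exact h0 z hz
  rw [S.congr n _ _ y this, S.const]

lemma g_out (h0 : ∀ y ∉ K', χ y = 0) (hT0 : ∀ y ∉ K, h y = 0) (y : Eu (n + n))
    (hy : y ∉ ov ch i j K K') : χ y * kk ch i j h y = 0 := by
  by_cases hk : y ∈ K'
  · rw [kk_out h hT0 (fun hh => hy ⟨hk, hh.1, hh.2⟩), mul_zero]
  · rw [h0 y hk, zero_mul]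

lemma r_out (S : SgK) (hK' : IsCompact K') (h0 : ∀ y ∉ K', χ y = 0) (hT0 : ∀ y ∉ K, h y = 0)
    (y : Eu (n + n)) (hy : y ∉ ov ch i j K K') : kk ch i j h y • sg χ y = 0 := by
  by_cases hk : y ∈ K'
  · rw [kk_out h hT0 (fun hh => hy ⟨hk, hh.1, hh.2⟩), zero_smul]
  · rw [sg_zero S hK'.isClosed h0 y hk, smul_zero]

lemma g_smooth [T2Space M] (hA : SympAtlas ch) (hK : IsCompact K) (hKi : K ⊆ (ch i).target)
    (hK' : IsCompact K') (hK'j : K' ⊆ (ch j).target) (hχ : ContDiff ℝ ∞ χ)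
    (h0 : ∀ y ∉ K', χ y = 0) (hT : ContDiff ℝ ∞ h) (hT0 : ∀ y ∉ K, h y = 0) :
    ContDiff ℝ ∞ (fun y => χ y * kk ch i j h y) :=
  glue (dom_open ch j i) (ov_compact i j K K' hK hKi hK' hK'j).isClosed ov_sub _
    (hχ.contDiffOn.mul (kk_smooth hA i j h hT)) (g_out h0 hT0)

lemma r_smooth (S : SgK) [T2Space M] (hA : SympAtlas ch) (hK : IsCompact K)
    (hKi : K ⊆ (ch i).target)
    (hK' : IsCompact K') (hK'j : K' ⊆ (ch j).target) (hχ : ContDiff ℝ ∞ χ)
    (h0 : ∀ y ∉ K', χ y = 0) (hT : ContDiff ℝ ∞ h) (hT0 : ∀ y ∉ K, h y = 0) :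
    ContDiff ℝ ∞ (fun y => kk ch i j h y • sg χ y) :=
  glue (dom_open ch j i) (ov_compact i j K K' hK hKi hK' hK'j).isClosed ov_sub _
    ((kk_smooth hA i j h hT).smul (S.smooth n χ hχ).contDiffOn) (r_out S hK' h0 hT0)

/-- the Hamiltonian field in another chart -/
lemma push_sg (S : SgK) (hA : SympAtlas ch) (hT : ContDiff ℝ ∞ h) {y : Eu (n + n)}
    (hy : y ∈ dom ch j i) : sg (kk ch i j h) y = push ch i (sg h) j y := by
  have h1 : kk ch i j h =ᶠ[𝓝 y] fun z => h (tr ch j i z) := by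
    filter_upwards [(dom_open ch j i).mem_nhds hy] with z hz
    exact kk_eq h hz
  rw [S.congr n _ _ y h1]
  unfold push
  rw [if_pos hy]
  have hx : tr ch j i y ∈ dom ch i j := tr_maps hy
  have hxy : tr ch i j (tr ch j i y) = y := tr_tr hy
  have h2 := S.conj n h (tr ch i j) (tr ch j i) (tr ch j i y)
    (hT.differentiable (by simp) _)
    (((hA.smooth i j).contDiffAt ((dom_open ch i j).mem_nhds hx)).differentiableAt (by simp))
    (by
      rw [hxy]
      exact ((hA.smooth j i).contDiffAt ((dom_open ch j i).mem_nhds hy)).differentiableAt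
        (by simp))
    (by rw [hxy])
    (by
      rw [hxy]
      filter_upwards [(dom_open ch j i).mem_nhds hy] with z hz
      exact tr_tr hz)
    (hA.symp i j _ hx)
  rw [hxy] at h2
  exact h2

/-- the decomposition -/
lemma decomp (S : SgK) [T2Space M] (hA : SympAtlas ch) (hK : IsCompact K)
    (hKi : K ⊆ (ch i).target)
    (hK' : IsCompact K') (hK'j : K' ⊆ (ch j).target) (hχ : ContDiff ℝ ∞ χ)
    (h0 : ∀ y ∉ K', χ y = 0) (hT : ContDiff ℝ ∞ h) (hT0 : ∀ y ∉ K, h y = 0)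
    (y : Eu (n + n)) :
    χ y • push ch i (sg h) j y =
      sg (fun y => χ y * kk ch i j h y) y + (-1 : ℝ) • (kk ch i j h y • sg χ y) := by
  by_cases hy : y ∈ dom ch j i
  · have hZ : DifferentiableAt ℝ (kk ch i j h) y :=
      ((kk_smooth hA i j h hT).contDiffAt ((dom_open ch j i).mem_nhds hy)).differentiableAt
        (by simp)
    rw [S.mul n χ _ y (hχ.differentiable (by simp) y) hZ, push_sg S hA hT hy]
    simp
  · have hL := (ov_compact i j K K' hK hKi hK' hK'j).isClosed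
    have hyL : y ∉ ov ch i j K K' := fun hh => hy (ov_sub hh)
    rw [sg_zero S hL (g_out h0 hT0) y hyL, r_out S hK' h0 hT0 y hyL]
    unfold push
    rw [if_neg hy]
    simp

/-- the volume of the support -/
lemma vol_ov (hV : VolAtlas ch) [T2Space M] (hK : IsCompact K) (hKi : K ⊆ (ch i).target)
    (hK' : IsCompact K') (hK'j : K' ⊆ (ch j).target) :
    volume (ov ch i j K K') ≤ volume K := by
  have hO := ov_compact (ch := ch) i j K K' hK hKi hK' hK'j
  have hm : MeasurableSet (dom ch j i) := (dom_open ch j i).measurableSet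
  have h1 := cov hV i j (K.indicator (fun _ => (1 : ℝ≥0∞)))
  rw [lintegral_indicator hK.measurableSet, lintegral_const, Measure.restrict_apply_univ,
    one_mul] at h1
  refine le_trans ?_ h1
  rw [← lintegral_indicator hm]
  have h2 : volume (ov ch i j K K') =
      ∫⁻ y, (ov ch i j K K').indicator (fun _ => (1 : ℝ≥0∞)) y := by
    rw [lintegral_indicator hO.measurableSet, lintegral_const, Measure.restrict_apply_univ,
      one_mul]
  rw [h2]
  refine lintegral_mono fun y => ?_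
  by_cases hy : y ∈ ov ch i j K K'
  · rw [indicator_of_mem hy, indicator_of_mem (ov_sub hy), indicator_of_mem hy.2.2]
  · rw [indicator_of_notMem hy]
    exact zero_le

/-- the `L^p` norm of a bounded field on a set of small volume -/
lemma lp_small {L : Set (Eu (n + n))} (hL : MeasurableSet L) {p μ b : ℝ} (hp : 1 < p)
    (hμ : 0 ≤ μ) (hb : 0 ≤ b) (hLμ : volume L ≤ ENNReal.ofReal μ)
    (u : Eu (n + n) → Eu (n + n)) (h0 : ∀ y ∉ L, u y = 0) (hu : ∀ y, ‖u y‖ ≤ b) :
    (∫⁻ y, ‖u y‖ₑ ^ p) ^ (1 / p) ≤ ENNReal.ofReal (b * μ ^ (1 / p)) := by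
  have hp0 : 0 < p := by linarith
  have hpt : ∀ y, ‖u y‖ₑ ^ p ≤ L.indicator (fun _ => ENNReal.ofReal b ^ p) y := by
    intro y
    by_cases hy : y ∈ L
    · rw [indicator_of_mem hy]
      apply ENNReal.rpow_le_rpow _ hp0.le
      rw [← ofReal_norm]
      exact ENNReal.ofReal_le_ofReal (hu y)
    · rw [h0 y hy]
      simp [ENNReal.zero_rpow_of_pos hp0]
  calc (∫⁻ y, ‖u y‖ₑ ^ p) ^ (1 / p)
      ≤ (∫⁻ y, L.indicator (fun _ => ENNReal.ofReal b ^ p) y) ^ (1 / p) :=
        ENNReal.rpow_le_rpow (lintegral_mono hpt) (by positivity)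
    _ = (ENNReal.ofReal b ^ p * volume L) ^ (1 / p) := by
        rw [lintegral_indicator hL, lintegral_const, Measure.restrict_apply_univ]
    _ = ENNReal.ofReal b * (volume L) ^ (1 / p) := by
        rw [ENNReal.mul_rpow_of_nonneg _ _ (by positivity), ← ENNReal.rpow_mul,
          mul_one_div_cancel hp0.ne', ENNReal.rpow_one]
    _ ≤ ENNReal.ofReal b * (ENNReal.ofReal μ) ^ (1 / p) := by
        gcongr
    _ = ENNReal.ofReal (b * μ ^ (1 / p)) := by
        rw [ENNReal.ofReal_rpow_of_nonneg hμ (by positivity), ← ENNReal.ofReal_mul hb]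

/-- one term of the norm -/
lemma term (I : Interp) (S : SgK) (hA : SympAtlas ch) (hV : VolAtlas ch) [T2Space M]
    (hK : IsCompact K) (hKi : K ⊆ (ch i).target)
    (hK' : IsCompact K') (hK'j : K' ⊆ (ch j).target) (hχ : ContDiff ℝ ∞ χ)
    (h0 : ∀ y ∉ K', χ y = 0) (s p σ : ℝ) (hn : 1 ≤ n) (hs : s < 0) (hp : 1 < p) (hσ : 0 < σ)
    (hσ1 : σ < 1) (hsσ : 1 + s ≤ σ) : ∃ C : ℝ, 0 ≤ C ∧ ∀ h : Eu (n + n) → ℝ, ContDiff ℝ ∞ h →
    (∀ y ∉ K, h y = 0) → ∀ A G μ : ℝ, Bd A G μ h →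
    wR s p (fun y => χ y • push ch i (sg h) j y) ≤ ENNReal.ofReal (C * cst σ p A G μ) := by
  obtain ⟨C, hC, hb⟩ := fderiv_bound pushKit hV i K hK hKi j K' hK' hK'j
  obtain ⟨c, hc, hcb⟩ := cut_bound hK' χ hχ h0
  obtain ⟨C0, hC0, hI⟩ := I n s p σ hn hs hp hσ hσ1 hsσ
  obtain ⟨G1, hG1⟩ : ∃ G1 : ℝ, ∀ y, ‖sg χ y‖ ≤ G1 :=
    (S.smooth n χ hχ).continuous.bounded_above_of_compact_support
      (HasCompactSupport.intro hK' (sg_zero S hK'.isClosed h0))
  have hG10 : 0 ≤ G1 := le_trans (norm_nonneg _) (hG1 0)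
  set D : ℝ := 1 + c + c * C + G1 with hD
  have hD1 : 1 ≤ D := by
    have := mul_nonneg hc hC
    linarith
  have hcC : 0 ≤ c * C := mul_nonneg hc hC
  refine ⟨C0 * (2 * D) + G1, by positivity, fun h hh hh0 A G μ hB => ?_⟩
  have hA0 := hB.A0
  have hG0 := hB.G0
  have hμ0 := hB.μ0
  -- the support
  have hts : tsupport h ⊆ K := by
    apply closure_minimal _ hK.isClosed
    intro y hy
    by_contra hyK
    exact hy (hh0 y hyK)
  have htc : IsCompact (tsupport h) := hK.of_isClosed_subset (isClosed_tsupport h) hts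
  have hts0 : ∀ y ∉ tsupport h, h y = 0 := fun y hy => image_eq_zero_of_notMem_tsupport hy
  have htt : tsupport h ⊆ (ch i).target := hts.trans hKi
  set L := ov ch i j (tsupport h) K' with hLdef
  have hLc : IsCompact L := ov_compact i j (tsupport h) K' htc htt hK' hK'j
  have hLμ : volume L ≤ ENNReal.ofReal μ :=
    (vol_ov hV htc htt hK' hK'j).trans hB.supp
  set g : Eu (n + n) → ℝ := fun y => χ y * kk ch i j h y with hg
  set R : Eu (n + n) → Eu (n + n) := fun y => kk ch i j h y • sg χ y with hR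
  have hgs : ContDiff ℝ ∞ g := g_smooth hA hK hKi hK' hK'j hχ h0 hh hh0
  have hRs : ContDiff ℝ ∞ R := r_smooth S hA hK hKi hK' hK'j hχ h0 hh hh0
  have hg0 : ∀ y ∉ L, g y = 0 := g_out h0 hts0
  have hR0 : ∀ y ∉ L, R y = 0 := r_out S hK' h0 hts0
  have hdec : ∀ y, χ y • push ch i (sg h) j y = sg g y + (-1 : ℝ) • R y :=
    decomp S hA hK hKi hK' hK'j hχ h0 hh hh0
  have hRb : ∀ y, ‖R y‖ ≤ A * G1 := by
    intro y
    rw [hR]
    dsimp only
    rw [norm_smul]
    exact mul_le_mul (kk_abs i j h hA0 hB.amp y) (hG1 y) (norm_nonneg _) hA0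
  have hpb : ∀ y, ‖χ y • push ch i (sg h) j y‖ ≤ c * (C * G) := by
    intro y
    rw [norm_smul]
    by_cases hy : y ∈ K'
    · by_cases hd : y ∈ dom ch j i
      · unfold push
        rw [if_pos hd]
        by_cases hz : tr ch j i y ∈ K
        · have h3 := hb y hy hd hz (sg h (tr ch j i y))
          have h4 : C * ‖sg h (tr ch j i y)‖ ≤ C * G := by
            rw [S.norm]
            exact mul_le_mul_of_nonneg_left (hB.grad _) hC
          exact mul_le_mul (hcb y) (h3.trans h4) (norm_nonneg _) hc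
        · rw [sg_zero S hK.isClosed hh0 _ hz]
          simp only [map_zero, norm_zero, mul_zero]
          positivity
      · unfold push
        rw [if_neg hd]
        simp only [norm_zero, mul_zero]
        positivity
    · rw [h0 y hy]
      simp only [norm_zero, zero_mul]
      positivity
  have hBg : Bd (D * A) (D * (G + A)) μ g := by
    refine ⟨by positivity, by positivity, hμ0, fun y => ?_, fun y => ?_, ?_⟩
    · rw [hg]
      dsimp only
      rw [abs_mul]
      have h1 : |χ y| * |kk ch i j h y| ≤ c * A :=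
        mul_le_mul (hcb y) (kk_abs i j h hA0 hB.amp y) (abs_nonneg _) hc
      refine h1.trans (mul_le_mul_of_nonneg_right ?_ hA0)
      linarith
    · rw [← S.norm]
      have h1 : sg g y = χ y • push ch i (sg h) j y + R y := by
        rw [hdec y]
        simp
      rw [h1]
      refine (norm_add_le _ _).trans ((add_le_add (hpb y) (hRb y)).trans ?_)
      have h2 : c * (C * G) ≤ D * G := by
        rw [← mul_assoc]
        refine mul_le_mul_of_nonneg_right ?_ hG0
        linarith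
      have h3 : A * G1 ≤ D * A := by
        rw [mul_comm]
        refine mul_le_mul_of_nonneg_right ?_ hA0
        linarith
      linarith
    · refine (measure_mono (closure_minimal ?_ hLc.isClosed)).trans hLμ
      intro y hy
      by_contra hyL
      exact hy (hg0 y hyL)
  have hgc : HasCompactSupport g := HasCompactSupport.intro hLc hg0
  have hw1 : wR s p (sg g) ≤ ENNReal.ofReal (C0 * (2 * D) * cst σ p A G μ) := by
    refine (hI g hgs hgc _ _ _ hBg).trans (ENNReal.ofReal_le_ofReal ?_)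
    have := cst_le (p := p) hσ hσ1 hA0 hG0 hμ0 hD1
    calc C0 * cst σ p (D * A) (D * (G + A)) μ ≤ C0 * (2 * D * cst σ p A G μ) := by gcongr
      _ = _ := by ring
  have hcS : Continuous (sg g) := (S.smooth n g hgs).continuous
  have hcR : Continuous (fun y => (-1 : ℝ) • R y) := hRs.continuous.const_smul (-1 : ℝ)
  have hw2 : wR s p (fun y => (-1 : ℝ) • R y) ≤ ENNReal.ofReal (G1 * cst σ p A G μ) := by
    have h1 := wrKit.lp (n + n) s p hs hp (fun y => (-1 : ℝ) • R y) hcR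
    refine h1.trans ((lp_small hLc.isClosed.measurableSet hp hμ0 (by positivity) hLμ
      (fun y => (-1 : ℝ) • R y) (b := A * G1)
      (fun y hy => by simp only [hR0 y hy, smul_zero]) (fun y => ?_)).trans
      (ENNReal.ofReal_le_ofReal ?_))
    · have := hRb y
      simpa [norm_neg] using this
    · have h2 := amp_le_cst (σ := σ) (p := p) hA0 hG0 hμ0
      calc A * G1 * μ ^ (1 / p) = G1 * (A * μ ^ (1 / p)) := by ring
        _ ≤ G1 * cst σ p A G μ := by gcongr
  have hfun : (fun y => χ y • push ch i (sg h) j y) = fun y => sg g y + (-1 : ℝ) • R y :=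
    funext hdec
  rw [hfun]
  refine (wrKit.add (n + n) s p hs _ _ hcS hcR (HasCompactSupport.intro hLc (fun y hy => ?_))
    (HasCompactSupport.intro hLc (fun y hy => ?_))).trans ?_
  · exact sg_zero S hLc.isClosed hg0 y hy
  · simp only [hR0 y hy, smul_zero]
  · have hcst := cst_nonneg (σ := σ) (p := p) hA0 hG0 hμ0
    refine (add_le_add hw1 hw2).trans (le_of_eq ?_)
    rw [← ENNReal.ofReal_add (by positivity) (by positivity)]
    congr 1
    ring

end

end SWkA

open SWkA in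
/-- The negative Sobolev norms on `M`. -/
theorem sWk (I : Interp) (F : SFk) (S : SgK) : SWk := by
  intro n M _ _ _ ι _ ch hA χ hχ s p σ hn hs hp hσ hσ1 hsσ
  have hV : VolAtlas ch := F.vol n M ι ch hA
  have hW : MWeak ch (wM χ s p) p :=
    wmWeak wrKit piola pushKit (n + n) M ι ch hV χ hχ s p (by omega) hs hp
  choose K' hK' hK'j h0 using hχ.supp
  refine ⟨hW.smul, hW.sup, fun i K hK hKi => ?_⟩
  choose C hC hCb using fun j => term (i := i) (j := j) I S hA hV hK hKi (hK' j) (hK'j j)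
    (hχ.smooth j) (h0 j) s p σ hn hs hp hσ hσ1 hsσ
  refine ⟨∑ j, C j, Finset.sum_nonneg fun j _ => hC j, fun h hh hh0 A G μ hB => ?_⟩
  have hcst := cst_nonneg (σ := σ) (p := p) hB.A0 hB.G0 hB.μ0
  unfold wM
  rw [Finset.sum_mul, ENNReal.ofReal_sum_of_nonneg (fun j _ => mul_nonneg (hC j) hcst)]
  exact Finset.sum_le_sum fun j _ => hCb j h hh hh0 A G μ hB

end

end SV
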