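import Pool.Agent.H6.SV.St

/-!
# Project SV: the sawtooth Hamiltonian
-/

set_option autoImplicit false

open MeasureTheory Set Filter Topology Pool.Agent.H68.VD Pool.Agent.H68.GM
open scoped ENNReal ContDiff

namespace SV

noncomputable section

namespace SawA

variable {n : ℕ}

/-- the coordinate as a linear map -/
def pj (i : Fin n) : Eu (n + n) →L[ℝ] ℝ := EuclideanSpace.proj (Fin.natAdd n i)

theorem pj_apply (i : Fin n) (x : Eu (n + n)) : pj i x = x (Fin.natAdd n i) := rfl

theorem norm_pj (i : Fin n) : ‖pj i‖ ≤ 1 := by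
  refine ContinuousLinearMap.opNorm_le_bound _ zero_le_one fun x => ?_
  rw [one_mul, pj_apply]
  exact PiLp.norm_apply_le x _

/-- the sawtooth without cut-off -/
def K0 (r ε : ℝ) (κ : ℝ → ℝ) (y : Eu (n + n)) : ℝ :=
  ∑ i : Fin n, 4 * r * ε * κ (y (Fin.natAdd n i) / ε)

/-- the derivative of the sawtooth -/
def D0 (r ε : ℝ) (κ : ℝ → ℝ) (x : Eu (n + n)) : Eu (n + n) →L[ℝ] ℝ :=
  ∑ i : Fin n, (4 * r * deriv κ (x (Fin.natAdd n i) / ε)) • pj i

theorem hasFDerivAt_K0 {r ε : ℝ} (hε : 0 < ε) {κ : ℝ → ℝ} (hκ : ContDiff ℝ ∞ κ)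
    (x : Eu (n + n)) : HasFDerivAt (K0 r ε κ) (D0 r ε κ x) x := by
  unfold K0 D0
  refine HasFDerivAt.fun_sum fun i _ => ?_
  have h1 : HasFDerivAt (fun y : Eu (n + n) => y (Fin.natAdd n i) / ε)
      ((1 / ε) • pj i) x := by
    have h := (pj i).hasFDerivAt (x := x)
    have h2 := h.const_mul (1 / ε)
    refine h2.congr_of_eventuallyEq (Eventually.of_forall fun y => ?_)
    simp only [pj_apply]
    ring
  have h3 : HasDerivAt κ (deriv κ (x (Fin.natAdd n i) / ε)) (x (Fin.natAdd n i) / ε) :=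
    ((hκ.differentiable (by simp)) _).hasDerivAt
  have h4 := (h3.comp_hasFDerivAt x h1).const_mul (4 * r * ε)
  refine h4.congr_fderiv ?_
  ext v
  simp only [smul_apply, smul_eq_mul]
  field_simp

theorem contDiff_K0 (r ε : ℝ) {κ : ℝ → ℝ} (hκ : ContDiff ℝ ∞ κ) :
    ContDiff ℝ ∞ (K0 (n := n) r ε κ) := by
  unfold K0
  refine ContDiff.sum fun i _ => ?_
  refine contDiff_const.mul (hκ.comp ?_)
  exact ((pj i).contDiff).div_const ε

theorem abs_K0 {r ε : ℝ} (hr : 0 < r) (hε : 0 < ε) {κ : ℝ → ℝ} (hκ1 : ∀ x, |κ x| ≤ 1)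
    (x : Eu (n + n)) : |K0 r ε κ x| ≤ 4 * r * ε * n := by
  unfold K0
  refine (Finset.abs_sum_le_sum_abs _ _).trans ?_
  calc ∑ i : Fin n, |4 * r * ε * κ (x (Fin.natAdd n i) / ε)|
      ≤ ∑ _i : Fin n, 4 * r * ε := by
        refine Finset.sum_le_sum fun i _ => ?_
        rw [abs_mul, abs_of_pos (by positivity : (0 : ℝ) < 4 * r * ε)]
        exact mul_le_of_le_one_right (by positivity) (hκ1 _)
    _ = 4 * r * ε * n := by
        rw [Finset.sum_const, Finset.card_univ, Fintype.card_fin, nsmul_eq_mul]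
        ring

theorem norm_D0 {r : ℝ} (ε : ℝ) (hr : 0 < r) {κ : ℝ → ℝ} (hκ1 : ∀ x, |deriv κ x| ≤ 1)
    (x : Eu (n + n)) : ‖D0 r ε κ x‖ ≤ 4 * r * n := by
  unfold D0
  refine (norm_sum_le _ _).trans ?_
  calc ∑ i : Fin n, ‖(4 * r * deriv κ (x (Fin.natAdd n i) / ε)) • pj i‖
      ≤ ∑ _i : Fin n, 4 * r := by
        refine Finset.sum_le_sum fun i _ => ?_
        rw [norm_smul, Real.norm_eq_abs, abs_mul, abs_of_pos (by positivity : (0 : ℝ) < 4 * r)]
        calc 4 * r * |deriv κ (x (Fin.natAdd n i) / ε)| * ‖pj i‖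
            ≤ 4 * r * 1 * 1 := by
              gcongr
              · exact hκ1 _
              · exact norm_pj i
          _ = 4 * r := by ring
    _ = 4 * r * n := by
        rw [Finset.sum_const, Finset.card_univ, Fintype.card_fin, nsmul_eq_mul]
        ring

/-- the velocity -/
def ww (r ε : ℝ) (κ : ℝ → ℝ) (x : Eu (n + n)) : Eu (n + n) :=
  ∑ i : Fin n, (4 * r * deriv κ (x (Fin.natAdd n i) / ε)) • ev (Fin.castAdd n i)

theorem pj_cast (i j : Fin n) : pj i (ev (Fin.castAdd n j)) = 0 := by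
  rw [pj_apply]
  unfold ev
  rw [PiLp.single_apply, if_neg]
  intro h
  have := congrArg Fin.val h
  simp only [Fin.val_natAdd, Fin.val_castAdd] at this
  have := j.2
  omega

theorem pj_nat (i j : Fin n) : pj i (ev (Fin.natAdd n j)) = if i = j then 1 else 0 := by
  rw [pj_apply]
  unfold ev
  rw [PiLp.single_apply]
  by_cases h : i = j
  · subst h; simp
  · rw [if_neg h, if_neg]
    intro h'
    apply h
    have := congrArg Fin.val h'
    simp only [Fin.val_natAdd] at this
    exact Fin.ext (by omega)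

theorem sg_K0 {r ε : ℝ} (hε : 0 < ε) {κ : ℝ → ℝ} (hκ : ContDiff ℝ ∞ κ) (x : Eu (n + n)) :
    sg (K0 r ε κ) x = ww r ε κ x := by
  unfold sg ww
  refine Finset.sum_congr rfl fun j _ => ?_
  unfold jgrad
  rw [(hasFDerivAt_K0 hε hκ x).fderiv]
  have e1 : D0 r ε κ x (ev (Fin.natAdd n j)) = 4 * r * deriv κ (x (Fin.natAdd n j) / ε) := by
    unfold D0
    rw [sum_apply, Finset.sum_eq_single j]
    · rw [smul_apply, pj_nat, if_pos rfl, smul_eq_mul, mul_one]
    · intro b _ hb
      rw [smul_apply, pj_nat, if_neg hb, smul_zero]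
    · simp
  have e2 : D0 r ε κ x (ev (Fin.castAdd n j)) = 0 := by
    unfold D0
    rw [sum_apply]
    refine Finset.sum_eq_zero fun i _ => ?_
    rw [smul_apply, pj_cast, smul_zero]
  rw [e1, e2, zero_smul, sub_zero]

theorem norm_ev (i : Fin (n + n)) : ‖(ev i : Eu (n + n))‖ = 1 := by
  unfold ev
  simp

theorem norm_ww {r : ℝ} (ε : ℝ) (hr : 0 < r) {κ : ℝ → ℝ} (hκ1 : ∀ x, |deriv κ x| ≤ 1)
    (x : Eu (n + n)) : ‖ww r ε κ x‖ ≤ 4 * r * n := by
  unfold ww
  refine (norm_sum_le _ _).trans ?_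
  calc ∑ i : Fin n, ‖(4 * r * deriv κ (x (Fin.natAdd n i) / ε)) • (ev (Fin.castAdd n i) :
        Eu (n + n))‖
      ≤ ∑ _i : Fin n, 4 * r := by
        refine Finset.sum_le_sum fun i _ => ?_
        rw [norm_smul, norm_ev, mul_one, Real.norm_eq_abs, abs_mul,
          abs_of_pos (by positivity : (0 : ℝ) < 4 * r)]
        exact mul_le_of_le_one_right (by positivity) (hκ1 _)
    _ = 4 * r * n := by
        rw [Finset.sum_const, Finset.card_univ, Fintype.card_fin, nsmul_eq_mul]
        ring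

theorem ww_nat (r ε : ℝ) (κ : ℝ → ℝ) (x : Eu (n + n)) (j : Fin n) :
    ww r ε κ x (Fin.natAdd n j) = 0 := by
  have h : pj j (ww r ε κ x) = 0 := by
    unfold ww
    rw [map_sum]
    refine Finset.sum_eq_zero fun i _ => ?_
    rw [map_smul, pj_cast, smul_zero]
  exact h

theorem ww_cast (r ε : ℝ) (κ : ℝ → ℝ) (x : Eu (n + n)) (j : Fin n) :
    ww r ε κ x (Fin.castAdd n j) = 4 * r * deriv κ (x (Fin.natAdd n j) / ε) := by
  have h : (EuclideanSpace.proj (𝕜 := ℝ) (Fin.castAdd n j) : Eu (n + n) →L[ℝ] ℝ) (ww r ε κ x) =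
      4 * r * deriv κ (x (Fin.natAdd n j) / ε) := by
    unfold ww
    rw [map_sum, Finset.sum_eq_single j]
    · rw [map_smul]
      unfold ev
      simp
    · intro b _ hb
      rw [map_smul]
      unfold ev
      have : Fin.castAdd n j ≠ Fin.castAdd n b := by
        intro h'
        exact hb (Fin.castAdd_injective n n h').symm
      simp [this]
    · simp
  exact h

/-- the velocity is constant along the lines in the direction of the positions -/
theorem ww_line (r ε : ℝ) (κ : ℝ → ℝ) (x : Eu (n + n)) (t : ℝ) :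
    ww r ε κ (x + t • ww r ε κ x) = ww r ε κ x := by
  have h : ∀ i : Fin n, (x + t • ww r ε κ x) (Fin.natAdd n i) = x (Fin.natAdd n i) := by
    intro i
    rw [PiLp.add_apply, PiLp.smul_apply, ww_nat, smul_zero, add_zero]
  have e : ∀ z : Eu (n + n), (∀ i : Fin n, z (Fin.natAdd n i) = x (Fin.natAdd n i)) →
      ww r ε κ z = ww r ε κ x := by
    intro z hz
    unfold ww
    refine Finset.sum_congr rfl fun i _ => ?_
    rw [hz i]
  exact e _ h

/-- the price goes to zero -/
theorem exists_eps {σ p r a : ℝ} (hσ1 : σ < 1) (hr : 0 < r) (ha : 0 < a) (n : ℕ) (G μ : ℝ) :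
    ∃ ε : ℝ, 0 < ε ∧ ε ≤ r ∧ cst σ p (4 * r * ε * n) G μ ≤ a := by
  have hc : Continuous fun ε : ℝ => cst σ p (4 * r * ε * n) G μ := by
    unfold cst
    have h1 : Continuous fun ε : ℝ => (4 * r * ε * n) := by fun_prop
    have h2 : Continuous fun ε : ℝ => (4 * r * ε * n) ^ (1 - σ) :=
      h1.rpow_const fun x => Or.inr (by linarith)
    exact (h1.add (h2.mul continuous_const)).mul continuous_const
  have h0 : cst σ p (4 * r * 0 * n) G μ = 0 := by
    unfold cst
    rw [mul_zero, zero_mul, Real.zero_rpow (by linarith)]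
    ring
  have h3 : ∀ᶠ ε in 𝓝 (0 : ℝ), cst σ p (4 * r * ε * n) G μ < a := by
    refine hc.continuousAt.eventually_lt continuousAt_const ?_
    rw [h0]
    exact ha
  obtain ⟨δ, hδ, hδ'⟩ := Metric.eventually_nhds_iff.1 h3
  refine ⟨min r (δ / 2), lt_min hr (by positivity), min_le_left _ _, ?_⟩
  refine (hδ' ?_).le
  rw [Real.dist_eq, sub_zero, abs_of_pos (lt_min hr (by positivity))]
  exact (min_le_right _ _).trans_lt (by linarith)

/-- a cut-off function with a bound for its derivative -/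
theorem exists_chi (c : Eu (n + n)) {R R' : ℝ} (hR : 0 < R) (hR' : R < R') :
    ∃ (χ : Eu (n + n) → ℝ) (D : ℝ), ContDiff ℝ ∞ χ ∧ 0 ≤ D ∧ (∀ x, 0 ≤ χ x ∧ χ x ≤ 1) ∧
      (∀ x, ‖fderiv ℝ χ x‖ ≤ D) ∧ (∀ x, dist x c ≤ R → χ x = 1) ∧
      ∀ x, R' ≤ dist x c → χ x = 0 := by
  let f : ContDiffBump c := ⟨R, R', hR, hR'⟩
  have hf : ContDiff ℝ ∞ (fun x => f x) := f.contDiff
  have hcd : Continuous (fderiv ℝ (fun x => f x)) := hf.continuous_fderiv (by simp)
  have hcs : HasCompactSupport (fderiv ℝ (fun x => f x)) :=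
    f.hasCompactSupport.fderiv (𝕜 := ℝ)
  obtain ⟨D, hD⟩ := hcd.bounded_above_of_compact_support hcs
  refine ⟨fun x => f x, D, hf, (norm_nonneg _).trans (hD c), fun x => ⟨f.nonneg, f.le_one⟩, hD,
    fun x hx => f.one_of_mem_closedBall hx, fun x hx => f.zero_of_le_dist hx⟩

end SawA

open SawA

theorem saw (KA : Kap) (HP : HPe) (FE : FlowE) (S : SgK) : Saw := by
  intro n _
  refine ⟨4 * n + 3, by linarith [(Nat.cast_nonneg n : (0 : ℝ) ≤ n)], ?_⟩
  intro σ p _ _ hσ1 c r hr a ha
  have hn0 : (0 : ℝ) ≤ n := Nat.cast_nonneg n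
  obtain ⟨χ, D, hχs, hD0, hχ01, hχD, hχ1, hχ0⟩ := exists_chi (n := n) c
    (R := (4 * n + 2) * r) (R' := (4 * n + 3) * r) (by positivity) (by nlinarith)
  set G : ℝ := 4 * r * n + 4 * r * r * n * D with hG
  set μ : ℝ := (volume (Metric.closedBall c ((4 * n + 3) * r))).toReal with hμ
  obtain ⟨ε, hε, hεr, hcst⟩ := exists_eps (p := p) hσ1 hr ha n G μ
  refine ⟨ε, hε, hεr, fun η hη hη' => ?_⟩
  obtain ⟨C, -, hKap⟩ := KA
  obtain ⟨⟨κ, hκs, hκ1, hκ2, hκ3⟩, -⟩ := hKap η hη hη'
  set K : Eu (n + n) → ℝ := fun y => K0 r ε κ y * χ y with hK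
  have hKs : ContDiff ℝ ∞ K := (contDiff_K0 r ε hκs).mul hχs
  have hK0 : ∀ x, (4 * n + 3) * r ≤ dist x c → K x = 0 := by
    intro x hx
    rw [hK]
    simp only
    rw [hχ0 x hx, mul_zero]
  obtain ⟨T, hT⟩ := HP n c ((4 * n + 3) * r) (fun _ => K)
    (hKs.comp contDiff_snd) (fun _ x hx => hK0 x hx)
  refine ⟨Equiv.ofBijective (T 1) (hT.bij 1), ⟨T, fun _ => K, 4 * r * ε * n, G, μ, hT,
    fun x => rfl, fun t _ => ?_, hcst⟩, ?_⟩
  · refine ⟨by positivity, by positivity, ENNReal.toReal_nonneg, ?_, ?_, ?_⟩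
    · intro x
      rw [hK]
      simp only
      rw [abs_mul, abs_of_nonneg (hχ01 x).1]
      exact (mul_le_of_le_one_right (abs_nonneg _) (hχ01 x).2).trans (abs_K0 hr hε hκ1 x)
    · intro x
      have h1 : HasFDerivAt K (K0 r ε κ x • fderiv ℝ χ x + χ x • D0 r ε κ x) x :=
        (hasFDerivAt_K0 hε hκs x).mul
          ((hχs.differentiable (by simp)) x).hasFDerivAt
      rw [h1.fderiv]
      refine (norm_add_le _ _).trans ?_
      rw [norm_smul, norm_smul, Real.norm_eq_abs, Real.norm_eq_abs, abs_of_nonneg (hχ01 x).1]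
      have h2 : |K0 r ε κ x| * ‖fderiv ℝ χ x‖ ≤ (4 * r * ε * n) * D :=
        mul_le_mul (abs_K0 hr hε hκ1 x) (hχD x) (norm_nonneg _) (by positivity)
      have h3 : χ x * ‖D0 r ε κ x‖ ≤ 1 * (4 * r * n) :=
        mul_le_mul (hχ01 x).2 (norm_D0 ε hr hκ2 x) (norm_nonneg _) zero_le_one
      have h4 : (4 * r * ε * n) * D ≤ 4 * r * r * n * D := by gcongr
      rw [hG]
      linarith
    · have h1 : tsupport K ⊆ Metric.closedBall c ((4 * n + 3) * r) := by
        refine closure_minimal ?_ Metric.isClosed_closedBall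
        intro x hx
        rw [Metric.mem_closedBall]
        by_contra h
        exact hx (hK0 x (not_le.1 h).le)
      refine (measure_mono h1).trans ?_
      rw [hμ, ENNReal.ofReal_toReal measure_closedBall_lt_top.ne]
  · intro x hx hxG
    show r ≤ dist (T 1 x) c
    -- the explicit solution
    have hline : ∀ t ∈ Icc (0 : ℝ) 1, T t x = x + t • ww r ε κ x := by
      refine FE.uniqI (n + n) (fun _ => sg K) ?_ 1 (fun t => T t x)
        (fun t => x + t • ww r ε κ x) (fun t _ => hT.ode t x) (fun t ht => ?_) ?_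
      · exact (S.smooth n K hKs).comp contDiff_snd
      · have h1 : HasDerivAt (fun t : ℝ => x + t • ww r ε κ x) (ww r ε κ x) t := by
          have := ((hasDerivAt_id t).smul_const (ww r ε κ x)).const_add x
          simpa using this
        have h2 : sg K (x + t • ww r ε κ x) = ww r ε κ x := by
          have h3 : K =ᶠ[𝓝 (x + t • ww r ε κ x)] K0 r ε κ := by
            have h4 : dist (x + t • ww r ε κ x) c < (4 * n + 2) * r := by
              have h5 : dist (x + t • ww r ε κ x) x ≤ 4 * r * n := by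
                rw [dist_eq_norm, add_sub_cancel_left, norm_smul, Real.norm_eq_abs,
                  abs_of_nonneg ht.1]
                calc t * ‖ww r ε κ x‖ ≤ 1 * (4 * r * n) :=
                      mul_le_mul ht.2 (norm_ww ε hr hκ2 x) (norm_nonneg _) zero_le_one
                  _ = 4 * r * n := one_mul _
              have h6 := dist_triangle (x + t • ww r ε κ x) x c
              nlinarith
            have h7 : ∀ᶠ y in 𝓝 (x + t • ww r ε κ x), dist y c < (4 * n + 2) * r :=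
              (continuous_id.dist continuous_const).continuousAt.eventually_lt
                continuousAt_const h4
            filter_upwards [h7] with y hy
            rw [hK]
            simp only
            rw [hχ1 y hy.le, mul_one]
          rw [S.congr n K (K0 r ε κ) _ h3, sg_K0 hε hκs, ww_line]
        rw [h2]
        exact h1
      · show T 0 x = x + (0 : ℝ) • ww r ε κ x
        rw [hT.zero, zero_smul, add_zero]
    rw [hline 1 ⟨zero_le_one, le_refl _⟩, one_smul]
    -- some coordinate moves by `4 r`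
    have hex : ∃ i : Fin n, ∀ k : ℤ, η ≤ |x (Fin.natAdd n i) / ε - k / 2| := by
      by_contra hcon
      push Not at hcon
      refine hxG fun i => ?_
      obtain ⟨k, hk⟩ := hcon i
      refine ⟨k, ?_⟩
      have h1 : x (Fin.natAdd n i) - k * (ε / 2) =
          (x (Fin.natAdd n i) / ε - k / 2) * ε := by
        field_simp
      rw [h1, abs_mul, abs_of_pos hε]
      exact mul_lt_mul_of_pos_right hk hε
    obtain ⟨i, hi⟩ := hex
    have h1 : 4 * r ≤ ‖ww r ε κ x‖ := by
      have h2 := PiLp.norm_apply_le (ww r ε κ x) (Fin.castAdd n i)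
      rw [ww_cast, Real.norm_eq_abs, abs_mul, hκ3 _ hi, abs_of_pos (by positivity), mul_one] at h2
      exact h2
    have h3 : ‖ww r ε κ x‖ ≤ dist (x + ww r ε κ x) c + dist x c := by
      have h4 := dist_triangle (x + ww r ε κ x) c x
      rw [dist_comm c x] at h4
      have h5 : dist (x + ww r ε κ x) x = ‖ww r ε κ x‖ := by
        rw [dist_eq_norm, add_sub_cancel_left]
      rw [h5] at h4
      exact h4
    linarith

end

end SV
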