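import Pool.Agent.H6.SV.St

/-!
# Project SV: Hamiltonian fields (SgK)
-/

set_option autoImplicit false

open MeasureTheory Set Filter Topology Pool.Agent.H68.VD Pool.Agent.H68.GM
open scoped ENNReal ContDiff

namespace SV

noncomputable section

namespace SgKA

variable {n : ℕ}

/-- `v = ∑ v_i e_i`, applied to a functional -/
theorem apply_eq (l : Eu n →L[ℝ] ℝ) (v : Eu n) : l v = ∑ i, v i * l (ev i) := by
  have h : v = ∑ i, v i • (ev i : Eu n) := by
    have h1 := (EuclideanSpace.basisFun (Fin n) ℝ).sum_repr v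
    simpa [ev] using h1.symm
  conv_lhs => rw [h]
  rw [map_sum]
  exact Finset.sum_congr rfl fun i _ => by rw [map_smul, smul_eq_mul]

/-- The linear map `ℓ ↦ Ham. field`. -/
def K (n : ℕ) : (Eu (n + n) →L[ℝ] ℝ) →L[ℝ] Eu (n + n) :=
  ∑ i : Fin n, ((ContinuousLinearMap.apply ℝ ℝ (ev (Fin.natAdd n i) : Eu (n + n))).smulRight
      (ev (Fin.castAdd n i) : Eu (n + n)) -
    (ContinuousLinearMap.apply ℝ ℝ (ev (Fin.castAdd n i) : Eu (n + n))).smulRight
      (ev (Fin.natAdd n i) : Eu (n + n)))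

theorem sg_eq (H : Eu (n + n) → ℝ) (x : Eu (n + n)) : sg H x = K n (fderiv ℝ H x) := by
  simp [sg, K, jgrad]

theorem sg_fun (H : Eu (n + n) → ℝ) : sg H = fun x => K n (fderiv ℝ H x) :=
  funext fun x => sg_eq H x

theorem ev_apply' {m : ℕ} (i j : Fin m) : (ev i : Eu m) j = if j = i then 1 else 0 := by
  simp [ev, PiLp.single_apply]

theorem e_cc (i j : Fin n) : (ev (Fin.castAdd n i) : Eu (n + n)) (Fin.castAdd n j) =
    if i = j then 1 else 0 := by
  rw [ev_apply']
  refine if_congr ?_ rfl rfl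
  rw [Fin.ext_iff, Fin.ext_iff, Fin.val_castAdd, Fin.val_castAdd]
  exact eq_comm

theorem e_cn (i j : Fin n) : (ev (Fin.castAdd n i) : Eu (n + n)) (Fin.natAdd n j) = 0 := by
  rw [ev_apply', if_neg]
  rw [Fin.ext_iff, Fin.val_castAdd, Fin.val_natAdd]
  omega

theorem e_nc (i j : Fin n) : (ev (Fin.natAdd n i) : Eu (n + n)) (Fin.castAdd n j) = 0 := by
  rw [ev_apply', if_neg]
  rw [Fin.ext_iff, Fin.val_castAdd, Fin.val_natAdd]
  omega

theorem e_nn (i j : Fin n) : (ev (Fin.natAdd n i) : Eu (n + n)) (Fin.natAdd n j) =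
    if i = j then 1 else 0 := by
  rw [ev_apply']
  refine if_congr ?_ rfl rfl
  rw [Fin.ext_iff, Fin.ext_iff, Fin.val_natAdd, Fin.val_natAdd]
  omega

theorem K_apply (l : Eu (n + n) →L[ℝ] ℝ) (j : Fin (n + n)) :
    K n l j = ∑ i : Fin n, (l (ev (Fin.natAdd n i)) * (ev (Fin.castAdd n i) : Eu (n + n)) j -
      l (ev (Fin.castAdd n i)) * (ev (Fin.natAdd n i) : Eu (n + n)) j) := by
  have h : K n l = ∑ i : Fin n, (l (ev (Fin.natAdd n i)) • (ev (Fin.castAdd n i) : Eu (n + n)) -
      l (ev (Fin.castAdd n i)) • (ev (Fin.natAdd n i) : Eu (n + n))) := by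
    rw [K, sum_apply]
    rfl
  rw [h, WithLp.ofLp_sum, Finset.sum_apply]
  rfl

theorem K_cast (l : Eu (n + n) →L[ℝ] ℝ) (i : Fin n) :
    K n l (Fin.castAdd n i) = l (ev (Fin.natAdd n i)) := by
  rw [K_apply, Finset.sum_eq_single i]
  · rw [e_cc, e_nc, if_pos rfl]; ring
  · intro j _ hj
    rw [e_cc, e_nc, if_neg hj]; ring
  · intro h
    exact absurd (Finset.mem_univ i) h

theorem K_nat (l : Eu (n + n) →L[ℝ] ℝ) (i : Fin n) :
    K n l (Fin.natAdd n i) = - l (ev (Fin.castAdd n i)) := by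
  rw [K_apply, Finset.sum_eq_single i]
  · rw [e_cn, e_nn, if_pos rfl]; ring
  · intro j _ hj
    rw [e_cn, e_nn, if_neg hj]; ring
  · intro h
    exact absurd (Finset.mem_univ i) h

theorem om_K (l : Eu (n + n) →L[ℝ] ℝ) (v : Eu (n + n)) : om (K n l) v = l v := by
  rw [apply_eq l v, Fin.sum_univ_add, ← Finset.sum_add_distrib, om]
  refine Finset.sum_congr rfl fun i _ => ?_
  rw [K_cast, K_nat]
  ring

theorem om_skew (u v : Eu (n + n)) : om u v = - om v u := by
  rw [om, om, ← Finset.sum_neg_distrib]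
  exact Finset.sum_congr rfl fun i _ => by ring

theorem norm_K (l : Eu (n + n) →L[ℝ] ℝ) : ‖K n l‖ = ‖l‖ := by
  set w : Eu (n + n) := (InnerProductSpace.toDual ℝ (Eu (n + n))).symm l with hw
  have h1 : ‖l‖ = ‖w‖ := by rw [hw, LinearIsometryEquiv.norm_map]
  have h2 : ∀ j, w j = l (ev j) := by
    intro j
    have h3 : inner ℝ w (ev j : Eu (n + n)) = l (ev j) := by
      rw [hw, InnerProductSpace.toDual_symm_apply]
    rw [← h3, ev, EuclideanSpace.inner_single_right]
    simp
  rw [h1, ← sq_eq_sq₀ (norm_nonneg _) (norm_nonneg _), EuclideanSpace.real_norm_sq_eq,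
    EuclideanSpace.real_norm_sq_eq, Fin.sum_univ_add, Fin.sum_univ_add, add_comm]
  congr 1
  · exact Finset.sum_congr rfl fun i _ => by rw [K_nat, h2]; ring
  · exact Finset.sum_congr rfl fun i _ => by rw [K_cast, h2]

/-- the functional `om w` -/
theorem om_K_right (l : Eu (n + n) →L[ℝ] ℝ) (u : Eu (n + n)) : om u (K n l) = - l u := by
  rw [om_skew, om_K]

theorem om_castAdd (u : Eu (n + n)) (i : Fin n) :
    om u (ev (Fin.castAdd n i)) = - u (Fin.natAdd n i) := by
  rw [om, Finset.sum_eq_single i]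
  · rw [e_cc, e_cn, if_pos rfl]; ring
  · intro j _ hj
    rw [e_cc, e_cn, if_neg (Ne.symm hj)]; ring
  · intro h
    exact absurd (Finset.mem_univ i) h

theorem om_natAdd (u : Eu (n + n)) (i : Fin n) :
    om u (ev (Fin.natAdd n i)) = u (Fin.castAdd n i) := by
  rw [om, Finset.sum_eq_single i]
  · rw [e_nc, e_nn, if_pos rfl]; ring
  · intro j _ hj
    rw [e_nc, e_nn, if_neg (Ne.symm hj)]; ring
  · intro h
    exact absurd (Finset.mem_univ i) h

theorem om_ext {u u' : Eu (n + n)} (h : ∀ v, om u v = om u' v) : u = u' := by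
  ext j
  refine Fin.addCases (fun j => ?_) (fun j => ?_) j
  · have := h (ev (Fin.natAdd n j))
    rwa [om_natAdd, om_natAdd] at this
  · have := h (ev (Fin.castAdd n j))
    rw [om_castAdd, om_castAdd] at this
    linarith

/-- the functional `om w` as a continuous linear map -/
def omL (w : Eu (n + n)) : Eu (n + n) →L[ℝ] ℝ :=
  ∑ i : Fin n, (w (Fin.castAdd n i) • (EuclideanSpace.proj (Fin.natAdd n i) :
      Eu (n + n) →L[ℝ] ℝ) - w (Fin.natAdd n i) • (EuclideanSpace.proj (Fin.castAdd n i) :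
      Eu (n + n) →L[ℝ] ℝ))

theorem omL_apply (w v : Eu (n + n)) : omL w v = om w v := by
  simp [omL, om]

theorem K_omL (w : Eu (n + n)) : K n (omL w) = w :=
  om_ext fun v => by rw [om_K, omL_apply]

end SgKA

open SgKA

/-- SgK -/
theorem sgK : SgK where
  om n H x v := by rw [sg_eq, om_K]
  norm n H x := by rw [sg_eq, norm_K]
  congr n H K x h := by rw [sg_eq, sg_eq, h.fderiv_eq]
  const n a x := by rw [sg_eq]; simp
  add n H K x hH hK := by
    rw [sg_eq, sg_eq, sg_eq, fderiv_fun_add hH hK, map_add]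
  sub n H K x hH hK := by
    rw [sg_eq, sg_eq, sg_eq, fderiv_fun_sub hH hK, map_sub]
  smul n a H x hH := by
    rw [sg_eq, sg_eq, fderiv_const_mul hH, map_smul]
  mul n H K x hH hK := by
    rw [sg_eq, sg_eq, sg_eq, fderiv_fun_mul hH hK, map_add, map_smul, map_smul]
  lin n w x := by
    have h : (fun y => SV.om w y) = fun y => omL w y := funext fun y => (omL_apply w y).symm
    rw [h, sg_eq]
    have h2 : fderiv ℝ (fun y => omL w y) x = omL w := (omL w).fderiv
    rw [h2, K_omL]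
  smoothE n E _ _ H h := by
    have h1 : (fun z : E × Eu (n + n) => sg (H z.1) z.2) =
        fun z : E × Eu (n + n) => K n (fderiv ℝ (H z.1) z.2) := funext fun z => sg_eq _ _
    rw [h1]
    refine (K n).contDiff.comp ?_
    refine ContDiff.fderiv (f := fun (z : E × Eu (n + n)) (y : Eu (n + n)) => H z.1 y)
      (g := fun z => z.2) (m := ∞) ?_ contDiff_snd (by simp)
    exact h.comp ((contDiff_fst.comp contDiff_fst).prodMk contDiff_snd)
  smooth n H h := by
    rw [sg_fun]
    exact (K n).contDiff.comp (h.fderiv_right (m := ∞) (by simp))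
  smoothOn n U H hU h := by
    rw [sg_fun]
    exact (K n).contDiff.comp_contDiffOn (h.fderiv_of_isOpen hU (by simp))
  symm n H x u v h := by
    have h1 : DifferentiableAt ℝ (fderiv ℝ H) x :=
      (h.fderiv_right (m := 1) (by norm_num)).differentiableAt (by norm_num)
    have h2 : ∀ w, fderiv ℝ (sg H) x w = K n (fderiv ℝ (fderiv ℝ H) x w) := by
      intro w
      rw [sg_fun]
      have h3 := ((K n).hasFDerivAt.comp x h1.hasFDerivAt).fderiv
      have h4 : fderiv ℝ (fun x => K n (fderiv ℝ H x)) x =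
          (K n).comp (fderiv ℝ (fderiv ℝ H) x) := h3
      rw [h4]
      rfl
    rw [h2, h2, om_K, om_K_right]
    have h5 : IsSymmSndFDerivAt ℝ H x := h.isSymmSndFDerivAt (by simp)
    have := h5.eq u v
    linarith
  conj n H g k x hH hg hk hkx hgk hS := by
    refine om_ext fun v => ?_
    rw [sg_eq, om_K]
    have h1 : DifferentiableAt ℝ H (k (g x)) := by rw [hkx]; exact hH
    have h2 : fderiv ℝ (fun y => H (k y)) (g x) v = fderiv ℝ H x (fderiv ℝ k (g x) v) := by
      have := fderiv_comp' (g x) h1 hk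
      have h3 : fderiv ℝ (fun y => H (k y)) (g x) =
          (fderiv ℝ H (k (g x))).comp (fderiv ℝ k (g x)) := this
      rw [h3, hkx]
      rfl
    have h4 : fderiv ℝ g x (fderiv ℝ k (g x) v) = v := by
      have h5 : DifferentiableAt ℝ g (k (g x)) := by rw [hkx]; exact hg
      have h6 : fderiv ℝ (fun y => g (k y)) (g x) =
          (fderiv ℝ g (k (g x))).comp (fderiv ℝ k (g x)) := fderiv_comp' (g x) h5 hk
      have h7 : fderiv ℝ (fun y => g (k y)) (g x) = ContinuousLinearMap.id ℝ _ := by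
        have h8 : (fun y => g (k y)) =ᶠ[𝓝 (g x)] fun y => y := hgk
        rw [h8.fderiv_eq, fderiv_id']
      rw [h6, hkx] at h7
      exact congrArg (fun A => A v) h7
    rw [h2, ← om_K (fderiv ℝ H x), ← sg_eq, ← hS, h4]

end

end SV
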