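import Pool.Agent.H6.SV.St

/-!
# Project SV, row SV-15: translations of balls
-/

set_option autoImplicit false

open MeasureTheory Set Filter Topology Pool.Agent.H68.VD Pool.Agent.H68.GM
open scoped ENNReal ContDiff

namespace SV

noncomputable section

theorem trans (L : LinK) (S : SgK) (FE : FlowE) (HP : HPe) : Trans := by
  intro n c z z' r hr hz hz'
  set w : Eu (n + n) := z' - z with hw
  obtain ⟨B, hB⟩ := L.clm n
  let χ : ContDiffBump c := ⟨2 * r, 4 * r, by linarith, by linarith⟩
  have hχ : ContDiff ℝ ∞ (fun x => χ x) := χ.contDiff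
  set H : ℝ → Eu (n + n) → ℝ := fun _ x => (om w x - om w c) * χ x with hH
  have hom : ContDiff ℝ ∞ (fun x => om w x) := by
    have : (fun x => om w x) = fun x => B w x := funext fun x => (hB w x).symm
    rw [this]
    exact (B w).contDiff
  have hHs : ContDiff ℝ ∞ (fun q : ℝ × Eu (n + n) => H q.1 q.2) := by
    have h1 : ContDiff ℝ ∞ (fun x : Eu (n + n) => (om w x - om w c) * χ x) :=
      (hom.sub contDiff_const).mul hχ
    exact h1.comp contDiff_snd
  have hH0 : ∀ t x, 4 * r ≤ dist x c → H t x = 0 := by
    intro t x hx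
    have : χ x = 0 := χ.zero_of_le_dist hx
    simp only [hH, this, mul_zero]
  obtain ⟨T, hT⟩ := HP n c (4 * r) H hHs hH0
  refine ⟨Equiv.ofBijective (T 1) (hT.bij 1), ⟨T, H, hT, fun x => rfl⟩, ?_⟩
  intro x hx
  show T 1 x = x + w
  -- the field on the ball of radius `2 r`
  have hsg : ∀ t y, dist y c < 2 * r → sg (H t) y = w := by
    intro t y hy
    have h1 : H t =ᶠ[𝓝 y] fun y => om w y - om w c := by
      have h2 : Metric.ball c (2 * r) ∈ 𝓝 y := Metric.isOpen_ball.mem_nhds hy
      filter_upwards [h2] with u hu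
      have : χ u = 1 := χ.one_of_mem_closedBall (Metric.ball_subset_closedBall hu)
      simp only [hH, this, mul_one]
    rw [S.congr n _ _ _ h1, S.sub n (fun y => om w y) (fun _ => om w c) y
      (hom.differentiable (by simp) y) (differentiableAt_const _), S.lin, S.const, sub_zero]
  have hseg : ∀ t ∈ Icc (0 : ℝ) 1, dist (x + t • w) c < 2 * r := by
    intro t ht
    have h1 : dist (x + t • w) c ≤ dist x z + dist (z + t • w) c := by
      have h2 : dist (x + t • w) (z + t • w) = dist x z := dist_add_right _ _ _
      rw [← h2]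
      exact dist_triangle _ _ _
    have h3 : dist (z + t • w) c ≤ (1 - t) * dist z c + t * dist z' c := by
      rw [dist_eq_norm, dist_eq_norm, dist_eq_norm]
      have h4 : z + t • w - c = (1 - t) • (z - c) + t • (z' - c) := by
        rw [hw]
        module
      rw [h4]
      refine (norm_add_le _ _).trans ?_
      rw [norm_smul, norm_smul, Real.norm_of_nonneg (by linarith [ht.2] : (0 : ℝ) ≤ 1 - t),
        Real.norm_of_nonneg ht.1]
    have h5 : (1 - t) * dist z c + t * dist z' c ≤ (1 - t) * r + t * r := by
      have := mul_le_mul_of_nonneg_left hz.le (by linarith [ht.2] : (0 : ℝ) ≤ 1 - t)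
      have := mul_le_mul_of_nonneg_left hz'.le ht.1
      linarith
    linarith
  have huniq := FE.uniqI (n + n) (fun t y => sg (H t) y) (S.smoothE n ℝ H hHs) 1
    (fun t => T t x) (fun t => x + t • w) (fun t _ => hT.ode t x)
    (fun t ht => by
      show HasDerivAt (fun t : ℝ => x + t • w) (sg (H t) (x + t • w)) t
      rw [hsg t _ (hseg t ht)]
      have h6 := ((hasDerivAt_id t).smul_const w).const_add x
      simpa using h6)
    (by simp [hT.zero x]) 1 ⟨zero_le_one, le_rfl⟩
  simpa using huniq

end

end SV
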