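import Pool.Agent.H6.SV.Lin
import Pool.Agent.H6.SV.SgK
import Pool.Agent.H6.SV.FlowS
import Pool.Agent.H6.SV.FlowE
import Pool.Agent.H6.SV.HPe
import Pool.Agent.H6.SV.HPk
import Pool.Agent.H6.SV.HEk
import Pool.Agent.H6.SV.LCk
import Pool.Agent.H6.SV.Cut
import Pool.Agent.H6.SV.Kap
import Pool.Agent.H6.SV.ExX
import Pool.Agent.H6.SV.CutC
import Pool.Agent.H6.SV.Saw
import Pool.Agent.H6.SV.Comm
import Pool.Agent.H6.SV.Trans
import Pool.Agent.H6.SV.LocP
import Pool.Agent.H6.SV.SFk
import Pool.Agent.H6.SV.SCk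
import Pool.Agent.H6.SV.SExt
import Pool.Agent.H6.SV.STrf
import Pool.Agent.H6.SV.SVel
import Pool.Agent.H6.SV.BDens
import Pool.Agent.H6.SV.ApxK
import Pool.Agent.H6.SV.LApx
import Pool.Agent.H6.SV.GApx
import Pool.Agent.H6.SV.HamP
import Pool.Agent.H6.SV.Moll
import Pool.Agent.H6.SV.Interp
import Pool.Agent.H6.SV.SWk
import Pool.Agent.H6.SV.SMain
import Pool.Agent.H6.SV.Fin

/-!
# Project SV: the vanishing theorem, all modules put together
-/

set_option autoImplicit false

open MeasureTheory Set Filter Topology Pool.Agent.H68.VD Pool.Agent.H68.GM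
open scoped ENNReal ContDiff

namespace SV

noncomputable section

theorem flowE_all : FlowE := flowE flowS

theorem hPe_all : HPe := hPe linK sgK flowE_all

theorem hPk_all : HPk := hPk linK sgK flowE_all

theorem hEk_all : HEk := hEk linK sgK hPk_all

theorem lCk_all : LCk := lCk hPk_all hEk_all sgK

theorem commC_all : CommC :=
  commC lCk_all hEk_all (saw kap hPe_all flowE_all sgK)
    (cutC hPk_all (cut hPk_all hPe_all flowE_all sgK) (exX kap))

theorem locP_all : LocP := locP hPk_all hEk_all hPe_all sgK linK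

theorem sMain_all : SMain :=
  sMain mFamKit (sFk linK) (sCk (sFk linK)) (mExtKit famKit) (sExt (sFk linK) linK)
    (sTrf hPk_all (sExt (sFk linK) linK) (sCk (sFk linK)) (sFk linK)) locP_all commC_all

theorem apxK_all : ApxK := apxK hEk_all sgK

theorem gApx_all : GApx :=
  gApx (lApx bDens (trans linK sgK flowE_all hPe_all) apxK_all sgK linK) apxK_all sgK linK

/-- The vanishing theorem for symplectic diffeomorphisms. -/
theorem svanish (n : ℕ) (hn : 1 ≤ n) (M : Type) [TopologicalSpace M]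
    [T2Space M] [CompactSpace M] [ConnectedSpace M] (ι : Type) [Fintype ι]
    (ch : ι → OpenPartialHomeomorph M (Eu (n + n))) (hS : SympAtlas ch)
    (χ : ι → Eu (n + n) → ℝ) (hχ : PartUnity ch χ) (s p : ℝ) (hp : 1 < p) (hs : s < 0)
    (hs' : s < -1 + n / p) :
    (∀ φ, SPath ch φ → (∀ t, IsHam ch (mvel ch φ t)) →
      spdist ch (wMan χ s p) (φ 0) (φ 1) = 0) ∧
    ((∀ X, SympFld ch X → IsHam ch X) →
      ∀ f g, SG ch f → SG ch g → spdist ch (wMan χ s p) f g = 0) :=
  svanish_of mFamKit (sFk linK) (sCk (sFk linK)) sMain_all gApx_all (hamP sgK) apxK_all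
    (sWk (interp moll sgK linK) (sFk linK) sgK) (sVel (sFk linK) linK) n hn M ι ch hS χ hχ s p
    hp hs hs'

end

end SV
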