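import Mathlib
import Pool.Agent.H68.VD.Defs
import Pool.Agent.H68.VD.St

/-!
# Project SV: the standard symplectic form and Hamiltonian fields
-/

set_option autoImplicit false

open MeasureTheory Set Pool.Agent.H68.VD
open scoped ENNReal ContDiff

namespace SV

noncomputable section

variable {n : ℕ}

/-- The standard symplectic form of `ℝ^{2n}` with the coordinates `q_i = x_i`, `p_i = x_{n+i}`. -/
def om (u v : Eu (n + n)) : ℝ :=
  ∑ i : Fin n, (u (Fin.castAdd n i) * v (Fin.natAdd n i) - u (Fin.natAdd n i) * v (Fin.castAdd n i))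

/-- The linear map `A` preserves the symplectic form. -/
def Sp (A : Eu (n + n) →L[ℝ] Eu (n + n)) : Prop := ∀ u v, om (A u) (A v) = om u v

/-- The Hamiltonian vector field of `H`: `q' = ∂_p H`, `p' = - ∂_q H`. -/
def sg (H : Eu (n + n) → ℝ) (x : Eu (n + n)) : Eu (n + n) :=
  ∑ i : Fin n, jgrad (Fin.castAdd n i) (Fin.natAdd n i) H x

end

end SV
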