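import Mathlib
import Pool.Agent.H68.GM.S
import Pool.Agent.H6.SV.Om

/-!
# Project SV: groups of symplectic diffeomorphisms of closed manifolds, definitions

A closed symplectic manifold is a compact Hausdorff space `M` with a finite family of charts
`ch i` with `SympAtlas ch`: the transition maps are smooth and preserve the standard symplectic form
(such charts exist by the theorem of Darboux). A vector field `X` is given by its representatives
`X i` in the charts.
-/

set_option autoImplicit false

open MeasureTheory Set Pool.Agent.H68.VD Pool.Agent.H68.GM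
open scoped ENNReal ContDiff

namespace SV

noncomputable section

variable {n : ℕ} {M : Type} [TopologicalSpace M] {ι : Type}

/-- The charts cover `M` and the transition maps are smooth and symplectic. -/
structure SympAtlas (ch : ι → OpenPartialHomeomorph M (Eu (n + n))) : Prop where
  cover : ∀ x : M, ∃ i, x ∈ (ch i).source
  smooth : ∀ i j, ContDiffOn ℝ ∞ (tr ch i j) (dom ch i j)
  symp : ∀ i j, ∀ y ∈ dom ch i j, Sp (fderiv ℝ (tr ch i j) y)

/-- A smooth path of symplectic diffeomorphisms of `M`. -/
structure SPath (ch : ι → OpenPartialHomeomorph M (Eu (n + n))) (φ : ℝ → M → M) : Prop where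
  cont : Continuous (fun q : ℝ × M => φ q.1 q.2)
  smooth : ∀ i j, ContDiffOn ℝ ∞ (fun q : ℝ × Eu (n + n) => rep ch i j (φ q.1) q.2)
    {q | q.2 ∈ rdom ch i j (φ q.1)}
  bij : ∀ t, Function.Bijective (φ t)
  symp : ∀ t i j, ∀ y ∈ rdom ch i j (φ t), Sp (fderiv ℝ (rep ch i j (φ t)) y)

/-- The identity component of the group of symplectic diffeomorphisms. -/
def SG (ch : ι → OpenPartialHomeomorph M (Eu (n + n))) (f : M → M) : Prop :=
  ∃ φ : ℝ → M → M, SPath ch φ ∧ φ 0 = id ∧ φ 1 = f

/-- The geodesic distance for the norm `N` on velocity fields. -/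
def spdist [Nonempty M] (ch : ι → OpenPartialHomeomorph M (Eu (n + n)))
    (N : (ι → Eu (n + n) → Eu (n + n)) → ℝ≥0∞) (f g : M → M) : ℝ≥0∞ :=
  ⨅ (φ : ℝ → M → M) (_ : SPath ch φ ∧ φ 0 = f ∧ φ 1 = g), mlen ch N φ

/-- `X` is the Hamiltonian vector field of a smooth function on `M`. -/
def IsHam (ch : ι → OpenPartialHomeomorph M (Eu (n + n))) (X : ι → Eu (n + n) → Eu (n + n)) : Prop :=
  ∃ H : M → ℝ, (∀ i, ContDiffOn ℝ ∞ (fun y => H ((ch i).symm y)) (ch i).target) ∧
    ∀ i, ∀ y ∈ (ch i).target, X i y = sg (fun y => H ((ch i).symm y)) y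

/-- A smooth symplectic vector field (the Lie derivative of the symplectic form vanishes). -/
structure SympFld (ch : ι → OpenPartialHomeomorph M (Eu (n + n)))
    (X : ι → Eu (n + n) → Eu (n + n)) : Prop where
  smooth : ∀ i, ContDiffOn ℝ ∞ (X i) (ch i).target
  out : ∀ i, ∀ y ∉ (ch i).target, X i y = 0
  compat : Compat ch X
  symp : ∀ i, ∀ y ∈ (ch i).target, ∀ u v,
    om (fderiv ℝ (X i) y u) v + om u (fderiv ℝ (X i) y v) = 0

end

end SV
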