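import Pool.Agent.H6.SV.St
import Pool.Agent.TN.Lin

/-!
# Project SV: linear symplectic algebra
-/

set_option autoImplicit false

open MeasureTheory Set Filter Topology Pool.Agent.H68.VD Pool.Agent.H68.GM
open scoped ENNReal ContDiff

namespace SV

noncomputable section

namespace LinA

variable {n : ℕ}

theorem om_J (u v : Eu (n + n)) : om u v = inner ℝ (TN.JL n u) v := TN.om_J u v

theorem JJ (u : Eu (n + n)) : TN.JL n (TN.JL n u) = - u := by
  rw [TN.JL_apply, TN.JL_apply]
  apply TN.ext_qp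
  · simp [TN.Jm]
  · simp [TN.Jm]

theorem normJ (u : Eu (n + n)) : ‖TN.JL n u‖ = ‖u‖ := TN.norm_Jm u

theorem det_adj (A : Eu (n + n) →L[ℝ] Eu (n + n)) :
    LinearMap.det ((ContinuousLinearMap.adjoint A : Eu (n + n) →L[ℝ] Eu (n + n)) :
      Eu (n + n) →ₗ[ℝ] Eu (n + n)) = LinearMap.det (A : Eu (n + n) →ₗ[ℝ] Eu (n + n)) := by
  have h1 : ((ContinuousLinearMap.adjoint A : Eu (n + n) →L[ℝ] Eu (n + n)) :
      Eu (n + n) →ₗ[ℝ] Eu (n + n)) = LinearMap.adjoint (A : Eu (n + n) →ₗ[ℝ] Eu (n + n)) := by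
    rfl
  rw [h1]
  have b := EuclideanSpace.basisFun (Fin (n + n)) ℝ
  rw [← LinearMap.det_toMatrix b.toBasis, LinearMap.toMatrix_adjoint b b, Matrix.det_conjTranspose,
    LinearMap.det_toMatrix]
  simp

theorem det_c (A B : Eu (n + n) →L[ℝ] Eu (n + n)) : (A ∘L B).det = A.det * B.det :=
  LinearMap.det_comp (A : Eu (n + n) →ₗ[ℝ] Eu (n + n)) (B : Eu (n + n) →ₗ[ℝ] Eu (n + n))

end LinA

open LinA in
theorem linK : LinK where
  addL n u v w := by rw [om_J, om_J, om_J, map_add, inner_add_left]
  smulL n a u w := by rw [om_J, om_J, map_smul, real_inner_smul_left]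
  addR n u v w := by rw [om_J, om_J, om_J, inner_add_right]
  smulR n a u w := by rw [om_J, om_J, real_inner_smul_right]
  skew n u v := TN.om_swap u v
  nondeg n u h := by
    have h1 := h (TN.JL n u)
    rw [om_J, real_inner_self_eq_norm_sq, normJ] at h1
    exact norm_eq_zero.mp (pow_eq_zero_iff (two_ne_zero)|>.mp h1)
  bound n u v := by
    rw [om_J, ← normJ u]
    exact abs_real_inner_le_norm _ _
  clm n := by
    refine ⟨∑ i : Fin n, (((EuclideanSpace.proj (Fin.castAdd n i) : Eu (n + n) →L[ℝ] ℝ)).smulRight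
      (EuclideanSpace.proj (Fin.natAdd n i) : Eu (n + n) →L[ℝ] ℝ) -
      ((EuclideanSpace.proj (Fin.natAdd n i) : Eu (n + n) →L[ℝ] ℝ)).smulRight
      (EuclideanSpace.proj (Fin.castAdd n i) : Eu (n + n) →L[ℝ] ℝ)), fun u v => ?_⟩
    simp [om]
  dual n L := by
    set g := (InnerProductSpace.toDual ℝ (Eu (n + n))).symm L with hg
    refine ⟨- TN.JL n g, fun v => ?_⟩
    rw [om_J, map_neg, JJ, neg_neg, hg, InnerProductSpace.toDual_symm_apply]
  spId n u v := rfl
  spComp n A B hA hB u v := by
    show om (A (B u)) (A (B v)) = om u v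
    rw [hA, hB]
  spInv n A B hA hAB u v := by
    have h1 : ∀ u, A (B u) = u := fun u => by
      have := congrArg (fun F : Eu (n + n) →L[ℝ] Eu (n + n) => F u) hAB
      simpa using this
    rw [← hA, h1, h1]
  spDet n A hA := by
    have h1 : (ContinuousLinearMap.adjoint A) ∘L (TN.JL n) ∘L A = TN.JL n := by
      ext1 u
      apply ext_inner_right ℝ
      intro v
      show inner ℝ (ContinuousLinearMap.adjoint A (TN.JL n (A u))) v = inner ℝ (TN.JL n u) v
      rw [ContinuousLinearMap.adjoint_inner_left, ← om_J, ← om_J, hA]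
    have h2 : (TN.JL n) ∘L (TN.JL n) = - ContinuousLinearMap.id ℝ (Eu (n + n)) := by
      ext1 u
      exact JJ u
    have h3 : ((TN.JL n).det) ≠ 0 := by
      intro h
      have h4 : ((TN.JL n) ∘L (TN.JL n)).det = (TN.JL n).det * (TN.JL n).det := det_c _ _
      rw [h, h2] at h4
      have h5 : ((- ContinuousLinearMap.id ℝ (Eu (n + n)) : Eu (n + n) →L[ℝ] Eu (n + n)).det) *
          ((- ContinuousLinearMap.id ℝ (Eu (n + n)) : Eu (n + n) →L[ℝ] Eu (n + n)).det) = 1 := by
        simp only [ContinuousLinearMap.det]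
        rw [← LinearMap.det_comp]
        have h6 : ((- ContinuousLinearMap.id ℝ (Eu (n + n)) : Eu (n + n) →L[ℝ] Eu (n + n)) :
            Eu (n + n) →ₗ[ℝ] Eu (n + n)) ∘ₗ
            ((- ContinuousLinearMap.id ℝ (Eu (n + n)) : Eu (n + n) →L[ℝ] Eu (n + n)) :
            Eu (n + n) →ₗ[ℝ] Eu (n + n)) = LinearMap.id := by
          ext1 u
          simp
        rw [h6, LinearMap.det_id]
      rw [h4] at h5
      simp at h5
    have h4 : A.det * ((TN.JL n).det * A.det) = (TN.JL n).det := by
      have h5 := congrArg ContinuousLinearMap.det h1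
      rw [det_c, det_c] at h5
      have h6 : (ContinuousLinearMap.adjoint A).det = A.det := det_adj A
      rw [h6] at h5
      exact h5
    have h5 : A.det * A.det = 1 := by
      have h6 : (TN.JL n).det * (A.det * A.det) = (TN.JL n).det * 1 := by
        rw [mul_one]
        linarith [h4, mul_comm A.det ((TN.JL n).det * A.det), mul_assoc (TN.JL n).det A.det A.det]
      exact mul_left_cancel₀ h3 h6
    have h6 : |A.det| * |A.det| = 1 := by rw [← abs_mul, h5, abs_one]
    nlinarith [abs_nonneg A.det]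
  spClosed n := by
    have h1 : {A : Eu (n + n) →L[ℝ] Eu (n + n) | Sp A} = ⋂ u, ⋂ v, {A | om (A u) (A v) = om u v} := by
      ext A
      simp [Sp]
    rw [h1]
    refine isClosed_iInter fun u => isClosed_iInter fun v => ?_
    have h2 : Continuous fun A : Eu (n + n) →L[ℝ] Eu (n + n) => om (A u) (A v) := by
      simp only [om_J]
      have h3 : Continuous fun A : Eu (n + n) →L[ℝ] Eu (n + n) => A u :=
        (ContinuousLinearMap.apply ℝ (Eu (n + n)) u).continuous
      have h4 : Continuous fun A : Eu (n + n) →L[ℝ] Eu (n + n) => A v :=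
        (ContinuousLinearMap.apply ℝ (Eu (n + n)) v).continuous
      exact ((TN.JL n).continuous.comp h3).inner h4
    exact isClosed_eq h2 continuous_const

end

end SV
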