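import Mathlib
import Pool.Agent.H6.SV.Defs

/-!
# Project SV: local notions (Hamiltonian paths with support in a ball, cost) and notions on `M`
-/

set_option autoImplicit false

open MeasureTheory Set Filter Topology Pool.Agent.H68.VD Pool.Agent.H68.GM
open scoped ENNReal ContDiff

namespace SV

noncomputable section

variable {n : ℕ}

/-- `T` is the flow of the time dependent Hamiltonian `H` with support in the ball of centre `c` and
radius `r`. -/
structure HPath (c : Eu (n + n)) (r : ℝ) (T : ℝ → Eu (n + n) → Eu (n + n))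
    (H : ℝ → Eu (n + n) → ℝ) : Prop where
  sT : ContDiff ℝ ∞ (fun z : ℝ × Eu (n + n) => T z.1 z.2)
  sH : ContDiff ℝ ∞ (fun z : ℝ × Eu (n + n) => H z.1 z.2)
  zero : ∀ x, T 0 x = x
  bij : ∀ t, Function.Bijective (T t)
  symp : ∀ t x, Sp (fderiv ℝ (T t) x)
  out : ∀ t x, r ≤ dist x c → T t x = x
  outH : ∀ t x, r ≤ dist x c → H t x = 0
  ode : ∀ t x, HasDerivAt (fun τ => T τ x) (sg (H t) (T t x)) t

/-- `f` is the time one map of a Hamiltonian flow with support in the ball. -/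
def HEnd (c : Eu (n + n)) (r : ℝ) (f : Equiv.Perm (Eu (n + n))) : Prop :=
  ∃ T H, HPath c r T H ∧ ∀ x, T 1 x = f x

/-- bounds of a Hamiltonian: amplitude, gradient, volume of the support -/
structure Bd (A G μ : ℝ) (h : Eu (n + n) → ℝ) : Prop where
  A0 : 0 ≤ A
  G0 : 0 ≤ G
  μ0 : 0 ≤ μ
  amp : ∀ x, |h x| ≤ A
  grad : ∀ x, ‖fderiv ℝ h x‖ ≤ G
  supp : volume (tsupport h) ≤ ENNReal.ofReal μ

/-- the price of a Hamiltonian with these bounds -/
def cst (σ p A G μ : ℝ) : ℝ := (A + A ^ (1 - σ) * G ^ σ) * μ ^ (1 / p)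

/-- `f` is the end of a Hamiltonian path in the ball with price at most `a`. -/
def Ch (σ p : ℝ) (c : Eu (n + n)) (r : ℝ) (f : Equiv.Perm (Eu (n + n))) (a : ℝ) : Prop :=
  ∃ T H A G μ, HPath c r T H ∧ (∀ x, T 1 x = f x) ∧ (∀ t ∈ Icc (0 : ℝ) 1, Bd A G μ (H t)) ∧
    cst σ p A G μ ≤ a

/-- products of such maps, with the sum of the prices -/
inductive LCost (σ p : ℝ) (c : Eu (n + n)) (r : ℝ) : Equiv.Perm (Eu (n + n)) → ℝ → Prop
  | base {f : Equiv.Perm (Eu (n + n))} {a : ℝ} : Ch σ p c r f a → LCost σ p c r f a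
  | mul {f g : Equiv.Perm (Eu (n + n))} {a b : ℝ} : LCost σ p c r f a → LCost σ p c r g b →
      LCost σ p c r (f * g) (a + b)

/-- the neighbourhood of the grid of Lagrangian planes -/
def Grd (ε η : ℝ) : Set (Eu (n + n)) :=
  {x | ∀ i : Fin n, ∃ k : ℤ, |x (Fin.natAdd n i) - k * (ε / 2)| < η * ε}

variable {M : Type} [TopologicalSpace M] {ι : Type}

/-- A smooth family (parameter space `E`) of symplectic diffeomorphisms of `M`. -/
structure SFam (ch : ι → OpenPartialHomeomorph M (Eu (n + n))) {E : Type*} [NormedAddCommGroup E]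
    [NormedSpace ℝ E] (F : E → M → M) : Prop where
  fam : MFam ch F
  symp : ∀ e i j y, y ∈ (ch i).target → F e ((ch i).symm y) ∈ (ch j).source →
    Sp (fderiv ℝ (fun y => ch j (F e ((ch i).symm y))) y)

/-- `N` is homogeneous, bounded by sup norms, and bounded by the price on Hamiltonian fields with
compact support in a chart. -/
structure SWeak (ch : ι → OpenPartialHomeomorph M (Eu (n + n)))
    (N : (ι → Eu (n + n) → Eu (n + n)) → ℝ≥0∞) (σ p : ℝ) : Prop where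
  smul : ∀ (c : ℝ) (X : ι → Eu (n + n) → Eu (n + n)),
    N (fun i y => c • X i y) = ENNReal.ofReal |c| * N X
  sup : ∃ (K : ι → Set (Eu (n + n))) (C : ℝ), 0 ≤ C ∧
    (∀ i, IsCompact (K i) ∧ K i ⊆ (ch i).target) ∧
    ∀ X : ι → Eu (n + n) → Eu (n + n), IsFld ch X → ∀ b : ℝ, 0 ≤ b →
    (∀ i, ∀ y ∈ K i, ‖X i y‖ ≤ b) → N X ≤ ENNReal.ofReal (C * b)
  loc : ∀ (i : ι) (K : Set (Eu (n + n))), IsCompact K → K ⊆ (ch i).target → ∃ C : ℝ, 0 ≤ C ∧
    ∀ h : Eu (n + n) → ℝ, ContDiff ℝ ∞ h → (∀ y ∉ K, h y = 0) → ∀ A G μ : ℝ, Bd A G μ h →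
    N (push ch i (sg h)) ≤ ENNReal.ofReal (C * cst σ p A G μ)

/-- `f` can be joined to the identity by a path of symplectic diffeomorphisms of length at most `a`
(with a continuous bound of the speed). -/
def SCost [Nonempty M] (ch : ι → OpenPartialHomeomorph M (Eu (n + n)))
    (N : (ι → Eu (n + n) → Eu (n + n)) → ℝ≥0∞) (f : M → M) (a : ℝ) : Prop :=
  ∃ (φ : ℝ → M → M) (l : ℝ → ℝ), SFam ch φ ∧ φ 0 = id ∧ φ 1 = f ∧ Continuous l ∧
    (∀ t, 0 ≤ l t) ∧ (∀ t ∈ Set.Icc (0 : ℝ) 1, N (mvel ch φ t) ≤ ENNReal.ofReal (l t)) ∧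
    ∫ t in (0 : ℝ)..1, l t ≤ a

/-- the Hamiltonian `a - a ∘ g⁻¹` -/
def dif (a : Eu (n + n) → ℝ) (g : Equiv.Perm (Eu (n + n))) (y : Eu (n + n)) : ℝ := a y - a (g⁻¹ y)

/-- local data of a cheap field: chart, centre, radius, Hamiltonian, diffeomorphism; the ball of
radius `Λ r` is in the chart -/
structure CData (ch : ι → OpenPartialHomeomorph M (Eu (n + n))) (Λ : ℝ) where
  i : ι
  c : Eu (n + n)
  r : ℝ
  a : Eu (n + n) → ℝ
  g : Equiv.Perm (Eu (n + n))
  hr : 0 < r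
  hc : Metric.closedBall c (Λ * r) ⊆ (ch i).target
  ha : ContDiff ℝ ∞ a
  ha0 : ∀ x, r ≤ dist x c → a x = 0
  hg : HEnd c r g

/-- the field is a uniform limit (on compact parts of the charts) of sums of cheap fields -/
def Apx (ch : ι → OpenPartialHomeomorph M (Eu (n + n))) (Λ : ℝ)
    (X : ι → Eu (n + n) → Eu (n + n)) : Prop :=
  ∀ L : ι → Set (Eu (n + n)), (∀ i, IsCompact (L i) ∧ L i ⊆ (ch i).target) → ∀ η : ℝ, 0 < η →
    ∃ D : List (CData ch Λ), ∀ j, ∀ y ∈ L j,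
      ‖X j y - (D.map fun d => push ch d.i (sg (dif d.a d.g)) j y).sum‖ ≤ η

end

end SV
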