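import Pool.Agent.H6.SV.St
import Pool.Agent.H68.GM.MFamK
import Pool.Agent.H68.VD.CostK

/-! # Project SV: the calculus of costs (symplectic case) -/

set_option autoImplicit false

open MeasureTheory Set Filter Topology Pool.Agent.H68.VD Pool.Agent.H68.VD.CostKA Pool.Agent.H68.GM
open scoped ENNReal ContDiff

namespace SV

noncomputable section

namespace SCkA

variable {n : ℕ} {M : Type} [TopologicalSpace M] [Nonempty M] {ι : Type}
  {ch : ι → OpenPartialHomeomorph M (Eu (n + n))}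

omit [Nonempty M] in
theorem const_fam (S : SFk) {φ : ℝ → M → M} (hφ : SFam ch φ) (s : ℝ) :
    SFam ch (fun (_ : ℝ) => φ s) :=
  S.re n M ι ch ℝ ℝ φ (fun _ => s) hφ contDiff_const

theorem mvel_out (φ : ℝ → M → M) (t : ℝ) (i : ι) (y : Eu (n + n)) (hy : y ∉ (ch i).target) :
    mvel ch φ t i y = 0 := by
  unfold mvel
  rw [if_neg hy]

theorem cost_path (S : SFk) (hA : SympAtlas ch)
    (N : (ι → Eu (n + n) → Eu (n + n)) → ℝ≥0∞) (σ p : ℝ)
    (hN : SWeak ch N σ p) (φ : ℝ → M → M)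
    (hφ : SFam ch φ) (h0 : φ 0 = id) (T C : ℝ) (hT : 0 ≤ T) (hC : 0 ≤ C)
    (hb : ∀ t ∈ Set.Icc (0 : ℝ) T, N (mvel ch φ t) ≤ ENNReal.ofReal C) :
    SCost ch N (φ T) (C * T) := by
  have hsm : ContDiff ℝ ∞ (fun t : ℝ => T * t) := contDiff_const.mul contDiff_id
  refine ⟨fun t => φ (T * t), fun _ => C * T, S.re n M ι ch ℝ ℝ φ (fun t => T * t) hφ hsm, ?_, ?_,
    continuous_const, fun _ => mul_nonneg hC hT, ?_, ?_⟩
  · simp only [mul_zero]
    exact h0
  · simp only [mul_one]
  · intro t ht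
    have hder : HasDerivAt (fun t : ℝ => T * t) T t := by
      simpa using (hasDerivAt_id t).const_mul T
    have h1 : mvel ch (fun t => φ (T * t)) t = fun i y => T • mvel ch φ (T * t) i y := by
      funext i y
      have := mFamKit.velRe (n + n) M ι ch (S.vol n M ι ch hA) φ (fun t => T * t) hφ.fam t
        hder.differentiableAt i y
      rw [this, hder.deriv]
    rw [h1, hN.smul, abs_of_nonneg hT]
    have h2 : N (mvel ch φ (T * t)) ≤ ENNReal.ofReal C := by
      apply hb
      constructor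
      · exact mul_nonneg hT ht.1
      · calc T * t ≤ T * 1 := mul_le_mul_of_nonneg_left ht.2 hT
          _ = T := mul_one T
    calc ENNReal.ofReal T * N (mvel ch φ (T * t)) ≤ ENNReal.ofReal T * ENNReal.ofReal C := by
          gcongr
      _ = ENNReal.ofReal (C * T) := by rw [← ENNReal.ofReal_mul hT, mul_comm]
  · simp

theorem cost_inv (S : SFk) (hA : SympAtlas ch)
    (N : (ι → Eu (n + n) → Eu (n + n)) → ℝ≥0∞) (σ p : ℝ)
    (hN : SWeak ch N σ p) (f : M → M) (a : ℝ)
    (h : SCost ch N f a) : SCost ch N (Function.invFun f) a := by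
  obtain ⟨φ, l, hφ, h0, h1, hl, hl0, hb, hi⟩ := h
  have hsm : ContDiff ℝ ∞ (fun t : ℝ => 1 - t) := contDiff_const.sub contDiff_id
  have hconst : SFam ch (fun (_ : ℝ) => f) := by
    have := const_fam S hφ 1
    rwa [h1] at this
  have hinv : SFam ch (fun (_ : ℝ) => Function.invFun f) :=
    S.inv n M ι ch hA ℝ (fun _ => f) hconst
  have hre : SFam ch (fun t => φ (1 - t)) := S.re n M ι ch ℝ ℝ φ (fun t => 1 - t) hφ hsm
  have hfb : Function.Bijective f := hconst.fam.bij 0
  refine ⟨fun t x => φ (1 - t) (Function.invFun f x), fun t => l (1 - t),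
    S.comp n M ι ch hA ℝ (fun t => φ (1 - t)) (fun _ => Function.invFun f) hre hinv, ?_, ?_,
    hl.comp (continuous_const.sub continuous_id), fun t => hl0 _, ?_, ?_⟩
  · funext x
    simp only [sub_zero]
    rw [h1]
    exact Function.rightInverse_invFun hfb.2 x
  · funext x
    simp only [sub_self]
    rw [h0]
    rfl
  · intro t ht
    have hder : HasDerivAt (fun t : ℝ => 1 - t) (-1) t := by
      simpa using (hasDerivAt_id t).const_sub 1
    have h2 : mvel ch (fun t x => φ (1 - t) (Function.invFun f x)) t =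
        fun i y => (-1 : ℝ) • mvel ch φ (1 - t) i y := by
      funext i y
      rw [mFamKit.velConst (n + n) M ι ch (fun t => φ (1 - t)) (Function.invFun f)
        (fun t => hφ.fam.bij _) (hinv.fam.bij 0) t i y]
      have := mFamKit.velRe (n + n) M ι ch (S.vol n M ι ch hA) φ (fun t => 1 - t) hφ.fam t
        hder.differentiableAt i y
      rw [this, hder.deriv]
    rw [h2, hN.smul]
    simp only [abs_neg, abs_one, ENNReal.ofReal_one, one_mul]
    exact hb _ ⟨by linarith [ht.2], by linarith [ht.1]⟩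
  · have h3 := intervalIntegral.integral_comp_sub_left (a := 0) (b := 1) l 1
    simp only [sub_self, sub_zero] at h3
    rw [h3]
    exact hi

theorem vel_left (hV : VolAtlas ch) (φ ψ : ℝ → M → M) (hφ : SFam ch φ)
    (hψ : SFam ch ψ) (t : ℝ) (hid : φ t = id) (hz : ∀ i y, mvel ch φ t i y = 0) (i : ι)
    (y : Eu (n + n)) : mvel ch (fun t x => φ t (ψ t x)) t i y = mvel ch ψ t i y := by
  by_cases hy : y ∈ (ch i).target
  · obtain ⟨x, hx⟩ := (hψ.fam.bij t).2 ((ch i).symm y)
    have hs : (ch i).symm y ∈ (ch i).source := (ch i).map_target hy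
    have h1 : ψ t x ∈ (ch i).source := by rw [hx]; exact hs
    have h2 : φ t (ψ t x) ∈ (ch i).source := by rw [hid]; exact h1
    have h3 := mFamKit.velComp (n + n) M ι ch hV φ ψ hφ.fam hψ.fam t x i i h1 h2
    rw [hz, zero_add, hid] at h3
    simp only [id] at h3
    have h4 : ch i (ψ t x) = y := by rw [hx]; exact (ch i).right_inv hy
    rw [h4] at h3
    have h5 : fderiv ℝ (fun y => ch i ((ch i).symm y)) y =
        ContinuousLinearMap.id ℝ (Eu (n + n)) := by
      have h6 : (fun y => ch i ((ch i).symm y)) =ᶠ[nhds y] id := by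
        filter_upwards [(ch i).open_target.mem_nhds hy] with z hz'
        exact (ch i).right_inv hz'
      rw [h6.fderiv_eq, fderiv_id]
    rw [h5] at h3
    exact h3
  · rw [mvel_out _ _ _ _ hy, mvel_out _ _ _ _ hy]

theorem vel_right (hV : VolAtlas ch) (φ ψ : ℝ → M → M) (hφ : SFam ch φ)
    (hψ : SFam ch ψ) (t : ℝ) (hz : ∀ i y, mvel ch ψ t i y = 0) (j : ι)
    (y : Eu (n + n)) : mvel ch (fun t x => φ t (ψ t x)) t j y = mvel ch φ t j y := by
  by_cases hy : y ∈ (ch j).target
  · obtain ⟨x', hx'⟩ := (hφ.fam.bij t).2 ((ch j).symm y)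
    obtain ⟨x, hx⟩ := (hψ.fam.bij t).2 x'
    have hs : (ch j).symm y ∈ (ch j).source := (ch j).map_target hy
    obtain ⟨i, hi⟩ := hV.cover (ψ t x)
    have h2 : φ t (ψ t x) ∈ (ch j).source := by rw [hx, hx']; exact hs
    have h3 := mFamKit.velComp (n + n) M ι ch hV φ ψ hφ.fam hψ.fam t x i j hi h2
    rw [hz, map_zero, add_zero] at h3
    have h4 : ch j (φ t (ψ t x)) = y := by rw [hx, hx']; exact (ch j).right_inv hy
    rw [h4] at h3
    exact h3
  · rw [mvel_out _ _ _ _ hy, mvel_out _ _ _ _ hy]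

theorem cost_comp (S : SFk) (hA : SympAtlas ch)
    (N : (ι → Eu (n + n) → Eu (n + n)) → ℝ≥0∞) (σ p : ℝ)
    (hN : SWeak ch N σ p) (f g : M → M) (a b : ℝ)
    (hf : SCost ch N f a) (hg : SCost ch N g b) : SCost ch N (fun x => f (g x)) (a + b) := by
  obtain ⟨φ, l, hφ, hφ0, hφ1, hl, hl0, hlb, hli⟩ := hf
  obtain ⟨ψ, m, hψ, hψ0, hψ1, hm, hm0, hmb, hmi⟩ := hg
  have hV : VolAtlas ch := S.vol n M ι ch hA
  have hφ' : SFam ch (fun t => φ (chi2 t)) := S.re n M ι ch ℝ ℝ φ chi2 hφ chi2_smooth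
  have hψ' : SFam ch (fun t => ψ (chi1 t)) := S.re n M ι ch ℝ ℝ ψ chi1 hψ chi1_smooth
  have hvφ : ∀ t i y, mvel ch (fun t => φ (chi2 t)) t i y =
      deriv chi2 t • mvel ch φ (chi2 t) i y :=
    fun t i y => mFamKit.velRe (n + n) M ι ch hV φ chi2 hφ.fam t (chi2_diff t) i y
  have hvψ : ∀ t i y, mvel ch (fun t => ψ (chi1 t)) t i y =
      deriv chi1 t • mvel ch ψ (chi1 t) i y :=
    fun t i y => mFamKit.velRe (n + n) M ι ch hV ψ chi1 hψ.fam t (chi1_diff t) i y
  have hc1 : Continuous (fun t => deriv chi1 t * m (chi1 t)) :=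
    chi1_deriv_cont.mul (hm.comp chi1_diff.continuous)
  have hc2 : Continuous (fun t => deriv chi2 t * l (chi2 t)) :=
    chi2_deriv_cont.mul (hl.comp chi2_diff.continuous)
  refine ⟨fun t x => φ (chi2 t) (ψ (chi1 t) x),
    fun t => deriv chi1 t * m (chi1 t) + deriv chi2 t * l (chi2 t),
    S.comp n M ι ch hA ℝ (fun t => φ (chi2 t)) (fun t => ψ (chi1 t)) hφ' hψ', ?_, ?_,
    hc1.add hc2, ?_, ?_, ?_⟩
  · funext x
    simp only [chi1_zero, chi2_zero, hφ0, hψ0, id]
  · funext x
    simp only [chi1_one, chi2_one, hφ1, hψ1]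
  · intro t
    exact add_nonneg (mul_nonneg (chi1_deriv_nonneg t) (hm0 _))
      (mul_nonneg (chi2_deriv_nonneg t) (hl0 _))
  · intro t _
    have hn1 : 0 ≤ deriv chi1 t * m (chi1 t) := mul_nonneg (chi1_deriv_nonneg t) (hm0 _)
    have hn2 : 0 ≤ deriv chi2 t * l (chi2 t) := mul_nonneg (chi2_deriv_nonneg t) (hl0 _)
    rcases le_total t (1 / 2) with ht | ht
    · obtain ⟨e1, e2⟩ := chi2_left ht
      have hid : φ (chi2 t) = id := by rw [e1, hφ0]
      have h2 : mvel ch (fun t x => φ (chi2 t) (ψ (chi1 t) x)) t =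
          fun i y => deriv chi1 t • mvel ch ψ (chi1 t) i y := by
        funext i y
        have h3 := vel_left hV (fun t => φ (chi2 t)) (fun t => ψ (chi1 t)) hφ' hψ' t hid
          (fun i y => by rw [hvφ, e2, zero_smul]) i y
        rw [hvψ] at h3
        exact h3
      rw [h2, hN.smul, abs_of_nonneg (chi1_deriv_nonneg t)]
      calc ENNReal.ofReal (deriv chi1 t) * N (mvel ch ψ (chi1 t))
          ≤ ENNReal.ofReal (deriv chi1 t) * ENNReal.ofReal (m (chi1 t)) := by
            gcongr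
            exact hmb _ chi1_mem
        _ = ENNReal.ofReal (deriv chi1 t * m (chi1 t)) := by
            rw [← ENNReal.ofReal_mul (chi1_deriv_nonneg t)]
        _ ≤ _ := ENNReal.ofReal_le_ofReal (by linarith)
    · obtain ⟨e1, e2⟩ := chi1_right ht
      have h2 : mvel ch (fun t x => φ (chi2 t) (ψ (chi1 t) x)) t =
          fun i y => deriv chi2 t • mvel ch φ (chi2 t) i y := by
        funext i y
        have h3 := vel_right hV (fun t => φ (chi2 t)) (fun t => ψ (chi1 t)) hφ' hψ' t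
          (fun i y => by rw [hvψ, e2, zero_smul]) i y
        rw [hvφ] at h3
        exact h3
      rw [h2, hN.smul, abs_of_nonneg (chi2_deriv_nonneg t)]
      calc ENNReal.ofReal (deriv chi2 t) * N (mvel ch φ (chi2 t))
          ≤ ENNReal.ofReal (deriv chi2 t) * ENNReal.ofReal (l (chi2 t)) := by
            gcongr
            exact hlb _ chi2_mem
        _ = ENNReal.ofReal (deriv chi2 t * l (chi2 t)) := by
            rw [← ENNReal.ofReal_mul (chi2_deriv_nonneg t)]
        _ ≤ _ := ENNReal.ofReal_le_ofReal (by linarith)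
  · rw [intervalIntegral.integral_add (hc1.intervalIntegrable _ _) (hc2.intervalIntegrable _ _),
      integral_sub1 m hm, integral_sub2 l hl]
    linarith

theorem cost_one (S : SFk) (hA : SympAtlas ch)
    (N : (ι → Eu (n + n) → Eu (n + n)) → ℝ≥0∞) (σ p : ℝ) (hN : SWeak ch N σ p) :
    SCost ch N id 0 := by
  have hv : ∀ t : ℝ, mvel ch (fun (_ : ℝ) (x : M) => x) t =
      fun (i : ι) (y : Eu (n + n)) => (0 : ℝ) • (0 : Eu (n + n)) := by
    intro t
    funext i y
    unfold mvel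
    split_ifs
    · simp
    · simp
  refine ⟨fun _ x => x, fun _ => 0, S.id n M ι ch hA ℝ, rfl, rfl, continuous_const,
    fun _ => le_rfl, ?_, ?_⟩
  · intro t _
    rw [hv t, hN.smul 0 (fun _ _ => 0)]
    simp
  · simp

theorem cost_dist (S : SFk) (hA : SympAtlas ch)
    (N : (ι → Eu (n + n) → Eu (n + n)) → ℝ≥0∞) (φ : ℝ → M → M) (hp : SPath ch φ) (a : ℝ)
    (hc : SCost ch N (fun x => φ 1 (Function.invFun (φ 0) x)) a) :
    spdist ch N (φ 0) (φ 1) ≤ ENNReal.ofReal a := by
  obtain ⟨ξ, l, h1, h2, h3, h4, h5, h6, h7⟩ := hc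
  have hφ : SFam ch φ := (S.path n M ι ch φ).1 hp
  have h0 : SFam ch (fun _ : ℝ => φ 0) := const_fam S hφ 0
  have hξ : SFam ch (fun t x => ξ t (φ 0 x)) := S.comp n M ι ch hA ℝ _ _ h1 h0
  have e0 : (fun x => ξ 0 (φ 0 x)) = φ 0 := by
    funext x
    simp [h2]
  have e1 : (fun x => ξ 1 (φ 0 x)) = φ 1 := by
    funext x
    rw [h3]
    show φ 1 (Function.invFun (φ 0) (φ 0 x)) = φ 1 x
    rw [Function.leftInverse_invFun (hφ.fam.bij 0).1 x]
  refine (iInf₂_le (fun t x => ξ t (φ 0 x)) ⟨(S.path n M ι ch _).2 hξ, e0, e1⟩).trans ?_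
  have hl : mlen ch N (fun t x => ξ t (φ 0 x)) ≤ ENNReal.ofReal (∫ t in (0 : ℝ)..1, l t) := by
    unfold mlen
    have h8 : ∀ t, mvel ch (fun t x => ξ t (φ 0 x)) t = mvel ch ξ t := by
      intro t
      funext i y
      exact mFamKit.velConst (n + n) M ι ch ξ (φ 0) h1.fam.bij (hφ.fam.bij 0) t i y
    simp only [h8]
    rw [intervalIntegral.integral_of_le zero_le_one, ← integral_Icc_eq_integral_Ioc,
      ofReal_integral_eq_lintegral_ofReal (h4.continuousOn.integrableOn_compact isCompact_Icc)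
        (Filter.Eventually.of_forall h5)]
    exact setLIntegral_mono' measurableSet_Icc fun t ht => h6 t ht
  exact hl.trans (ENNReal.ofReal_le_ofReal h7)

end SCkA

open SCkA in
/-- The calculus of costs. -/
theorem sCk (S : SFk) : SCk where
  mono := by
    intro n M _ _ ι ch N f a b h hab
    obtain ⟨φ, l, h1, h2, h3, h4, h5, h6, h7⟩ := h
    exact ⟨φ, l, h1, h2, h3, h4, h5, h6, h7.trans hab⟩
  comp := fun _ _ _ _ _ _ hA N σ p hN f g a b hf hg => cost_comp S hA N σ p hN f g a b hf hg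
  inv := fun _ _ _ _ _ _ hA N σ p hN f a h => cost_inv S hA N σ p hN f a h
  path := fun _ _ _ _ _ _ hA N σ p hN φ hφ h0 T C hT hC hb =>
    cost_path S hA N σ p hN φ hφ h0 T C hT hC hb
  one := fun _ _ _ _ _ _ hA N σ p hN => cost_one S hA N σ p hN
  dist := fun _ _ _ _ _ _ hA N _ _ _ φ hp a hc => cost_dist S hA N φ hp a hc

end

end SV
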