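import Pool.Agent.H6.SV.Loc

/-!
# Project SV: statements of the modules

Every module proves one of these propositions; it may take other ones as hypotheses.
-/

set_option autoImplicit false

open MeasureTheory Set Filter Topology Pool.Agent.H68.VD Pool.Agent.H68.GM
open scoped ENNReal ContDiff

namespace SV

noncomputable section

/-! ### Lin.lean -/

/-- Linear symplectic algebra. -/
structure LinK : Prop where
  addL : ∀ (n : ℕ) (u v w : Eu (n + n)), om (u + v) w = om u w + om v w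
  smulL : ∀ (n : ℕ) (a : ℝ) (u w : Eu (n + n)), om (a • u) w = a * om u w
  addR : ∀ (n : ℕ) (u v w : Eu (n + n)), om u (v + w) = om u v + om u w
  smulR : ∀ (n : ℕ) (a : ℝ) (u w : Eu (n + n)), om u (a • w) = a * om u w
  skew : ∀ (n : ℕ) (u v : Eu (n + n)), om u v = - om v u
  nondeg : ∀ (n : ℕ) (u : Eu (n + n)), (∀ v, om u v = 0) → u = 0
  bound : ∀ (n : ℕ) (u v : Eu (n + n)), |om u v| ≤ ‖u‖ * ‖v‖
  clm : ∀ n : ℕ, ∃ B : Eu (n + n) →L[ℝ] Eu (n + n) →L[ℝ] ℝ, ∀ u v, B u v = om u v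
  dual : ∀ (n : ℕ) (L : Eu (n + n) →L[ℝ] ℝ), ∃ w, ∀ v, om w v = L v
  spId : ∀ n : ℕ, Sp (ContinuousLinearMap.id ℝ (Eu (n + n)))
  spComp : ∀ (n : ℕ) (A B : Eu (n + n) →L[ℝ] Eu (n + n)), Sp A → Sp B → Sp (A ∘L B)
  spInv : ∀ (n : ℕ) (A B : Eu (n + n) →L[ℝ] Eu (n + n)), Sp A →
    A ∘L B = ContinuousLinearMap.id ℝ (Eu (n + n)) → Sp B
  spDet : ∀ (n : ℕ) (A : Eu (n + n) →L[ℝ] Eu (n + n)), Sp A → |A.det| = 1
  spClosed : ∀ n : ℕ, IsClosed {A : Eu (n + n) →L[ℝ] Eu (n + n) | Sp A}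

/-! ### SgK.lean -/

/-- Hamiltonian fields. -/
structure SgK : Prop where
  om : ∀ (n : ℕ) (H : Eu (n + n) → ℝ) (x v : Eu (n + n)), om (sg H x) v = fderiv ℝ H x v
  norm : ∀ (n : ℕ) (H : Eu (n + n) → ℝ) (x : Eu (n + n)), ‖sg H x‖ = ‖fderiv ℝ H x‖
  congr : ∀ (n : ℕ) (H K : Eu (n + n) → ℝ) (x : Eu (n + n)), H =ᶠ[𝓝 x] K → sg H x = sg K x
  const : ∀ (n : ℕ) (a : ℝ) (x : Eu (n + n)), sg (fun _ => a) x = 0
  add : ∀ (n : ℕ) (H K : Eu (n + n) → ℝ) (x : Eu (n + n)), DifferentiableAt ℝ H x →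
    DifferentiableAt ℝ K x → sg (fun y => H y + K y) x = sg H x + sg K x
  sub : ∀ (n : ℕ) (H K : Eu (n + n) → ℝ) (x : Eu (n + n)), DifferentiableAt ℝ H x →
    DifferentiableAt ℝ K x → sg (fun y => H y - K y) x = sg H x - sg K x
  smul : ∀ (n : ℕ) (a : ℝ) (H : Eu (n + n) → ℝ) (x : Eu (n + n)), DifferentiableAt ℝ H x →
    sg (fun y => a * H y) x = a • sg H x
  mul : ∀ (n : ℕ) (H K : Eu (n + n) → ℝ) (x : Eu (n + n)), DifferentiableAt ℝ H x →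
    DifferentiableAt ℝ K x → sg (fun y => H y * K y) x = H x • sg K x + K x • sg H x
  lin : ∀ (n : ℕ) (w x : Eu (n + n)), sg (fun y => SV.om w y) x = w
  smoothE : ∀ (n : ℕ) (E : Type) [NormedAddCommGroup E] [NormedSpace ℝ E]
    (H : E → Eu (n + n) → ℝ), ContDiff ℝ ∞ (fun z : E × Eu (n + n) => H z.1 z.2) →
    ContDiff ℝ ∞ (fun z : E × Eu (n + n) => sg (H z.1) z.2)
  smooth : ∀ (n : ℕ) (H : Eu (n + n) → ℝ), ContDiff ℝ ∞ H → ContDiff ℝ ∞ (sg H)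
  smoothOn : ∀ (n : ℕ) (U : Set (Eu (n + n))) (H : Eu (n + n) → ℝ), IsOpen U →
    ContDiffOn ℝ ∞ H U → ContDiffOn ℝ ∞ (sg H) U
  symm : ∀ (n : ℕ) (H : Eu (n + n) → ℝ) (x u v : Eu (n + n)), ContDiffAt ℝ 2 H x →
    SV.om (fderiv ℝ (sg H) x u) v + SV.om u (fderiv ℝ (sg H) x v) = 0
  conj : ∀ (n : ℕ) (H : Eu (n + n) → ℝ) (g k : Eu (n + n) → Eu (n + n)) (x : Eu (n + n)),
    DifferentiableAt ℝ H x → DifferentiableAt ℝ g x → DifferentiableAt ℝ k (g x) →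
    k (g x) = x → (∀ᶠ y in 𝓝 (g x), g (k y) = y) → Sp (fderiv ℝ g x) →
    sg (fun y => H (k y)) (g x) = fderiv ℝ g x (sg H x)

/-! ### FlowS.lean -/

/-- Global flows of smooth fields are smooth. -/
def FlowS : Prop := ∀ (W : Type) [NormedAddCommGroup W] [NormedSpace ℝ W] [FiniteDimensional ℝ W]
  (F : W → W), ContDiff ℝ ∞ F → ∀ φ : W → ℝ → W, (∀ y, φ y 0 = y) →
  (∀ y t, HasDerivAt (φ y) (F (φ y t)) t) → ContDiff ℝ ∞ (fun p : W × ℝ => φ p.1 p.2)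

/-! ### FlowE.lean -/

/-- Existence and uniqueness of flows. -/
structure FlowE : Prop where
  ex : ∀ (n : ℕ) (V : ℝ → Eu n → Eu n) (c : Eu n) (r : ℝ),
    ContDiff ℝ ∞ (fun z : ℝ × Eu n => V z.1 z.2) → (∀ t x, r ≤ dist x c → V t x = 0) →
    ∃ T : ℝ → Eu n → Eu n, ContDiff ℝ ∞ (fun z : ℝ × Eu n => T z.1 z.2) ∧ (∀ x, T 0 x = x) ∧
      (∀ t, Function.Bijective (T t)) ∧ (∀ t x, r ≤ dist x c → T t x = x) ∧
      ∀ t x, HasDerivAt (fun τ => T τ x) (V t (T t x)) t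
  uniqI : ∀ (n : ℕ) (V : ℝ → Eu n → Eu n), ContDiff ℝ ∞ (fun z : ℝ × Eu n => V z.1 z.2) →
    ∀ (b : ℝ) (γ δ : ℝ → Eu n), (∀ t ∈ Icc (0 : ℝ) b, HasDerivAt γ (V t (γ t)) t) →
    (∀ t ∈ Icc (0 : ℝ) b, HasDerivAt δ (V t (δ t)) t) → γ 0 = δ 0 →
    ∀ t ∈ Icc (0 : ℝ) b, γ t = δ t
  uniq : ∀ (n : ℕ) (V : ℝ → Eu n → Eu n), ContDiff ℝ ∞ (fun z : ℝ × Eu n => V z.1 z.2) →
    ∀ γ δ : ℝ → Eu n, (∀ t, HasDerivAt γ (V t (γ t)) t) → (∀ t, HasDerivAt δ (V t (δ t)) t) →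
    γ 0 = δ 0 → ∀ t, γ t = δ t

/-! ### HPe.lean -/

/-- Existence of Hamiltonian paths. -/
def HPe : Prop := ∀ (n : ℕ) (c : Eu (n + n)) (r : ℝ) (H : ℝ → Eu (n + n) → ℝ),
  ContDiff ℝ ∞ (fun z : ℝ × Eu (n + n) => H z.1 z.2) → (∀ t x, r ≤ dist x c → H t x = 0) →
  ∃ T, HPath c r T H

/-! ### HPk.lean -/

/-- Hamiltonian paths. -/
structure HPk : Prop where
  ballOf : ∀ (n : ℕ) (c : Eu (n + n)) (r : ℝ) (T : ℝ → Eu (n + n) → Eu (n + n)),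
    ContDiff ℝ ∞ (fun z : ℝ × Eu (n + n) => T z.1 z.2) → (∀ t, Function.Bijective (T t)) →
    (∀ t x, Sp (fderiv ℝ (T t) x)) → (∀ t x, r ≤ dist x c → T t x = x) → BallFam c r T
  ball : ∀ (n : ℕ) (c : Eu (n + n)) (r : ℝ) (T : ℝ → Eu (n + n) → Eu (n + n))
    (H : ℝ → Eu (n + n) → ℝ), HPath c r T H → BallFam c r T
  vel : ∀ (n : ℕ) (c : Eu (n + n)) (r : ℝ) (T : ℝ → Eu (n + n) → Eu (n + n))
    (H : ℝ → Eu (n + n) → ℝ), HPath c r T H → ∀ t x, vel T t x = sg (H t) x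
  invS : ∀ (n : ℕ) (c : Eu (n + n)) (r : ℝ) (T : ℝ → Eu (n + n) → Eu (n + n))
    (H : ℝ → Eu (n + n) → ℝ), HPath c r T H →
    ContDiff ℝ ∞ (fun z : ℝ × Eu (n + n) => Function.invFun (T z.1) z.2)
  one : ∀ (n : ℕ) (c : Eu (n + n)) (r : ℝ), HPath c r (fun _ x => x) (fun _ _ => 0)
  mono : ∀ (n : ℕ) (c c' : Eu (n + n)) (r r' : ℝ) (T : ℝ → Eu (n + n) → Eu (n + n))
    (H : ℝ → Eu (n + n) → ℝ), HPath c r T H → dist c c' + r ≤ r' → HPath c' r' T H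
  inv : ∀ (n : ℕ) (c : Eu (n + n)) (r : ℝ) (T : ℝ → Eu (n + n) → Eu (n + n))
    (H : ℝ → Eu (n + n) → ℝ), HPath c r T H →
    HPath c r (fun t x => T (1 - t) (Function.invFun (T 1) x)) (fun t x => - H (1 - t) x)
  scale : ∀ (n : ℕ) (c : Eu (n + n)) (r : ℝ) (T : ℝ → Eu (n + n) → Eu (n + n))
    (a : Eu (n + n) → ℝ), HPath c r T (fun _ => a) → ∀ s : ℝ,
    HPath c r (fun t => T (s * t)) (fun _ x => s * a x)
  group : ∀ (n : ℕ) (c : Eu (n + n)) (r : ℝ) (T : ℝ → Eu (n + n) → Eu (n + n))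
    (a : Eu (n + n) → ℝ), HPath c r T (fun _ => a) → ∀ s t x, T (s + t) x = T s (T t x)

/-! ### HEk.lean -/

/-- Ends of Hamiltonian paths. -/
structure HEk : Prop where
  smooth : ∀ (n : ℕ) (c : Eu (n + n)) (r : ℝ) (f : Equiv.Perm (Eu (n + n))), HEnd c r f →
    ContDiff ℝ ∞ (fun x => f x)
  symp : ∀ (n : ℕ) (c : Eu (n + n)) (r : ℝ) (f : Equiv.Perm (Eu (n + n))), HEnd c r f →
    ∀ x, Sp (fderiv ℝ (fun x => f x) x)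
  out : ∀ (n : ℕ) (c : Eu (n + n)) (r : ℝ) (f : Equiv.Perm (Eu (n + n))), HEnd c r f →
    ∀ x, r ≤ dist x c → f x = x
  maps : ∀ (n : ℕ) (c : Eu (n + n)) (r : ℝ) (f : Equiv.Perm (Eu (n + n))), HEnd c r f →
    ∀ x, dist x c < r → dist (f x) c < r
  mp : ∀ (n : ℕ) (c : Eu (n + n)) (r : ℝ) (f : Equiv.Perm (Eu (n + n))), HEnd c r f →
    MeasurePreserving (fun x => f x) volume volume
  bound : ∀ (n : ℕ) (c : Eu (n + n)) (r : ℝ) (f : Equiv.Perm (Eu (n + n))), HEnd c r f →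
    ∃ C : ℝ, 0 ≤ C ∧ ∀ x, ‖fderiv ℝ (fun x => f x) x‖ ≤ C
  one : ∀ (n : ℕ) (c : Eu (n + n)) (r : ℝ), HEnd c r 1
  inv : ∀ (n : ℕ) (c : Eu (n + n)) (r : ℝ) (f : Equiv.Perm (Eu (n + n))), HEnd c r f →
    HEnd c r f⁻¹
  mono : ∀ (n : ℕ) (c c' : Eu (n + n)) (r r' : ℝ) (f : Equiv.Perm (Eu (n + n))), HEnd c r f →
    dist c c' + r ≤ r' → HEnd c' r' f
  conj : ∀ (n : ℕ) (c : Eu (n + n)) (r : ℝ) (g : Equiv.Perm (Eu (n + n))), HEnd c r g →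
    ∀ (T : ℝ → Eu (n + n) → Eu (n + n)) (H : ℝ → Eu (n + n) → ℝ), HPath c r T H →
    HPath c r (fun t x => g (T t (g⁻¹ x))) (fun t x => H t (g⁻¹ x))

/-! ### LCk.lean -/

/-- Local costs. -/
structure LCk : Prop where
  nonneg : ∀ (n : ℕ) (σ p : ℝ) (c : Eu (n + n)) (r : ℝ) (f : Equiv.Perm (Eu (n + n))) (a : ℝ),
    LCost σ p c r f a → 0 ≤ a
  mono : ∀ (n : ℕ) (σ p : ℝ) (c : Eu (n + n)) (r : ℝ) (f : Equiv.Perm (Eu (n + n))) (a b : ℝ),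
    LCost σ p c r f a → a ≤ b → LCost σ p c r f b
  rad : ∀ (n : ℕ) (σ p : ℝ) (c : Eu (n + n)) (r r' : ℝ) (f : Equiv.Perm (Eu (n + n))) (a : ℝ),
    r ≤ r' → LCost σ p c r f a → LCost σ p c r' f a
  inv : ∀ (n : ℕ) (σ p : ℝ) (c : Eu (n + n)) (r : ℝ) (f : Equiv.Perm (Eu (n + n))) (a : ℝ),
    LCost σ p c r f a → LCost σ p c r f⁻¹ a
  conj : ∀ (n : ℕ) (σ p : ℝ), 0 < σ → σ < 1 → 1 < p → ∀ (c : Eu (n + n)) (r : ℝ)
    (g : Equiv.Perm (Eu (n + n))), HEnd c r g → ∃ C : ℝ, 0 ≤ C ∧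
    ∀ (f : Equiv.Perm (Eu (n + n))) (a : ℝ), LCost σ p c r f a →
    LCost σ p c r (g * f * g⁻¹) (C * a)

/-! ### Cut.lean -/

/-- A Hamiltonian multiplied with a transported cut-off function. -/
def Cut : Prop := ∀ (n : ℕ) (c : Eu (n + n)) (r : ℝ) (T : ℝ → Eu (n + n) → Eu (n + n))
  (H : ℝ → Eu (n + n) → ℝ), HPath c r T H → ∀ X : Eu (n + n) → ℝ, ContDiff ℝ ∞ X →
  ∃ T' : ℝ → Eu (n + n) → Eu (n + n),
    HPath c r T' (fun t y => H t y * X (Function.invFun (T t) y)) ∧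
    ∀ x, (∀ᶠ y in 𝓝 x, X y = 1) → ∀ t, T' t x = T t x

/-! ### Kap.lean -/

/-- The one dimensional functions. -/
def Kap : Prop := ∃ C : ℝ, 0 ≤ C ∧ ∀ η : ℝ, 0 < η → η < 1 / 16 →
  (∃ κ : ℝ → ℝ, ContDiff ℝ ∞ κ ∧ (∀ x, |κ x| ≤ 1) ∧ (∀ x, |deriv κ x| ≤ 1) ∧
    ∀ x : ℝ, (∀ k : ℤ, η ≤ |x - k / 2|) → |deriv κ x| = 1) ∧
  ∃ ξ : ℝ → ℝ, ContDiff ℝ ∞ ξ ∧ (∀ x, 0 ≤ ξ x ∧ ξ x ≤ 1) ∧ (∀ x, |deriv ξ x| ≤ C / η) ∧
    (∀ (x : ℝ) (k : ℤ), |x - k / 2| < 3 / 2 * η → ξ x = 1) ∧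
    ∀ x : ℝ, (∀ k : ℤ, 4 * η ≤ |x - k / 2|) → ∀ᶠ y in 𝓝 x, ξ y = 0

/-! ### ExX.lean -/

/-- The cut-off function of the neighbourhood of the grid. -/
def ExX : Prop := ∀ n : ℕ, ∃ C : ℝ, 0 ≤ C ∧ ∀ ε η : ℝ, 0 < ε → 0 < η → η < 1 / 16 →
  ∃ X : Eu (n + n) → ℝ, ContDiff ℝ ∞ X ∧ (∀ x, 0 ≤ X x ∧ X x ≤ 1) ∧
    (∀ x, ‖fderiv ℝ X x‖ ≤ C / (η * ε)) ∧ (∀ x ∈ Grd ε η, X x = 1) ∧
    ∀ (c : Eu (n + n)) (r : ℝ), ε ≤ r →
      volume (tsupport X ∩ Metric.closedBall c r) ≤ ENNReal.ofReal (C * r ^ (2 * n) * η ^ n)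

/-! ### CutC.lean -/

/-- A Hamiltonian map coincides near a thin grid with a map of small cost. -/
def CutC : Prop := ∀ (n : ℕ) (σ p : ℝ), 1 < p → 0 < σ → σ < 1 → σ < n / p →
  ∀ (c : Eu (n + n)) (r : ℝ), 0 < r → ∀ f : Equiv.Perm (Eu (n + n)), HEnd c r f → ∀ ε : ℝ,
  0 < ε → ε ≤ r → ∀ a : ℝ, 0 < a → ∃ η0 : ℝ, 0 < η0 ∧ ∀ η : ℝ, 0 < η → η < η0 →
  ∃ fZ : Equiv.Perm (Eu (n + n)), Ch σ p c r fZ a ∧ ∀ x ∈ Grd ε η, fZ x = f x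

/-! ### Saw.lean -/

/-- The complement of the grid in a ball can be displaced from the ball at small cost. -/
def Saw : Prop := ∀ n : ℕ, 1 ≤ n → ∃ Λ : ℝ, 1 ≤ Λ ∧ ∀ σ p : ℝ, 1 < p → 0 < σ → σ < 1 →
  ∀ (c : Eu (n + n)) (r : ℝ), 0 < r → ∀ a : ℝ, 0 < a → ∃ ε : ℝ, 0 < ε ∧ ε ≤ r ∧
  ∀ η : ℝ, 0 < η → η < 1 / 16 → ∃ ψ : Equiv.Perm (Eu (n + n)), Ch σ p c (Λ * r) ψ a ∧
  ∀ x, dist x c < r → x ∉ Grd ε η → r ≤ dist (ψ x) c

/-! ### Comm.lean -/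

/-- Commutators of Hamiltonian maps with support in a ball have cost zero in a larger ball. -/
def CommC : Prop := ∀ n : ℕ, 1 ≤ n → ∃ Λ : ℝ, 1 ≤ Λ ∧ ∀ σ p : ℝ, 1 < p → 0 < σ → σ < 1 →
  σ < n / p → ∀ (c : Eu (n + n)) (r : ℝ), 0 < r → ∀ f g : Equiv.Perm (Eu (n + n)),
  HEnd c r f → HEnd c r g → ∀ ε : ℝ, 0 < ε → LCost σ p c (Λ * r) (f * g * f⁻¹ * g⁻¹) ε

/-! ### Trans.lean -/

/-- Translations of balls. -/
def Trans : Prop := ∀ (n : ℕ) (c z z' : Eu (n + n)) (r : ℝ), 0 < r → dist z c < r →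
  dist z' c < r → ∃ g : Equiv.Perm (Eu (n + n)), HEnd c (4 * r) g ∧
  ∀ x, dist x z < r → g x = x + (z' - z)

/-! ### LocP.lean -/

/-- The path of commutators. -/
def LocP : Prop := ∀ (n : ℕ) (c : Eu (n + n)) (r : ℝ) (a : Eu (n + n) → ℝ)
  (g : Equiv.Perm (Eu (n + n))), 0 < r → ContDiff ℝ ∞ a → (∀ x, r ≤ dist x c → a x = 0) →
  HEnd c r g → ∃ P : ℝ → Eu (n + n) → Eu (n + n), BallFam c r P ∧
    (∀ t x, Sp (fderiv ℝ (P t) x)) ∧ (∀ x, P 0 x = x) ∧ (∀ x, vel P 0 x = sg (dif a g) x) ∧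
    ∀ t, ∃ f : Equiv.Perm (Eu (n + n)), HEnd c r f ∧ ∀ x, P t x = (f * g * f⁻¹ * g⁻¹) x

/-! ### SFk.lean -/

/-- Symplectic families. -/
structure SFk : Prop where
  vol : ∀ (n : ℕ) (M : Type) [TopologicalSpace M] (ι : Type)
    (ch : ι → OpenPartialHomeomorph M (Eu (n + n))), SympAtlas ch → VolAtlas ch
  inv : ∀ (n : ℕ) (M : Type) [TopologicalSpace M] [Nonempty M] (ι : Type)
    (ch : ι → OpenPartialHomeomorph M (Eu (n + n))), SympAtlas ch → ∀ (E : Type)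
    [NormedAddCommGroup E] [NormedSpace ℝ E] [CompleteSpace E] (F : E → M → M), SFam ch F →
    SFam ch (fun e => Function.invFun (F e))
  comp : ∀ (n : ℕ) (M : Type) [TopologicalSpace M] (ι : Type)
    (ch : ι → OpenPartialHomeomorph M (Eu (n + n))), SympAtlas ch → ∀ (E : Type)
    [NormedAddCommGroup E] [NormedSpace ℝ E] (F G : E → M → M), SFam ch F → SFam ch G →
    SFam ch (fun e x => F e (G e x))
  re : ∀ (n : ℕ) (M : Type) [TopologicalSpace M] (ι : Type)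
    (ch : ι → OpenPartialHomeomorph M (Eu (n + n))) (E E' : Type) [NormedAddCommGroup E]
    [NormedSpace ℝ E] [NormedAddCommGroup E'] [NormedSpace ℝ E'] (F : E → M → M) (h : E' → E),
    SFam ch F → ContDiff ℝ ∞ h → SFam ch (fun e => F (h e))
  id : ∀ (n : ℕ) (M : Type) [TopologicalSpace M] (ι : Type)
    (ch : ι → OpenPartialHomeomorph M (Eu (n + n))), SympAtlas ch → ∀ (E : Type)
    [NormedAddCommGroup E] [NormedSpace ℝ E], SFam ch (fun (_ : E) (x : M) => x)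
  path : ∀ (n : ℕ) (M : Type) [TopologicalSpace M] (ι : Type)
    (ch : ι → OpenPartialHomeomorph M (Eu (n + n))) (φ : ℝ → M → M), SPath ch φ ↔ SFam ch φ

/-! ### SCk.lean -/

/-- The calculus of costs. -/
structure SCk : Prop where
  mono : ∀ (n : ℕ) (M : Type) [TopologicalSpace M] [Nonempty M] (ι : Type)
    (ch : ι → OpenPartialHomeomorph M (Eu (n + n)))
    (N : (ι → Eu (n + n) → Eu (n + n)) → ℝ≥0∞) (f : M → M) (a b : ℝ), SCost ch N f a → a ≤ b →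
    SCost ch N f b
  comp : ∀ (n : ℕ) (M : Type) [TopologicalSpace M] [Nonempty M] (ι : Type)
    (ch : ι → OpenPartialHomeomorph M (Eu (n + n))), SympAtlas ch →
    ∀ (N : (ι → Eu (n + n) → Eu (n + n)) → ℝ≥0∞) (σ p : ℝ), SWeak ch N σ p → ∀ f g a b,
    SCost ch N f a → SCost ch N g b → SCost ch N (fun x => f (g x)) (a + b)
  inv : ∀ (n : ℕ) (M : Type) [TopologicalSpace M] [Nonempty M] (ι : Type)
    (ch : ι → OpenPartialHomeomorph M (Eu (n + n))), SympAtlas ch →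
    ∀ (N : (ι → Eu (n + n) → Eu (n + n)) → ℝ≥0∞) (σ p : ℝ), SWeak ch N σ p → ∀ f a,
    SCost ch N f a → SCost ch N (Function.invFun f) a
  path : ∀ (n : ℕ) (M : Type) [TopologicalSpace M] [Nonempty M] (ι : Type)
    (ch : ι → OpenPartialHomeomorph M (Eu (n + n))), SympAtlas ch →
    ∀ (N : (ι → Eu (n + n) → Eu (n + n)) → ℝ≥0∞) (σ p : ℝ), SWeak ch N σ p → ∀ φ : ℝ → M → M,
    SFam ch φ → φ 0 = id → ∀ T C : ℝ, 0 ≤ T → 0 ≤ C →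
    (∀ t ∈ Set.Icc (0 : ℝ) T, N (mvel ch φ t) ≤ ENNReal.ofReal C) → SCost ch N (φ T) (C * T)
  one : ∀ (n : ℕ) (M : Type) [TopologicalSpace M] [Nonempty M] (ι : Type)
    (ch : ι → OpenPartialHomeomorph M (Eu (n + n))), SympAtlas ch →
    ∀ (N : (ι → Eu (n + n) → Eu (n + n)) → ℝ≥0∞) (σ p : ℝ), SWeak ch N σ p → SCost ch N id 0
  dist : ∀ (n : ℕ) (M : Type) [TopologicalSpace M] [Nonempty M] (ι : Type)
    (ch : ι → OpenPartialHomeomorph M (Eu (n + n))), SympAtlas ch →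
    ∀ (N : (ι → Eu (n + n) → Eu (n + n)) → ℝ≥0∞) (σ p : ℝ), SWeak ch N σ p → ∀ φ : ℝ → M → M,
    SPath ch φ → ∀ a : ℝ, SCost ch N (fun x => φ 1 (Function.invFun (φ 0) x)) a →
    spdist ch N (φ 0) (φ 1) ≤ ENNReal.ofReal a

/-! ### SExt.lean -/

/-- Extension of symplectic maps of a ball in a chart. -/
def SExt : Prop := ∀ (n : ℕ) (M : Type) [TopologicalSpace M] [T2Space M] (ι : Type)
  (ch : ι → OpenPartialHomeomorph M (Eu (n + n))), SympAtlas ch → ∀ (i : ι) (c : Eu (n + n))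
  (r : ℝ), 0 < r → Metric.closedBall c r ⊆ (ch i).target → ∀ (E : Type) [NormedAddCommGroup E]
  [NormedSpace ℝ E] (T : E → Eu (n + n) → Eu (n + n)), BallFam c r T →
  (∀ e x, Sp (fderiv ℝ (T e) x)) → SFam ch (fun e => extM ch i (T e))

/-! ### STrf.lean -/

/-- Local costs bound costs on `M`. -/
def STrf : Prop := ∀ (n : ℕ) (M : Type) [TopologicalSpace M] [T2Space M] [Nonempty M] (ι : Type)
  (ch : ι → OpenPartialHomeomorph M (Eu (n + n))), SympAtlas ch →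
  ∀ (N : (ι → Eu (n + n) → Eu (n + n)) → ℝ≥0∞) (σ p : ℝ), SWeak ch N σ p → ∀ (i : ι)
  (c : Eu (n + n)) (r : ℝ), 0 < r → Metric.closedBall c r ⊆ (ch i).target → ∃ C : ℝ, 0 ≤ C ∧
  ∀ (f : Equiv.Perm (Eu (n + n))) (a : ℝ), LCost σ p c r f a →
  SCost ch N (extM ch i (fun x => f x)) (C * a)

/-! ### SVel.lean -/

/-- The velocity of a symplectic path is a symplectic field. -/
def SVel : Prop := ∀ (n : ℕ) (M : Type) [TopologicalSpace M] [Nonempty M] (ι : Type)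
  (ch : ι → OpenPartialHomeomorph M (Eu (n + n))), SympAtlas ch → ∀ φ : ℝ → M → M, SFam ch φ →
  ∀ t, SympFld ch (mvel ch φ t)

/-! ### BDens.lean -/

/-- Approximation of a function with compact support by sums of translates of a bump function. -/
def BDens : Prop := ∀ (m : ℕ) (f : Eu m → ℝ) (c : Eu m) (R : ℝ), 1 ≤ m → ContDiff ℝ ∞ f →
  (∀ x, R ≤ dist x c → f x = 0) → ∀ r η : ℝ, 0 < r → 0 < η →
  ∃ (β : Eu m → ℝ) (K : ℕ) (a : Fin K → ℝ) (z : Fin K → Eu m), ContDiff ℝ ∞ β ∧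
    (∀ x, r ≤ ‖x‖ → β x = 0) ∧ (∀ k, dist (z k) c ≤ R) ∧ ∑ k, a k = ∫ x, f x ∧
    ∀ x, ‖fderiv ℝ f x - ∑ k, a k • fderiv ℝ β (x - z k)‖ ≤ η

/-! ### ApxK.lean -/

/-- Limits of sums of cheap fields. -/
structure ApxK : Prop where
  one : ∀ (n : ℕ) (M : Type) [TopologicalSpace M] (ι : Type)
    (ch : ι → OpenPartialHomeomorph M (Eu (n + n))) (Λ : ℝ) (d : CData ch Λ),
    Apx ch Λ (push ch d.i (sg (dif d.a d.g)))
  zero : ∀ (n : ℕ) (M : Type) [TopologicalSpace M] (ι : Type)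
    (ch : ι → OpenPartialHomeomorph M (Eu (n + n))) (Λ : ℝ), Apx ch Λ (fun _ _ => 0)
  add : ∀ (n : ℕ) (M : Type) [TopologicalSpace M] (ι : Type)
    (ch : ι → OpenPartialHomeomorph M (Eu (n + n))) (Λ : ℝ)
    (X Y : ι → Eu (n + n) → Eu (n + n)), Apx ch Λ X → Apx ch Λ Y →
    Apx ch Λ (fun j y => X j y + Y j y)
  smul : ∀ (n : ℕ) (M : Type) [TopologicalSpace M] (ι : Type)
    (ch : ι → OpenPartialHomeomorph M (Eu (n + n))) (Λ : ℝ)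
    (X : ι → Eu (n + n) → Eu (n + n)) (a : ℝ), Apx ch Λ X → Apx ch Λ (fun j y => a • X j y)
  lim : ∀ (n : ℕ) (M : Type) [TopologicalSpace M] (ι : Type)
    (ch : ι → OpenPartialHomeomorph M (Eu (n + n))) (Λ : ℝ)
    (X : ι → Eu (n + n) → Eu (n + n)),
    (∀ L : ι → Set (Eu (n + n)), (∀ i, IsCompact (L i) ∧ L i ⊆ (ch i).target) → ∀ η : ℝ,
      0 < η → ∃ Y : ι → Eu (n + n) → Eu (n + n), Apx ch Λ Y ∧
        ∀ j, ∀ y ∈ L j, ‖X j y - Y j y‖ ≤ η) → Apx ch Λ X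
  congr : ∀ (n : ℕ) (M : Type) [TopologicalSpace M] (ι : Type)
    (ch : ι → OpenPartialHomeomorph M (Eu (n + n))) (Λ : ℝ)
    (X Y : ι → Eu (n + n) → Eu (n + n)), Apx ch Λ X →
    (∀ j, ∀ y ∈ (ch j).target, X j y = Y j y) → Apx ch Λ Y

/-! ### LApx.lean -/

/-- Local approximation: functions with mean zero in a ball of a chart. -/
def LApx : Prop := ∀ (n : ℕ), 1 ≤ n → ∀ (M : Type) [TopologicalSpace M] [T2Space M] (ι : Type)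
  [Fintype ι] (ch : ι → OpenPartialHomeomorph M (Eu (n + n))), SympAtlas ch → ∀ Λ : ℝ, 1 ≤ Λ →
  ∀ (i : ι) (c : Eu (n + n)) (R : ℝ), 0 < R → Metric.closedBall c (2 * R) ⊆ (ch i).target →
  ∀ f : Eu (n + n) → ℝ, ContDiff ℝ ∞ f → (∀ x, R ≤ dist x c → f x = 0) → ∫ x, f x = 0 →
  Apx ch Λ (push ch i (sg f))

/-! ### GApx.lean -/

/-- Global approximation. -/
def GApx : Prop := ∀ (n : ℕ), 1 ≤ n → ∀ (M : Type) [TopologicalSpace M] [T2Space M]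
  [ConnectedSpace M]
  (ι : Type) [Fintype ι] (ch : ι → OpenPartialHomeomorph M (Eu (n + n))), SympAtlas ch →
  ∀ Λ : ℝ, 1 ≤ Λ → ∀ f : ι → Eu (n + n) → ℝ, (∀ i, TestIn (ch i).target (f i)) →
  ∑ i, ∫ x, f i x = 0 → Apx ch Λ (fun j y => ∑ i, push ch i (sg (f i)) j y)

/-! ### HamP.lean -/

/-- Decomposition of a Hamiltonian field. -/
def HamP : Prop := ∀ (n : ℕ) (M : Type) [TopologicalSpace M] [T2Space M] [CompactSpace M]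
  [Nonempty M] (ι : Type) [Fintype ι] (ch : ι → OpenPartialHomeomorph M (Eu (n + n))),
  SympAtlas ch → ∀ χ : ι → Eu (n + n) → ℝ, PartUnity ch χ →
  ∀ X : ι → Eu (n + n) → Eu (n + n), IsHam ch X → ∃ f : ι → Eu (n + n) → ℝ,
    (∀ i, TestIn (ch i).target (f i)) ∧ ∑ i, ∫ x, f i x = 0 ∧
    ∀ j, ∀ y ∈ (ch j).target, X j y = ∑ i, push ch i (sg (f i)) j y

/-! ### SMain.lean -/

/-- Paths of approximable fields have cost zero. -/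
def SMain : Prop := ∀ (n : ℕ), 1 ≤ n → ∃ Λ : ℝ, 1 ≤ Λ ∧ ∀ (M : Type) [TopologicalSpace M]
  [T2Space M] [CompactSpace M] [Nonempty M] (ι : Type) [Fintype ι]
  (ch : ι → OpenPartialHomeomorph M (Eu (n + n))), SympAtlas ch →
  ∀ (N : (ι → Eu (n + n) → Eu (n + n)) → ℝ≥0∞) (σ p : ℝ), 1 < p → 0 < σ → σ < 1 → σ < n / p →
  SWeak ch N σ p → ∀ φ : ℝ → M → M, SFam ch φ → φ 0 = id →
  (∀ t, Apx ch Λ (mvel ch φ t)) → ∀ ε : ℝ, 0 < ε → SCost ch N (φ 1) ε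

/-! ### Moll.lean -/

/-- Mollification. -/
def Moll : Prop := ∀ (m : ℕ) (τ q : ℝ), 1 ≤ m → 0 < τ → τ < 1 → 1 < q → ∃ C : ℝ, 0 ≤ C ∧
  ∀ v : Eu m → Eu m, ContDiff ℝ ∞ v → HasCompactSupport v →
  ∫⁻ x : Eu m, ∫⁻ h in Metric.ball (0 : Eu m) 1,
    ‖v (x + h) - v x‖ₑ ^ q / ‖h‖ₑ ^ ((m : ℝ) + τ * q) ≤ 1 → ∀ ρ : ℝ, 0 < ρ → ρ ≤ 1 →
  ∃ w : Eu m → Eu m, ContDiff ℝ ∞ w ∧ HasCompactSupport w ∧
    (∫⁻ x, ‖v x - w x‖ₑ ^ q) ^ (1 / q) ≤ ENNReal.ofReal (C * ρ ^ τ) ∧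
    (∫⁻ x, ‖fderiv ℝ w x‖ₑ ^ q) ^ (1 / q) ≤ ENNReal.ofReal (C * ρ ^ (τ - 1))

/-! ### Interp.lean -/

/-- The negative Sobolev norm of a Hamiltonian field. -/
def Interp : Prop := ∀ (n : ℕ) (s p σ : ℝ), 1 ≤ n → s < 0 → 1 < p → 0 < σ → σ < 1 →
  1 + s ≤ σ → ∃ C : ℝ, 0 ≤ C ∧ ∀ h : Eu (n + n) → ℝ, ContDiff ℝ ∞ h → HasCompactSupport h →
  ∀ A G μ : ℝ, Bd A G μ h → wR s p (sg h) ≤ ENNReal.ofReal (C * cst σ p A G μ)

/-! ### SWk.lean -/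

/-- The negative Sobolev norms on `M`. -/
def SWk : Prop := ∀ (n : ℕ) (M : Type) [TopologicalSpace M] [T2Space M] [CompactSpace M]
  (ι : Type) [Fintype ι] (ch : ι → OpenPartialHomeomorph M (Eu (n + n))), SympAtlas ch →
  ∀ χ : ι → Eu (n + n) → ℝ, PartUnity ch χ → ∀ s p σ : ℝ, 1 ≤ n → s < 0 → 1 < p → 0 < σ →
  σ < 1 → 1 + s ≤ σ → SWeak ch (wM χ s p) σ p

end

end SV
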